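import Pool.Graph.R_seed8.W450.RigAlg

/-!
# The representation `U ⊗ V` and the Clebsch-Gordan sequences

`(p, q) : V × V` stands for `u_s ⊗ p + u_t ⊗ q`.
-/

set_option autoImplicit false

namespace Pool.Agent.H379.NK

open W450.Rig

universe u

variable {K : Type u} [Field K]
variable {V : Type u} [AddCommGroup V] [Module K V]
variable {V' : Type u} [AddCommGroup V'] [Module K V']
variable {V'' : Type u} [AddCommGroup V''] [Module K V'']

/-! ### Shortcut instances -/

instance (priority := 5000) rgSc1 : SMul (Rg K) (B → V) := inferInstance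
instance (priority := 5000) rgSc2 : MulAction (Rg K) (B → V) := inferInstance
instance (priority := 5000) rgSc3 : SemigroupAction (Rg K) (B → V) := inferInstance
instance (priority := 5000) rgSc4 : DistribMulAction (Rg K) (B → V) := inferInstance
instance (priority := 5000) rgSc5 : DistribSMul (Rg K) (B → V) := inferInstance
instance (priority := 5000) rgSc6 : SMulZeroClass (Rg K) (B → V) := inferInstance
instance (priority := 5000) rgSc7 : Module (Rg K) (B → V) := rgModule

/-- The linear map `(p, q) ↦ (0, -p)` (action of `e` on `U`). -/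
def uE (K V : Type u) [Field K] [AddCommGroup V] [Module K V] : Module.End K (V × V) where
  toFun x := (0, - x.1)
  map_add' x y := Prod.ext (by simp) (by simp [add_comm])
  map_smul' c x := Prod.ext (by simp) (by simp)

/-- The linear map `(p, q) ↦ (- q / 2, 0)` (action of `f` on `U`). -/
def uF (K V : Type u) [Field K] [AddCommGroup V] [Module K V] : Module.End K (V × V) where
  toFun x := (-((1 / 2 : K) • x.2), 0)
  map_add' x y := Prod.ext (by simp [add_comm]) (by simp)
  map_smul' c x := Prod.ext (by simp [smul_comm c]) (by simp)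

/-- The linear map `(p, q) ↦ (p / 2, - q / 2)` (action of `h` on `U`). -/
def uH (K V : Type u) [Field K] [AddCommGroup V] [Module K V] : Module.End K (V × V) where
  toFun x := ((1 / 2 : K) • x.1, -((1 / 2 : K) • x.2))
  map_add' x y := Prod.ext (by simp) (by simp [add_comm])
  map_smul' c x := Prod.ext (by simp [smul_comm c]) (by simp [smul_comm c])

theorem uE_apply (x : V × V) : uE K V x = (0, - x.1) := rfl

theorem uF_apply (x : V × V) : uF K V x = (-((1 / 2 : K) • x.2), 0) := rfl

theorem uH_apply (x : V × V) : uH K V x = ((1 / 2 : K) • x.1, -((1 / 2 : K) • x.2)) := rfl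

/-- A map applied to both coordinates. -/
def dbl (m : V →ₗ[K] V') : (V × V) →ₗ[K] (V' × V') := m.prodMap m

theorem dbl_apply (m : V →ₗ[K] V') (x : V × V) : dbl m x = (m x.1, m x.2) := rfl

theorem SL.fe' (S : SL K V) (v : V) : S.f (S.e v) - S.e (S.f v) = S.h v :=
  LinearMap.congr_fun S.fe v

theorem SL.eh' (S : SL K V) (v : V) : S.e (S.h v) - S.h (S.e v) = S.e v :=
  LinearMap.congr_fun S.eh v

theorem SL.hf' (S : SL K V) (v : V) : S.h (S.f v) - S.f (S.h v) = S.f v :=
  LinearMap.congr_fun S.hf v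

/-- `U` acting on `U ⊗ V` (trivial action on `V`). -/
def Utriv (K V : Type u) [Field K] [CharZero K] [AddCommGroup V] [Module K V] :
    SL K (V × V) where
  e := uE K V
  f := uF K V
  h := uH K V
  fe := by
    refine LinearMap.ext fun x => Prod.ext ?_ ?_ <;>
      simp only [LinearMap.sub_apply, Module.End.mul_apply, uE_apply, uF_apply, uH_apply,
        Prod.fst_sub, Prod.snd_sub] <;> module
  eh := by
    refine LinearMap.ext fun x => Prod.ext ?_ ?_ <;>
      simp only [LinearMap.sub_apply, Module.End.mul_apply, uE_apply, uF_apply, uH_apply,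
        Prod.fst_sub, Prod.snd_sub] <;> module
  hf := by
    refine LinearMap.ext fun x => Prod.ext ?_ ?_ <;>
      simp only [LinearMap.sub_apply, Module.End.mul_apply, uE_apply, uF_apply, uH_apply,
        Prod.fst_sub, Prod.snd_sub] <;> module

/-- `V` acting on `U ⊗ V` (trivial action on `U`). -/
def SS (S : SL K V) : SL K (V × V) where
  e := dbl S.e
  f := dbl S.f
  h := dbl S.h
  fe := by
    refine LinearMap.ext fun x => Prod.ext ?_ ?_
    · exact SL.fe' S x.1
    · exact SL.fe' S x.2
  eh := by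
    refine LinearMap.ext fun x => Prod.ext ?_ ?_
    · exact SL.eh' S x.1
    · exact SL.eh' S x.2
  hf := by
    refine LinearMap.ext fun x => Prod.ext ?_ ?_
    · exact SL.hf' S x.1
    · exact SL.hf' S x.2

/-- The representation `U ⊗ V`. -/
def UV [CharZero K] (S : SL K V) : SL K (V × V) where
  e := dbl S.e + uE K V
  f := dbl S.f + uF K V
  h := dbl S.h + uH K V
  fe := by
    refine LinearMap.ext fun x => Prod.ext ?_ ?_
    · have h1 := SL.fe' S x.1
      simp only [LinearMap.sub_apply, Module.End.mul_apply, LinearMap.add_apply, uE_apply,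
        uF_apply, uH_apply, dbl_apply, Prod.fst_sub, Prod.fst_add, Prod.snd_add, map_add, map_neg,
        map_smul, map_zero]
      rw [← h1]
      module
    · have h1 := SL.fe' S x.2
      simp only [LinearMap.sub_apply, Module.End.mul_apply, LinearMap.add_apply, uE_apply,
        uF_apply, uH_apply, dbl_apply, Prod.snd_sub, Prod.fst_add, Prod.snd_add, map_add, map_neg,
        map_smul, map_zero]
      rw [← h1]
      module
  eh := by
    refine LinearMap.ext fun x => Prod.ext ?_ ?_
    · have h1 := SL.eh' S x.1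
      simp only [LinearMap.sub_apply, Module.End.mul_apply, LinearMap.add_apply, uE_apply,
        uF_apply, uH_apply, dbl_apply, Prod.fst_sub, Prod.fst_add, Prod.snd_add, map_add, map_neg,
        map_smul, map_zero]
      have h2 : S.e (S.h x.1) = S.e x.1 + S.h (S.e x.1) := sub_eq_iff_eq_add.1 h1
      rw [h2]
      module
    · have h1 := SL.eh' S x.2
      simp only [LinearMap.sub_apply, Module.End.mul_apply, LinearMap.add_apply, uE_apply,
        uF_apply, uH_apply, dbl_apply, Prod.snd_sub, Prod.fst_add, Prod.snd_add, map_add, map_neg,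
        map_smul, map_zero]
      have h2 : S.e (S.h x.2) = S.e x.2 + S.h (S.e x.2) := sub_eq_iff_eq_add.1 h1
      rw [h2]
      module
  hf := by
    refine LinearMap.ext fun x => Prod.ext ?_ ?_
    · have h1 := SL.hf' S x.1
      simp only [LinearMap.sub_apply, Module.End.mul_apply, LinearMap.add_apply, uE_apply,
        uF_apply, uH_apply, dbl_apply, Prod.fst_sub, Prod.fst_add, Prod.snd_add, map_add, map_neg,
        map_smul, map_zero]
      have h2 : S.h (S.f x.1) = S.f x.1 + S.f (S.h x.1) := sub_eq_iff_eq_add.1 h1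
      rw [h2]
      module
    · have h1 := SL.hf' S x.2
      simp only [LinearMap.sub_apply, Module.End.mul_apply, LinearMap.add_apply, uE_apply,
        uF_apply, uH_apply, dbl_apply, Prod.snd_sub, Prod.fst_add, Prod.snd_add, map_add, map_neg,
        map_smul, map_zero]
      have h2 : S.h (S.f x.2) = S.f x.2 + S.f (S.h x.2) := sub_eq_iff_eq_add.1 h1
      rw [h2]
      module

/-- Equivariant maps. -/
structure Eqv (S : SL K V) (S' : SL K V') (m : V →ₗ[K] V') : Prop where
  e : ∀ v, m (S.e v) = S'.e (m v)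
  f : ∀ v, m (S.f v) = S'.f (m v)
  h : ∀ v, m (S.h v) = S'.h (m v)

/-- `d/dt`. -/
def dt (K : Type u) [Field K] (n : ℕ) : (Fin (n + 1 + 1) → K) →ₗ[K] (Fin (n + 1) → K) where
  toFun x := fun i => (((i : ℕ) : K) + 1) * x i.succ
  map_add' x y := by funext i; simp [mul_add]
  map_smul' c x := by funext i; simp [mul_left_comm]

/-- `d/ds`. -/
def ds (K : Type u) [Field K] (n : ℕ) : (Fin (n + 1 + 1) → K) →ₗ[K] (Fin (n + 1) → K) where
  toFun x := fun i => ((n : K) + 1 - ((i : ℕ) : K)) * x i.castSucc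
  map_add' x y := by funext i; simp [mul_add]
  map_smul' c x := by funext i; simp [mul_left_comm]

/-- `V_{n+1} → U ⊗ V_n`. -/
def iot (K : Type u) [Field K] (n : ℕ) :
    (Fin (n + 1 + 1) → K) →ₗ[K] (Fin (n + 1) → K) × (Fin (n + 1) → K) :=
  (dt K n).prod (-(ds K n))

/-- `U ⊗ V_{n+1} → V_n`. -/
def kap (K : Type u) [Field K] (n : ℕ) :
    (Fin (n + 1 + 1) → K) × (Fin (n + 1 + 1) → K) →ₗ[K] (Fin (n + 1) → K) :=
  (ds K n).coprod (dt K n)

theorem iot_apply (n : ℕ) (x : Fin (n + 1 + 1) → K) : iot K n x = (dt K n x, -(ds K n x)) := rfl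

theorem kap_apply (n : ℕ) (x : (Fin (n + 1 + 1) → K) × (Fin (n + 1 + 1) → K)) :
    kap K n x = ds K n x.1 + dt K n x.2 := rfl

section coords

/-- Coordinates, extended by zero. -/
def xt {n : ℕ} (x : Fin (n + 1) → K) (j : ℕ) : K := if h : j < n + 1 then x ⟨j, h⟩ else 0

theorem xt_val {n : ℕ} (x : Fin (n + 1) → K) (i : Fin (n + 1)) : xt x (i : ℕ) = x i := by
  unfold xt
  rw [dif_pos i.isLt]

theorem xt_big {n : ℕ} (x : Fin (n + 1) → K) {j : ℕ} (h : ¬ j < n + 1) : xt x j = 0 := dif_neg h

theorem xt_ext {n : ℕ} {x y : Fin (n + 1) → K} (h : ∀ j, xt x j = xt y j) : x = y := by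
  funext i
  rw [← xt_val x i, ← xt_val y i, h]

theorem xt_add {n : ℕ} (x y : Fin (n + 1) → K) (j : ℕ) : xt (x + y) j = xt x j + xt y j := by
  unfold xt
  split_ifs <;> simp

theorem xt_sub {n : ℕ} (x y : Fin (n + 1) → K) (j : ℕ) : xt (x - y) j = xt x j - xt y j := by
  unfold xt
  split_ifs <;> simp

theorem xt_neg {n : ℕ} (x : Fin (n + 1) → K) (j : ℕ) : xt (-x) j = - xt x j := by
  unfold xt
  split_ifs <;> simp

theorem xt_smul {n : ℕ} (c : K) (x : Fin (n + 1) → K) (j : ℕ) : xt (c • x) j = c * xt x j := by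
  unfold xt
  split_ifs <;> simp

theorem xt_zero {n : ℕ} (j : ℕ) : xt (0 : Fin (n + 1) → K) j = 0 := by
  unfold xt
  split_ifs <;> simp

theorem xt_dt {n : ℕ} (x : Fin (n + 1 + 1) → K) (j : ℕ) :
    xt (dt K n x) j = ((j : K) + 1) * xt x (j + 1) := by
  unfold xt
  by_cases h : j < n + 1
  · rw [dif_pos h, dif_pos (by omega)]
    rfl
  · rw [dif_neg h, dif_neg (by omega), mul_zero]

theorem xt_ds {n : ℕ} (x : Fin (n + 1 + 1) → K) (j : ℕ) :
    xt (ds K n x) j = ((n : K) + 1 - (j : K)) * xt x j := by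
  unfold xt
  by_cases h : j < n + 1
  · rw [dif_pos h, dif_pos (by omega)]
    rfl
  · rw [dif_neg h]
    by_cases h' : j < n + 1 + 1
    · have : j = n + 1 := by omega
      subst this
      push_cast
      rw [sub_self, zero_mul]
    · rw [dif_neg h', mul_zero]

variable [CharZero K]

theorem xt_e {n : ℕ} (x : Fin (n + 1) → K) (j : ℕ) :
    xt ((irr K n).e x) j = ((j : K) + 1) * xt x (j + 1) := by
  by_cases h : j < n + 1
  · unfold xt
    rw [dif_pos h]
    have h1 : (irr K n).e x = (irrE K n).mulVec x := rfl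
    rw [h1, irrE_apply]
    by_cases h2 : j + 1 < n + 1
    · rw [dif_pos h2, dif_pos h2]
    · rw [dif_neg h2, dif_neg h2, mul_zero]
  · rw [xt_big _ h, xt_big _ (by omega), mul_zero]

theorem xt_f0 {n : ℕ} (x : Fin (n + 1) → K) : xt ((irr K n).f x) 0 = 0 := by
  unfold xt
  rw [dif_pos (by omega)]
  have h1 : (irr K n).f x = (irrF K n).mulVec x := rfl
  rw [h1, irrF_apply, dif_neg (by simp)]

theorem xt_fs {n : ℕ} (x : Fin (n + 1) → K) (j : ℕ) :
    xt ((irr K n).f x) (j + 1) = ((n : K) - (j : K)) / 2 * xt x j := by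
  by_cases h : j + 1 < n + 1
  · unfold xt
    rw [dif_pos h, dif_pos (by omega)]
    have h1 : (irr K n).f x = (irrF K n).mulVec x := rfl
    rw [h1, irrF_apply, dif_pos (Nat.succ_pos j)]
    simp only [Nat.add_sub_cancel]
    push_cast
    ring
  · rw [xt_big _ h]
    by_cases h' : j < n + 1
    · have : j = n := by omega
      subst this
      rw [sub_self, zero_div, zero_mul]
    · rw [xt_big _ h', mul_zero]

theorem xt_h {n : ℕ} (x : Fin (n + 1) → K) (j : ℕ) :
    xt ((irr K n).h x) j = ((j : K) - (n : K) / 2) * xt x j := by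
  by_cases h : j < n + 1
  · unfold xt
    rw [dif_pos h, dif_pos h]
    have h1 : (irr K n).h x = (irrH K n).mulVec x := rfl
    rw [h1, irrH_apply]
  · rw [xt_big _ h, xt_big _ h, mul_zero]

end coords

section main

variable [CharZero K]

theorem iot_eqv (n : ℕ) : Eqv (irr K (n + 1)) (UV (irr K n)) (iot K n) := by
  refine ⟨fun v => ?_, fun v => ?_, fun v => ?_⟩
  · refine Prod.ext (xt_ext fun j => ?_) (xt_ext fun j => ?_)
    · change xt (dt K n ((irr K (n + 1)).e v)) j = xt ((irr K n).e (dt K n v) + 0) j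
      rw [add_zero, xt_dt, xt_e, xt_e, xt_dt]
    · change xt (-(ds K n ((irr K (n + 1)).e v))) j = xt ((irr K n).e (-(ds K n v)) + -(dt K n v)) j
      rw [map_neg, xt_neg, xt_add, xt_neg, xt_neg, xt_ds, xt_e, xt_e, xt_ds, xt_dt]
      push_cast
      ring
  · refine Prod.ext (xt_ext fun j => ?_) (xt_ext fun j => ?_)
    · change xt (dt K n ((irr K (n + 1)).f v)) j =
        xt ((irr K n).f (dt K n v) + -((1 / 2 : K) • (-(ds K n v)))) j
      rw [xt_add, xt_neg, xt_smul, xt_neg, xt_dt, xt_fs, xt_ds]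
      rcases j with _ | j
      · rw [xt_f0]
        push_cast
        ring
      · rw [xt_fs, xt_dt]
        push_cast
        ring
    · change xt (-(ds K n ((irr K (n + 1)).f v))) j = xt ((irr K n).f (-(ds K n v)) + 0) j
      rw [add_zero, map_neg, xt_neg, xt_neg, xt_ds]
      rcases j with _ | j
      · rw [xt_f0, xt_f0]
        ring
      · rw [xt_fs, xt_fs, xt_ds]
        push_cast
        ring
  · refine Prod.ext (xt_ext fun j => ?_) (xt_ext fun j => ?_)
    · change xt (dt K n ((irr K (n + 1)).h v)) j =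
        xt ((irr K n).h (dt K n v) + (1 / 2 : K) • (dt K n v)) j
      rw [xt_add, xt_smul, xt_dt, xt_h, xt_h, xt_dt]
      push_cast
      ring
    · change xt (-(ds K n ((irr K (n + 1)).h v))) j =
        xt ((irr K n).h (-(ds K n v)) + -((1 / 2 : K) • (-(ds K n v)))) j
      rw [map_neg, xt_add, xt_neg, xt_neg, xt_neg, xt_smul, xt_neg, xt_ds, xt_h, xt_h, xt_ds]
      push_cast
      ring

theorem kap_eqv (n : ℕ) : Eqv (UV (irr K (n + 1))) (irr K n) (kap K n) := by
  refine ⟨fun v => ?_, fun v => ?_, fun v => ?_⟩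
  · refine xt_ext fun j => ?_
    change xt (ds K n ((irr K (n + 1)).e v.1 + 0) + dt K n ((irr K (n + 1)).e v.2 + -v.1)) j =
      xt ((irr K n).e (ds K n v.1 + dt K n v.2)) j
    rw [add_zero, xt_add, xt_ds, xt_dt, xt_e, xt_add, xt_neg, xt_e, xt_e, xt_add, xt_ds, xt_dt]
    push_cast
    ring
  · refine xt_ext fun j => ?_
    change xt (ds K n ((irr K (n + 1)).f v.1 + -((1 / 2 : K) • v.2)) +
      dt K n ((irr K (n + 1)).f v.2 + 0)) j = xt ((irr K n).f (ds K n v.1 + dt K n v.2)) j
    rw [add_zero, xt_add, xt_ds, xt_dt, xt_add, xt_neg, xt_smul, xt_fs]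
    rcases j with _ | j
    · rw [xt_f0, xt_f0]
      push_cast
      ring
    · rw [xt_fs, xt_fs, xt_add, xt_ds, xt_dt]
      push_cast
      ring
  · refine xt_ext fun j => ?_
    change xt (ds K n ((irr K (n + 1)).h v.1 + (1 / 2 : K) • v.1) +
      dt K n ((irr K (n + 1)).h v.2 + -((1 / 2 : K) • v.2))) j =
      xt ((irr K n).h (ds K n v.1 + dt K n v.2)) j
    rw [xt_add, xt_ds, xt_dt, xt_add, xt_add, xt_neg, xt_smul, xt_smul, xt_h, xt_h, xt_h, xt_add,
      xt_ds, xt_dt]
    push_cast
    ring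

theorem iot_inj (n : ℕ) : Function.Injective (iot K n) := by
  rw [injective_iff_map_eq_zero]
  intro x hx
  have h1 : dt K n x = 0 := congrArg Prod.fst hx
  have h2 : -(ds K n x) = 0 := congrArg Prod.snd hx
  refine xt_ext fun j => ?_
  rw [xt_zero]
  rcases j with _ | j
  · have h3 : xt (-(ds K n x)) 0 = 0 := by rw [h2, xt_zero]
    rw [xt_neg, xt_ds, neg_eq_zero] at h3
    push_cast at h3
    rw [sub_zero] at h3
    exact (mul_eq_zero.1 h3).resolve_left (by exact_mod_cast Nat.succ_ne_zero n)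
  · have h3 : xt (dt K n x) j = 0 := by rw [h1, xt_zero]
    rw [xt_dt] at h3
    exact (mul_eq_zero.1 h3).resolve_left (by exact_mod_cast Nat.succ_ne_zero j)

theorem kap_surj (n : ℕ) : Function.Surjective (kap K n) := by
  intro z
  refine ⟨(0, Fin.cons 0 fun i : Fin (n + 1) => z i / (((i : ℕ) : K) + 1)), ?_⟩
  rw [kap_apply, map_zero, zero_add]
  funext i
  change (((i : ℕ) : K) + 1) * (Fin.cons 0 (fun i : Fin (n + 1) => z i / (((i : ℕ) : K) + 1)) :
    Fin (n + 1 + 1) → K) i.succ = z i
  rw [Fin.cons_succ]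
  have : (((i : ℕ) : K) + 1) ≠ 0 := by exact_mod_cast Nat.succ_ne_zero (i : ℕ)
  field_simp

theorem kap_iot (n : ℕ) (x : Fin (n + 1 + 1 + 1) → K) : kap K n (iot K (n + 1) x) = 0 := by
  refine xt_ext fun j => ?_
  rw [iot_apply, kap_apply, xt_add, xt_ds, xt_dt, xt_dt, xt_neg, xt_ds, xt_zero]
  push_cast
  ring

theorem kap_ker (n : ℕ) (x : (Fin (n + 1 + 1) → K) × (Fin (n + 1 + 1) → K)) (h : kap K n x = 0) :
    ∃ y, iot K (n + 1) y = x := by
  have hj : ∀ j, ((n : K) + 1 - j) * xt x.1 j + ((j : K) + 1) * xt x.2 (j + 1) = 0 := by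
    intro j
    have h1 : xt (kap K n x) j = 0 := by rw [h, xt_zero]
    rwa [kap_apply, xt_add, xt_ds, xt_dt] at h1
  set y : Fin (n + 1 + 1 + 1) → K := Fin.cons (-(x.2 0) / ((n : K) + 2))
    (fun i : Fin (n + 1 + 1) => x.1 i / (((i : ℕ) : K) + 1)) with hy
  have hy0 : xt y 0 = -(xt x.2 0) / ((n : K) + 2) := by
    have e1 : xt y 0 = y 0 := xt_val y 0
    have e2 : xt x.2 0 = x.2 0 := xt_val x.2 0
    rw [e1, e2, hy, Fin.cons_zero]
  have hys : ∀ j, xt y (j + 1) = xt x.1 j / ((j : K) + 1) := by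
    intro j
    by_cases hjn : j < n + 2
    · unfold xt
      rw [dif_pos (by omega), dif_pos hjn]
      have e1 : (⟨j + 1, by omega⟩ : Fin (n + 1 + 1 + 1)) = Fin.succ ⟨j, hjn⟩ := rfl
      rw [e1, hy, Fin.cons_succ]
    · rw [xt_big _ (by omega), xt_big _ (by omega), zero_div]
  refine ⟨y, ?_⟩
  rw [iot_apply]
  refine Prod.ext (xt_ext fun j => ?_) (xt_ext fun j => ?_)
  · change xt (dt K (n + 1) y) j = xt x.1 j
    rw [xt_dt, hys]
    have : ((j : K) + 1) ≠ 0 := by exact_mod_cast Nat.succ_ne_zero j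
    field_simp
  · change xt (-(ds K (n + 1) y)) j = xt x.2 j
    rw [xt_neg, xt_ds]
    rcases j with _ | j
    · rw [hy0]
      have : ((n : K) + 2) ≠ 0 := by exact_mod_cast Nat.succ_ne_zero (n + 1)
      push_cast
      field_simp
      ring
    · rw [hys]
      have h1 := hj j
      have : ((j : K) + 1) ≠ 0 := by exact_mod_cast Nat.succ_ne_zero j
      have h2 : xt x.2 (j + 1) = -(((n : K) + 1 - j) * xt x.1 j) / ((j : K) + 1) := by
        rw [eq_div_iff this]
        linear_combination h1
      rw [h2]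
      push_cast
      field_simp
      ring

theorem iot_zero_surj : Function.Surjective (iot K 0) := by
  intro x
  refine ⟨Fin.cons (-(x.2 0)) (fun _ => x.1 0), ?_⟩
  rw [iot_apply]
  refine Prod.ext ?_ ?_
  · funext i
    have hi : i = 0 := Fin.ext (by have := i.isLt; omega)
    subst hi
    change ((((0 : Fin 1) : ℕ) : K) + 1) * (Fin.cons (-(x.2 0)) (fun _ => x.1 0) : Fin 2 → K)
      (Fin.succ 0) = x.1 0
    rw [Fin.cons_succ]
    simp
  · funext i
    have hi : i = 0 := Fin.ext (by have := i.isLt; omega)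
    subst hi
    change -((((0 : ℕ) : K) + 1 - (((0 : Fin 1) : ℕ) : K)) *
      (Fin.cons (-(x.2 0)) (fun _ => x.1 0) : Fin 2 → K) (Fin.castSucc 0)) = x.2 0
    rw [Fin.castSucc_zero, Fin.cons_zero]
    simp

/-- No invariants in `Hom(V_{n+1}, V_0)`. -/
theorem no_inv (n : ℕ) (m : (Fin (n + 1 + 1) → K) →ₗ[K] (Fin (0 + 1) → K))
    (he : adj (irr K (n + 1)).e (irr K 0).e m = 0) (hf : adj (irr K (n + 1)).f (irr K 0).f m = 0)
    (hh : adj (irr K (n + 1)).h (irr K 0).h m = 0) : m = 0 := by
  have he1 : ∀ x, m ((irr K (n + 1)).e x) = 0 := by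
    intro x
    have h1 := LinearMap.congr_fun he x
    rw [adj_apply] at h1
    simp only [LinearMap.sub_apply, LinearMap.comp_apply, LinearMap.zero_apply] at h1
    have h2 : (irr K 0).e (m x) = 0 := by
      refine xt_ext fun j => ?_
      rw [xt_e, xt_big _ (by omega), mul_zero, xt_zero]
    rw [h2, zero_sub, neg_eq_zero] at h1
    exact h1
  have hf1 : ∀ x, m ((irr K (n + 1)).f x) = 0 := by
    intro x
    have h1 := LinearMap.congr_fun hf x
    rw [adj_apply] at h1
    simp only [LinearMap.sub_apply, LinearMap.comp_apply, LinearMap.zero_apply] at h1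
    have h2 : (irr K 0).f (m x) = 0 := by
      refine xt_ext fun j => ?_
      rcases j with _ | j
      · rw [xt_f0, xt_zero]
      · rw [xt_big _ (by omega), xt_zero]
    rw [h2, zero_sub, neg_eq_zero] at h1
    exact h1
  refine LinearMap.ext fun x => ?_
  rw [LinearMap.zero_apply]
  set z : Fin (n + 1 + 1) → K := fun _ => 2 * xt x (n + 1) with hz
  set w := x - (irr K (n + 1)).f z with hw
  have hwl : xt w (n + 1) = 0 := by
    rw [hw, xt_sub, xt_fs]
    have e1 : xt z n = 2 * xt x (n + 1) := by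
      have h0 : n < n + 1 + 1 := by omega
      exact dif_pos h0
    rw [e1]
    push_cast
    ring
  set y : Fin (n + 1 + 1) → K := Fin.cons 0 fun i : Fin (n + 1) => w i.castSucc / (((i : ℕ) : K) + 1)
    with hy
  have hwe : w = (irr K (n + 1)).e y := by
    refine xt_ext fun j => ?_
    rw [xt_e]
    by_cases hj : j < n + 1
    · have e1 : xt y (j + 1) = xt w j / ((j : K) + 1) := by
        unfold xt
        rw [dif_pos (by omega), dif_pos (by omega)]
        have e2 : (⟨j + 1, by omega⟩ : Fin (n + 1 + 1)) = Fin.succ ⟨j, hj⟩ := rfl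
        rw [e2, hy, Fin.cons_succ]
        rfl
      rw [e1]
      have : ((j : K) + 1) ≠ 0 := by exact_mod_cast Nat.succ_ne_zero j
      field_simp
    · rw [xt_big y (by omega), mul_zero]
      by_cases hj2 : j = n + 1
      · rw [hj2, hwl]
      · exact xt_big _ (by omega)
  have hx : x = (irr K (n + 1)).e y + (irr K (n + 1)).f z := by rw [← hwe, hw]; abel
  rw [hx, map_add, he1, hf1, add_zero]

end main

end Pool.Agent.H379.NK
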