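import Pool.Agent.H379.NK.Ids3
import Pool.Agent.H379.NK.Rep
import Pool.Graph.R_seed8.W450.RigHom

/-!
# The bimodule `M = (B → K × K)` over the algebra `R = Rg K`
-/

set_option autoImplicit false
set_option linter.unusedSectionVars false

namespace Pool.Agent.H379.NK

open W450.Rig

universe u

variable {K : Type u} [Field K]
variable {V : Type u} [AddCommGroup V] [Module K V]
variable {V' : Type u} [AddCommGroup V'] [Module K V']

/-! ### Generators of the algebra -/

/-- The zero representation. -/
def zSL (K V : Type u) [Field K] [AddCommGroup V] [Module K V] : SL K V where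
  e := 0
  f := 0
  h := 0
  fe := by simp
  eh := by simp
  hf := by simp

/-- Generators of the algebra. -/
def gen (K : Type u) [Field K] (n : Fin 13) : Rg K :=
  mkR K (tmat K (13 + n)) (tmat_mem (13 + n) (by omega) (by have := n.isLt; omega))

theorem gen_smul (n : Fin 13) (x : B → V) :
    gen K n • x = (tact (tmat K (13 + n)) : Module.End K (B → V)) x := rfl

theorem gen_ones_chk : ((List.range 13).all fun n =>
    zchk (nfF ((Ex.tab (13 + n) - Ex.tab n).row onesF))) = true := by decide +kernel

theorem gen_oneV (n : Fin 13) (v : V) :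
    gen K n • (oneV v : B → V) = (tact (tmat K n) : Module.End K (B → V)) (oneV v) := by
  have h := gen_ones_chk
  rw [List.all_eq_true] at h
  have h1 := h n (List.mem_range.2 n.isLt)
  have h2 := (zSL K V).val_eq_zero _ h1 v
  rw [(zSL K V).nfF_sound, ← (zSL K V).ev_val, (zSL K V).val_ones, (zSL K V).ev_sub,
    LinearMap.sub_apply] at h2
  exact sub_eq_zero.1 h2

/-- Right multiplications commute with left ones. -/
theorem tab_rsmul (n : ℕ) (hn : n < 13) (r : Rg K) (x : B → V) :
    (tact (tmat K n) : Module.End K (B → V)) (r • x) =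
      r • (tact (tmat K n) : Module.End K (B → V)) x := by
  have h1 := phi_comm K r n hn
  have h2 := congrArg (fun M => (tact M : Module.End K (B → V)) x) h1
  simp only [tact_mul, Module.End.mul_apply] at h2
  exact h2.symm

theorem sum_lam' (x : B → V) : ∑ b, lam K b • (oneV (x b) : B → V) = x := sum_lam (zSL K V) x

theorem lam_oneV' (b : B) (v : V) : lam K b • (oneV v : B → V) = Pi.single b v :=
  lam_oneV (zSL K V) b v

/-- Matrix coefficients of left multiplication. -/
theorem mul_lam (r : Rg K) (c : B) : r * lam K c = ∑ b, phi K r b c • lam K b := by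
  apply smul_oneV_inj
  rw [mul_smul, lam_oneV', Finset.sum_smul]
  funext i
  rw [rg_smul, tact_single, Finset.sum_apply, Finset.sum_eq_single i]
  · rw [smul_assoc, lam_oneV']
    simp
  · intro b _ hb
    rw [smul_assoc, lam_oneV']
    simp [hb.symm]
  · simp

theorem sum_ones : ∑ b : B, (oneV (1 : K) b) • lam K b = 1 := by
  apply smul_oneV_inj
  rw [one_smul, Finset.sum_smul]
  funext i
  rw [Finset.sum_apply, Finset.sum_eq_single i]
  · rw [smul_assoc, lam_oneV']
    simp
  · intro b _ hb
    rw [smul_assoc, lam_oneV']
    simp [hb.symm]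
  · simp

theorem oneV_smul (v : V) (b : B) : (oneV v : B → V) b = (oneV (1 : K) b) • v := by
  unfold oneV
  split_ifs <;> simp

/-! ### Extension of linear maps -/

section ext

variable {N : Type u} [AddCommGroup N] [Module K N] [Module (Rg K) N] [IsScalarTower K (Rg K) N]

/-- The extension of a `K`-linear map to an `R`-linear map. -/
def extR (g : V →ₗ[K] N) : (B → V) →ₗ[Rg K] N where
  toFun x := ∑ b, lam K b • g (x b)
  map_add' x y := by
    simp only [Pi.add_apply, map_add, smul_add, Finset.sum_add_distrib]
  map_smul' r x := by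
    rw [RingHom.id_apply, Finset.smul_sum]
    have h1 : ∀ c, r • lam K c • g (x c) = ∑ b, (phi K r b c • lam K b) • g (x c) := by
      intro c
      rw [← mul_smul, mul_lam, Finset.sum_smul]
    simp_rw [h1]
    rw [Finset.sum_comm]
    refine Finset.sum_congr rfl fun b _ => ?_
    rw [rg_smul, tact_apply, map_sum, Finset.smul_sum]
    refine Finset.sum_congr rfl fun c _ => ?_
    rw [map_smul, smul_assoc, smul_comm]

theorem extR_apply (g : V →ₗ[K] N) (x : B → V) : extR g x = ∑ b, lam K b • g (x b) := rfl

theorem extR_oneV (g : V →ₗ[K] N) (v : V) : extR g (oneV v) = g v := by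
  rw [extR_apply]
  have h1 : ∀ b, lam K b • g ((oneV v : B → V) b) = ((oneV (1 : K) b) • lam K b) • g v := by
    intro b
    rw [oneV_smul (K := K), map_smul, smul_assoc, smul_comm]
  simp_rw [h1]
  rw [← Finset.sum_smul, sum_ones, one_smul]

theorem lin_ext {g h : (B → V) →ₗ[Rg K] N} (H : ∀ v, g (oneV v) = h (oneV v)) : g = h := by
  refine LinearMap.ext fun x => ?_
  rw [← sum_lam' (K := K) x, map_sum, map_sum]
  refine Finset.sum_congr rfl fun b _ => ?_
  rw [map_smul, map_smul, H]

end ext

/-- `K`-linear map `v ↦ oneV v`. -/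
def oneL (K V : Type u) [Field K] [AddCommGroup V] [Module K V] : V →ₗ[K] (B → V) where
  toFun v := oneV v
  map_add' v w := by
    funext i
    simp only [oneV, Pi.add_apply]
    split_ifs <;> simp
  map_smul' c v := by
    funext i
    simp only [oneV, Pi.smul_apply, RingHom.id_apply]
    split_ifs <;> simp

end Pool.Agent.H379.NK
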