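import Pool.Agent.H379.NK.Bim

/-!
# The right action on `M = (B → K × K)`
-/

set_option autoImplicit false
set_option linter.unusedSectionVars false

namespace Pool.Agent.H379.NK

open W450.Rig

universe u

variable {K : Type u} [Field K] [CharZero K]
variable {V : Type u} [AddCommGroup V] [Module K V]

/-- The twisting operator (same as in `Eta`). -/
def Phi' (K V : Type u) [Field K] [CharZero K] [AddCommGroup V] [Module K V] :
    Module.End K (B → V × V) := ev2 (Utriv K V) DX.Phi

theorem phi_tab (n : ℕ) (hn : n < 13) (x : B → V × V) :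
    Phi' K V (tact (tmat K n) x) = ev2 (Utriv K V) (twR n) (Phi' K V x) := by
  have h := phi_R
  rw [List.all_eq_true] at h
  have h1 := opEq2 (Utriv K V) (h n (List.mem_range.2 hn)) x
  rw [ev2_mul, ev2_mul, Module.End.mul_apply, Module.End.mul_apply] at h1
  rw [← tmat2_lt (K := K) n (by omega)]
  exact h1

theorem phi_oneV (u : V × V) : Phi' K V (oneV u) = oneV u := by
  have h := phi_ones
  have h2 := (Utriv K V).val_eq_zero _ h u
  rw [(Utriv K V).nfF_sound, (Utriv K V).val_append, ← ev2_val, ← ev2_val,
    (Utriv K V).val_ones] at h2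
  have h3 : ev2 (Utriv K V) (Ex.smul (-1) 1) (oneV u) = - (oneV u : B → V × V) := by
    show (-1 : ℤ) • ev2 (Utriv K V) 1 (oneV u) = _
    rw [neg_one_zsmul]
    rfl
  rw [h3, ← sub_eq_add_neg] at h2
  exact sub_eq_zero.1 h2

theorem twR_rt (n : Fin 13) : (twR n).rt = true := by
  revert n
  decide +kernel

theorem twR_lib (n : Fin 13) : lib (twR n) = true := by
  revert n
  decide +kernel

/-- The twisted right multiplications are linear over the algebra. -/
theorem twR_rsmul (n : Fin 13) (r : Rg K) (x : B → V × V) :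
    ev2 (Utriv K V) (twR n) (r • x) = r • ev2 (Utriv K V) (twR n) x := by
  rw [ev2_lib _ _ (twR_lib n)]
  exact (Utriv K V).ev_rsmul _ (twR_rt n) r x

/-- The bimodule. -/
def MB (K : Type u) : Type u := B → K × K

namespace MB

instance : AddCommGroup (MB K) := inferInstanceAs (AddCommGroup (B → K × K))
instance : Module K (MB K) := inferInstanceAs (Module K (B → K × K))
instance : Module (Rg K) (MB K) := inferInstanceAs (Module (Rg K) (B → K × K))
instance : IsScalarTower K (Rg K) (MB K) := inferInstanceAs (IsScalarTower K (Rg K) (B → K × K))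
instance : Module.Finite K (MB K) := inferInstanceAs (Module.Finite K (B → K × K))

end MB

/-- The map `u ↦ Φ (r ⊗ u)`. -/
def rhoU (r : Rg K) : K × K →ₗ[K] (B → K × K) := Phi' K K ∘ₗ tact (phi K r) ∘ₗ oneL K (K × K)

theorem rhoU_apply (r : Rg K) (u : K × K) : rhoU r u = Phi' K K (r • oneV u) := rfl

/-- The right action. -/
def rho (r : Rg K) : (B → K × K) →ₗ[Rg K] (B → K × K) := extR (rhoU r)

theorem rho_oneV (r : Rg K) (u : K × K) : rho r (oneV u) = Phi' K K (r • oneV u) :=
  extR_oneV (rhoU r) u

theorem rho_one : rho (1 : Rg K) = LinearMap.id := by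
  refine lin_ext fun u => ?_
  rw [rho_oneV, one_smul, phi_oneV]
  rfl

theorem rhoU_add (r s : Rg K) : rhoU (r + s) = rhoU r + rhoU s := by
  refine LinearMap.ext fun u => ?_
  rw [LinearMap.add_apply, rhoU_apply, rhoU_apply, rhoU_apply, add_smul, map_add]

theorem rhoU_smul (c : K) (r : Rg K) : rhoU (c • r) = c • rhoU r := by
  refine LinearMap.ext fun u => ?_
  rw [LinearMap.smul_apply, rhoU_apply, rhoU_apply, smul_assoc, map_smul]

theorem rho_add (r s : Rg K) (x : B → K × K) : rho (r + s) x = rho r x + rho s x := by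
  rw [rho, rho, rho, extR_apply, extR_apply, extR_apply, rhoU_add, ← Finset.sum_add_distrib]
  refine Finset.sum_congr rfl fun b _ => ?_
  rw [LinearMap.add_apply, smul_add]

theorem rho_smul (c : K) (r : Rg K) (x : B → K × K) : rho (c • r) x = c • rho r x := by
  rw [rho, rho, extR_apply, extR_apply, rhoU_smul, Finset.smul_sum]
  refine Finset.sum_congr rfl fun b _ => ?_
  rw [LinearMap.smul_apply, smul_comm]

/-- `rho` of a generator. -/
theorem rho_gen (n : Fin 13) (x : B → K × K) :
    rho (gen K n) x = ev2 (Utriv K K) (twR n) x := by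
  let g : (B → K × K) →ₗ[Rg K] (B → K × K) :=
    { toFun := ev2 (Utriv K K) (twR n), map_add' := map_add _, map_smul' := twR_rsmul n }
  have h : rho (gen K n) = g := by
    refine lin_ext fun u => ?_
    rw [rho_oneV, gen_oneV, phi_tab n n.isLt, phi_oneV]
    rfl
  rw [h]
  rfl

theorem rho_mul_gen (r : Rg K) (n : Fin 13) :
    rho (r * gen K n) = rho (gen K n) ∘ₗ rho r := by
  refine lin_ext fun u => ?_
  rw [LinearMap.comp_apply, rho_oneV, rho_oneV, mul_smul, gen_oneV, ← tab_rsmul n n.isLt,
    phi_tab n n.isLt, rho_gen]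

/-- `s` is multiplicative. -/
def RP (s : Rg K) : Prop := ∀ r, rho (r * s) = rho s ∘ₗ rho r

theorem RP_one : RP (1 : Rg K) := fun r => by
  rw [mul_one, rho_one]; rfl

theorem RP_mul {s t : Rg K} (hs : RP s) (ht : RP t) : RP (s * t) := fun r => by
  rw [← mul_assoc, ht, hs, ht s]; rfl

theorem RP_add {s t : Rg K} (hs : RP s) (ht : RP t) : RP (s + t) := fun r => by
  refine LinearMap.ext fun x => ?_
  rw [mul_add, rho_add, LinearMap.comp_apply, rho_add, hs, ht]; rfl

theorem RP_smul (c : K) {s : Rg K} (hs : RP s) : RP (c • s) := fun r => by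
  refine LinearMap.ext fun x => ?_
  rw [mul_smul_comm, rho_smul, LinearMap.comp_apply, rho_smul, hs]; rfl

theorem RP_zero : RP (0 : Rg K) := by
  have := RP_smul 0 (RP_one (K := K))
  rwa [zero_smul] at this

theorem word_RP (w : List ℕ) (h : w.all (fun n => Nat.ble 13 n && Nat.blt n 26) = true) :
    RP (mkR K (wmat K w) (wmat_mem w h)) := by
  induction w with
  | nil => exact RP_one
  | cons n w ih =>
    have h' := h
    simp only [List.all_cons, Bool.and_eq_true] at h'
    have h1 : 13 ≤ n := Nat.le_of_ble_eq_true h'.1.1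
    have h2 : n < 26 := by simpa using h'.1.2
    have e : mkR K (wmat K (n :: w)) (wmat_mem (n :: w) h) =
        gen K ⟨n - 13, by omega⟩ * mkR K (wmat K w) (wmat_mem w h'.2) := by
      apply phi_inj
      rw [map_mul, phi_mkR, phi_mkR]
      show tmat K n * wmat K w = tmat K (13 + (n - 13)) * _
      rw [show 13 + (n - 13) = n by omega]
    rw [e]
    exact RP_mul (fun r => rho_mul_gen r _) (ih h'.2)

theorem lam_RP (b : B) : RP (lam K b) :=
  word_RP (lwords.getD b []) (word_ones (trivSL K) lwords_chk b 1).1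

theorem rg_sum (r : Rg K) : r = ∑ b, (r • (oneV 1 : B → K)) b • lam K b := by
  apply smul_oneV_inj
  rw [Finset.sum_smul]
  funext i
  rw [Finset.sum_apply, Finset.sum_eq_single i]
  · rw [smul_assoc, lam_oneV']
    simp
  · intro b _ hb
    rw [smul_assoc, lam_oneV']
    simp [hb.symm]
  · simp

theorem all_RP (s : Rg K) : RP s := by
  rw [rg_sum s]
  refine Finset.sum_induction _ RP (fun _ _ => RP_add) RP_zero fun b _ => ?_
  exact RP_smul _ (lam_RP b)

theorem rho_mul (r s : Rg K) (x : B → K × K) : rho (r * s) x = rho s (rho r x) := by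
  rw [all_RP s r]; rfl

namespace MB

instance : Module (Rg K)ᵐᵒᵖ (MB K) where
  smul r x := rho r.unop x
  one_smul x := by
    change rho (1 : Rg K) x = x
    rw [rho_one]; rfl
  mul_smul r s x := rho_mul s.unop r.unop x
  smul_zero r := map_zero (rho r.unop)
  smul_add r x y := map_add (rho r.unop) x y
  add_smul r s x := rho_add r.unop s.unop x
  zero_smul x := by
    have := rho_smul (0 : K) (1 : Rg K) x
    rw [zero_smul, zero_smul] at this
    exact this

theorem op_smul_def (r : Rg K) (x : MB K) : MulOpposite.op r • x = rho r x := rfl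

instance : SMulCommClass (Rg K) (Rg K)ᵐᵒᵖ (MB K) where
  smul_comm r s x := ((rho s.unop).map_smul r x).symm

instance : IsScalarTower K (Rg K)ᵐᵒᵖ (MB K) where
  smul_assoc c r x := rho_smul c r.unop x

end MB

end Pool.Agent.H379.NK
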