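import Pool.Agent.H379.NK.Ids1

/-!
# Kernel-checked identities, third part
-/

set_option autoImplicit false

namespace Pool.Agent.H379.NK

open W450.Rig

open DX

theorem dd_F00 : chk2 (FF * P01 - P00 * FF) = true := fch (by decide +kernel)
theorem dd_F01 : chk2 (FF * P02 - P01 * FF) = true := fch (by decide +kernel)
theorem dd_F10 : chk2 (FF * P11 - P10 * FF) = true := fch (by decide +kernel)
theorem dd_F11 : chk2 (FF * P12 - P11 * FF) = true := fch (by decide +kernel)
theorem dd_H00 : chk2 (HH * P01 - P00 * HH) = true := fch (by decide +kernel)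
theorem dd_H01 : chk2 (HH * P02 - P01 * HH) = true := fch (by decide +kernel)
theorem dd_H10 : chk2 (HH * P11 - P10 * HH) = true := fch (by decide +kernel)
theorem dd_H11 : chk2 (HH * P12 - P11 * HH) = true := fch (by decide +kernel)
theorem dd_z00 : chk2 (Rz * P01 - P00 * Rz) = true := fch (by decide +kernel)
theorem dd_z01 : chk2 (Rz * P02 - P01 * Rz) = true := fch (by decide +kernel)
theorem dd_z10 : chk2 (Rz * P11 - P10 * Rz) = true := fch (by decide +kernel)
theorem dd_z11 : chk2 (Rz * P12 - P11 * Rz) = true := fch (by decide +kernel)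
theorem dd_s00 : chk2 (s * P00 - P01 * s) = true := fch (by decide +kernel)
theorem dd_t00 : chk2 (t * P00 - P01 * t) = true := fch (by decide +kernel)
theorem dd_FsF00 : chk2 (FF * sF * P00 - P00) = true := fch (by decide +kernel)
theorem dd_s01 : chk2 (s * P01 - P02 * s) = true := fch (by decide +kernel)
theorem dd_t01 : chk2 (t * P01 - P02 * t) = true := fch (by decide +kernel)
theorem dd_FsF01 : chk2 (FF * sF * P01 - P01) = true := fch (by decide +kernel)
theorem dd_s10 : chk2 (s * P10 - P11 * s) = true := fch (by decide +kernel)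
theorem dd_t10 : chk2 (t * P10 - P11 * t) = true := fch (by decide +kernel)
theorem dd_FsF10 : chk2 (FF * sF * P10 - P10) = true := fch (by decide +kernel)
theorem dd_s11 : chk2 (s * P11 - P12 * s) = true := fch (by decide +kernel)
theorem dd_t11 : chk2 (t * P11 - P12 * t) = true := fch (by decide +kernel)
theorem dd_FsF11 : chk2 (FF * sF * P11 - P11) = true := fch (by decide +kernel)
theorem dd_PP_00_00 : chk2 (P00 * P00 - P00) = true := fch (by decide +kernel)
theorem dd_PP_00_01 : chk2 (P00 * P01 - Z) = true := fch (by decide +kernel)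
theorem dd_PP_00_02 : chk2 (P00 * P02 - Z) = true := fch (by decide +kernel)
theorem dd_PP_00_10 : chk2 (P00 * P10 - Z) = true := fch (by decide +kernel)
theorem dd_PP_00_11 : chk2 (P00 * P11 - Z) = true := fch (by decide +kernel)
theorem dd_PP_00_12 : chk2 (P00 * P12 - Z) = true := fch (by decide +kernel)
theorem dd_PP_01_01 : chk2 (P01 * P01 - P01) = true := fch (by decide +kernel)
theorem dd_PP_01_02 : chk2 (P01 * P02 - Z) = true := fch (by decide +kernel)
theorem dd_PP_01_10 : chk2 (P01 * P10 - Z) = true := fch (by decide +kernel)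
theorem dd_PP_01_11 : chk2 (P01 * P11 - Z) = true := fch (by decide +kernel)
theorem dd_PP_01_12 : chk2 (P01 * P12 - Z) = true := fch (by decide +kernel)
theorem dd_PP_02_02 : chk2 (P02 * P02 - P02) = true := fch (by decide +kernel)
theorem dd_PP_02_10 : chk2 (P02 * P10 - Z) = true := fch (by decide +kernel)
theorem dd_PP_02_11 : chk2 (P02 * P11 - Z) = true := fch (by decide +kernel)
theorem dd_PP_02_12 : chk2 (P02 * P12 - Z) = true := fch (by decide +kernel)
theorem dd_PP_10_10 : chk2 (P10 * P10 - P10) = true := fch (by decide +kernel)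
theorem dd_PP_10_11 : chk2 (P10 * P11 - Z) = true := fch (by decide +kernel)
theorem dd_PP_10_12 : chk2 (P10 * P12 - Z) = true := fch (by decide +kernel)
theorem dd_PP_11_11 : chk2 (P11 * P11 - P11) = true := fch (by decide +kernel)
theorem dd_PP_11_12 : chk2 (P11 * P12 - Z) = true := fch (by decide +kernel)
theorem dd_PP_12_12 : chk2 (P12 * P12 - P12) = true := fch (by decide +kernel)
theorem dd_FsH : chk2 (FF * sH * P01 - Z) = true := fch (by decide +kernel)
theorem dd_HsH : chk2 (((HH - Rz) * sH - 1) * TF * P01 - Z) = true := fch (by decide +kernel)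
theorem dd_K : chk2 (TF * TH * TE * (1 - Q) * P12 - Z) = true := fch (by decide +kernel)

end Pool.Agent.H379.NK
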