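import Pool.Agent.H379.NK.OS

/-!
# Exactness of the complex of an operator system
-/

set_option autoImplicit false
set_option linter.unusedSectionVars false

namespace Pool.Agent.H379.NK

universe u v

variable {O : Type u} [Ring O] {Q : Type v} [AddCommGroup Q] [Module O Q]

section sup
variable {p : Q →ₗ[O] Q} {x y : Q}

theorem sAdd (hx : p x = x) (hy : p y = y) : p (x + y) = x + y := by rw [map_add, hx, hy]
theorem sSub (hx : p x = x) (hy : p y = y) : p (x - y) = x - y := by rw [map_sub, hx, hy]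
theorem sNeg (hx : p x = x) : p (-x) = -x := by rw [map_neg, hx]
theorem sZs (k : ℤ) (hx : p x = x) : p (k • x) = k • x := by rw [map_zsmul, hx]
theorem sZero : p (0 : Q) = 0 := map_zero _

end sup

namespace OS.Laws

variable {A : OS O Q} (L : A.Laws)
include L

theorem D_mem (n : ℕ) {x : X4 Q} (hx : x ∈ A.Pn (n + 1)) : A.D n x ∈ A.Pn n := by
  match n with
  | 0 =>
    obtain ⟨h1, h2, h3, h4⟩ := A.mem_P1.1 hx
    exact A.mem_P0.2 ⟨sAdd (sAdd (L.E0 _ h1) (L.H00 _ h2)) (L.F00 _ h3), rfl⟩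
  | 1 =>
    obtain ⟨h1, h2, h3, h4⟩ := (A.mem_Pe 0).1 hx
    exact A.mem_P1.2 ⟨sSub (sSub (L.W0 _ h1) (sAdd (L.H10 _ h2) (L.z10 _ h2))) (L.F10 _ h3),
      sAdd (sAdd (L.E1 _ h2) (L.a1 _ h3)) (L.F01 _ h4),
      sSub (L.E1 _ h3) (sSub (L.H01 _ h4) (L.z01 _ h4)), rfl⟩
  | n + 2 =>
    rcases Nat.even_or_odd' n with ⟨m, rfl | rfl⟩
    · rw [show 2 * m + 2 + 1 = 2 * m + 3 by omega] at hx
      obtain ⟨h1, h2, h3, h4⟩ := (A.mem_Po m).1 hx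
      rw [A.D_even]
      exact (A.mem_Pe m).2 ⟨sAdd (sAdd (sAdd (L.E0 _ h1) (L.H00 _ h2)) (L.F00 _ h3))
        (sZs _ (L.a0 _ (L.z10 _ (L.z11 _ h4)))),
        sSub (sSub (L.W1 _ h2) (L.B1 _ h3)) (L.F11 _ h4),
        sAdd (L.W1 _ h3) (L.H11 _ h4), L.E2 _ h4⟩
    · rw [show 2 * m + 1 + 2 + 1 = 2 * (m + 1) + 2 by omega] at hx
      obtain ⟨h1, h2, h3, h4⟩ := (A.mem_Pe (m + 1)).1 hx
      rw [show 2 * m + 1 + 2 = 2 * m + 3 by omega, A.D_odd]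
      exact (A.mem_Po m).2 ⟨sAdd (sSub (sSub (L.W0 _ h1) (sAdd (L.H10 _ h2) (L.z10 _ h2)))
        (L.F10 _ h3)) (sZs _ (L.B0 _ (L.z00 _ (L.z01 _ h4)))),
        sAdd (sAdd (L.E1 _ h2) (L.a1 _ h3)) (L.F01 _ h4),
        sSub (L.E1 _ h3) (sSub (L.H01 _ h4) (L.z01 _ h4)), L.W2 _ h4⟩

theorem D_D (n : ℕ) {x : X4 Q} (hx : x ∈ A.Pn (n + 2)) : A.D n (A.D (n + 1) x) = 0 := by
  match n with
  | 0 => exact L.D1_D2 x ((A.mem_Pe 0).1 hx).2.2.2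
  | 1 =>
    have h := A.D_even 0
    simp only [mul_zero, zero_add, Nat.cast_zero] at h
    show A.D2 (A.D 2 x) = 0
    rw [h]
    exact L.D2_Do x
  | n + 2 =>
    rcases Nat.even_or_odd' n with ⟨m, rfl | rfl⟩
    · rw [show 2 * m + 2 + 2 = 2 * (m + 1) + 2 by omega] at hx
      rw [show 2 * m + 2 + 1 = 2 * m + 3 by omega, A.D_even, A.D_odd]
      exact L.Do_De _ x ((A.mem_Pe (m + 1)).1 hx).2.2.2
    · rw [show 2 * m + 1 + 2 + 1 = 2 * (m + 1) + 2 by omega,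
        show 2 * m + 1 + 2 = 2 * m + 3 by omega, A.D_even, A.D_odd]
      have h := L.De_Do (-((m : ℤ) + 1)) x
      rw [show (1 : ℤ) - -((m : ℤ) + 1) = ((m + 1 : ℕ) : ℤ) + 1 by push_cast; ring] at h
      exact h

theorem ex_Do (X : A.EWex) (k : ℤ) {x0 xh xf xx : Q} (h0 : A.p10 x0 = x0) (hh : A.p01 xh = xh)
    (hf : A.p01 xf = xf) (hx : A.p12 xx = xx) (h : A.Do k (x0, xh, xf, xx) = 0) :
    ∃ y0 yh yf yx : Q, A.p00 y0 = y0 ∧ A.p11 yh = yh ∧ A.p11 yf = yf ∧ A.p02 yx = yx ∧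
      A.De (-k) (y0, yh, yf, yx) = (x0, xh, xf, xx) := by
  have c1 : A.E x0 + A.H xh + A.F xf + k • A.a (A.z (A.z xx)) = 0 := congrArg Prod.fst h
  have c2 : A.W xh - A.B xf - A.F xx = 0 := congrArg (fun p => p.2.1) h
  have c3 : A.W xf + A.H xx = 0 := congrArg (fun p => p.2.2.1) h
  have c4 : A.E xx = 0 := congrArg (fun p => p.2.2.2) h
  obtain ⟨yx, iyx, exx⟩ := X.e2 xx hx c4
  obtain ⟨u, hu⟩ : ∃ u, u = xf + (A.H yx - A.z yx) := ⟨_, rfl⟩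
  have iu : A.p01 u = u := hu ▸ sAdd hf (sSub (L.H01 _ iyx) (L.z01 _ iyx))
  have c3' : A.W xf = - A.H xx := eq_neg_of_add_eq_zero_left c3
  have wu : A.W u = 0 := by
    rw [hu]
    simp only [map_add, map_sub, L.WH, ← L.zW, exx, c3']
    abel
  obtain ⟨yf, iyf, eyf⟩ := X.w1 u iu wu
  obtain ⟨v, hv⟩ : ∃ v, v = xh - A.a yf - A.F yx := ⟨_, rfl⟩
  have iv : A.p01 v = v := hv ▸ sSub (sSub hh (L.a1 _ iyf)) (L.F01 _ iyx)
  have c2' : A.W xh = A.B xf + A.F xx := by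
    rw [sub_sub] at c2; exact sub_eq_zero.1 c2
  have wv : A.W v = 0 := by
    rw [hv]
    simp only [map_add, map_sub, L.Wa, L.WF, eyf, hu, exx, c2', L.BH, L.zB]
    abel
  obtain ⟨yh, iyh, eyh⟩ := X.w1 v iv wv
  obtain ⟨w, hw⟩ : ∃ w, w = x0 + (A.H yh + A.z yh) + A.F yf + k • A.B (A.z (A.z yx)) :=
    ⟨_, rfl⟩
  have iw : A.p10 w = w := hw ▸ sAdd (sAdd (sAdd h0 (sAdd (L.H10 _ iyh) (L.z10 _ iyh)))
    (L.F10 _ iyf)) (sZs k (L.B0 _ (L.z00 _ (L.z01 _ iyx))))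
  have ew : A.E w = 0 := by
    rw [hw]
    have c1' : A.E x0 = - (A.H xh + A.F xf + k • A.a (A.z (A.z xx))) := by
      rw [← sub_eq_zero, ← c1]; abel
    simp only [map_add, map_zsmul, L.EHz, L.EF, eyh, eyf, hv, hu, ← L.aW, ← L.zW, exx,
      map_sub, L.HF, L.aux_A iyx, c1']
    abel
  obtain ⟨y0, iy0, ey0⟩ := X.e0 w iw ew
  refine ⟨y0, yh, yf, yx, iy0, iyh, iyf, iyx, ?_⟩
  refine Prod.ext ?_ (Prod.ext ?_ (Prod.ext ?_ ?_))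
  · show A.W y0 - (A.H yh + A.z yh) - A.F yf + (-k) • A.B (A.z (A.z yx)) = x0
    rw [ey0, hw, neg_smul]
    abel
  · show A.E yh + A.a yf + A.F yx = xh
    rw [eyh, hv]; abel
  · show A.E yf - (A.H yx - A.z yx) = xf
    rw [eyf, hu]; abel
  · exact exx

theorem ex_De (X : A.EWex) (c : ℤ) {x0 xh xf xx : Q} (h0 : A.p00 x0 = x0) (hh : A.p11 xh = xh)
    (hf : A.p11 xf = xf) (hx : A.p02 xx = xx)
    (c1 : A.W x0 - (A.H xh + A.z xh) - A.F xf + c • A.B (A.z (A.z xx)) = 0)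
    (c2 : A.E xh + A.a xf + A.F xx = 0) (c3 : A.E xf - (A.H xx - A.z xx) = 0)
    (c4 : A.W xx = 0) :
    ∃ y0 yh yf yx : Q, A.p10 y0 = y0 ∧ A.p01 yh = yh ∧ A.p01 yf = yf ∧ A.p12 yx = yx ∧
      A.Do (1 - c) (y0, yh, yf, yx) = (x0, xh, xf, xx) := by
  obtain ⟨yx, iyx, exx⟩ := X.w2 xx hx c4
  obtain ⟨u, hu⟩ : ∃ u, u = xf - A.H yx := ⟨_, rfl⟩
  have iu : A.p11 u = u := hu ▸ sSub hf (L.H11 _ iyx)
  have c3' : A.E xf = A.H xx - A.z xx := sub_eq_zero.1 c3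
  have eu : A.E u = 0 := by
    rw [hu, map_sub, c3', ← exx, L.HE, L.zE]
    abel
  obtain ⟨yf, iyf, eyf⟩ := X.e1 u iu eu
  obtain ⟨v, hv⟩ : ∃ v, v = xh + A.B yf + A.F yx := ⟨_, rfl⟩
  have iv : A.p11 v = v := hv ▸ sAdd (sAdd hh (L.B1 _ iyf)) (L.F11 _ iyx)
  have c2' : A.E xh = - (A.a xf + A.F xx) := by
    rw [add_assoc] at c2; exact eq_neg_of_add_eq_zero_left c2
  have ev : A.E v = 0 := by
    rw [hv]
    simp only [map_add, ← L.aW, eyf, hu, map_sub, c2', L.EF, exx, L.Ha]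
    abel
  obtain ⟨yh, iyh, eyh⟩ := X.e1 v iv ev
  obtain ⟨w, hw⟩ : ∃ w, w = x0 - A.H yh - A.F yf - (1 - c) • A.a (A.z (A.z yx)) :=
    ⟨_, rfl⟩
  have iw : A.p00 w = w := hw ▸ sSub (sSub (sSub h0 (L.H00 _ iyh)) (L.F00 _ iyf))
    (sZs (1 - c) (L.a0 _ (L.z10 _ (L.z11 _ iyx))))
  have c1' : A.W x0 = (A.H xh + A.z xh) + A.F xf - c • A.B (A.z (A.z xx)) := by
    rw [← sub_eq_zero, ← c1]; abel
  have ww : A.W w = 0 := by
    rw [hw]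
    simp only [map_sub, map_zsmul, L.WH, L.WF, eyh, eyf, hv, hu, L.Wa, ← L.zE, exx, c1',
      map_add]
    rw [← exx]
    simp only [L.zE, L.HF, L.zF, sub_smul, one_smul]
    abel
  obtain ⟨y0, iy0, ey0⟩ := X.w0 w iw ww
  refine ⟨y0, yh, yf, yx, iy0, iyh, iyf, iyx, ?_⟩
  refine Prod.ext ?_ (Prod.ext ?_ (Prod.ext ?_ ?_))
  · show A.E y0 + A.H yh + A.F yf + (1 - c) • A.a (A.z (A.z yx)) = x0
    rw [ey0, hw]
    abel
  · show A.W yh - A.B yf - A.F yx = xh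
    rw [eyh, hv]; abel
  · show A.W yf + A.H yx = xf
    rw [eyf, hu]; abel
  · exact exx

/-- Exactness in degree one. -/
theorem D_ex0 (h1 : A.Ex1) {x : X4 Q} (hx : x ∈ A.Pn 1) (h : A.D 0 x = 0) :
    ∃ y ∈ A.Pn 2, A.D 1 y = x := by
  obtain ⟨x0, xh, xf, xx⟩ := x
  obtain ⟨i1, i2, i3, i4⟩ := A.mem_P1.1 hx
  simp only at i1 i2 i3 i4
  subst i4
  obtain ⟨y0, yh, yf, yx, j1, j2, j3, j4, e1, e2, e3⟩ := h1 x0 xh xf i1 i2 i3
    (congrArg Prod.fst h)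
  exact ⟨(y0, yh, yf, yx), (A.mem_Pe 0).2 ⟨j1, j2, j3, j4⟩,
    Prod.ext e1 (Prod.ext e2 (Prod.ext e3 rfl))⟩

/-- Exactness in degrees at least three. -/
theorem D_ex (X : A.EWex) (n : ℕ) {x : X4 Q} (hx : x ∈ A.Pn (n + 3)) (h : A.D (n + 2) x = 0) :
    ∃ y ∈ A.Pn (n + 4), A.D (n + 3) y = x := by
  obtain ⟨x0, xh, xf, xx⟩ := x
  rcases Nat.even_or_odd' n with ⟨m, rfl | rfl⟩
  · obtain ⟨h1, h2, h3, h4⟩ := (A.mem_Po m).1 hx
    rw [A.D_even] at h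
    obtain ⟨y0, yh, yf, yx, i1, i2, i3, i4, i5⟩ := L.ex_Do X _ h1 h2 h3 h4 h
    refine ⟨(y0, yh, yf, yx), ?_, ?_⟩
    · rw [show 2 * m + 4 = 2 * (m + 1) + 2 by omega]
      exact (A.mem_Pe (m + 1)).2 ⟨i1, i2, i3, i4⟩
    · rw [A.D_odd]
      exact i5
  · rw [show 2 * m + 1 + 3 = 2 * (m + 1) + 2 by omega] at hx
    obtain ⟨h1, h2, h3, h4⟩ := (A.mem_Pe (m + 1)).1 hx
    rw [show 2 * m + 1 + 2 = 2 * m + 3 by omega, A.D_odd] at h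
    obtain ⟨y0, yh, yf, yx, i1, i2, i3, i4, i5⟩ := L.ex_De X (-((m : ℤ) + 1)) h1 h2 h3 h4
      (congrArg Prod.fst h) (congrArg (fun p => p.2.1) h) (congrArg (fun p => p.2.2.1) h)
      (congrArg (fun p => p.2.2.2) h)
    refine ⟨(y0, yh, yf, yx), ?_, ?_⟩
    · rw [show 2 * m + 1 + 4 = 2 * (m + 1) + 3 by omega]
      exact (A.mem_Po (m + 1)).2 ⟨i1, i2, i3, i4⟩
    · rw [show 2 * m + 1 + 3 = 2 * (m + 1) + 2 by omega, A.D_even]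
      rw [show (1 : ℤ) - -((m : ℤ) + 1) = ((m + 1 : ℕ) : ℤ) + 1 by push_cast; ring] at i5
      exact i5

/-- In degree two, cycles with vanishing invariant are boundaries. -/
theorem D_ex2 (X : A.EWex) {x : X4 Q} (hx : x ∈ A.Pn 2) (h : A.D 1 x = 0)
    (hW : A.W x.2.2.2 = 0) : ∃ y ∈ A.Pn 3, A.D 2 y = x := by
  obtain ⟨x0, xh, xf, xx⟩ := x
  obtain ⟨h1, h2, h3, h4⟩ := (A.mem_Pe 0).1 hx
  have c1 : A.W x0 - (A.H xh + A.z xh) - A.F xf = 0 := congrArg Prod.fst h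
  obtain ⟨y0, yh, yf, yx, i1, i2, i3, i4, i5⟩ := L.ex_De X 0 h1 h2 h3 h4
    (by rw [zero_smul, add_zero]; exact c1) (congrArg (fun p => p.2.1) h)
    (congrArg (fun p => p.2.2.1) h) hW
  refine ⟨(y0, yh, yf, yx), (A.mem_Po 0).2 ⟨i1, i2, i3, i4⟩, ?_⟩
  have h := A.D_even 0
  simp only [mul_zero, zero_add, Nat.cast_zero] at h
  rw [h]
  rw [sub_zero] at i5
  exact i5

/-- The invariant of a cycle of degree two. -/
theorem W_cyc {x : X4 Q} (hx : x ∈ A.Pn 2) (h : A.D 1 x = 0) :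
    A.p12 (A.W x.2.2.2) = A.W x.2.2.2 ∧ A.E (A.W x.2.2.2) = 0 ∧ A.F (A.W x.2.2.2) = 0 ∧
      A.H (A.W x.2.2.2) = 0 := by
  obtain ⟨x0, xh, xf, xx⟩ := x
  obtain ⟨h1, h2, h3, h4⟩ := (A.mem_Pe 0).1 hx
  have c2 : A.E xh + A.a xf + A.F xx = 0 := congrArg (fun p => p.2.1) h
  have c3 : A.E xf - (A.H xx - A.z xx) = 0 := congrArg (fun p => p.2.2.1) h
  have e1 : A.H (A.W xx) = 0 := by
    have h1 : A.W (A.E xf - (A.H xx - A.z xx)) = 0 := by rw [c3, map_zero]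
    simp only [map_sub, L.WE, L.WH, ← L.zW] at h1
    rw [zero_sub, neg_eq_zero, add_sub_cancel_right] at h1
    exact h1
  refine ⟨L.W2 _ h4, L.EW xx, ?_, e1⟩
  show A.F (A.W xx) = 0
  have h1 : A.W (A.E xh + A.a xf + A.F xx) = 0 := by rw [c2, map_zero]
  have c3' : A.E xf = A.H xx - A.z xx := sub_eq_zero.1 c3
  simp only [map_add, L.WE, L.Wa, L.WF, c3', map_sub, L.BH, L.zB] at h1
  rw [← h1]
  abel

/-- Every element killed by `E, F, H` is the invariant of a cycle. -/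
theorem W_lift (X : A.EWex) {y : Q} (h : A.p12 y = y) (hE : A.E y = 0) (hF : A.F y = 0)
    (hH : A.H y = 0) : ∃ x ∈ A.Pn 2, A.D 1 x = 0 ∧ A.W x.2.2.2 = y := by
  obtain ⟨xx, ixx, exx⟩ := X.e2 y h hE
  have w1 : A.W (A.H xx - A.z xx) = 0 := by
    rw [map_sub, L.WH, ← L.zW, exx, hH]; abel
  obtain ⟨xf, ixf, exf⟩ := X.w1 _ (sSub (L.H01 _ ixx) (L.z01 _ ixx)) w1
  have w2 : A.W (- (A.a xf + A.F xx)) = 0 := by
    rw [map_neg, map_add, L.Wa, L.WF, exf, exx, hF, map_sub, L.BH, L.zB]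
    abel
  obtain ⟨xh, ixh, exh⟩ := X.w1 _ (sNeg (sAdd (L.a1 _ ixf) (L.F01 _ ixx))) w2
  have w3 : A.E ((A.H xh + A.z xh) + A.F xf) = 0 := by
    rw [map_add, map_add, L.EHz, L.EF, exh, exf]
    simp only [map_neg, map_add, map_sub, L.HF, L.aux_A ixx]
    abel
  obtain ⟨x0, ix0, ex0⟩ := X.e0 _ (sAdd (sAdd (L.H10 _ ixh) (L.z10 _ ixh)) (L.F10 _ ixf)) w3
  refine ⟨(x0, xh, xf, xx), (A.mem_Pe 0).2 ⟨ix0, ixh, ixf, ixx⟩, ?_, exx⟩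
  refine Prod.ext ?_ (Prod.ext ?_ (Prod.ext ?_ rfl))
  · show A.W x0 - (A.H xh + A.z xh) - A.F xf = 0
    rw [ex0]; abel
  · show A.E xh + A.a xf + A.F xx = 0
    rw [exh]; abel
  · show A.E xf - (A.H xx - A.z xx) = 0
    rw [exf]; abel

end OS.Laws

end Pool.Agent.H379.NK
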