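import Pool.Graph.R_seed8.W450.RigLow
import Pool.Agent.H379.NK.Ids
import Pool.Agent.H379.NK.OS2

/-!
# The two blocks

`rB S` is the operator system on `B → V` given by right multiplications on the algebra
(library), `dB S` the one given by right multiplications on its dual.
-/

set_option autoImplicit false
set_option linter.unusedSectionVars false
set_option linter.unusedSimpArgs false

namespace Pool.Agent.H379.NK

open W450.Rig

/-! ### Maps of operator systems and transport -/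

section map

universe u v u' v'

variable {O : Type u} [Ring O] {Q : Type v} [AddCommGroup Q] [Module O Q]
variable {O' : Type u'} [Ring O'] {Q' : Type v'} [AddCommGroup Q'] [Module O' Q']

/-- `f` commutes with the operators. -/
structure OS.Map (A : OS O Q) (A' : OS O' Q') (f : Q →+ Q') : Prop where

  E : ∀ x, f (A.E x) = A'.E (f x)
  F : ∀ x, f (A.F x) = A'.F (f x)
  H : ∀ x, f (A.H x) = A'.H (f x)
  W : ∀ x, f (A.W x) = A'.W (f x)
  a : ∀ x, f (A.a x) = A'.a (f x)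
  B : ∀ x, f (A.B x) = A'.B (f x)
  z : ∀ x, f (A.z x) = A'.z (f x)
  p00 : ∀ x, f (A.p00 x) = A'.p00 (f x)
  p01 : ∀ x, f (A.p01 x) = A'.p01 (f x)
  p02 : ∀ x, f (A.p02 x) = A'.p02 (f x)
  p10 : ∀ x, f (A.p10 x) = A'.p10 (f x)
  p11 : ∀ x, f (A.p11 x) = A'.p11 (f x)
  p12 : ∀ x, f (A.p12 x) = A'.p12 (f x)

variable {A : OS O Q} {A' : OS O' Q'} {f : Q →+ Q'}

theorem OS.Laws.of_map (m : OS.Map A A' f) (hf : Function.Injective f) (L : A'.Laws) : A.Laws where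
  EW x := hf (by simp only [map_add, map_sub, map_zero, m.E, m.W]; exact L.EW _)
  WE x := hf (by simp only [map_add, map_sub, map_zero, m.W, m.E]; exact L.WE _)
  FE x := hf (by simp only [map_add, map_sub, map_zero, m.F, m.E, m.H, m.a]; exact L.FE _)
  HE x := hf (by simp only [map_add, map_sub, map_zero, m.H, m.E, m.z]; exact L.HE _)
  WH x := hf (by simp only [map_add, map_sub, map_zero, m.W, m.H, m.z]; exact L.WH _)
  Wa x := hf (by simp only [map_add, map_sub, map_zero, m.W, m.a, m.B, m.E]; exact L.Wa _)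
  WF x := hf (by simp only [map_add, map_sub, map_zero, m.W, m.F, m.H, m.B, m.z]; exact L.WF _)
  aW x := hf (by simp only [map_add, map_sub, map_zero, m.a, m.W, m.E, m.B]; exact L.aW _)
  BH x := hf (by simp only [map_add, map_sub, map_zero, m.B, m.H, m.z]; exact L.BH _)
  HF x := hf (by simp only [map_add, map_sub, map_zero, m.H, m.F, m.z, m.B, m.E]; exact L.HF _)
  FB x := hf (by simp only [map_add, map_sub, map_zero, m.F, m.B]; exact L.FB _)
  Ha x := hf (by simp only [map_add, map_sub, map_zero, m.H, m.a]; exact L.Ha _)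
  Fa x := hf (by simp only [map_add, map_sub, map_zero, m.F, m.a]; exact L.Fa _)
  za x := hf (by simp only [map_add, map_sub, map_zero, m.z, m.a]; exact L.za _)
  zB x := hf (by simp only [map_add, map_sub, map_zero, m.z, m.B]; exact L.zB _)
  zE x := hf (by simp only [map_add, map_sub, map_zero, m.z, m.E]; exact L.zE _)
  zF x := hf (by simp only [map_add, map_sub, map_zero, m.z, m.F]; exact L.zF _)
  zH x := hf (by simp only [map_add, map_sub, map_zero, m.z, m.H]; exact L.zH _)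
  zW x := hf (by simp only [map_add, map_sub, map_zero, m.z, m.W]; exact L.zW _)
  i00 x := hf (by simp only [map_add, map_sub, map_zero, m.p00]; exact L.i00 _)
  i01 x := hf (by simp only [map_add, map_sub, map_zero, m.p01]; exact L.i01 _)
  i02 x := hf (by simp only [map_add, map_sub, map_zero, m.p02]; exact L.i02 _)
  i10 x := hf (by simp only [map_add, map_sub, map_zero, m.p10]; exact L.i10 _)
  i11 x := hf (by simp only [map_add, map_sub, map_zero, m.p11]; exact L.i11 _)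
  i12 x := hf (by simp only [map_add, map_sub, map_zero, m.p12]; exact L.i12 _)
  E0 x hx := hf (by rw [m.p00, m.E]; exact L.E0 _ (by rw [← m.p10, hx]))
  E1 x hx := hf (by rw [m.p01, m.E]; exact L.E1 _ (by rw [← m.p11, hx]))
  E2 x hx := hf (by rw [m.p02, m.E]; exact L.E2 _ (by rw [← m.p12, hx]))
  W0 x hx := hf (by rw [m.p10, m.W]; exact L.W0 _ (by rw [← m.p00, hx]))
  W1 x hx := hf (by rw [m.p11, m.W]; exact L.W1 _ (by rw [← m.p01, hx]))
  W2 x hx := hf (by rw [m.p12, m.W]; exact L.W2 _ (by rw [← m.p02, hx]))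
  F00 x hx := hf (by rw [m.p00, m.F]; exact L.F00 _ (by rw [← m.p01, hx]))
  F01 x hx := hf (by rw [m.p01, m.F]; exact L.F01 _ (by rw [← m.p02, hx]))
  F10 x hx := hf (by rw [m.p10, m.F]; exact L.F10 _ (by rw [← m.p11, hx]))
  F11 x hx := hf (by rw [m.p11, m.F]; exact L.F11 _ (by rw [← m.p12, hx]))
  H00 x hx := hf (by rw [m.p00, m.H]; exact L.H00 _ (by rw [← m.p01, hx]))
  H01 x hx := hf (by rw [m.p01, m.H]; exact L.H01 _ (by rw [← m.p02, hx]))
  H10 x hx := hf (by rw [m.p10, m.H]; exact L.H10 _ (by rw [← m.p11, hx]))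
  H11 x hx := hf (by rw [m.p11, m.H]; exact L.H11 _ (by rw [← m.p12, hx]))
  z00 x hx := hf (by rw [m.p00, m.z]; exact L.z00 _ (by rw [← m.p01, hx]))
  z01 x hx := hf (by rw [m.p01, m.z]; exact L.z01 _ (by rw [← m.p02, hx]))
  z10 x hx := hf (by rw [m.p10, m.z]; exact L.z10 _ (by rw [← m.p11, hx]))
  z11 x hx := hf (by rw [m.p11, m.z]; exact L.z11 _ (by rw [← m.p12, hx]))
  a0 x hx := hf (by rw [m.p00, m.a]; exact L.a0 _ (by rw [← m.p10, hx]))
  a1 x hx := hf (by rw [m.p01, m.a]; exact L.a1 _ (by rw [← m.p11, hx]))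
  B0 x hx := hf (by rw [m.p10, m.B]; exact L.B0 _ (by rw [← m.p00, hx]))
  B1 x hx := hf (by rw [m.p11, m.B]; exact L.B1 _ (by rw [← m.p01, hx]))
  Ez x hx := hf (by rw [m.E, map_zero]; exact L.Ez _ (by rw [← m.p00, hx]))

theorem OS.EWex.of_map (m : OS.Map A A' f) (hf : Function.Bijective f) (L : A'.EWex) :
    A.EWex where
  w0 x hx h := by
    obtain ⟨y', h1, h2⟩ := L.w0 (f x) (by rw [← m.p00, hx]) (by rw [← m.W, h, map_zero])
    obtain ⟨y, rfl⟩ := hf.2 y'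
    exact ⟨y, hf.1 (by rw [m.p10, h1]), hf.1 (by rw [m.E, h2])⟩
  w1 x hx h := by
    obtain ⟨y', h1, h2⟩ := L.w1 (f x) (by rw [← m.p01, hx]) (by rw [← m.W, h, map_zero])
    obtain ⟨y, rfl⟩ := hf.2 y'
    exact ⟨y, hf.1 (by rw [m.p11, h1]), hf.1 (by rw [m.E, h2])⟩
  w2 x hx h := by
    obtain ⟨y', h1, h2⟩ := L.w2 (f x) (by rw [← m.p02, hx]) (by rw [← m.W, h, map_zero])
    obtain ⟨y, rfl⟩ := hf.2 y'
    exact ⟨y, hf.1 (by rw [m.p12, h1]), hf.1 (by rw [m.E, h2])⟩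
  e0 x hx h := by
    obtain ⟨y', h1, h2⟩ := L.e0 (f x) (by rw [← m.p10, hx]) (by rw [← m.E, h, map_zero])
    obtain ⟨y, rfl⟩ := hf.2 y'
    exact ⟨y, hf.1 (by rw [m.p00, h1]), hf.1 (by rw [m.W, h2])⟩
  e1 x hx h := by
    obtain ⟨y', h1, h2⟩ := L.e1 (f x) (by rw [← m.p11, hx]) (by rw [← m.E, h, map_zero])
    obtain ⟨y, rfl⟩ := hf.2 y'
    exact ⟨y, hf.1 (by rw [m.p01, h1]), hf.1 (by rw [m.W, h2])⟩
  e2 x hx h := by
    obtain ⟨y', h1, h2⟩ := L.e2 (f x) (by rw [← m.p12, hx]) (by rw [← m.E, h, map_zero])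
    obtain ⟨y, rfl⟩ := hf.2 y'
    exact ⟨y, hf.1 (by rw [m.p02, h1]), hf.1 (by rw [m.W, h2])⟩

theorem OS.Ex1.of_map (m : OS.Map A A' f) (hf : Function.Bijective f) (L : A'.Ex1) :
    A.Ex1 := by
  intro x0 xh xf h0 hh hf' h
  obtain ⟨y0, yh, yf, yx, i0, ih, iff, ix, e1, e2, e3⟩ := L (f x0) (f xh) (f xf)
    (by rw [← m.p10, h0]) (by rw [← m.p01, hh]) (by rw [← m.p01, hf'])
    (by rw [← m.E, ← m.H, ← m.F, ← map_add, ← map_add, h, map_zero])
  obtain ⟨z0, rfl⟩ := hf.2 y0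
  obtain ⟨zh, rfl⟩ := hf.2 yh
  obtain ⟨zf, rfl⟩ := hf.2 yf
  obtain ⟨zx, rfl⟩ := hf.2 yx
  refine ⟨z0, zh, zf, zx, hf.1 (by rw [m.p00, i0]), hf.1 (by rw [m.p11, ih]),
    hf.1 (by rw [m.p11, iff]), hf.1 (by rw [m.p02, ix]), hf.1 ?_, hf.1 ?_, hf.1 ?_⟩
  · rw [← e1]; simp only [map_sub, map_add, m.W, m.H, m.F, m.z]
  · rw [← e2]; simp only [map_add, m.E, m.a, m.F]
  · rw [← e3]; simp only [map_sub, m.E, m.H, m.z]

end map

/-! ### Products -/

section prod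

universe u v v'

variable {O : Type u} [Ring O] {Q : Type v} [AddCommGroup Q] [Module O Q]
variable {Q' : Type v'} [AddCommGroup Q'] [Module O Q']

/-- Product of operator systems. -/
def OS.prod (A : OS O Q) (A' : OS O Q') : OS O (Q × Q') where
  E := A.E.prodMap A'.E
  F := A.F.prodMap A'.F
  H := A.H.prodMap A'.H
  W := A.W.prodMap A'.W
  a := A.a.prodMap A'.a
  B := A.B.prodMap A'.B
  z := A.z.prodMap A'.z
  p00 := A.p00.prodMap A'.p00
  p01 := A.p01.prodMap A'.p01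
  p02 := A.p02.prodMap A'.p02
  p10 := A.p10.prodMap A'.p10
  p11 := A.p11.prodMap A'.p11
  p12 := A.p12.prodMap A'.p12

variable {A : OS O Q} {A' : OS O Q'}

theorem OS.Laws.prod (L : A.Laws) (L' : A'.Laws) : (A.prod A').Laws where
  EW x := Prod.ext (L.EW x.1) (L'.EW x.2)
  WE x := Prod.ext (L.WE x.1) (L'.WE x.2)
  FE x := Prod.ext (L.FE x.1) (L'.FE x.2)
  HE x := Prod.ext (L.HE x.1) (L'.HE x.2)
  WH x := Prod.ext (L.WH x.1) (L'.WH x.2)
  Wa x := Prod.ext (L.Wa x.1) (L'.Wa x.2)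
  WF x := Prod.ext (L.WF x.1) (L'.WF x.2)
  aW x := Prod.ext (L.aW x.1) (L'.aW x.2)
  BH x := Prod.ext (L.BH x.1) (L'.BH x.2)
  HF x := Prod.ext (L.HF x.1) (L'.HF x.2)
  FB x := Prod.ext (L.FB x.1) (L'.FB x.2)
  Ha x := Prod.ext (L.Ha x.1) (L'.Ha x.2)
  Fa x := Prod.ext (L.Fa x.1) (L'.Fa x.2)
  za x := Prod.ext (L.za x.1) (L'.za x.2)
  zB x := Prod.ext (L.zB x.1) (L'.zB x.2)
  zE x := Prod.ext (L.zE x.1) (L'.zE x.2)
  zF x := Prod.ext (L.zF x.1) (L'.zF x.2)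
  zH x := Prod.ext (L.zH x.1) (L'.zH x.2)
  zW x := Prod.ext (L.zW x.1) (L'.zW x.2)
  i00 x := Prod.ext (L.i00 x.1) (L'.i00 x.2)
  i01 x := Prod.ext (L.i01 x.1) (L'.i01 x.2)
  i02 x := Prod.ext (L.i02 x.1) (L'.i02 x.2)
  i10 x := Prod.ext (L.i10 x.1) (L'.i10 x.2)
  i11 x := Prod.ext (L.i11 x.1) (L'.i11 x.2)
  i12 x := Prod.ext (L.i12 x.1) (L'.i12 x.2)
  E0 x hx := Prod.ext (L.E0 x.1 (congrArg Prod.fst hx)) (L'.E0 x.2 (congrArg Prod.snd hx))
  E1 x hx := Prod.ext (L.E1 x.1 (congrArg Prod.fst hx)) (L'.E1 x.2 (congrArg Prod.snd hx))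
  E2 x hx := Prod.ext (L.E2 x.1 (congrArg Prod.fst hx)) (L'.E2 x.2 (congrArg Prod.snd hx))
  W0 x hx := Prod.ext (L.W0 x.1 (congrArg Prod.fst hx)) (L'.W0 x.2 (congrArg Prod.snd hx))
  W1 x hx := Prod.ext (L.W1 x.1 (congrArg Prod.fst hx)) (L'.W1 x.2 (congrArg Prod.snd hx))
  W2 x hx := Prod.ext (L.W2 x.1 (congrArg Prod.fst hx)) (L'.W2 x.2 (congrArg Prod.snd hx))
  F00 x hx := Prod.ext (L.F00 x.1 (congrArg Prod.fst hx)) (L'.F00 x.2 (congrArg Prod.snd hx))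
  F01 x hx := Prod.ext (L.F01 x.1 (congrArg Prod.fst hx)) (L'.F01 x.2 (congrArg Prod.snd hx))
  F10 x hx := Prod.ext (L.F10 x.1 (congrArg Prod.fst hx)) (L'.F10 x.2 (congrArg Prod.snd hx))
  F11 x hx := Prod.ext (L.F11 x.1 (congrArg Prod.fst hx)) (L'.F11 x.2 (congrArg Prod.snd hx))
  H00 x hx := Prod.ext (L.H00 x.1 (congrArg Prod.fst hx)) (L'.H00 x.2 (congrArg Prod.snd hx))
  H01 x hx := Prod.ext (L.H01 x.1 (congrArg Prod.fst hx)) (L'.H01 x.2 (congrArg Prod.snd hx))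
  H10 x hx := Prod.ext (L.H10 x.1 (congrArg Prod.fst hx)) (L'.H10 x.2 (congrArg Prod.snd hx))
  H11 x hx := Prod.ext (L.H11 x.1 (congrArg Prod.fst hx)) (L'.H11 x.2 (congrArg Prod.snd hx))
  z00 x hx := Prod.ext (L.z00 x.1 (congrArg Prod.fst hx)) (L'.z00 x.2 (congrArg Prod.snd hx))
  z01 x hx := Prod.ext (L.z01 x.1 (congrArg Prod.fst hx)) (L'.z01 x.2 (congrArg Prod.snd hx))
  z10 x hx := Prod.ext (L.z10 x.1 (congrArg Prod.fst hx)) (L'.z10 x.2 (congrArg Prod.snd hx))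
  z11 x hx := Prod.ext (L.z11 x.1 (congrArg Prod.fst hx)) (L'.z11 x.2 (congrArg Prod.snd hx))
  a0 x hx := Prod.ext (L.a0 x.1 (congrArg Prod.fst hx)) (L'.a0 x.2 (congrArg Prod.snd hx))
  a1 x hx := Prod.ext (L.a1 x.1 (congrArg Prod.fst hx)) (L'.a1 x.2 (congrArg Prod.snd hx))
  B0 x hx := Prod.ext (L.B0 x.1 (congrArg Prod.fst hx)) (L'.B0 x.2 (congrArg Prod.snd hx))
  B1 x hx := Prod.ext (L.B1 x.1 (congrArg Prod.fst hx)) (L'.B1 x.2 (congrArg Prod.snd hx))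
  Ez x hx := Prod.ext (L.Ez x.1 (congrArg Prod.fst hx)) (L'.Ez x.2 (congrArg Prod.snd hx))

theorem OS.EWex.prod (L : A.EWex) (L' : A'.EWex) : (A.prod A').EWex where
  w0 x hx h := by
    obtain ⟨y, h1, h2⟩ := L.w0 x.1 (congrArg Prod.fst hx) (congrArg Prod.fst h)
    obtain ⟨y', h1', h2'⟩ := L'.w0 x.2 (congrArg Prod.snd hx) (congrArg Prod.snd h)
    exact ⟨(y, y'), Prod.ext h1 h1', Prod.ext h2 h2'⟩
  w1 x hx h := by
    obtain ⟨y, h1, h2⟩ := L.w1 x.1 (congrArg Prod.fst hx) (congrArg Prod.fst h)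
    obtain ⟨y', h1', h2'⟩ := L'.w1 x.2 (congrArg Prod.snd hx) (congrArg Prod.snd h)
    exact ⟨(y, y'), Prod.ext h1 h1', Prod.ext h2 h2'⟩
  w2 x hx h := by
    obtain ⟨y, h1, h2⟩ := L.w2 x.1 (congrArg Prod.fst hx) (congrArg Prod.fst h)
    obtain ⟨y', h1', h2'⟩ := L'.w2 x.2 (congrArg Prod.snd hx) (congrArg Prod.snd h)
    exact ⟨(y, y'), Prod.ext h1 h1', Prod.ext h2 h2'⟩
  e0 x hx h := by
    obtain ⟨y, h1, h2⟩ := L.e0 x.1 (congrArg Prod.fst hx) (congrArg Prod.fst h)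
    obtain ⟨y', h1', h2'⟩ := L'.e0 x.2 (congrArg Prod.snd hx) (congrArg Prod.snd h)
    exact ⟨(y, y'), Prod.ext h1 h1', Prod.ext h2 h2'⟩
  e1 x hx h := by
    obtain ⟨y, h1, h2⟩ := L.e1 x.1 (congrArg Prod.fst hx) (congrArg Prod.fst h)
    obtain ⟨y', h1', h2'⟩ := L'.e1 x.2 (congrArg Prod.snd hx) (congrArg Prod.snd h)
    exact ⟨(y, y'), Prod.ext h1 h1', Prod.ext h2 h2'⟩
  e2 x hx h := by
    obtain ⟨y, h1, h2⟩ := L.e2 x.1 (congrArg Prod.fst hx) (congrArg Prod.fst h)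
    obtain ⟨y', h1', h2'⟩ := L'.e2 x.2 (congrArg Prod.snd hx) (congrArg Prod.snd h)
    exact ⟨(y, y'), Prod.ext h1 h1', Prod.ext h2 h2'⟩

theorem OS.Ex1.prod (L : A.Ex1) (L' : A'.Ex1) : (A.prod A').Ex1 := by
  intro x0 xh xf h0 hh hf h
  obtain ⟨y0, yh, yf, yx, i0, ih, iff, ix, e1, e2, e3⟩ := L x0.1 xh.1 xf.1
    (congrArg Prod.fst h0) (congrArg Prod.fst hh) (congrArg Prod.fst hf) (congrArg Prod.fst h)
  obtain ⟨z0, zh, zf, zx, j0, jh, jf, jx, g1, g2, g3⟩ := L' x0.2 xh.2 xf.2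
    (congrArg Prod.snd h0) (congrArg Prod.snd hh) (congrArg Prod.snd hf) (congrArg Prod.snd h)
  exact ⟨(y0, z0), (yh, zh), (yf, zf), (yx, zx), Prod.ext i0 j0, Prod.ext ih jh, Prod.ext iff jf,
    Prod.ext ix jx, Prod.ext e1 g1, Prod.ext e2 g2, Prod.ext e3 g3⟩

end prod

/-! ### The block of the library -/

universe u

variable {K : Type u} [Field K]
variable {V : Type u} [AddCommGroup V] [Module K V]

/-- The operator system of right multiplications on the algebra. -/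
def rB (S : SL K V) : OS K (B → V) where
  E := S.ev X.EE
  F := S.ev X.FF
  H := S.ev X.HH
  W := S.ev X.WW
  a := S.ev X.Ra
  B := S.ev X.RB
  z := S.ev X.Rz
  p00 := S.ev X.P00
  p01 := S.ev X.P01
  p02 := S.ev X.P02
  p10 := S.ev X.P10
  p11 := S.ev X.P11
  p12 := S.ev X.P12

theorem id_EP00 : (X.EE * X.P00 - Z).chk = true := by decide +kernel

variable (S : SL K V)

theorem rB_laws : (rB S).Laws where
  EW := S.r_EW
  WE := S.r_WE
  FE := S.r_FE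
  HE := S.r_HE
  WH := S.r_WH
  Wa := S.r_Wa
  WF := S.r_WF
  aW := S.r_aW
  BH := S.r_BH
  HF x := by
    have h1 := S.r_HF x
    rw [← S.r_BE] at h1
    exact h1
  FB := S.r_FB
  Ha := S.r_Ha
  Fa := S.r_Fa
  za := S.r_za
  zB := S.r_zB
  zE := S.r_zE
  zF := S.r_zF
  zH := S.r_zH
  zW := S.r_zW
  i00 x := S.opEq id_PP00_00 x
  i01 x := S.opEq id_PP01_01 x
  i02 x := S.opEq id_PP02_02 x
  i10 x := S.opEq id_PP10_10 x
  i11 x := S.opEq id_PP11_11 x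
  i12 x := S.opEq id_PP12_12 x
  E0 _ hx := S.E0 hx
  E1 _ hx := S.E1 hx
  E2 _ hx := S.E2 hx
  Ez x hx := by
    have h1 := S.opEq id_EP00 x
    rw [S.evZ] at h1
    have h2 : S.ev X.EE (S.ev X.P00 x) = 0 := h1
    have h3 : S.ev X.P00 x = x := hx
    rw [h3] at h2
    exact h2
  W0 _ hx := S.W0 hx
  W1 _ hx := S.W1 hx
  W2 _ hx := S.W2 hx
  F00 _ hx := S.F00 hx
  F01 _ hx := S.F01 hx
  F10 _ hx := S.F10 hx
  F11 _ hx := S.F11 hx
  H00 _ hx := S.H00 hx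
  H01 _ hx := S.H01 hx
  H10 _ hx := S.H10 hx
  H11 _ hx := S.H11 hx
  z00 _ hx := S.z00 hx
  z01 _ hx := S.z01 hx
  z10 _ hx := S.z10 hx
  z11 _ hx := S.z11 hx
  a0 _ hx := S.a0 hx
  a1 _ hx := S.a1 hx
  B0 _ hx := S.B0 hx
  B1 _ hx := S.B1 hx

theorem rB_EWex : (rB S).EWex where
  w0 x hx h := ⟨S.sg x, S.sg0 hx, by
    have h1 := S.hom0 id_hom0_0 hx
    rwa [show S.W x = 0 from h, map_zero, add_zero] at h1⟩
  w1 x hx h := ⟨S.sg x, S.sg1 hx, by
    have h1 := S.hom0 id_hom0_1 hx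
    rwa [show S.W x = 0 from h, map_zero, add_zero] at h1⟩
  w2 x hx h := ⟨S.sg x, S.sg2 hx, by
    have h1 := S.hom0 id_hom0_2 hx
    rwa [show S.W x = 0 from h, map_zero, add_zero] at h1⟩
  e0 x hx h := ⟨S.ta x, S.ta0 hx, by
    have h1 := S.hom1 id_hom1_0 hx
    rwa [show S.E x = 0 from h, map_zero, zero_add] at h1⟩
  e1 x hx h := ⟨S.ta x, S.ta1 hx, by
    have h1 := S.hom1 id_hom1_1 hx
    rwa [show S.E x = 0 from h, map_zero, zero_add] at h1⟩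
  e2 x hx h := ⟨S.ta x, S.ta2 hx, by
    have h1 := S.hom1 id_hom1_2 hx
    rwa [show S.E x = 0 from h, map_zero, zero_add] at h1⟩

theorem rB_Ex1 : (rB S).Ex1 := by
  intro x0 xh xf h0 hh hf h
  obtain ⟨y0, yh, yf, yx, i0, ih, iff, ix, e⟩ := S.ex_D1 h0 hh hf h
  exact ⟨y0, yh, yf, yx, i0, ih, iff, ix, congrArg Prod.fst e, congrArg (fun p => p.2.1) e,
    congrArg (fun p => p.2.2.1) e⟩

/-- No element is killed by `E, F, H` in the block of the library. -/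
theorem rB_K {y : B → V} (h : (rB S).p12 y = y) (hE : (rB S).E y = 0) (hH : (rB S).H y = 0) :
    y = 0 := by
  have e2 : S.ev X.p1 y = 0 := by
    have h1 := S.opEqP (x := X.rp * X.HH) (y := X.p1) id_rp h
    rw [← h1, S.ev_mul, Module.End.mul_apply]
    have : S.ev X.HH y = 0 := hH
    rw [this, map_zero]
  have h1 := S.hom1 id_hom1_2 (x := y) h
  rw [show S.E y = 0 from hE, map_zero, zero_add, S.ta_p1 e2, map_zero] at h1
  exact h1.symm

/-! ### The dual block -/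

/-- The operator system of right multiplications on the dual of the algebra. -/
def dB (S : SL K V) : OS K (B → V) where
  E := ev2 S DX.EE
  F := ev2 S DX.FF
  H := ev2 S DX.HH
  W := ev2 S DX.WW
  a := ev2 S DX.Ra
  B := ev2 S DX.RB
  z := ev2 S DX.Rz
  p00 := ev2 S DX.P00
  p01 := ev2 S DX.P01
  p02 := ev2 S DX.P02
  p10 := ev2 S DX.P10
  p11 := ev2 S DX.P11
  p12 := ev2 S DX.P12

theorem mapD {P Q y : Ex} (h : chk2 (y * P - Q * y) = true) {x : B → V}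
    (hx : ev2 S P x = x) : ev2 S Q (ev2 S y x) = ev2 S y x := by
  have h1 := opEq2 S h x
  rw [ev2_mul, ev2_mul, Module.End.mul_apply, Module.End.mul_apply, hx] at h1
  exact h1.symm

theorem mapDz {P y : Ex} (h : chk2 (y * P - Z) = true) {x : B → V}
    (hx : ev2 S P x = x) : ev2 S y x = 0 := by
  have h1 := opEq2_zero S h x
  rw [ev2_mul, Module.End.mul_apply, hx] at h1
  exact h1

theorem dB_laws : (dB S).Laws where
  EW x := opEq2_zero S dd_EW x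
  WE x := opEq2_zero S dd_WE x
  FE x := by have h := opEq2 S dd_FE x; rw [ev2_sub] at h; exact h
  HE x := by have h := opEq2 S dd_HE x; rw [← map_add]; exact h
  WH x := opEq2 S dd_WH x
  Wa x := opEq2 S dd_Wa x
  WF x := by have h := opEq2 S dd_WF x; rw [ev2_sub] at h; exact h
  aW x := opEq2 S dd_aW x
  BH x := opEq2 S dd_BH x
  HF x := by have h := opEq2 S dd_HF x; rw [ev2_sub, ev2_sub] at h; exact h
  FB x := opEq2 S dd_FB x
  Ha x := opEq2 S dd_Ha x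
  Fa x := opEq2 S dd_Fa x
  za x := opEq2 S dd_za x
  zB x := opEq2 S dd_zB x
  zE x := opEq2 S dd_zE x
  zF x := opEq2 S dd_zF x
  zH x := opEq2 S dd_zH x
  zW x := opEq2 S dd_zW x
  i00 x := opEq2 S dd_PP_00_00 x
  i01 x := opEq2 S dd_PP_01_01 x
  i02 x := opEq2 S dd_PP_02_02 x
  i10 x := opEq2 S dd_PP_10_10 x
  i11 x := opEq2 S dd_PP_11_11 x
  i12 x := opEq2 S dd_PP_12_12 x
  E0 _ hx := mapD S dd_E0 hx
  E1 _ hx := mapD S dd_E1 hx
  E2 _ hx := mapD S dd_E2 hx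
  Ez _ hx := mapDz S dd_Ez0 hx
  W0 _ hx := mapD S dd_W0 hx
  W1 _ hx := mapD S dd_W1 hx
  W2 _ hx := mapD S dd_W2 hx
  F00 _ hx := mapD S dd_F00 hx
  F01 _ hx := mapD S dd_F01 hx
  F10 _ hx := mapD S dd_F10 hx
  F11 _ hx := mapD S dd_F11 hx
  H00 _ hx := mapD S dd_H00 hx
  H01 _ hx := mapD S dd_H01 hx
  H10 _ hx := mapD S dd_H10 hx
  H11 _ hx := mapD S dd_H11 hx
  z00 _ hx := mapD S dd_z00 hx
  z01 _ hx := mapD S dd_z01 hx
  z10 _ hx := mapD S dd_z10 hx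
  z11 _ hx := mapD S dd_z11 hx
  a0 _ hx := mapD S dd_a0 hx
  a1 _ hx := mapD S dd_a1 hx
  B0 _ hx := mapD S dd_B0 hx
  B1 _ hx := mapD S dd_B1 hx

theorem dhom0 {P : Ex} (h : chk2 ((DX.EE * DX.sg + DX.ta * DX.WW) * P - P) = true) {x : B → V}
    (hx : ev2 S P x = x) :
    ev2 S DX.EE (ev2 S DX.sg x) + ev2 S DX.ta (ev2 S DX.WW x) = x := by
  have h1 := opEq2 S h x
  rw [ev2_mul, Module.End.mul_apply, hx] at h1
  exact h1

theorem dhom1 {P : Ex} (h : chk2 ((DX.sg * DX.EE + DX.WW * DX.ta) * P - P) = true) {x : B → V}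
    (hx : ev2 S P x = x) :
    ev2 S DX.sg (ev2 S DX.EE x) + ev2 S DX.WW (ev2 S DX.ta x) = x := by
  have h1 := opEq2 S h x
  rw [ev2_mul, Module.End.mul_apply, hx] at h1
  exact h1

theorem dB_EWex : (dB S).EWex where
  w0 x hx h := ⟨ev2 S DX.sg x, mapD S dd_sg0 hx, by
    have h1 := dhom0 S dd_hom0_0 hx
    rwa [show ev2 S DX.WW x = 0 from h, map_zero, add_zero] at h1⟩
  w1 x hx h := ⟨ev2 S DX.sg x, mapD S dd_sg1 hx, by
    have h1 := dhom0 S dd_hom0_1 hx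
    rwa [show ev2 S DX.WW x = 0 from h, map_zero, add_zero] at h1⟩
  w2 x hx h := ⟨ev2 S DX.sg x, mapD S dd_sg2 hx, by
    have h1 := dhom0 S dd_hom0_2 hx
    rwa [show ev2 S DX.WW x = 0 from h, map_zero, add_zero] at h1⟩
  e0 x hx h := ⟨ev2 S DX.ta x, mapD S dd_ta0 hx, by
    have h1 := dhom1 S dd_hom1_0 hx
    rwa [show ev2 S DX.EE x = 0 from h, map_zero, zero_add] at h1⟩
  e1 x hx h := ⟨ev2 S DX.ta x, mapD S dd_ta1 hx, by
    have h1 := dhom1 S dd_hom1_1 hx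
    rwa [show ev2 S DX.EE x = 0 from h, map_zero, zero_add] at h1⟩
  e2 x hx h := ⟨ev2 S DX.ta x, mapD S dd_ta2 hx, by
    have h1 := dhom1 S dd_hom1_2 hx
    rwa [show ev2 S DX.EE x = 0 from h, map_zero, zero_add] at h1⟩

end Pool.Agent.H379.NK
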