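import Pool.Agent.H379.NK.TY

/-!
# Coordinates on the columns
-/

set_option autoImplicit false
set_option linter.unusedSectionVars false

namespace Pool.Agent.H379.NK

open W450.Rig Pool.Agent.H379.GS MulOpposite TrivSqZeroExt

universe u

variable {K : Type u} [Field K] [CharZero K]

/-! ### The transposed tables -/

theorem tmat2_tr (n : ℕ) (hn : n < 13) : tmat2 K (48 + n) = (tmat K (13 + n)).transpose := by
  funext i j
  have h3 := tr_coef n hn i j i.isLt j.isLt
  show ((coefR (tabRow2 (48 + n) j) i : ℤ) : K) = ((coefR (tabRow (13 + n) i) j : ℤ) : K)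
  rw [h3]

/-! ### The pairing on `B → K × K` -/

/-- The pairing. -/
def pai (y x : B → K × K) : K := ∑ b, ((x b).2 * (y b).1 - (x b).1 * (y b).2)

theorem pai_add_right (y x x' : B → K × K) : pai y (x + x') = pai y x + pai y x' := by
  simp only [pai, ← Finset.sum_add_distrib]
  refine Finset.sum_congr rfl fun b _ => ?_
  simp only [Pi.add_apply, Prod.fst_add, Prod.snd_add]
  ring

theorem pai_smul_right (c : K) (y x : B → K × K) : pai y (c • x) = c * pai y x := by
  simp only [pai, Finset.mul_sum]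
  refine Finset.sum_congr rfl fun b _ => ?_
  simp only [Pi.smul_apply, Prod.smul_fst, Prod.smul_snd, smul_eq_mul]
  ring

theorem pai_add_left (y y' x : B → K × K) : pai (y + y') x = pai y x + pai y' x := by
  simp only [pai, ← Finset.sum_add_distrib]
  refine Finset.sum_congr rfl fun b _ => ?_
  simp only [Pi.add_apply, Prod.fst_add, Prod.snd_add]
  ring

theorem pai_smul_left (c : K) (y x : B → K × K) : pai (c • y) x = c * pai y x := by
  simp only [pai, Finset.mul_sum]
  refine Finset.sum_congr rfl fun b _ => ?_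
  simp only [Pi.smul_apply, Prod.smul_fst, Prod.smul_snd, smul_eq_mul]
  ring

theorem pai_sub_left (y y' x : B → K × K) : pai (y - y') x = pai y x - pai y' x := by
  have := pai_add_left y ((-1 : K) • y') x
  rw [pai_smul_left, neg_one_smul, ← sub_eq_add_neg] at this
  rw [this]; ring

theorem pai_sub_right (y x x' : B → K × K) : pai y (x - x') = pai y x - pai y x' := by
  have := pai_add_right y x ((-1 : K) • x')
  rw [pai_smul_right, neg_one_smul, ← sub_eq_add_neg] at this
  rw [this]; ring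

theorem pai_single (y : B → K × K) (b : B) (u : K × K) :
    pai y (Pi.single b u) = u.2 * (y b).1 - u.1 * (y b).2 := by
  unfold pai
  rw [Finset.sum_eq_single b]
  · simp
  · intro c _ hc
    rw [Pi.single_eq_of_ne hc]
    simp
  · simp

theorem pai_ext {y y' : B → K × K} (h : ∀ x, pai y x = pai y' x) : y = y' := by
  funext b
  have h1 := h (Pi.single b (0, 1))
  have h2 := h (Pi.single b (-1, 0))
  rw [pai_single, pai_single] at h1 h2
  simp at h1 h2
  exact Prod.ext h1 h2

theorem pai_tab (M : Matrix B B K) (y x : B → K × K) :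
    pai (tact M.transpose y) x = pai y (tact M x) := by
  simp only [pai, tact_apply, Matrix.transpose_apply, Prod.fst_sum, Prod.snd_sum,
    Prod.smul_fst, Prod.smul_snd, smul_eq_mul, Finset.mul_sum, Finset.sum_mul,
    ← Finset.sum_sub_distrib]
  rw [Finset.sum_comm]
  refine Finset.sum_congr rfl fun b _ => Finset.sum_congr rfl fun c _ => ?_
  ring

theorem pai_e (y x : B → K × K) : pai (lact (uE K K) y) x = - pai y (lact (uE K K) x) := by
  simp only [pai, lact_apply, ← Finset.sum_neg_distrib]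
  refine Finset.sum_congr rfl fun b _ => ?_
  show (x b).2 * 0 - (x b).1 * (- (y b).1) = -((-(x b).1) * (y b).1 - 0 * (y b).2)
  ring

theorem pai_f (y x : B → K × K) : pai (lact (uF K K) y) x = - pai y (lact (uF K K) x) := by
  simp only [pai, lact_apply, ← Finset.sum_neg_distrib]
  refine Finset.sum_congr rfl fun b _ => ?_
  show (x b).2 * (-((1 / 2 : K) • (y b).2)) - (x b).1 * 0 =
    -(0 * (y b).1 - (-((1 / 2 : K) • (x b).2)) * (y b).2)
  simp only [smul_eq_mul]
  ring

theorem pai_h (y x : B → K × K) : pai (lact (uH K K) y) x = - pai y (lact (uH K K) x) := by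
  simp only [pai, lact_apply, ← Finset.sum_neg_distrib]
  refine Finset.sum_congr rfl fun b _ => ?_
  show (x b).2 * ((1 / 2 : K) • (y b).1) - (x b).1 * (-((1 / 2 : K) • (y b).2)) =
    -((-((1 / 2 : K) • (x b).2)) * (y b).1 - ((1 / 2 : K) • (x b).1) * (y b).2)
  simp only [smul_eq_mul]
  ring

/-- The twisted right multiplications on the dual of the bimodule. -/
def twD : ℕ → Ex
  | 0 => DX.Ra
  | 1 => DX.EE
  | 2 => DX.WW
  | 3 => DX.RB
  | 4 => DX.FF
  | 5 => DX.HH
  | 6 => DX.Rz
  | n => Ex.tab (48 + n)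

theorem pai_tab2 (n : ℕ) (hn : n < 13) (y x : B → K × K) :
    pai (ev2 (Utriv K K) (Ex.tab (48 + n)) y) x = pai y (ev2 (Utriv K K) (Ex.tab (13 + n)) x) := by
  show pai (tact (tmat2 K (48 + n)) y) x = pai y (tact (tmat2 K (13 + n)) x)
  rw [tmat2_tr n hn, pai_tab, tmat2_lt (K := K) (13 + n) (by omega)]

theorem pai_tw (n : ℕ) (hn : n < 13) (y x : B → K × K) :
    pai (ev2 (Utriv K K) (twD n) y) x = pai y (ev2 (Utriv K K) (twL n) x) := by
  have hE : ∀ y, ev2 (Utriv K K) DX.e y = lact (uE K K) y := fun _ => rfl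
  have hF : ∀ y, ev2 (Utriv K K) DX.f y = lact (uF K K) y := fun _ => rfl
  have hH : ∀ y, ev2 (Utriv K K) DX.h y = lact (uH K K) y := fun _ => rfl
  have hE' : ∀ y, ev2 (Utriv K K) X.e y = lact (uE K K) y := fun _ => rfl
  have hF' : ∀ y, ev2 (Utriv K K) X.f y = lact (uF K K) y := fun _ => rfl
  have hH' : ∀ y, ev2 (Utriv K K) X.h y = lact (uH K K) y := fun _ => rfl
  have cE : ∀ (n : ℕ) y, ev2 (Utriv K K) (Ex.tab n) (lact (uE K K) y) =
    lact (uE K K) (ev2 (Utriv K K) (Ex.tab n) y) := fun n y => tact_lact _ _ _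
  have cF : ∀ (n : ℕ) y, ev2 (Utriv K K) (Ex.tab n) (lact (uF K K) y) =
    lact (uF K K) (ev2 (Utriv K K) (Ex.tab n) y) := fun n y => tact_lact _ _ _
  have cH : ∀ (n : ℕ) y, ev2 (Utriv K K) (Ex.tab n) (lact (uH K K) y) =
    lact (uH K K) (ev2 (Utriv K K) (Ex.tab n) y) := fun n y => tact_lact _ _ _
  match n, hn with
  | 0, _ => exact pai_tab2 0 (by omega) y x
  | 1, _ =>
    show pai (ev2 (Utriv K K) (DX.Rb - DX.e * DX.Ra) y) x =
      pai y (ev2 (Utriv K K) (X.Lb + X.e * X.La) x)
    rw [ev2_sub, ev2_add, ev2_mul, ev2_mul, LinearMap.sub_apply, LinearMap.add_apply,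
      Module.End.mul_apply, Module.End.mul_apply, hE, hE', pai_sub_left, pai_e, pai_add_right]
    have h1 := pai_tab2 1 (by omega) y x
    have h2 := pai_tab2 0 (by omega) y (lact (uE K K) x)
    rw [cE] at h2
    rw [show DX.Rb = Ex.tab (48 + 1) from rfl, h1, show DX.Ra = Ex.tab (48 + 0) from rfl, h2]
    show _ = pai y (ev2 (Utriv K K) (Ex.tab (13 + 1)) x) +
      pai y (lact (uE K K) (ev2 (Utriv K K) (Ex.tab (13 + 0)) x))
    ring
  | 2, _ =>
    show pai (ev2 (Utriv K K) (DX.RA + DX.e * DX.RB) y) x =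
      pai y (ev2 (Utriv K K) (X.LA - X.e * X.LB) x)
    rw [ev2_sub, ev2_add, ev2_mul, ev2_mul, LinearMap.sub_apply, LinearMap.add_apply,
      Module.End.mul_apply, Module.End.mul_apply, hE, hE', pai_add_left, pai_e, pai_sub_right]
    have h1 := pai_tab2 2 (by omega) y x
    have h2 := pai_tab2 3 (by omega) y (lact (uE K K) x)
    rw [cE] at h2
    rw [show DX.RA = Ex.tab (48 + 2) from rfl, h1, show DX.RB = Ex.tab (48 + 3) from rfl, h2]
    show _ = pai y (ev2 (Utriv K K) (Ex.tab (13 + 2)) x) -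
      pai y (lact (uE K K) (ev2 (Utriv K K) (Ex.tab (13 + 3)) x))
    ring
  | 3, _ => exact pai_tab2 3 (by omega) y x
  | 4, _ =>
    show pai (ev2 (Utriv K K) (DX.Rf - DX.f * DX.Rz) y) x =
      pai y (ev2 (Utriv K K) (X.Lf + X.f * X.Lz) x)
    rw [ev2_sub, ev2_add, ev2_mul, ev2_mul, LinearMap.sub_apply, LinearMap.add_apply,
      Module.End.mul_apply, Module.End.mul_apply, hF, hF', pai_sub_left, pai_f, pai_add_right]
    have h1 := pai_tab2 4 (by omega) y x
    have h2 := pai_tab2 6 (by omega) y (lact (uF K K) x)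
    rw [cF] at h2
    rw [show DX.Rf = Ex.tab (48 + 4) from rfl, h1, show DX.Rz = Ex.tab (48 + 6) from rfl, h2]
    show _ = pai y (ev2 (Utriv K K) (Ex.tab (13 + 4)) x) +
      pai y (lact (uF K K) (ev2 (Utriv K K) (Ex.tab (13 + 6)) x))
    ring
  | 5, _ =>
    show pai (ev2 (Utriv K K) (DX.Rh - DX.h * DX.Rz) y) x =
      pai y (ev2 (Utriv K K) (X.Lh + X.h * X.Lz) x)
    rw [ev2_sub, ev2_add, ev2_mul, ev2_mul, LinearMap.sub_apply, LinearMap.add_apply,
      Module.End.mul_apply, Module.End.mul_apply, hH, hH', pai_sub_left, pai_h, pai_add_right]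
    have h1 := pai_tab2 5 (by omega) y x
    have h2 := pai_tab2 6 (by omega) y (lact (uH K K) x)
    rw [cH] at h2
    rw [show DX.Rh = Ex.tab (48 + 5) from rfl, h1, show DX.Rz = Ex.tab (48 + 6) from rfl, h2]
    show _ = pai y (ev2 (Utriv K K) (Ex.tab (13 + 5)) x) +
      pai y (lact (uH K K) (ev2 (Utriv K K) (Ex.tab (13 + 6)) x))
    ring
  | 6, _ => exact pai_tab2 6 (by omega) y x
  | n + 7, hn => exact pai_tab2 (n + 7) hn y x

end Pool.Agent.H379.NK
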