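import Pool.Agent.H379.NK.Bim2
import Pool.Agent.H379.NK.TY1
import Pool.Agent.H379.NK.Blocks

/-!
# The operators of the blocks in terms of tables
-/

set_option autoImplicit false
set_option linter.unusedSectionVars false

namespace Pool.Agent.H379.NK

open W450.Rig

universe u

variable {K : Type u} [Field K]
variable {V : Type u} [AddCommGroup V] [Module K V]

/-- table action -/
def ta1 (K V : Type u) [Field K] [AddCommGroup V] [Module K V] (n : ℕ) :
    Module.End K (B → V) := tact (tmat K n)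

/-- table action, extended list -/
def ta2 (K V : Type u) [Field K] [AddCommGroup V] [Module K V] (n : ℕ) :
    Module.End K (B → V) := tact (tmat2 K n)

theorem ta2_lt (n : ℕ) (hn : n < 48) : ta2 K V n = ta1 K V n := by
  unfold ta2 ta1
  rw [tmat2_lt n hn]

section lib

variable (S : SL K V) (y : B → V)

theorem rB_E : (rB S).E y = ta1 K V 1 y - lact S.e (ta1 K V 0 y) := by
  have h : S.ev (X.Rb - X.e * X.Ra) y = S.ev X.Rb y - S.ev (X.e * X.Ra) y := by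
    rw [S.ev_sub]; rfl
  exact h

theorem rB_F : (rB S).F y = ta1 K V 4 y - lact S.f (ta1 K V 6 y) := by
  have h : S.ev (X.Rf - X.f * X.Rz) y = S.ev X.Rf y - S.ev (X.f * X.Rz) y := by
    rw [S.ev_sub]; rfl
  exact h

theorem rB_H : (rB S).H y = ta1 K V 5 y - lact S.h (ta1 K V 6 y) := by
  have h : S.ev (X.Rh - X.h * X.Rz) y = S.ev X.Rh y - S.ev (X.h * X.Rz) y := by
    rw [S.ev_sub]; rfl
  exact h

theorem rB_W : (rB S).W y = ta1 K V 2 y + lact S.e (ta1 K V 3 y) := rfl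

theorem rB_a : (rB S).a y = ta1 K V 0 y := rfl
theorem rB_B : (rB S).B y = ta1 K V 3 y := rfl
theorem rB_z : (rB S).z y = ta1 K V 6 y := rfl
theorem rB_p00 : (rB S).p00 y = ta1 K V 7 y := rfl
theorem rB_p01 : (rB S).p01 y = ta1 K V 8 y := rfl
theorem rB_p02 : (rB S).p02 y = ta1 K V 9 y := rfl
theorem rB_p10 : (rB S).p10 y = ta1 K V 10 y := rfl
theorem rB_p11 : (rB S).p11 y = ta1 K V 11 y := rfl
theorem rB_p12 : (rB S).p12 y = ta1 K V 12 y := rfl

theorem dB_E : (dB S).E y = ta2 K V 49 y - lact S.e (ta2 K V 48 y) := by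
  have h : ev2 S (DX.Rb - DX.e * DX.Ra) y = ev2 S DX.Rb y - ev2 S (DX.e * DX.Ra) y := by
    rw [ev2_sub]; rfl
  exact h

theorem dB_F : (dB S).F y = ta2 K V 52 y - lact S.f (ta2 K V 54 y) := by
  have h : ev2 S (DX.Rf - DX.f * DX.Rz) y = ev2 S DX.Rf y - ev2 S (DX.f * DX.Rz) y := by
    rw [ev2_sub]; rfl
  exact h

theorem dB_H : (dB S).H y = ta2 K V 53 y - lact S.h (ta2 K V 54 y) := by
  have h : ev2 S (DX.Rh - DX.h * DX.Rz) y = ev2 S DX.Rh y - ev2 S (DX.h * DX.Rz) y := by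
    rw [ev2_sub]; rfl
  exact h

theorem dB_W : (dB S).W y = ta2 K V 50 y + lact S.e (ta2 K V 51 y) := rfl

theorem dB_a : (dB S).a y = ta2 K V 48 y := rfl
theorem dB_B : (dB S).B y = ta2 K V 51 y := rfl
theorem dB_z : (dB S).z y = ta2 K V 54 y := rfl
theorem dB_p00 : (dB S).p00 y = ta2 K V 55 y := rfl
theorem dB_p01 : (dB S).p01 y = ta2 K V 56 y := rfl
theorem dB_p02 : (dB S).p02 y = ta2 K V 57 y := rfl
theorem dB_p10 : (dB S).p10 y = ta2 K V 58 y := rfl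
theorem dB_p11 : (dB S).p11 y = ta2 K V 59 y := rfl
theorem dB_p12 : (dB S).p12 y = ta2 K V 60 y := rfl

end lib

section tw

variable [CharZero K] (y : B → V × V)

/-- the twisted multiplications -/
def tR (K V : Type u) [Field K] [CharZero K] [AddCommGroup V] [Module K V] (n : ℕ) :
    Module.End K (B → V × V) := ev2 (Utriv K V) (twR n)

/-- the twisted multiplications, dual -/
def tD (K V : Type u) [Field K] [CharZero K] [AddCommGroup V] [Module K V] (n : ℕ) :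
    Module.End K (B → V × V) := ev2 (Utriv K V) (twD n)

theorem tR_0 : tR K V 0 y = ta1 K (V × V) 0 y := by
  rw [← ta2_lt 0 (by norm_num)]; rfl
theorem tR_1 : tR K V 1 y = ta1 K (V × V) 1 y - lact (uE K V) (ta1 K (V × V) 0 y) := by
  have h : ev2 (Utriv K V) (X.Rb - X.e * X.Ra) y = ev2 (Utriv K V) X.Rb y -
      ev2 (Utriv K V) (X.e * X.Ra) y := by
    rw [ev2_sub]; rfl
  rw [← ta2_lt 1 (by norm_num), ← ta2_lt 0 (by norm_num)]
  exact h
theorem tR_2 : tR K V 2 y = ta1 K (V × V) 2 y + lact (uE K V) (ta1 K (V × V) 3 y) := by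
  rw [← ta2_lt 2 (by norm_num), ← ta2_lt 3 (by norm_num)]
  rfl
theorem tR_3 : tR K V 3 y = ta1 K (V × V) 3 y := by
  rw [← ta2_lt 3 (by norm_num)]; rfl
theorem tR_4 : tR K V 4 y = ta1 K (V × V) 4 y - lact (uF K V) (ta1 K (V × V) 6 y) := by
  have h : ev2 (Utriv K V) (X.Rf - X.f * X.Rz) y = ev2 (Utriv K V) X.Rf y -
      ev2 (Utriv K V) (X.f * X.Rz) y := by
    rw [ev2_sub]; rfl
  rw [← ta2_lt 4 (by norm_num), ← ta2_lt 6 (by norm_num)]
  exact h
theorem tR_5 : tR K V 5 y = ta1 K (V × V) 5 y - lact (uH K V) (ta1 K (V × V) 6 y) := by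
  have h : ev2 (Utriv K V) (X.Rh - X.h * X.Rz) y = ev2 (Utriv K V) X.Rh y -
      ev2 (Utriv K V) (X.h * X.Rz) y := by
    rw [ev2_sub]; rfl
  rw [← ta2_lt 5 (by norm_num), ← ta2_lt 6 (by norm_num)]
  exact h
theorem tR_6 : tR K V 6 y = ta1 K (V × V) 6 y := by
  rw [← ta2_lt 6 (by norm_num)]; rfl
theorem tR_7 : tR K V 7 y = ta1 K (V × V) 7 y := by
  rw [← ta2_lt 7 (by norm_num)]; rfl
theorem tR_8 : tR K V 8 y = ta1 K (V × V) 8 y := by
  rw [← ta2_lt 8 (by norm_num)]; rfl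
theorem tR_9 : tR K V 9 y = ta1 K (V × V) 9 y := by
  rw [← ta2_lt 9 (by norm_num)]; rfl
theorem tR_10 : tR K V 10 y = ta1 K (V × V) 10 y := by
  rw [← ta2_lt 10 (by norm_num)]; rfl
theorem tR_11 : tR K V 11 y = ta1 K (V × V) 11 y := by
  rw [← ta2_lt 11 (by norm_num)]; rfl
theorem tR_12 : tR K V 12 y = ta1 K (V × V) 12 y := by
  rw [← ta2_lt 12 (by norm_num)]; rfl

theorem tD_0 : tD K V 0 y = ta2 K (V × V) 48 y := rfl
theorem tD_1 : tD K V 1 y = ta2 K (V × V) 49 y - lact (uE K V) (ta2 K (V × V) 48 y) := by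
  have h : ev2 (Utriv K V) (DX.Rb - DX.e * DX.Ra) y = ev2 (Utriv K V) DX.Rb y -
      ev2 (Utriv K V) (DX.e * DX.Ra) y := by
    rw [ev2_sub]; rfl
  exact h
theorem tD_2 : tD K V 2 y = ta2 K (V × V) 50 y + lact (uE K V) (ta2 K (V × V) 51 y) := rfl
theorem tD_3 : tD K V 3 y = ta2 K (V × V) 51 y := rfl
theorem tD_4 : tD K V 4 y = ta2 K (V × V) 52 y - lact (uF K V) (ta2 K (V × V) 54 y) := by
  have h : ev2 (Utriv K V) (DX.Rf - DX.f * DX.Rz) y = ev2 (Utriv K V) DX.Rf y -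
      ev2 (Utriv K V) (DX.f * DX.Rz) y := by
    rw [ev2_sub]; rfl
  exact h
theorem tD_5 : tD K V 5 y = ta2 K (V × V) 53 y - lact (uH K V) (ta2 K (V × V) 54 y) := by
  have h : ev2 (Utriv K V) (DX.Rh - DX.h * DX.Rz) y = ev2 (Utriv K V) DX.Rh y -
      ev2 (Utriv K V) (DX.h * DX.Rz) y := by
    rw [ev2_sub]; rfl
  exact h
theorem tD_6 : tD K V 6 y = ta2 K (V × V) 54 y := rfl
theorem tD_7 : tD K V 7 y = ta2 K (V × V) 55 y := rfl
theorem tD_8 : tD K V 8 y = ta2 K (V × V) 56 y := rfl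
theorem tD_9 : tD K V 9 y = ta2 K (V × V) 57 y := rfl
theorem tD_10 : tD K V 10 y = ta2 K (V × V) 58 y := rfl
theorem tD_11 : tD K V 11 y = ta2 K (V × V) 59 y := rfl
theorem tD_12 : tD K V 12 y = ta2 K (V × V) 60 y := rfl

end tw

end Pool.Agent.H379.NK
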