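import Pool.Agent.H379.NK.Tri

/-!
# Columns of a ring, and matrices acting on powers of modules
-/

set_option autoImplicit false
set_option linter.unusedSectionVars false

namespace Pool.Agent.H379.NK

open Pool.Agent.H379.GS MulOpposite

universe u

/-! ### Columns -/

section col

variable {A : Type u} [Ring A]

/-- The column of an idempotent. -/
def Col (e : A) : Submodule A A where
  carrier := {t | t * e = t}
  add_mem' := by
    intro s t hs ht
    show (s + t) * e = s + t
    rw [add_mul, show s * e = s from hs, show t * e = t from ht]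
  zero_mem' := zero_mul e
  smul_mem' := by
    intro c t ht
    show (c * t) * e = c * t
    rw [mul_assoc, show t * e = t from ht]

theorem mem_Col {e t : A} : t ∈ Col e ↔ t * e = t := Iff.rfl

/-- Right multiplication. -/
def rmul {e e' : A} (s : A) (h : s * e' = s) : Col e →ₗ[A] Col e' where
  toFun t := ⟨t.1 * s, by rw [mem_Col, mul_assoc, h]⟩
  map_add' x y := Subtype.ext (add_mul _ _ _)
  map_smul' c x := Subtype.ext (mul_assoc _ _ _)

theorem rmul_val {e e' : A} (s : A) (h : s * e' = s) (t : Col e) :
    ((rmul s h t : Col e') : A) = t.1 * s := rfl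

theorem col_proj {e : A} (he : e * e = e) : Module.Projective A (Col e) := by
  let r : A →ₗ[A] Col e :=
    { toFun := fun t => ⟨t * e, by rw [mem_Col, mul_assoc, he]⟩
      map_add' := fun x y => Subtype.ext (add_mul _ _ _)
      map_smul' := fun c x => Subtype.ext (mul_assoc _ _ _) }
  refine Module.Projective.of_split (Col e).subtype r ?_
  refine LinearMap.ext fun t => Subtype.ext ?_
  exact t.2

/-- Linear maps from a column are determined by the value at the idempotent. -/
theorem col_hom {e : A} (he : e * e = e) {X : Type u} [AddCommGroup X] [Module A X]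
    (g : Col e →ₗ[A] X) (t : Col e) : g t = t.1 • g ⟨e, he⟩ := by
  rw [← map_smul]
  congr 1
  exact Subtype.ext t.2.symm

end col

/-! ### Matrices acting on powers -/

section mat

variable {K : Type u} [Field K] {A : Type u} [Ring A]
variable {C : Type u} [AddCommGroup C] [Module A C] [Module K C] [SMulCommClass A K C]
variable {C' : Type u} [AddCommGroup C'] [Module A C'] [Module K C'] [SMulCommClass A K C']

/-- The action of a linear map `K^n → K^{n'}` on `C^n → C^{n'}`. -/
def mat {n n' : ℕ} (L : (Fin n → K) →ₗ[K] (Fin n' → K)) : (Fin n → C) →ₗ[A] (Fin n' → C) where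
  toFun x := fun i => ∑ j, L (Pi.single j 1) i • x j
  map_add' x y := by
    funext i
    simp only [Pi.add_apply, smul_add, Finset.sum_add_distrib]
  map_smul' c x := by
    funext i
    simp only [Pi.smul_apply, RingHom.id_apply, Finset.smul_sum]
    exact Finset.sum_congr rfl fun j _ => (smul_comm c _ _).symm

theorem mat_apply {n n' : ℕ} (L : (Fin n → K) →ₗ[K] (Fin n' → K)) (x : Fin n → C)
    (i : Fin n') : (mat L : (Fin n → C) →ₗ[A] (Fin n' → C)) x i =
      ∑ j, L (Pi.single j 1) i • x j := rfl

/-- A linear map applied coordinatewise. -/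
def cw {n : ℕ} (g : C →ₗ[A] C') : (Fin n → C) →ₗ[A] (Fin n → C') where
  toFun x := fun i => g (x i)
  map_add' x y := by funext i; simp
  map_smul' c x := by funext i; simp

theorem cw_apply {n : ℕ} (g : C →ₗ[A] C') (x : Fin n → C) (i : Fin n) :
    cw g x i = g (x i) := rfl

theorem lin_mat {n n' : ℕ} (L : (Fin n → K) →ₗ[K] (Fin n' → K)) (v : Fin n → K) (i : Fin n') :
    L v i = ∑ j, L (Pi.single j 1) i * v j := by
  have h : v = ∑ j, v j • (Pi.single j 1 : Fin n → K) := by
    funext k
    rw [Finset.sum_apply, Finset.sum_eq_single k]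
    · simp
    · intro j _ hj
      simp [hj.symm]
    · simp
  nth_rewrite 1 [h]
  rw [map_sum, Finset.sum_apply]
  refine Finset.sum_congr rfl fun j _ => ?_
  rw [map_smul, Pi.smul_apply, smul_eq_mul, mul_comm]

/-- A functional intertwines `mat L` and `L`. -/
theorem mat_fun {n n' : ℕ} (L : (Fin n → K) →ₗ[K] (Fin n' → K)) (φ : C →ₗ[K] K)
    (x : Fin n → C) (i : Fin n') :
    φ ((mat L : (Fin n → C) →ₗ[A] (Fin n' → C)) x i) = L (fun j => φ (x j)) i := by
  rw [mat_apply, map_sum, lin_mat]
  refine Finset.sum_congr rfl fun j _ => ?_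
  rw [map_smul, smul_eq_mul]

end mat

end Pool.Agent.H379.NK
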