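import Pool.Agent.H379.NK.TY17
import Pool.Agent.H190.NK.Final

/-!
# Failure of the first conjecture of Tachikawa
-/

set_option autoImplicit false

open CategoryTheory CategoryTheory.Abelian
open Pool.Agent.H379.GS

namespace Pool.Agent.H379.NK

/-- **The first conjecture of Tachikawa fails**: there is a finite-dimensional `ℚ`-algebra `A`
which is not self-injective, with `Ext^i_A(D A, A) = 0` for all `i ≥ 1`. -/
theorem tachikawa_one_false :
    ∃ (A : Type) (_ : Ring A) (_ : Algebra ℚ A), Pool.Agent.H190.NK.Tach1Fails ℚ A := by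
  obtain ⟨T, _, _, X, _, _, h1, h2, h3, h4⟩ := tachikawa_two_false ℚ
  exact Pool.Agent.H190.NK.tach1_of_tach2 ℚ T h1 X h3 h4

end Pool.Agent.H379.NK
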