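import Pool.Agent.H379.NK.Blocks

/-!
# The cone of a map between two operator systems

Let `A0`, `A1` be operator systems on `Q0`, `Q1` (over the same ring `O`), `ψ : Q1 → Q0` a map of
operator systems.  Each operator system has a complex (`OS.Pn`, `OS.D`, see `OS.lean`,
`OS2.lean`); we consider the cone.
-/

set_option autoImplicit false
set_option linter.unusedSectionVars false

namespace Pool.Agent.H379.NK

universe u v w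

variable {O : Type u} [Ring O]
variable {Q0 : Type v} [AddCommGroup Q0] [Module O Q0]
variable {Q1 : Type w} [AddCommGroup Q1] [Module O Q1]

/-- The elements killed by `E`, `F`, `H` in the component `12`. -/
def OS.Kk {Q : Type v} [AddCommGroup Q] [Module O Q] (A : OS O Q) : Submodule O Q where
  carrier := {w | A.p12 w = w ∧ A.E w = 0 ∧ A.F w = 0 ∧ A.H w = 0}
  add_mem' := by
    rintro a b ⟨h1, h2, h3, h4⟩ ⟨g1, g2, g3, g4⟩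
    exact ⟨by rw [map_add, h1, g1], by rw [map_add, h2, g2, add_zero],
      by rw [map_add, h3, g3, add_zero], by rw [map_add, h4, g4, add_zero]⟩
  zero_mem' := ⟨map_zero _, map_zero _, map_zero _, map_zero _⟩
  smul_mem' := by
    rintro c a ⟨h1, h2, h3, h4⟩
    exact ⟨by rw [map_smul, h1], by rw [map_smul, h2, smul_zero],
      by rw [map_smul, h3, smul_zero], by rw [map_smul, h4, smul_zero]⟩

/-- `ψ` on each of the four components. -/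
def psi4 (ψ : Q1 →ₗ[O] Q0) : X4 Q1 →ₗ[O] X4 Q0 := ψ.prodMap (ψ.prodMap (ψ.prodMap ψ))

/-- The ambient module of the cone. -/
abbrev CF (Q0 : Type v) (Q1 : Type w) : Type (max v w) := X4 Q0 × X4 Q1

/-- The differentials of the cone, `cd n : C (n + 1) → C n`. -/
def cd (A0 : OS O Q0) (A1 : OS O Q1) (ψ : Q1 →ₗ[O] Q0) : ℕ → (CF Q0 Q1 →ₗ[O] CF Q0 Q1)
  | 0 => (LinearMap.coprod (A0.D 0) (psi4 ψ)).prod 0
  | n + 1 => (LinearMap.coprod (A0.D (n + 1)) (psi4 ψ)).prod (-(A1.D n ∘ₗ LinearMap.snd O _ _))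

/-- The projections onto the terms of the cone. -/
def cp (A0 : OS O Q0) (A1 : OS O Q1) : ℕ → (CF Q0 Q1 →ₗ[O] CF Q0 Q1)
  | 0 => (A0.pn 0).prodMap 0
  | n + 1 => (A0.pn (n + 1)).prodMap (A1.pn n)

/-- The terms of the cone. -/
def Cn (A0 : OS O Q0) (A1 : OS O Q1) (n : ℕ) : Submodule O (CF Q0 Q1) :=
  LinearMap.eqLocus (cp A0 A1 n) LinearMap.id

/-- The third homology. -/
def N3 (A1 : OS O Q1) (ψ : Q1 →ₗ[O] Q0) : Submodule O Q1 := A1.Kk ⊓ LinearMap.ker ψ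

/-- The map giving the third homology. -/
def tau (Q0 : Type v) [AddCommGroup Q0] [Module O Q0] (A1 : OS O Q1) : CF Q0 Q1 →ₗ[O] Q1 where
  toFun x := A1.W x.2.2.2.2
  map_add' _ _ := map_add _ _ _
  map_smul' _ _ := map_smul _ _ _

variable {A0 : OS O Q0} {A1 : OS O Q1} {ψ : Q1 →ₗ[O] Q0}

theorem psi4_D1 (m : OS.Map A1 A0 ψ.toAddMonoidHom) (x : X4 Q1) :
    psi4 ψ (A1.D1 x) = A0.D1 (psi4 ψ x) := by
  have mE : ∀ x, ψ (A1.E x) = A0.E (ψ x) := m.E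
  have mF : ∀ x, ψ (A1.F x) = A0.F (ψ x) := m.F
  have mH : ∀ x, ψ (A1.H x) = A0.H (ψ x) := m.H
  obtain ⟨x0, xh, xf, xx⟩ := x
  refine Prod.ext ?_ (Prod.ext ?_ (Prod.ext ?_ ?_))
  · show ψ (A1.E x0 + A1.H xh + A1.F xf) = A0.E (ψ x0) + A0.H (ψ xh) + A0.F (ψ xf)
    simp only [map_add, mE, mF, mH]
  · exact map_zero ψ
  · exact map_zero ψ
  · exact map_zero ψ

theorem psi4_D2 (m : OS.Map A1 A0 ψ.toAddMonoidHom) (x : X4 Q1) :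
    psi4 ψ (A1.D2 x) = A0.D2 (psi4 ψ x) := by
  have mE : ∀ x, ψ (A1.E x) = A0.E (ψ x) := m.E
  have mF : ∀ x, ψ (A1.F x) = A0.F (ψ x) := m.F
  have mH : ∀ x, ψ (A1.H x) = A0.H (ψ x) := m.H
  have mW : ∀ x, ψ (A1.W x) = A0.W (ψ x) := m.W
  have ma : ∀ x, ψ (A1.a x) = A0.a (ψ x) := m.a
  have mz : ∀ x, ψ (A1.z x) = A0.z (ψ x) := m.z
  obtain ⟨x0, xh, xf, xx⟩ := x
  refine Prod.ext ?_ (Prod.ext ?_ (Prod.ext ?_ ?_))
  · show ψ (A1.W x0 - (A1.H xh + A1.z xh) - A1.F xf) =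
      A0.W (ψ x0) - (A0.H (ψ xh) + A0.z (ψ xh)) - A0.F (ψ xf)
    simp only [map_add, map_sub, mW, mF, mH, mz]
  · show ψ (A1.E xh + A1.a xf + A1.F xx) = A0.E (ψ xh) + A0.a (ψ xf) + A0.F (ψ xx)
    simp only [map_add, mE, mF, ma]
  · show ψ (A1.E xf - (A1.H xx - A1.z xx)) = A0.E (ψ xf) - (A0.H (ψ xx) - A0.z (ψ xx))
    simp only [map_sub, mE, mH, mz]
  · exact map_zero ψ

theorem psi4_Do (m : OS.Map A1 A0 ψ.toAddMonoidHom) (k : ℤ) (x : X4 Q1) :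
    psi4 ψ (A1.Do k x) = A0.Do k (psi4 ψ x) := by
  have mE : ∀ x, ψ (A1.E x) = A0.E (ψ x) := m.E
  have mF : ∀ x, ψ (A1.F x) = A0.F (ψ x) := m.F
  have mH : ∀ x, ψ (A1.H x) = A0.H (ψ x) := m.H
  have mW : ∀ x, ψ (A1.W x) = A0.W (ψ x) := m.W
  have ma : ∀ x, ψ (A1.a x) = A0.a (ψ x) := m.a
  have mB : ∀ x, ψ (A1.B x) = A0.B (ψ x) := m.B
  have mz : ∀ x, ψ (A1.z x) = A0.z (ψ x) := m.z
  obtain ⟨x0, xh, xf, xx⟩ := x
  refine Prod.ext ?_ (Prod.ext ?_ (Prod.ext ?_ ?_))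
  · show ψ (A1.E x0 + A1.H xh + A1.F xf + k • A1.a (A1.z (A1.z xx))) =
      A0.E (ψ x0) + A0.H (ψ xh) + A0.F (ψ xf) + k • A0.a (A0.z (A0.z (ψ xx)))
    simp only [map_add, map_zsmul, mE, mF, mH, ma, mz]
  · show ψ (A1.W xh - A1.B xf - A1.F xx) = A0.W (ψ xh) - A0.B (ψ xf) - A0.F (ψ xx)
    simp only [map_sub, mW, mB, mF]
  · show ψ (A1.W xf + A1.H xx) = A0.W (ψ xf) + A0.H (ψ xx)
    simp only [map_add, mW, mH]
  · exact mE xx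

theorem psi4_De (m : OS.Map A1 A0 ψ.toAddMonoidHom) (c : ℤ) (x : X4 Q1) :
    psi4 ψ (A1.De c x) = A0.De c (psi4 ψ x) := by
  have mE : ∀ x, ψ (A1.E x) = A0.E (ψ x) := m.E
  have mF : ∀ x, ψ (A1.F x) = A0.F (ψ x) := m.F
  have mH : ∀ x, ψ (A1.H x) = A0.H (ψ x) := m.H
  have mW : ∀ x, ψ (A1.W x) = A0.W (ψ x) := m.W
  have ma : ∀ x, ψ (A1.a x) = A0.a (ψ x) := m.a
  have mB : ∀ x, ψ (A1.B x) = A0.B (ψ x) := m.B
  have mz : ∀ x, ψ (A1.z x) = A0.z (ψ x) := m.z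
  obtain ⟨x0, xh, xf, xx⟩ := x
  refine Prod.ext ?_ (Prod.ext ?_ (Prod.ext ?_ ?_))
  · show ψ (A1.W x0 - (A1.H xh + A1.z xh) - A1.F xf + c • A1.B (A1.z (A1.z xx))) =
      A0.W (ψ x0) - (A0.H (ψ xh) + A0.z (ψ xh)) - A0.F (ψ xf) + c • A0.B (A0.z (A0.z (ψ xx)))
    simp only [map_add, map_sub, map_zsmul, mW, mF, mH, mB, mz]
  · show ψ (A1.E xh + A1.a xf + A1.F xx) = A0.E (ψ xh) + A0.a (ψ xf) + A0.F (ψ xx)
    simp only [map_add, mE, mF, ma]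
  · show ψ (A1.E xf - (A1.H xx - A1.z xx)) = A0.E (ψ xf) - (A0.H (ψ xx) - A0.z (ψ xx))
    simp only [map_sub, mE, mH, mz]
  · exact mW xx

theorem psi4_D (m : OS.Map A1 A0 ψ.toAddMonoidHom) (n : ℕ) (x : X4 Q1) :
    psi4 ψ (A1.D n x) = A0.D n (psi4 ψ x) := by
  match n with
  | 0 => exact psi4_D1 m x
  | 1 => exact psi4_D2 m x
  | n + 2 =>
    rcases Nat.even_or_odd' n with ⟨k, rfl | rfl⟩
    · rw [A1.D_even, A0.D_even]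
      exact psi4_Do m _ x
    · rw [show 2 * k + 1 + 2 = 2 * k + 3 by omega, A1.D_odd, A0.D_odd]
      exact psi4_De m _ x

theorem psi4_pn (m : OS.Map A1 A0 ψ.toAddMonoidHom) (n : ℕ) (x : X4 Q1) :
    psi4 ψ (A1.pn n x) = A0.pn n (psi4 ψ x) := by
  have m00 : ∀ x, ψ (A1.p00 x) = A0.p00 (ψ x) := m.p00
  have m01 : ∀ x, ψ (A1.p01 x) = A0.p01 (ψ x) := m.p01
  have m02 : ∀ x, ψ (A1.p02 x) = A0.p02 (ψ x) := m.p02
  have m10 : ∀ x, ψ (A1.p10 x) = A0.p10 (ψ x) := m.p10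
  have m11 : ∀ x, ψ (A1.p11 x) = A0.p11 (ψ x) := m.p11
  have m12 : ∀ x, ψ (A1.p12 x) = A0.p12 (ψ x) := m.p12
  obtain ⟨x0, xh, xf, xx⟩ := x
  match n with
  | 0 => exact Prod.ext (m00 x0) (Prod.ext (map_zero ψ) (Prod.ext (map_zero ψ) (map_zero ψ)))
  | 1 => exact Prod.ext (m10 x0) (Prod.ext (m01 xh) (Prod.ext (m01 xf) (map_zero ψ)))
  | n + 2 =>
    rw [OS.pn, OS.pn]
    split_ifs
    · exact Prod.ext (m00 x0) (Prod.ext (m11 xh) (Prod.ext (m11 xf) (m02 xx)))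
    · exact Prod.ext (m10 x0) (Prod.ext (m01 xh) (Prod.ext (m01 xf) (m12 xx)))

theorem psi4_mem (m : OS.Map A1 A0 ψ.toAddMonoidHom) {n : ℕ} {x : X4 Q1} (hx : x ∈ A1.Pn n) :
    psi4 ψ x ∈ A0.Pn n := by
  rw [OS.mem_Pn] at hx ⊢
  rw [← psi4_pn m, hx]

theorem mem_Cn0 {x : CF Q0 Q1} : x ∈ Cn A0 A1 0 ↔ x.1 ∈ A0.Pn 0 ∧ x.2 = 0 := by
  constructor
  · intro h
    exact ⟨congrArg Prod.fst h, (congrArg Prod.snd h).symm⟩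
  · rintro ⟨h1, h2⟩
    exact Prod.ext h1 h2.symm

theorem mem_Cn {n : ℕ} {x : CF Q0 Q1} :
    x ∈ Cn A0 A1 (n + 1) ↔ x.1 ∈ A0.Pn (n + 1) ∧ x.2 ∈ A1.Pn n := by
  constructor
  · intro h
    exact ⟨congrArg Prod.fst h, congrArg Prod.snd h⟩
  · rintro ⟨h1, h2⟩
    exact Prod.ext h1 h2

theorem cd_zero_apply (x : CF Q0 Q1) : cd A0 A1 ψ 0 x = (A0.D 0 x.1 + psi4 ψ x.2, 0) := rfl

theorem cd_succ_apply (n : ℕ) (x : CF Q0 Q1) :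
    cd A0 A1 ψ (n + 1) x = (A0.D (n + 1) x.1 + psi4 ψ x.2, -(A1.D n x.2)) := rfl

theorem cd_zero_iff {x : CF Q0 Q1} :
    cd A0 A1 ψ 0 x = 0 ↔ A0.D 0 x.1 + psi4 ψ x.2 = 0 := by
  rw [cd_zero_apply]
  constructor
  · intro h
    exact congrArg Prod.fst h
  · intro h
    exact Prod.ext h rfl

theorem cd_succ_iff {n : ℕ} {x : CF Q0 Q1} :
    cd A0 A1 ψ (n + 1) x = 0 ↔ A0.D (n + 1) x.1 + psi4 ψ x.2 = 0 ∧ A1.D n x.2 = 0 := by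
  rw [cd_succ_apply]
  constructor
  · intro h
    exact ⟨congrArg Prod.fst h, neg_eq_zero.1 (congrArg Prod.snd h)⟩
  · rintro ⟨h1, h2⟩
    exact Prod.ext h1 (neg_eq_zero.2 h2)

theorem D2_eq (A : OS O Q0) : A.D 2 = A.Do 1 := by
  have h := A.D_even 0
  simp only [mul_zero, zero_add, Nat.cast_zero] at h
  exact h

theorem cp_idem (L0 : A0.Laws) (L1 : A1.Laws) (n : ℕ) (x : CF Q0 Q1) :
    cp A0 A1 n (cp A0 A1 n x) = cp A0 A1 n x := by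
  match n with
  | 0 => exact Prod.ext (L0.pn_idem 0 x.1) rfl
  | n + 1 => exact Prod.ext (L0.pn_idem (n + 1) x.1) (L1.pn_idem n x.2)

theorem cd_mem (L0 : A0.Laws) (L1 : A1.Laws) (m : OS.Map A1 A0 ψ.toAddMonoidHom) (n : ℕ)
    {x : CF Q0 Q1} (hx : x ∈ Cn A0 A1 (n + 1)) : cd A0 A1 ψ n x ∈ Cn A0 A1 n := by
  obtain ⟨h1, h2⟩ := mem_Cn.1 hx
  match n with
  | 0 =>
    exact mem_Cn0.2 ⟨Submodule.add_mem _ (L0.D_mem 0 h1) (psi4_mem m h2), rfl⟩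
  | n + 1 =>
    exact mem_Cn.2 ⟨Submodule.add_mem _ (L0.D_mem (n + 1) h1) (psi4_mem m h2),
      Submodule.neg_mem _ (L1.D_mem n h2)⟩

theorem cd_cd (L0 : A0.Laws) (L1 : A1.Laws) (m : OS.Map A1 A0 ψ.toAddMonoidHom) (n : ℕ)
    {x : CF Q0 Q1} (hx : x ∈ Cn A0 A1 (n + 2)) : cd A0 A1 ψ n (cd A0 A1 ψ (n + 1) x) = 0 := by
  obtain ⟨h1, h2⟩ := mem_Cn.1 hx
  have key : A0.D n (A0.D (n + 1) x.1 + psi4 ψ x.2) + psi4 ψ (-(A1.D n x.2)) = 0 := by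
    rw [map_add, map_neg, psi4_D m, L0.D_D n h1]
    abel
  match n with
  | 0 =>
    rw [cd_zero_iff]
    exact key
  | n + 1 =>
    rw [cd_succ_iff]
    refine ⟨key, ?_⟩
    show A1.D n (-(A1.D (n + 1) x.2)) = 0
    rw [map_neg, L1.D_D n h2, neg_zero]

/-- The hypotheses on `ψ` in low degrees. -/
structure ConeHyp (A0 : OS O Q0) (A1 : OS O Q1) (ψ : Q1 →ₗ[O] Q0) : Prop where
  map : OS.Map A1 A0 ψ.toAddMonoidHom
  inj : ∀ y x0 xh xf, A1.p00 y = y → A0.p10 x0 = x0 → A0.p01 xh = xh → A0.p01 xf = xf →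
    A0.E x0 + A0.H xh + A0.F xf + ψ y = 0 →
    ∃ y0 yh yf, A1.p10 y0 = y0 ∧ A1.p01 yh = yh ∧ A1.p01 yf = yf ∧
      A1.E y0 + A1.H yh + A1.F yf = y
  surj : ∀ w ∈ A0.Kk, ∃ w' ∈ A1.Kk, ψ w' = w

theorem cd_ex (L0 : A0.Laws) (L1 : A1.Laws) (X0 : A0.EWex) (X1 : A1.EWex) (G0 : A0.Ex1)
    (G1 : A1.Ex1) (h : ConeHyp A0 A1 ψ) (n : ℕ) (hn : n ≠ 2) {x : CF Q0 Q1}
    (hx : x ∈ Cn A0 A1 (n + 1)) (h0 : cd A0 A1 ψ n x = 0) :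
    ∃ y ∈ Cn A0 A1 (n + 2), cd A0 A1 ψ (n + 1) y = x := by
  obtain ⟨x, y⟩ := x
  obtain ⟨h1, h2⟩ := mem_Cn.1 hx
  simp only at h1 h2
  match n, hn with
  | 0, _ =>
    have e := cd_zero_iff.1 h0
    simp only at e
    obtain ⟨j1, j2⟩ := A1.mem_P0.1 h2
    obtain ⟨i1, i2, i3, i4⟩ := A0.mem_P1.1 h1
    obtain ⟨y0, yh, yf, k1, k2, k3, k4⟩ := h.inj y.1 x.1 x.2.1 x.2.2.1 j1 i1 i2 i3
      (congrArg Prod.fst e)
    have hy' : ((y0, yh, yf, 0) : X4 Q1) ∈ A1.Pn 1 := A1.mem_P1.2 ⟨k1, k2, k3, rfl⟩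
    have ey' : A1.D 0 (y0, yh, yf, 0) = y := Prod.ext k4 j2.symm
    obtain ⟨x'', hx'', ex''⟩ := L0.D_ex0 G0
      (Submodule.add_mem _ h1 (psi4_mem h.map hy')) (by
        rw [map_add, ← psi4_D h.map, ey', e])
    refine ⟨(x'', -(y0, yh, yf, 0)), mem_Cn.2 ⟨hx'', Submodule.neg_mem _ hy'⟩, ?_⟩
    rw [cd_succ_apply]
    refine Prod.ext ?_ ?_
    · show A0.D 1 x'' + psi4 ψ (-(y0, yh, yf, 0)) = x
      rw [ex'', map_neg]; abel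
    · show -(A1.D 0 (-(y0, yh, yf, 0))) = y
      rw [map_neg, ey', neg_neg]
  | 1, _ =>
    obtain ⟨e1, e2⟩ := cd_succ_iff.1 h0
    simp only at e1 e2
    obtain ⟨y', hy', ey'⟩ := L1.D_ex0 G1 h2 e2
    have hx' : x + psi4 ψ y' ∈ A0.Pn 2 := Submodule.add_mem _ h1 (psi4_mem h.map hy')
    have ex' : A0.D 1 (x + psi4 ψ y') = 0 := by
      rw [map_add, ← psi4_D h.map, ey']
      exact e1
    obtain ⟨w', hw', ew'⟩ := h.surj _ (L0.W_cyc hx' ex')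
    obtain ⟨q1, q2, q3, q4⟩ := hw'
    obtain ⟨y'', hy'', ey'', ewy⟩ := L1.W_lift X1 q1 q2 q3 q4
    have mW : ∀ x, ψ (A1.W x) = A0.W (ψ x) := h.map.W
    obtain ⟨x'', hx'', ex''⟩ := L0.D_ex2 X0
      (Submodule.sub_mem _ hx' (psi4_mem h.map hy'')) (by
        rw [map_sub, ex', ← psi4_D h.map, ey'', map_zero, sub_zero]) (by
        show A0.W ((x + psi4 ψ y').2.2.2 - ψ y''.2.2.2) = 0
        rw [map_sub, ← mW, ewy, ew', sub_self])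
    refine ⟨(x'', y'' - y'), mem_Cn.2 ⟨hx'', Submodule.sub_mem _ hy'' hy'⟩, ?_⟩
    rw [cd_succ_apply]
    refine Prod.ext ?_ ?_
    · show A0.D 2 x'' + psi4 ψ (y'' - y') = x
      rw [ex'', map_sub]; abel
    · show -(A1.D 1 (y'' - y')) = y
      rw [map_sub, ey', ey'']; abel
  | 2, hn => exact absurd rfl hn
  | n + 3, _ =>
    obtain ⟨e1, e2⟩ := cd_succ_iff.1 h0
    simp only at e1 e2
    obtain ⟨y', hy', ey'⟩ := L1.D_ex X1 n h2 e2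
    have hx' : x + psi4 ψ y' ∈ A0.Pn (n + 4) :=
      Submodule.add_mem _ h1 (psi4_mem h.map hy')
    have ex' : A0.D (n + 3) (x + psi4 ψ y') = 0 := by
      rw [map_add, ← psi4_D h.map, ey']
      exact e1
    obtain ⟨x'', hx'', ex''⟩ := L0.D_ex X0 (n + 1) hx' ex'
    refine ⟨(x'', -y'), mem_Cn.2 ⟨hx'', Submodule.neg_mem _ hy'⟩, ?_⟩
    rw [cd_succ_apply]
    refine Prod.ext ?_ ?_
    · show A0.D (n + 4) x'' + psi4 ψ (-y') = x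
      rw [ex'', map_neg]; abel
    · show -(A1.D (n + 3) (-y')) = y
      rw [map_neg, ey', neg_neg]

theorem tau_mem (L0 : A0.Laws) (L1 : A1.Laws) (h : ConeHyp A0 A1 ψ) {x : CF Q0 Q1}
    (hx : x ∈ Cn A0 A1 3) (h0 : cd A0 A1 ψ 2 x = 0) : tau Q0 A1 x ∈ N3 A1 ψ := by
  obtain ⟨x, y⟩ := x
  obtain ⟨h1, h2⟩ := mem_Cn.1 hx
  obtain ⟨e1, e2⟩ := cd_succ_iff.1 h0
  simp only at h1 h2 e1 e2
  refine ⟨L1.W_cyc h2 e2, ?_⟩
  have mW : ∀ x, ψ (A1.W x) = A0.W (ψ x) := h.map.W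
  have e4 : A0.E x.2.2.2 + ψ y.2.2.2 = 0 := by
    rw [D2_eq] at e1
    exact congrArg (fun p => p.2.2.2) e1
  show ψ (A1.W y.2.2.2) = 0
  rw [mW, ← neg_eq_of_add_eq_zero_right e4, map_neg, L0.WE, neg_zero]

theorem tau_surj (L0 : A0.Laws) (L1 : A1.Laws) (X0 : A0.EWex) (X1 : A1.EWex)
    (h : ConeHyp A0 A1 ψ) {w : Q1} (hw : w ∈ N3 A1 ψ) :
    ∃ x ∈ Cn A0 A1 3, cd A0 A1 ψ 2 x = 0 ∧ tau Q0 A1 x = w := by
  obtain ⟨⟨q1, q2, q3, q4⟩, q5⟩ := hw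
  have mW : ∀ x, ψ (A1.W x) = A0.W (ψ x) := h.map.W
  obtain ⟨y, hy, ey, ewy⟩ := L1.W_lift X1 q1 q2 q3 q4
  obtain ⟨x, hx, ex⟩ := L0.D_ex2 X0 (psi4_mem h.map hy)
    (by rw [← psi4_D h.map, ey, map_zero]) (by
      show A0.W (ψ y.2.2.2) = 0
      rw [← mW, ewy]
      exact q5)
  refine ⟨(-x, y), mem_Cn.2 ⟨Submodule.neg_mem _ hx, hy⟩, cd_succ_iff.2 ⟨?_, ey⟩, ewy⟩
  show A0.D 2 (-x) + psi4 ψ y = 0
  rw [map_neg, ex, neg_add_cancel]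

theorem tau_zero (L0 : A0.Laws) (L1 : A1.Laws) (X0 : A0.EWex) (X1 : A1.EWex)
    (h : ConeHyp A0 A1 ψ) {x : CF Q0 Q1} (hx : x ∈ Cn A0 A1 3) (h0 : cd A0 A1 ψ 2 x = 0)
    (ht : tau Q0 A1 x = 0) : ∃ y ∈ Cn A0 A1 4, cd A0 A1 ψ 3 y = x := by
  obtain ⟨x, y⟩ := x
  obtain ⟨h1, h2⟩ := mem_Cn.1 hx
  obtain ⟨e1, e2⟩ := cd_succ_iff.1 h0
  simp only at h1 h2 e1 e2
  obtain ⟨y', hy', ey'⟩ := L1.D_ex2 X1 h2 e2 ht
  have hx' : x + psi4 ψ y' ∈ A0.Pn 3 := Submodule.add_mem _ h1 (psi4_mem h.map hy')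
  have ex' : A0.D 2 (x + psi4 ψ y') = 0 := by
    rw [map_add, ← psi4_D h.map, ey']
    exact e1
  obtain ⟨x'', hx'', ex''⟩ := L0.D_ex X0 0 hx' ex'
  refine ⟨(x'', -y'), mem_Cn.2 ⟨hx'', Submodule.neg_mem _ hy'⟩, ?_⟩
  rw [cd_succ_apply]
  refine Prod.ext ?_ ?_
  · show A0.D 3 x'' + psi4 ψ (-y') = x
    rw [ex'', map_neg]; abel
  · show -(A1.D 2 (-y')) = y
    rw [map_neg, ey', neg_neg]

theorem tau_cd (L0 : A0.Laws) (L1 : A1.Laws) {y : CF Q0 Q1} (hy : y ∈ Cn A0 A1 4) :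
    tau Q0 A1 (cd A0 A1 ψ 3 y) = 0 := by
  show A1.W (-(A1.D 2 y.2)).2.2.2 = 0
  rw [D2_eq]
  show A1.W (-(A1.E y.2.2.2.2)) = 0
  rw [map_neg, L1.WE, neg_zero]

end Pool.Agent.H379.NK
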