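import Pool.Agent.H379.NK.Blocks

/-!
# The dual block in low degrees
-/

set_option autoImplicit false
set_option linter.unusedSectionVars false

namespace Pool.Agent.H379.NK

open W450.Rig

universe u

variable {K : Type u} [Field K]
variable {V : Type u} [AddCommGroup V] [Module K V]

theorem dd_sF0 : chk2 (DX.sF * DX.P00 - DX.P01 * DX.sF) = true := by decide +kernel
theorem dd_sF1 : chk2 (DX.sF * DX.P01 - DX.P02 * DX.sF) = true := by decide +kernel
theorem dd_sF2 : chk2 (DX.sF * DX.P10 - DX.P11 * DX.sF) = true := by decide +kernel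
theorem dd_sHs : chk2 (DX.sH * DX.P01 - DX.P02 * DX.sH) = true := by decide +kernel

variable (S : SL K V)

theorem FsF {P : Ex} (h : chk2 (DX.FF * DX.sF * P - P) = true) {x : B → V}
    (hx : ev2 S P x = x) : ev2 S DX.FF (ev2 S DX.sF x) = x := by
  have h1 := opEq2 S h x
  rw [ev2_mul, Module.End.mul_apply, hx] at h1
  exact h1

/-- The dual block has no homology in degree zero: `F` is already surjective. -/
theorem dB_surj {x : B → V} (hx : (dB S).p00 x = x) : ∃ y, (dB S).p01 y = y ∧ (dB S).F y = x :=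
  ⟨ev2 S DX.sF x, mapD S dd_sF0 hx, FsF S dd_FsF00 hx⟩

theorem FsH {x : B → V} (hx : ev2 S DX.P01 x = x) : ev2 S DX.FF (ev2 S DX.sH x) = 0 := by
  have h1 := opEq2_zero S dd_FsH x
  rw [ev2_mul, Module.End.mul_apply, hx] at h1
  exact h1

theorem HsH {x : B → V} (hx : ev2 S DX.P01 x = x) (hF : ev2 S DX.FF x = 0) :
    ev2 S DX.HH (ev2 S DX.sH x) - ev2 S DX.Rz (ev2 S DX.sH x) = x := by
  have h1 := opEq2_zero S dd_HsH x
  rw [ev2_mul, Module.End.mul_apply, hx, ev2_mul, Module.End.mul_apply] at h1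
  have h2 : ev2 S DX.TF x = x := by
    show ev2 S (1 - DX.sF * DX.FF) x = x
    rw [ev2_sub, LinearMap.sub_apply, ev2_mul, Module.End.mul_apply, hF, map_zero, sub_zero]
    rfl
  rw [h2, ev2_sub, LinearMap.sub_apply, ev2_mul, Module.End.mul_apply, ev2_sub,
    LinearMap.sub_apply] at h1
  exact sub_eq_zero.1 h1

theorem dB_Ex1 : (dB S).Ex1 := by
  intro x0 xh xf h0 hh hf h
  have L := dB_laws S
  obtain ⟨y1, hy1⟩ : ∃ y, y = ev2 S DX.sF xh := ⟨_, rfl⟩
  have i1 : (dB S).p02 y1 = y1 := hy1 ▸ mapD S dd_sF1 hh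
  have e1 : (dB S).F y1 = xh := hy1 ▸ FsF S dd_FsF01 hh
  obtain ⟨yf, hyf⟩ : ∃ y, y = - ev2 S DX.sF x0 := ⟨_, rfl⟩
  have iyf : (dB S).p11 yf = yf := hyf ▸ sNeg (mapD S dd_sF2 h0)
  have eyf : (dB S).F yf = - x0 := by
    rw [hyf, map_neg]
    exact congrArg Neg.neg (FsF S dd_FsF10 h0)
  have iaf : (dB S).p01 ((dB S).a yf) = (dB S).a yf := L.a1 _ iyf
  obtain ⟨y2, hy2⟩ : ∃ y, y = - ev2 S DX.sF ((dB S).a yf) := ⟨_, rfl⟩
  have i2 : (dB S).p02 y2 = y2 := hy2 ▸ sNeg (mapD S dd_sF1 iaf)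
  have e2 : (dB S).F y2 = - (dB S).a yf := by
    rw [hy2, map_neg]
    exact congrArg Neg.neg (FsF S dd_FsF01 iaf)
  obtain ⟨w, hw⟩ : ∃ w, w = y1 + y2 := ⟨_, rfl⟩
  have iw : (dB S).p02 w = w := hw ▸ sAdd i1 i2
  have ew : (dB S).F w = xh - (dB S).a yf := by rw [hw, map_add, e1, e2]; abel
  obtain ⟨u, hu⟩ : ∃ u, u = xf + ((dB S).H w - (dB S).z w) - (dB S).E yf := ⟨_, rfl⟩
  have iu : (dB S).p01 u = u :=
    hu ▸ sSub (sAdd hf (sSub (L.H01 _ iw) (L.z01 _ iw))) (L.E1 _ iyf)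
  have fu : (dB S).F u = 0 := by
    have c1 : (dB S).F ((dB S).H w) - (dB S).F ((dB S).z w) = (dB S).H ((dB S).F w) := by
      rw [L.HF, L.aux_A iw]; abel
    rw [hu, map_sub, map_add, map_sub, c1, ew, L.FE, eyf, map_sub, map_neg]
    rw [← h]
    abel
  obtain ⟨y3, hy3⟩ : ∃ y, y = - ev2 S DX.sH u := ⟨_, rfl⟩
  have i3 : (dB S).p02 y3 = y3 := hy3 ▸ sNeg (mapD S dd_sHs iu)
  have e3 : (dB S).F y3 = 0 := by
    rw [hy3, map_neg]
    exact neg_eq_zero.2 (FsH S iu)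
  have g3 : (dB S).H y3 - (dB S).z y3 = - u := by
    have := HsH S iu fu
    rw [hy3, map_neg, map_neg]
    rw [← congrArg Neg.neg this]
    show -(dB S).H _ - -(dB S).z _ = -((dB S).H _ - (dB S).z _)
    abel
  refine ⟨0, 0, yf, w + y3, sZero, sZero, iyf, sAdd iw i3, ?_, ?_, ?_⟩
  · rw [map_zero, map_zero, map_zero, eyf]; abel
  · rw [map_zero, map_add, ew, e3]; abel
  · rw [map_add, map_add]
    have : (dB S).H w + (dB S).H y3 - ((dB S).z w + (dB S).z y3) =
        ((dB S).H w - (dB S).z w) + ((dB S).H y3 - (dB S).z y3) := by abel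
    rw [this, g3, hu]
    abel

/-- An element of the dual block killed by `E, F, H` is determined by six coordinates. -/
theorem dB_K {y : B → V} (h : (dB S).p12 y = y) (hE : (dB S).E y = 0) (hF : (dB S).F y = 0)
    (hH : (dB S).H y = 0) (hQ : ev2 S DX.Q y = 0) : y = 0 := by
  have h1 := opEq2_zero S dd_K y
  have e0 : ev2 S DX.P12 y = y := h
  have e1 : ev2 S (1 - DX.Q) y = y := by
    rw [ev2_sub, LinearMap.sub_apply, hQ, sub_zero]; rfl
  have e2 : ev2 S DX.TE y = y := by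
    show ev2 S (1 - DX.sg * DX.EE) y = y
    rw [ev2_sub, LinearMap.sub_apply, ev2_mul, Module.End.mul_apply,
      show ev2 S DX.EE y = 0 from hE, map_zero, sub_zero]
    rfl
  have e3 : ev2 S DX.TH y = y := by
    show ev2 S (1 - DX.t * (1 + DX.h * DX.Rz * DX.t) * DX.HH) y = y
    rw [ev2_sub, LinearMap.sub_apply, ev2_mul, Module.End.mul_apply,
      show ev2 S DX.HH y = 0 from hH, map_zero, sub_zero]
    rfl
  have e4 : ev2 S DX.TF y = y := by
    show ev2 S (1 - DX.sF * DX.FF) y = y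
    rw [ev2_sub, LinearMap.sub_apply, ev2_mul, Module.End.mul_apply,
      show ev2 S DX.FF y = 0 from hF, map_zero, sub_zero]
    rfl
  rw [ev2_mul, Module.End.mul_apply, e0, ev2_mul, Module.End.mul_apply, e1, ev2_mul,
    Module.End.mul_apply, e2, ev2_mul, Module.End.mul_apply, e3, e4] at h1
  exact h1

end Pool.Agent.H379.NK
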