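import Pool.Agent.H379.NK.Ids0
import Pool.Graph.R_seed8.W450.RigAlg

/-!
# Kernel-checked identities for the twisting operator and for the quotient map
-/

set_option autoImplicit false

namespace Pool.Agent.H379.NK

open W450.Rig

/-- The twisted right multiplications. -/
def twR : ℕ → Ex
  | 0 => X.Ra
  | 1 => X.EE
  | 2 => X.WW
  | 3 => X.RB
  | 4 => X.FF
  | 5 => X.HH
  | 6 => X.Rz
  | n => Ex.tab n

theorem phi_R : ((List.range 13).all fun n =>
    chk2 (DX.Phi * Ex.tab n - twR n * DX.Phi)) = true := fchA (by decide +kernel)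

end Pool.Agent.H379.NK
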