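import Pool.Agent.H379.NK.Ids
import Pool.Agent.H379.NK.Ids3R
import Pool.Agent.H379.NK.Ids3L
import Pool.Graph.R_seed8.W450.RigAlg

/-!
# Kernel-checked identities for the twisting operator and for the quotient map
-/

set_option autoImplicit false

namespace Pool.Agent.H379.NK

open W450.Rig

theorem phi_psi : chk2 (DX.Phi * DX.Psi - 1) = true := fch (by decide +kernel)

theorem psi_phi : chk2 (DX.Psi * DX.Phi - 1) = true := fch (by decide +kernel)

theorem phi_ones : zchk (nfF (row2 DX.Phi onesF ++ row2 (Ex.smul (-1) 1) onesF)) = true := by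
  rw [← row3_eq, ← row3_eq]
  decide +kernel

theorem q_b : Ex.chk (X.QQ * X.T12 * X.Lb - X.e * X.QQ * X.T12 * X.La) = true :=
  fcl (by decide +kernel) (by decide +kernel)
theorem q_f : Ex.chk (X.QQ * X.T12 * X.Lf - X.f * X.QQ * X.T12 * X.Lz) = true :=
  fcl (by decide +kernel) (by decide +kernel)
theorem q_h : Ex.chk (X.QQ * X.T12 * X.Lh - X.h * X.QQ * X.T12 * X.Lz) = true :=
  fcl (by decide +kernel) (by decide +kernel)
theorem q_00 : Ex.chk (X.QQ * X.La * X.Lz * X.Lz * X.T00 - X.La * X.Lz * X.Lz * X.QQ * X.T00) = true :=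
  fcl (by decide +kernel) (by decide +kernel)
theorem q_01 : Ex.chk (X.QQ * X.La * X.Lz * X.T01 - X.La * X.Lz * X.QQ * X.T01) = true :=
  fcl (by decide +kernel) (by decide +kernel)
theorem q_02 : Ex.chk (X.QQ * X.La * X.T02 - X.La * X.QQ * X.T02) = true :=
  fcl (by decide +kernel) (by decide +kernel)
theorem q_10 : Ex.chk (X.QQ * X.Lz * X.Lz * X.T10 - X.Lz * X.Lz * X.QQ * X.T10) = true :=
  fcl (by decide +kernel) (by decide +kernel)
theorem q_11 : Ex.chk (X.QQ * X.Lz * X.T11 - X.Lz * X.QQ * X.T11) = true :=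
  fcl (by decide +kernel) (by decide +kernel)

end Pool.Agent.H379.NK
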