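import Pool.Agent.H379.NK.DLow
import Pool.Agent.H379.NK.Ids3
import Pool.Agent.H379.NK.Rep
import Pool.Agent.H379.NK.Cone
import Pool.Graph.R_seed8.W450.RigHom

/-!
# The map `η` from the library block to the dual block
-/

set_option autoImplicit false
set_option linter.unusedSectionVars false

namespace Pool.Agent.H379.NK

open W450.Rig

universe u

variable {K : Type u} [Field K]
variable {V : Type u} [AddCommGroup V] [Module K V]
variable {V' : Type u} [AddCommGroup V'] [Module K V']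

/-- The coordinate `34` (vertex `12`) of the quotient map. -/
def zet (S : SL K V) : (B → V) →ₗ[K] V := LinearMap.proj 34 ∘ₗ S.q

/-- Left multiplication by an element of the algebra, as a linear map. -/
def lsm (K : Type u) [Field K] (V : Type u) [AddCommGroup V] [Module K V] (r : Rg K) :
    (B → V) →ₗ[K] (B → V) := tact (phi K r)

theorem lsm_apply (r : Rg K) (x : B → V) : lsm K V r x = r • x := rfl

/-- `η(x)_b = ζ(λ_b x)`. -/
def eta (S : SL K V) : (B → V) →ₗ[K] (B → V) := LinearMap.pi fun b => zet S ∘ₗ lsm K V (lam K b)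

theorem eta_apply (S : SL K V) (x : B → V) (b : B) : eta S x b = zet S (lam K b • x) := rfl

/-! ### Auxiliary statements -/

namespace EtaL

variable (S : SL K V)

theorem zet_apply (x : B → V) : zet S x = S.q x 34 := rfl

/-- The element of the algebra given by a word of left tables. -/
def wR (K : Type u) [Field K] (w : List ℕ)
    (h : w.all (fun n => Nat.ble 13 n && Nat.blt n 26) = true) : Rg K :=
  mkR K (wmat K w) (wmat_mem w h)

theorem wR_smul (w : List ℕ) (h : w.all (fun n => Nat.ble 13 n && Nat.blt n 26) = true)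
    (x : B → V) : wR K w h • x = S.ev (Ex.word w) x := by
  rw [S.ev_word]
  rfl

theorem lam_smul (b : B) (x : B → V) :
    lam K b • x = S.ev (Ex.word (lwords.getD b [])) x := by
  rw [S.ev_word]
  rfl

theorem r_expand (r : Rg K) : r = ∑ b, ((r • (oneV 1 : B → K)) b) • lam K b := by
  apply smul_oneV_inj
  obtain ⟨c, hc⟩ : ∃ c, c = r • (oneV 1 : B → K) := ⟨_, rfl⟩
  rw [← hc, Finset.sum_smul]
  funext i
  rw [Finset.sum_apply, Finset.sum_eq_single i]
  · rw [smul_assoc, lam_oneV (trivSL K)]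
    simp
  · intro b _ hb
    rw [smul_assoc, lam_oneV (trivSL K)]
    simp [hb.symm]
  · simp

theorem zet_smul_zero {x : B → V} (h : ∀ b, zet S (lam K b • x) = 0) (r : Rg K) :
    zet S (r • x) = 0 := by
  rw [r_expand r, Finset.sum_smul, map_sum]
  apply Finset.sum_eq_zero
  intro b _
  rw [smul_assoc, map_smul, h b, smul_zero]

theorem T_sum : Ex.chk (X.T00 + X.T01 + X.T02 + X.T10 + X.T11 + X.T12 - 1) = true :=
  fcl (by decide +kernel) (by decide +kernel)

theorem q_sum (x : B → V) (i : B) : S.q x i = S.q (S.ev X.T00 x) i + S.q (S.ev X.T01 x) i +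
    S.q (S.ev X.T02 x) i + S.q (S.ev X.T10 x) i + S.q (S.ev X.T11 x) i +
    S.q (S.ev X.T12 x) i := by
  have h : S.ev X.T00 x + S.ev X.T01 x + S.ev X.T02 x + S.ev X.T10 x + S.ev X.T11 x +
    S.ev X.T12 x = x := S.opEq T_sum x
  nth_rewrite 1 [← h]
  simp only [map_add, Pi.add_apply]

theorem s00 (x : B → V) {i : B} (hi : i ≠ 0) : S.q (S.ev X.T00 x) i = 0 :=
  S.ev_supp (X.QQ * Ex.tab 20) 0 vd00.h4 x i hi
theorem s01 (x : B → V) {i : B} (hi : i ≠ 1) : S.q (S.ev X.T01 x) i = 0 :=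
  S.ev_supp (X.QQ * Ex.tab 21) 1 vd01.h4 x i hi
theorem s02 (x : B → V) {i : B} (hi : i ≠ 4) : S.q (S.ev X.T02 x) i = 0 :=
  S.ev_supp (X.QQ * Ex.tab 22) 4 vd02.h4 x i hi
theorem s10 (x : B → V) {i : B} (hi : i ≠ 30) : S.q (S.ev X.T10 x) i = 0 :=
  S.ev_supp (X.QQ * Ex.tab 23) 30 vd10.h4 x i hi
theorem s11 (x : B → V) {i : B} (hi : i ≠ 31) : S.q (S.ev X.T11 x) i = 0 :=
  S.ev_supp (X.QQ * Ex.tab 24) 31 vd11.h4 x i hi
theorem s12 (x : B → V) {i : B} (hi : i ≠ 34) : S.q (S.ev X.T12 x) i = 0 :=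
  S.ev_supp (X.QQ * Ex.tab 25) 34 vd12.h4 x i hi

theorem q_c0 (x : B → V) : S.q x 0 = S.q (S.ev X.T00 x) 0 := by
  rw [q_sum, s01 S x (by decide), s02 S x (by decide), s10 S x (by decide),
    s11 S x (by decide), s12 S x (by decide)]
  simp
theorem q_c1 (x : B → V) : S.q x 1 = S.q (S.ev X.T01 x) 1 := by
  rw [q_sum, s00 S x (by decide), s02 S x (by decide), s10 S x (by decide),
    s11 S x (by decide), s12 S x (by decide)]
  simp
theorem q_c4 (x : B → V) : S.q x 4 = S.q (S.ev X.T02 x) 4 := by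
  rw [q_sum, s00 S x (by decide), s01 S x (by decide), s10 S x (by decide),
    s11 S x (by decide), s12 S x (by decide)]
  simp
theorem q_c30 (x : B → V) : S.q x 30 = S.q (S.ev X.T10 x) 30 := by
  rw [q_sum, s00 S x (by decide), s01 S x (by decide), s02 S x (by decide),
    s11 S x (by decide), s12 S x (by decide)]
  simp
theorem q_c31 (x : B → V) : S.q x 31 = S.q (S.ev X.T11 x) 31 := by
  rw [q_sum, s00 S x (by decide), s01 S x (by decide), s02 S x (by decide),
    s10 S x (by decide), s12 S x (by decide)]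
  simp
theorem q_c34 (x : B → V) : S.q x 34 = S.q (S.ev X.T12 x) 34 := by
  rw [q_sum, s00 S x (by decide), s01 S x (by decide), s02 S x (by decide),
    s10 S x (by decide), s11 S x (by decide)]
  simp

theorem q_else (x : B → V) {i : B} (h0 : i ≠ 0) (h1 : i ≠ 1) (h4 : i ≠ 4) (h30 : i ≠ 30)
    (h31 : i ≠ 31) (h34 : i ≠ 34) : S.q x i = 0 := by
  rw [q_sum, s00 S x h0, s01 S x h1, s02 S x h4, s10 S x h30, s11 S x h31, s12 S x h34]
  simp

theorem zet_T12 (x : B → V) : zet S (S.ev X.T12 x) = zet S x := (q_c34 S x).symm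

/-- The six coordinates of the quotient map. -/
def cc : Fin 6 → B := ![0, 1, 4, 30, 31, 34]
/-- The six coordinates of the kernel in the dual block. -/
def pp : Fin 6 → B := ![34, 41, 44, 94, 101, 104]

theorem cc_inj : Function.Injective cc := by decide

theorem q_eq_sum (x : B → V) : S.q x = ∑ v, (Pi.single (cc v) (S.q x (cc v)) : B → V) := by
  funext i
  rw [Finset.sum_apply]
  by_cases h : ∃ u, cc u = i
  · obtain ⟨u, rfl⟩ := h
    rw [Finset.sum_eq_single u]
    · simp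
    · intro v _ hv
      rw [Pi.single_eq_of_ne]
      intro h'
      exact hv (cc_inj h'.symm)
    · simp
  · push Not at h
    rw [q_else S x (h 0).symm (h 1).symm (h 2).symm (h 3).symm (h 4).symm (h 5).symm]
    symm
    apply Finset.sum_eq_zero
    intro v _
    rw [Pi.single_eq_of_ne (h v).symm]

/-- The value on a coordinate vector, read in one coordinate. -/
theorem ev_single_zero (x : Ex) (b : B)
    (h : zchk (nfF (x.row [(1, [], (b : ℕ))])) = true) (v : V) :
    S.ev x (Pi.single b v) = 0 := by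
  have h2 := S.val_eq_zero _ h v
  rw [S.nfF_sound, ← S.ev_val, S.val_one] at h2
  exact h2

theorem ev2_single (x : Ex) (b c : B)
    (h : zchk (nfF (row2 x [(1, [], (b : ℕ))] ++ [(-1, [], (c : ℕ))])) = true) (v : V) :
    ev2 S x (Pi.single b v) = Pi.single c v := by
  have h2 := S.val_eq_zero _ h v
  rw [S.nfF_sound, S.val_append, S.val_basis, ← ev2_val, S.val_one] at h2
  exact sub_eq_zero.1 (by rw [sub_eq_add_neg]; exact h2)

theorem mv0 : zchk (nfF ((X.La * X.Lz * X.Lz).row [(1, [], ((0 : B) : ℕ))] ++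
    [(-1, [], ((34 : B) : ℕ))])) = true := by decide +kernel
theorem mv1 : zchk (nfF ((X.La * X.Lz).row [(1, [], ((1 : B) : ℕ))] ++
    [(-1, [], ((34 : B) : ℕ))])) = true := by decide +kernel
theorem mv4 : zchk (nfF ((X.La).row [(1, [], ((4 : B) : ℕ))] ++
    [(-1, [], ((34 : B) : ℕ))])) = true := by decide +kernel
theorem mv30 : zchk (nfF ((X.Lz * X.Lz).row [(1, [], ((30 : B) : ℕ))] ++
    [(-1, [], ((34 : B) : ℕ))])) = true := by decide +kernel
theorem mv31 : zchk (nfF ((X.Lz).row [(1, [], ((31 : B) : ℕ))] ++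
    [(-1, [], ((34 : B) : ℕ))])) = true := by decide +kernel

theorem supp_eq {c : B} {y : B → V} (h : ∀ i, i ≠ c → y i = 0) : y = Pi.single c (y c) := by
  funext i
  by_cases hi : i = c
  · subst hi; simp
  · rw [h i hi, Pi.single_eq_of_ne hi]

theorem mv {A : Ex} {c : B} (hA : zchk (nfF (A.row [(1, [], (c : ℕ))] ++
    [(-1, [], ((34 : B) : ℕ))])) = true) {y : B → V} (h : ∀ i, i ≠ c → y i = 0) :
    S.ev A y 34 = y c := by
  rw [supp_eq h, S.ev_single A c 34 hA]
  simp

theorem qz0 {x : B → V} (h : ∀ r : Rg K, zet S (r • x) = 0) : S.q x 0 = 0 := by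
  have h1 := h (wR K [13, 19, 19, 20] (by decide))
  rw [wR_smul S, zet_apply] at h1
  have h2 : S.q (S.ev (Ex.word [13, 19, 19, 20]) x) =
    S.ev (X.La * X.Lz * X.Lz) (S.q (S.ev X.T00 x)) := S.opEq q_00 x
  rw [h2, mv S mv0 (fun i hi => s00 S x hi), ← q_c0] at h1
  exact h1

theorem qz1 {x : B → V} (h : ∀ r : Rg K, zet S (r • x) = 0) : S.q x 1 = 0 := by
  have h1 := h (wR K [13, 19, 21] (by decide))
  rw [wR_smul S, zet_apply] at h1
  have h2 : S.q (S.ev (Ex.word [13, 19, 21]) x) =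
    S.ev (X.La * X.Lz) (S.q (S.ev X.T01 x)) := S.opEq q_01 x
  rw [h2, mv S mv1 (fun i hi => s01 S x hi), ← q_c1] at h1
  exact h1

theorem qz4 {x : B → V} (h : ∀ r : Rg K, zet S (r • x) = 0) : S.q x 4 = 0 := by
  have h1 := h (wR K [13, 22] (by decide))
  rw [wR_smul S, zet_apply] at h1
  have h2 : S.q (S.ev (Ex.word [13, 22]) x) =
    S.ev (X.La) (S.q (S.ev X.T02 x)) := S.opEq q_02 x
  rw [h2, mv S mv4 (fun i hi => s02 S x hi), ← q_c4] at h1
  exact h1

theorem qz30 {x : B → V} (h : ∀ r : Rg K, zet S (r • x) = 0) : S.q x 30 = 0 := by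
  have h1 := h (wR K [19, 19, 23] (by decide))
  rw [wR_smul S, zet_apply] at h1
  have h2 : S.q (S.ev (Ex.word [19, 19, 23]) x) =
    S.ev (X.Lz * X.Lz) (S.q (S.ev X.T10 x)) := S.opEq q_10 x
  rw [h2, mv S mv30 (fun i hi => s10 S x hi), ← q_c30] at h1
  exact h1

theorem qz31 {x : B → V} (h : ∀ r : Rg K, zet S (r • x) = 0) : S.q x 31 = 0 := by
  have h1 := h (wR K [19, 24] (by decide))
  rw [wR_smul S, zet_apply] at h1
  have h2 : S.q (S.ev (Ex.word [19, 24]) x) =
    S.ev (X.Lz) (S.q (S.ev X.T11 x)) := S.opEq q_11 x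
  rw [h2, mv S mv31 (fun i hi => s11 S x hi), ← q_c31] at h1
  exact h1

theorem qz34 {x : B → V} (h : ∀ r : Rg K, zet S (r • x) = 0) : S.q x 34 = 0 := by
  have h1 := h 1
  rw [one_smul] at h1
  exact h1

theorem q_zero {x : B → V} (h : ∀ r : Rg K, zet S (r • x) = 0) : S.q x = 0 := by
  rw [q_eq_sum]
  apply Finset.sum_eq_zero
  intro v _
  have : S.q x (cc v) = 0 := by
    fin_cases v
    · exact qz0 S h
    · exact qz1 S h
    · exact qz4 S h
    · exact qz30 S h
    · exact qz31 S h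
    · exact qz34 S h
  rw [this, Pi.single_zero]

/-! #### The tables of the dual block are transposes -/

theorem tr_mat (n : ℕ) (hn : n < 13) (i j : B) :
    tmat2 K (48 + n) i j = tmat K (13 + n) j i := by
  have h1 := tr_coef n hn i j i.isLt j.isLt
  show ((coefR (tabRow2 (48 + n) j) i : ℤ) : K) = ((coefR (tabRow (13 + n) i) j : ℤ) : K)
  rw [h1]

/-- The element of the algebra of a left table. -/
def Tn (K : Type u) [Field K] (n : ℕ) (hn : n < 13) : Rg K :=
  mkR K (tmat K (13 + n)) (tmat_mem (13 + n) (by omega) (by omega))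

theorem Tn_smul (n : ℕ) (hn : n < 13) (x : B → V) :
    Tn K n hn • x = S.ev (Ex.tab (13 + n)) x := rfl

theorem Tn_lam (n : ℕ) (hn : n < 13) (b : B) :
    Tn K n hn * lam K b = ∑ c, tmat K (13 + n) c b • lam K c := by
  apply smul_oneV_inj
  rw [mul_smul, lam_oneV (trivSL K), Finset.sum_smul]
  funext i
  rw [Finset.sum_apply, Finset.sum_eq_single i]
  · rw [smul_assoc, lam_oneV (trivSL K), rg_smul, tact_single]
    show tmat K (13 + n) i b • (1 : K) = _
    simp
  · intro c _ hc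
    rw [smul_assoc, lam_oneV (trivSL K)]
    simp [hc.symm]
  · simp

theorem dual_tab (n : ℕ) (hn : n < 13) (x : B → V) (b : B) :
    ev2 S (Ex.tab (48 + n)) (eta S x) b = zet S (S.ev (Ex.tab (13 + n)) (lam K b • x)) := by
  show tact (tmat2 K (48 + n)) (eta S x) b = _
  rw [← Tn_smul S n hn, ← mul_smul, Tn_lam, Finset.sum_smul, map_sum, tact_apply]
  refine Finset.sum_congr rfl fun c _ => ?_
  rw [smul_assoc, map_smul, tr_mat n hn, eta_apply]

theorem m12 (x : B → V) : (dB S).p12 (eta S x) = eta S x := by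
  funext b
  exact (dual_tab S 12 (by norm_num) x b).trans (zet_T12 S _)

theorem mE (x : B → V) : (dB S).E (eta S x) = 0 := by
  funext b
  obtain ⟨w, hw⟩ : ∃ w, w = lam K b • x := ⟨_, rfl⟩
  have h1 : ev2 S DX.Rb (eta S x) b = zet S (S.ev X.Lb w) := by
    rw [hw]; exact dual_tab S 1 (by norm_num) x b
  have h0 : ev2 S DX.Ra (eta S x) b = zet S (S.ev X.La w) := by
    rw [hw]; exact dual_tab S 0 (by norm_num) x b
  have h2 := congrFun (S.ev_eq_zero _ q_b |> fun h => LinearMap.congr_fun h w) 34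
  have h3 : zet S (S.ev X.T12 (S.ev X.Lb w)) - S.e (zet S (S.ev X.T12 (S.ev X.La w))) = 0 := by
    rw [S.ev_sub] at h2
    exact h2
  rw [zet_T12, zet_T12] at h3
  show ev2 S (DX.Rb - DX.e * DX.Ra) (eta S x) b = 0
  rw [ev2_sub]
  show ev2 S DX.Rb (eta S x) b - S.e (ev2 S DX.Ra (eta S x) b) = 0
  rw [h1, h0, h3]

theorem mF (x : B → V) : (dB S).F (eta S x) = 0 := by
  funext b
  obtain ⟨w, hw⟩ : ∃ w, w = lam K b • x := ⟨_, rfl⟩
  have h1 : ev2 S DX.Rf (eta S x) b = zet S (S.ev X.Lf w) := by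
    rw [hw]; exact dual_tab S 4 (by norm_num) x b
  have h0 : ev2 S DX.Rz (eta S x) b = zet S (S.ev X.Lz w) := by
    rw [hw]; exact dual_tab S 6 (by norm_num) x b
  have h2 := congrFun (S.ev_eq_zero _ q_f |> fun h => LinearMap.congr_fun h w) 34
  have h3 : zet S (S.ev X.T12 (S.ev X.Lf w)) - S.f (zet S (S.ev X.T12 (S.ev X.Lz w))) = 0 := by
    rw [S.ev_sub] at h2
    exact h2
  rw [zet_T12, zet_T12] at h3
  show ev2 S (DX.Rf - DX.f * DX.Rz) (eta S x) b = 0
  rw [ev2_sub]
  show ev2 S DX.Rf (eta S x) b - S.f (ev2 S DX.Rz (eta S x) b) = 0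
  rw [h1, h0, h3]

theorem mH (x : B → V) : (dB S).H (eta S x) = 0 := by
  funext b
  obtain ⟨w, hw⟩ : ∃ w, w = lam K b • x := ⟨_, rfl⟩
  have h1 : ev2 S DX.Rh (eta S x) b = zet S (S.ev X.Lh w) := by
    rw [hw]; exact dual_tab S 5 (by norm_num) x b
  have h0 : ev2 S DX.Rz (eta S x) b = zet S (S.ev X.Lz w) := by
    rw [hw]; exact dual_tab S 6 (by norm_num) x b
  have h2 := congrFun (S.ev_eq_zero _ q_h |> fun h => LinearMap.congr_fun h w) 34
  have h3 : zet S (S.ev X.T12 (S.ev X.Lh w)) - S.h (zet S (S.ev X.T12 (S.ev X.Lz w))) = 0 := by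
    rw [S.ev_sub] at h2
    exact h2
  rw [zet_T12, zet_T12] at h3
  show ev2 S (DX.Rh - DX.h * DX.Rz) (eta S x) b = 0
  rw [ev2_sub]
  show ev2 S DX.Rh (eta S x) b - S.h (ev2 S DX.Rz (eta S x) b) = 0
  rw [h1, h0, h3]

/-! #### Surjectivity -/

theorem six_eq : ∀ u : Fin 6, zchk (nfF ((X.QQ * Ex.word (lwords.getD (pp u) [])).row
    [(1, [], ((cc u : B) : ℕ))] ++ [(-1, [], ((34 : B) : ℕ))])) = true := by decide +kernel

theorem six_ne : ∀ u v : Fin 6, u ≠ v → zchk (nfF ((X.QQ * Ex.word (lwords.getD (pp u) [])).row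
    [(1, [], ((cc v : B) : ℕ))])) = true := by decide +kernel

theorem zet_lam_single (u v : Fin 6) (w : V) :
    zet S (lam K (pp u) • (Pi.single (cc v) w : B → V)) = if u = v then w else 0 := by
  rw [zet_apply, lam_smul S]
  show S.ev (X.QQ * Ex.word (lwords.getD (pp u) [])) (Pi.single (cc v) w) 34 = _
  by_cases h : u = v
  · subst h
    rw [S.ev_single _ _ _ (six_eq u), if_pos rfl]
    simp
  · rw [ev_single_zero S _ _ (six_ne u v h), if_neg h]
    rfl

theorem Q_chk : ((List.range 120).all fun j => (tabRow2 65 j).isEmpty ||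
    [34, 41, 44, 94, 101, 104].contains j) = true := by decide +kernel

theorem Q_zero {d : B → V} (h : ∀ u, d (pp u) = 0) : ev2 S DX.Q d = 0 := by
  funext i
  show tact (tmat2 K 65) d i = 0
  rw [tact_apply]
  apply Finset.sum_eq_zero
  intro j _
  have h1 := Q_chk
  rw [List.all_eq_true] at h1
  have h2 := h1 j (List.mem_range.2 j.isLt)
  rw [Bool.or_eq_true] at h2
  rcases h2 with h2 | h2
  · have h3 : tmat2 K 65 i j = 0 := by
      show ((coefR (tabRow2 65 j) i : ℤ) : K) = 0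
      rw [List.isEmpty_iff.1 h2]
      simp [coefR]
    rw [h3, zero_smul]
  · have h3 : ∃ u, pp u = j := by
      simp only [List.contains_iff_mem, List.mem_cons, List.not_mem_nil, or_false] at h2
      rcases h2 with h2 | h2 | h2 | h2 | h2 | h2
      · exact ⟨0, Fin.ext h2.symm⟩
      · exact ⟨1, Fin.ext h2.symm⟩
      · exact ⟨2, Fin.ext h2.symm⟩
      · exact ⟨3, Fin.ext h2.symm⟩
      · exact ⟨4, Fin.ext h2.symm⟩
      · exact ⟨5, Fin.ext h2.symm⟩
    obtain ⟨u, rfl⟩ := h3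
    rw [h u, smul_zero]

end EtaL

variable (S : SL K V)

open EtaL

/-- `η` kills the relations. -/
theorem eta_of_pr {x : B → V} (h : S.pr x = 0) : eta S x = 0 := by
  funext b
  rw [eta_apply]
  have h1 : lam K b • x ∈ S.N := S.N.smul_mem _ (S.pr_eq_zero.1 h)
  rw [zet_apply, S.q_N h1]
  rfl

/-- `η` kills nothing else. -/
theorem pr_of_eta {x : B → V} (h : eta S x = 0) : S.pr x = 0 := by
  apply S.qb_inj
  rw [S.qb_pr, map_zero]
  exact q_zero S (zet_smul_zero S fun b => congrFun h b)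

/-- The image of `η` is contained in the kernel of `E, F, H`. -/
theorem eta_mem (x : B → V) : eta S x ∈ (dB S).Kk := ⟨m12 S x, mE S x, mF S x, mH S x⟩

/-- The image of `η` is the kernel of `E, F, H`. -/
theorem eta_surj {y : B → V} (h : y ∈ (dB S).Kk) : ∃ x, eta S x = y := by
  refine ⟨∑ v, (Pi.single (cc v) (y (pp v)) : B → V), ?_⟩
  obtain ⟨x, hx⟩ : ∃ x, x = ∑ v, (Pi.single (cc v) (y (pp v)) : B → V) := ⟨_, rfl⟩
  rw [← hx]
  have h1 : ∀ u, (eta S x - y) (pp u) = 0 := by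
    intro u
    rw [Pi.sub_apply, eta_apply, hx, Finset.smul_sum, map_sum]
    simp only [zet_lam_single]
    simp
  obtain ⟨k1, k2, k3, k4⟩ := (dB S).Kk.sub_mem (eta_mem S x) h
  exact sub_eq_zero.1 (dB_K S k1 k2 k3 k4 (Q_zero S h1))

theorem EtaL.ev_lact (S' : SL K V') {m : V →ₗ[K] V'} (h : Eqv S S' m) (X : Ex) (x : B → V) :
    S'.ev X (lact m x) = lact m (S.ev X x) := by
  induction X generalizing x with
  | one => rfl
  | tab n => exact tact_lact _ m x
  | ltr k =>
    funext i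
    show S'.L k (m (x i)) = m (S.L k (x i))
    match k with
    | 0 => exact (h.h _).symm
    | 1 => exact (h.f _).symm
    | 2 => exact (h.e _).symm
    | _ + 3 => exact (map_zero m).symm
  | mul a b iha ihb =>
    show S'.ev a (S'.ev b (lact m x)) = lact m (S.ev a (S.ev b x))
    rw [ihb, iha]
  | add a b iha ihb =>
    show S'.ev a (lact m x) + S'.ev b (lact m x) = lact m (S.ev a x + S.ev b x)
    rw [ihb, iha, map_add]
  | smul c a iha =>
    show c • S'.ev a (lact m x) = lact m (c • S.ev a x)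
    rw [iha, map_zsmul]

/-- `η` is natural for equivariant maps. -/
theorem eta_nat (S' : SL K V') {m : V →ₗ[K] V'} (h : Eqv S S' m) (x : B → V) :
    eta S' (lact m x) = lact m (eta S x) := by
  funext b
  rw [eta_apply, lact_apply, eta_apply]
  have h1 : lam K b • lact m x = lact m (lam K b • x) := tact_lact _ m x
  rw [h1]
  exact congrFun (ev_lact S S' h X.QQ (lam K b • x)) 34

section twist

variable [CharZero K]

/-- The twisting operator. -/
def PhiU (K V : Type u) [Field K] [CharZero K] [AddCommGroup V] [Module K V] :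
    Module.End K (B → V × V) := ev2 (Utriv K V) DX.Phi

namespace EtaL

theorem ev2_dbl (T : SL K (V × V)) (m : (V × V) →ₗ[K] (V × V))
    (he : ∀ v, m (T.e v) = T.e (m v)) (hf : ∀ v, m (T.f v) = T.f (m v))
    (hh : ∀ v, m (T.h v) = T.h (m v)) (X : Ex) (x : B → V × V) :
    ev2 T X (lact m x) = lact m (ev2 T X x) := by
  induction X generalizing x with
  | one => rfl
  | tab n => exact tact_lact _ m x
  | ltr k =>
    funext i
    show T.L k (m (x i)) = m (T.L k (x i))
    match k with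
    | 0 => exact (hh _).symm
    | 1 => exact (hf _).symm
    | 2 => exact (he _).symm
    | _ + 3 => exact (map_zero m).symm
  | mul a b iha ihb =>
    show ev2 T a (ev2 T b (lact m x)) = lact m (ev2 T a (ev2 T b x))
    rw [ihb, iha]
  | add a b iha ihb =>
    show ev2 T a (lact m x) + ev2 T b (lact m x) = lact m (ev2 T a x + ev2 T b x)
    rw [ihb, iha, map_add]
  | smul c a iha =>
    show c • ev2 T a (lact m x) = lact m (c • ev2 T a x)
    rw [iha, map_zsmul]

/-- The twisting operator commutes with maps applied to both coordinates. -/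
theorem PhiU_dbl (m : Module.End K V) (x : B → V × V) :
    PhiU K V (lact (dbl m) x) = lact (dbl m) (PhiU K V x) := by
  refine ev2_dbl (Utriv K V) (dbl m) ?_ ?_ ?_ DX.Phi x
  · intro v
    show (m 0, m (-v.1)) = (0, -(m v.1))
    rw [map_zero, map_neg]
  · intro v
    show (m (-((1 / 2 : K) • v.2)), m 0) = (-((1 / 2 : K) • m v.2), 0)
    rw [map_zero, map_neg, map_smul]
  · intro v
    show (m ((1 / 2 : K) • v.1), m (-((1 / 2 : K) • v.2))) =
      ((1 / 2 : K) • m v.1, -((1 / 2 : K) • m v.2))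
    rw [map_neg, map_smul, map_smul]

theorem PhiU_tab (n : ℕ) (hn : n < 13) (x : B → V × V) :
    PhiU K V (ev2 (Utriv K V) (Ex.tab n) x) = ev2 (Utriv K V) (twR n) (PhiU K V x) := by
  have h := phi_R
  rw [List.all_eq_true] at h
  exact opEq2 (Utriv K V) (h n (List.mem_range.2 hn)) x

/-- `ev2` of a library table does not depend on the representation. -/
theorem ev_tab (T T' : SL K (V × V)) (n : ℕ) (hn : n < 48) (x : B → V × V) :
    ev2 T (Ex.tab n) x = T'.ev (Ex.tab n) x := by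
  show tact (tmat2 K n) x = tact (tmat K n) x
  rw [tmat2_lt n hn]


theorem PhiU_E (x : B → V × V) :
    PhiU K V ((SS S).E x) = (UV S).E (PhiU K V x) := by
  have e1 : (SS S).E x = ev2 (Utriv K V) (Ex.tab 1) x -
      lact (dbl S.e) (ev2 (Utriv K V) (Ex.tab 0) x) := by
    rw [ev_tab _ (SS S) 1 (by norm_num), ev_tab _ (SS S) 0 (by norm_num)]
    exact (SS S).E_def x
  have e2 : (UV S).E (PhiU K V x) = ev2 (Utriv K V) (Ex.tab 1) (PhiU K V x) -
      lact (dbl S.e + uE K V) (ev2 (Utriv K V) (Ex.tab 0) (PhiU K V x)) := by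
    rw [ev_tab _ (UV S) 1 (by norm_num), ev_tab _ (UV S) 0 (by norm_num)]
    exact (UV S).E_def _
  have e3 : ev2 (Utriv K V) (twR 1) (PhiU K V x) = ev2 (Utriv K V) (Ex.tab 1) (PhiU K V x) -
      lact (uE K V) (ev2 (Utriv K V) (Ex.tab 0) (PhiU K V x)) := by
    show ev2 (Utriv K V) (X.Rb - X.e * X.Ra) (PhiU K V x) = _
    rw [ev2_sub]
    rfl
  have e4 : ev2 (Utriv K V) (twR 0) (PhiU K V x) =
      ev2 (Utriv K V) (Ex.tab 0) (PhiU K V x) := rfl
  rw [e1, e2, map_sub, PhiU_tab 1 (by norm_num), PhiU_dbl, PhiU_tab 0 (by norm_num), e3, e4]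
  have e5 : ∀ y : B → V × V, lact (dbl S.e + uE K V) y = lact (dbl S.e) y + lact (uE K V) y :=
    fun _ => rfl
  rw [e5]
  abel

theorem PhiU_F (x : B → V × V) :
    PhiU K V ((SS S).F x) = (UV S).F (PhiU K V x) := by
  have e1 : (SS S).F x = ev2 (Utriv K V) (Ex.tab 4) x -
      lact (dbl S.f) (ev2 (Utriv K V) (Ex.tab 6) x) := by
    rw [ev_tab _ (SS S) 4 (by norm_num), ev_tab _ (SS S) 6 (by norm_num)]
    exact (SS S).F_def x
  have e2 : (UV S).F (PhiU K V x) = ev2 (Utriv K V) (Ex.tab 4) (PhiU K V x) -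
      lact (dbl S.f + uF K V) (ev2 (Utriv K V) (Ex.tab 6) (PhiU K V x)) := by
    rw [ev_tab _ (UV S) 4 (by norm_num), ev_tab _ (UV S) 6 (by norm_num)]
    exact (UV S).F_def _
  have e3 : ev2 (Utriv K V) (twR 4) (PhiU K V x) = ev2 (Utriv K V) (Ex.tab 4) (PhiU K V x) -
      lact (uF K V) (ev2 (Utriv K V) (Ex.tab 6) (PhiU K V x)) := by
    show ev2 (Utriv K V) (X.Rf - X.f * X.Rz) (PhiU K V x) = _
    rw [ev2_sub]
    rfl
  have e4 : ev2 (Utriv K V) (twR 6) (PhiU K V x) =
      ev2 (Utriv K V) (Ex.tab 6) (PhiU K V x) := rfl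
  rw [e1, e2, map_sub, PhiU_tab 4 (by norm_num), PhiU_dbl, PhiU_tab 6 (by norm_num), e3, e4]
  have e5 : ∀ y : B → V × V, lact (dbl S.f + uF K V) y = lact (dbl S.f) y + lact (uF K V) y :=
    fun _ => rfl
  rw [e5]
  abel

theorem PhiU_H (x : B → V × V) :
    PhiU K V ((SS S).H x) = (UV S).H (PhiU K V x) := by
  have e1 : (SS S).H x = ev2 (Utriv K V) (Ex.tab 5) x -
      lact (dbl S.h) (ev2 (Utriv K V) (Ex.tab 6) x) := by
    rw [ev_tab _ (SS S) 5 (by norm_num), ev_tab _ (SS S) 6 (by norm_num)]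
    exact (SS S).H_def x
  have e2 : (UV S).H (PhiU K V x) = ev2 (Utriv K V) (Ex.tab 5) (PhiU K V x) -
      lact (dbl S.h + uH K V) (ev2 (Utriv K V) (Ex.tab 6) (PhiU K V x)) := by
    rw [ev_tab _ (UV S) 5 (by norm_num), ev_tab _ (UV S) 6 (by norm_num)]
    exact (UV S).H_def _
  have e3 : ev2 (Utriv K V) (twR 5) (PhiU K V x) = ev2 (Utriv K V) (Ex.tab 5) (PhiU K V x) -
      lact (uH K V) (ev2 (Utriv K V) (Ex.tab 6) (PhiU K V x)) := by
    show ev2 (Utriv K V) (X.Rh - X.h * X.Rz) (PhiU K V x) = _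
    rw [ev2_sub]
    rfl
  have e4 : ev2 (Utriv K V) (twR 6) (PhiU K V x) =
      ev2 (Utriv K V) (Ex.tab 6) (PhiU K V x) := rfl
  rw [e1, e2, map_sub, PhiU_tab 5 (by norm_num), PhiU_dbl, PhiU_tab 6 (by norm_num), e3, e4]
  have e5 : ∀ y : B → V × V, lact (dbl S.h + uH K V) y = lact (dbl S.h) y + lact (uH K V) y :=
    fun _ => rfl
  rw [e5]
  abel

theorem PhiU_p00 (x : B → V × V) :
    PhiU K V ((SS S).p00 x) = (UV S).p00 (PhiU K V x) := by
  have e1 : (SS S).p00 x = ev2 (Utriv K V) (Ex.tab 7) x :=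
    (ev_tab (Utriv K V) (SS S) 7 (by norm_num) x).symm
  have e2 : (UV S).p00 (PhiU K V x) = ev2 (Utriv K V) (Ex.tab 7) (PhiU K V x) :=
    (ev_tab (Utriv K V) (UV S) 7 (by norm_num) _).symm
  rw [e1, e2, PhiU_tab 7 (by norm_num)]
  rfl

theorem zet_PhiU_N {x : B → V × V} (hx : x ∈ (SS S).N) : zet (UV S) (PhiU K V x) = 0 := by
  obtain ⟨y, rfl⟩ := hx
  have h1 : (SS S).rel y = (SS S).E y.1 + (SS S).H y.2.1 + (SS S).F y.2.2.1 +
    (y.2.2.2 - (SS S).p00 y.2.2.2) := rfl
  have h2 : (UV S).q ((UV S).p00 (PhiU K V y.2.2.2)) = (UV S).q (PhiU K V y.2.2.2) :=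
    (UV S).q_p00 _
  rw [h1, zet_apply]
  simp only [map_add, map_sub, PhiU_E, PhiU_F, PhiU_H, PhiU_p00, (UV S).q_E, (UV S).q_F,
    (UV S).q_H, h2, add_zero, sub_self]
  rfl

theorem Phi_six : ∀ u : Fin 6, zchk (nfF (row2 DX.Phi [(1, [], ((cc u : B) : ℕ))] ++
    [(-1, [], ((cc u : B) : ℕ))])) = true := by decide +kernel

theorem QQ_six : ∀ u : Fin 6, zchk (nfF (X.QQ.row [(1, [], ((cc u : B) : ℕ))] ++
    [(-1, [], ((cc u : B) : ℕ))])) = true := by decide +kernel

theorem PhiU_q (x : B → V × V) : PhiU K V ((SS S).q x) = (SS S).q x := by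
  rw [q_eq_sum, map_sum]
  refine Finset.sum_congr rfl fun u _ => ?_
  exact ev2_single (Utriv K V) DX.Phi (cc u) (cc u) (Phi_six u) _

theorem q_q (x : B → V × V) : (UV S).q ((SS S).q x) = (SS S).q x := by
  rw [q_eq_sum (SS S), map_sum]
  refine Finset.sum_congr rfl fun u _ => ?_
  exact (UV S).ev_single X.QQ (cc u) (cc u) (QQ_six u) _

end EtaL

/-- The key identity: the functional `ζ` of `U ⊗ V` after the twisting operator is the functional
`ζ` of `V` (with `U` a spectator). -/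
theorem zet_PhiU (x : B → V × V) : zet (UV S) (PhiU K V x) = zet (SS S) x := by
  have h1 : x - (SS S).q x ∈ (SS S).N := by
    rw [← (SS S).pr_eq_zero, map_sub, (SS S).pr_q, sub_self]
  have h2 := zet_PhiU_N S h1
  have e1 : PhiU K V (x - (SS S).q x) = PhiU K V x - (SS S).q x :=
    (LinearMap.map_sub (PhiU K V) x ((SS S).q x)).trans (by rw [PhiU_q])
  rw [e1] at h2
  have h3 : zet (UV S) (PhiU K V x) = zet (UV S) ((SS S).q x) :=
    sub_eq_zero.1 ((LinearMap.map_sub (zet (UV S)) _ _).symm.trans h2)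
  rw [h3, zet_apply, q_q]
  rfl

end twist

end Pool.Agent.H379.NK
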