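/-
Additional integer tables (rows = images of the 120 basis elements): the dual block, its
homotopies, and the twisting operator. Generated by computer; everything used later is checked by
the kernel.
-/
import Pool.Graph.R_seed8.W450.RigTab

set_option autoImplicit false

namespace Pool.Agent.H379.NK

open W450.Rig

def tb_DRa : Tab := [
  [], [], [], [], [], [], [], [], [], [], [], [], [], [], [], [], [], [], [], [], [], [], [], [],
  [], [], [], [], [], [], [(.ofNat 1, 0)], [(.ofNat 1, 1)], [(.ofNat 1, 2)], [(.ofNat 1, 3)],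
  [(.ofNat 1, 4)], [(.ofNat 1, 5)], [(.ofNat 1, 6)], [(.ofNat 1, 7)], [(.ofNat 1, 8)],
  [(.ofNat 1, 9)], [(.ofNat 1, 10)], [(.ofNat 1, 11)], [(.ofNat 1, 12)], [(.ofNat 1, 13)],
  [(.ofNat 1, 14)], [], [], [], [], [], [], [], [], [], [], [], [], [], [], [], [], [], [], [],
  [], [], [], [], [], [], [], [], [], [], [], [], [], [], [], [], [], [], [], [], [], [], [], [],
  [], [], [], [], [], [], [], [], [], [], [], [], [], [], [], [], [], [(.ofNat 1, 60)],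
  [(.ofNat 1, 61)], [(.ofNat 1, 62)], [(.ofNat 1, 63)], [(.ofNat 1, 64)], [(.ofNat 1, 65)],
  [(.ofNat 1, 66)], [(.ofNat 1, 67)], [(.ofNat 1, 68)], [(.ofNat 1, 69)], [(.ofNat 1, 70)],
  [(.ofNat 1, 71)], [(.ofNat 1, 72)], [(.ofNat 1, 73)], [(.ofNat 1, 74)]]

def tb_DRb : Tab := [
  [], [], [], [], [], [], [], [], [], [], [], [], [], [], [], [], [], [], [], [], [], [], [], [],
  [], [], [], [], [], [], [], [], [], [(.negSucc 0, 2)], [], [(.ofNat 1, 7)],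
  [(.negSucc 0, 5), (.negSucc 0, 8)], [], [(.negSucc 1, 7)], [(.negSucc 0, 8)], [], [], [],
  [(.negSucc 0, 12)], [], [(.ofNat 1, 0)], [(.ofNat 1, 1), (.ofNat 1, 3)], [(.ofNat 1, 2)],
  [(.ofNat 1, 3)], [(.ofNat 1, 4), (.ofNat 1, 6), (.ofNat 1, 9)], [(.ofNat 1, 5), (.ofNat 1, 8)],
  [(.ofNat 1, 6), (.ofNat 2, 9)], [(.ofNat 1, 7)], [(.ofNat 1, 8)], [(.ofNat 1, 9)],
  [(.ofNat 1, 10)], [(.ofNat 1, 11), (.ofNat 1, 13)], [(.ofNat 1, 12)], [(.ofNat 1, 13)],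
  [(.ofNat 1, 14)], [], [], [], [], [], [], [], [], [], [], [], [], [], [], [], [], [], [], [],
  [], [], [], [], [], [], [], [], [], [], [], [], [], [], [], [], [], [], [], [], [], [], [], [],
  [], [], [(.ofNat 1, 75)], [(.ofNat 1, 76), (.ofNat 1, 78)], [(.ofNat 1, 77)],
  [(.negSucc 0, 62), (.ofNat 1, 78)], [(.ofNat 1, 79), (.ofNat 1, 81), (.ofNat 1, 84)],
  [(.ofNat 1, 67), (.ofNat 1, 80), (.ofNat 1, 83)],
  [(.negSucc 0, 65), (.negSucc 0, 68), (.ofNat 1, 81), (.ofNat 2, 84)], [(.ofNat 1, 82)],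
  [(.negSucc 1, 67), (.ofNat 1, 83)], [(.negSucc 0, 68), (.ofNat 1, 84)], [(.ofNat 1, 85)],
  [(.ofNat 1, 86), (.ofNat 1, 88)], [(.ofNat 1, 87)], [(.negSucc 0, 72), (.ofNat 1, 88)],
  [(.ofNat 1, 89)]]

def tb_DRA : Tab := [
  [], [], [], [], [], [], [], [], [], [], [], [], [], [], [], [(.ofNat 1, 30)],
  [(.ofNat 1, 31), (.negSucc 0, 33), (.negSucc 0, 47)], [(.ofNat 1, 32)],
  [(.ofNat 1, 33), (.ofNat 1, 47)],
  [(.ofNat 1, 34), (.negSucc 0, 36), (.ofNat 1, 39), (.negSucc 0, 50), (.ofNat 1, 53)],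
  [(.ofNat 1, 35), (.negSucc 0, 38), (.negSucc 2, 52)],
  [(.ofNat 1, 36), (.negSucc 1, 39), (.ofNat 1, 50), (.negSucc 1, 53)], [(.ofNat 1, 37)],
  [(.ofNat 1, 38), (.ofNat 2, 52)], [(.ofNat 1, 39), (.ofNat 1, 53)], [(.ofNat 1, 40)],
  [(.ofNat 1, 41), (.negSucc 0, 43), (.negSucc 0, 57)], [(.ofNat 1, 42)],
  [(.ofNat 1, 43), (.ofNat 1, 57)], [(.ofNat 1, 44)], [], [], [], [], [], [], [], [], [], [], [],
  [], [], [], [], [], [], [], [], [], [], [], [], [], [], [], [], [], [], [], [(.ofNat 1, 90)],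
  [(.ofNat 1, 91), (.negSucc 0, 93)], [(.ofNat 1, 92)], [(.ofNat 1, 93)],
  [(.ofNat 1, 94), (.negSucc 0, 96), (.ofNat 1, 99)], [(.ofNat 1, 95), (.negSucc 0, 98)],
  [(.ofNat 1, 96), (.negSucc 1, 99)], [(.ofNat 1, 97)], [(.ofNat 1, 98)], [(.ofNat 1, 99)],
  [(.ofNat 1, 100)], [(.ofNat 1, 101), (.negSucc 0, 103)], [(.ofNat 1, 102)], [(.ofNat 1, 103)],
  [(.ofNat 1, 104)], [], [(.negSucc 0, 92)], [], [(.ofNat 1, 92)],
  [(.negSucc 0, 95), (.ofNat 1, 98)], [(.negSucc 2, 97)], [(.ofNat 1, 95), (.negSucc 1, 98)], [],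
  [(.ofNat 2, 97)], [(.ofNat 1, 98)], [], [(.negSucc 0, 102)], [], [(.ofNat 1, 102)]]

def tb_DRB : Tab := [
  [], [], [], [], [], [], [], [], [], [], [], [], [], [], [], [(.ofNat 1, 45)],
  [(.ofNat 1, 46), (.negSucc 1, 48)], [(.ofNat 1, 47)], [(.ofNat 1, 48)],
  [(.ofNat 1, 49), (.negSucc 1, 51), (.ofNat 4, 54)], [(.ofNat 1, 50), (.negSucc 1, 53)],
  [(.ofNat 1, 51), (.negSucc 3, 54)], [(.ofNat 1, 52)], [(.ofNat 1, 53)], [(.ofNat 1, 54)],
  [(.ofNat 1, 55)], [(.ofNat 1, 56), (.negSucc 1, 58)], [(.ofNat 1, 57)], [(.ofNat 1, 58)],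
  [(.ofNat 1, 59)], [], [], [], [], [], [], [], [], [], [], [], [], [], [], [], [], [], [], [],
  [], [], [], [], [], [], [], [], [], [], [], [], [], [], [], [], [], [], [], [], [], [], [], [],
  [], [], [(.ofNat 1, 90)], [(.ofNat 1, 91), (.negSucc 1, 93)], [(.ofNat 1, 92)],
  [(.ofNat 1, 93)], [(.ofNat 1, 94), (.negSucc 1, 96), (.ofNat 4, 99)],
  [(.ofNat 1, 95), (.negSucc 1, 98)], [(.ofNat 1, 96), (.negSucc 3, 99)], [(.ofNat 1, 97)],
  [(.ofNat 1, 98)], [(.ofNat 1, 99)], [(.ofNat 1, 100)], [(.ofNat 1, 101), (.negSucc 1, 103)],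
  [(.ofNat 1, 102)], [(.ofNat 1, 103)], [(.ofNat 1, 104)]]

def tb_DRf : Tab := [
  [], [], [(.ofNat 1, 0)], [], [], [(.ofNat 1, 1), (.negSucc 0, 3)], [], [(.ofNat 1, 2)],
  [(.ofNat 1, 3)], [], [], [], [(.ofNat 1, 10)], [], [], [], [], [(.ofNat 1, 15)], [], [],
  [(.ofNat 1, 16), (.negSucc 0, 18)], [], [(.ofNat 1, 17)], [(.ofNat 1, 18)], [], [], [],
  [(.ofNat 1, 25)], [], [], [], [], [(.ofNat 1, 30)], [], [], [(.ofNat 1, 31), (.negSucc 0, 33)],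
  [], [(.ofNat 1, 32)], [(.ofNat 1, 33)], [], [], [], [(.ofNat 1, 40)], [], [], [], [],
  [(.ofNat 1, 45)], [], [], [(.ofNat 1, 46), (.negSucc 0, 48)], [], [(.ofNat 1, 47)],
  [(.ofNat 1, 48)], [], [], [], [(.ofNat 1, 55)], [], [], [], [], [(.ofNat 1, 60)], [], [],
  [(.ofNat 1, 61), (.negSucc 0, 63)], [], [(.ofNat 1, 62)], [(.ofNat 1, 63)], [], [], [],
  [(.ofNat 1, 70)], [], [], [], [], [(.ofNat 1, 75)], [], [], [(.ofNat 1, 76), (.negSucc 0, 78)],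
  [], [(.ofNat 1, 77)], [(.ofNat 1, 78)], [], [], [], [(.ofNat 1, 85)], [], [], [], [],
  [(.ofNat 1, 90)], [], [], [(.ofNat 1, 91), (.negSucc 0, 93)], [], [(.ofNat 1, 92)],
  [(.ofNat 1, 93)], [], [], [], [(.ofNat 1, 100)], [], [], [], [], [(.ofNat 1, 105)], [],
  [(.negSucc 0, 93)], [(.ofNat 1, 106), (.negSucc 0, 108)], [], [(.ofNat 1, 107)],
  [(.ofNat 1, 108)], [], [], [], [(.ofNat 1, 115)]]

def tb_DRh : Tab := [
  [], [], [], [(.ofNat 1, 0)], [], [], [(.ofNat 1, 1)], [], [(.ofNat 1, 2)], [(.ofNat 1, 3)], [],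
  [], [], [(.ofNat 1, 10)], [], [], [], [], [(.ofNat 1, 15)], [], [], [(.ofNat 1, 16)], [],
  [(.ofNat 1, 17)], [(.ofNat 1, 18)], [], [], [], [(.ofNat 1, 25)], [], [], [], [],
  [(.ofNat 1, 30)], [], [], [(.ofNat 1, 31)], [], [(.ofNat 1, 32)], [(.ofNat 1, 33)], [], [], [],
  [(.ofNat 1, 40)], [], [], [], [], [(.ofNat 1, 45)], [], [], [(.ofNat 1, 46)], [],
  [(.ofNat 1, 47)], [(.ofNat 1, 48)], [], [], [], [(.ofNat 1, 55)], [], [], [], [],
  [(.ofNat 1, 60)], [], [], [(.ofNat 1, 61)], [], [(.ofNat 1, 62)], [(.ofNat 1, 63)], [], [], [],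
  [(.ofNat 1, 70)], [], [], [], [], [(.ofNat 1, 75)], [], [], [(.ofNat 1, 76)], [],
  [(.ofNat 1, 77)], [(.ofNat 1, 78)], [], [], [], [(.ofNat 1, 85)], [], [], [], [],
  [(.ofNat 1, 90)], [], [], [(.ofNat 1, 91)], [], [(.ofNat 1, 92)], [(.ofNat 1, 93)], [], [], [],
  [(.ofNat 1, 100)], [], [], [], [], [(.ofNat 1, 105)], [], [], [(.ofNat 1, 106)], [],
  [(.ofNat 1, 107)], [(.ofNat 1, 108)], [], [], [], [(.ofNat 1, 115)]]

def tb_DRz : Tab := [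
  [], [(.ofNat 1, 0)], [], [], [(.ofNat 1, 1)], [(.ofNat 1, 2)], [(.ofNat 1, 3)], [], [], [], [],
  [(.ofNat 1, 10)], [], [], [], [], [(.ofNat 1, 15)], [], [], [(.ofNat 1, 16)], [(.ofNat 1, 17)],
  [(.ofNat 1, 18)], [], [], [], [], [(.ofNat 1, 25)], [], [], [], [], [(.ofNat 1, 30)], [], [],
  [(.ofNat 1, 31)], [(.ofNat 1, 32)], [(.ofNat 1, 33)], [], [], [], [], [(.ofNat 1, 40)], [], [],
  [], [], [(.ofNat 1, 45)], [], [], [(.ofNat 1, 46)], [(.ofNat 1, 47)], [(.ofNat 1, 48)], [], [],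
  [], [], [(.ofNat 1, 55)], [], [], [], [], [(.ofNat 1, 60)], [], [], [(.ofNat 1, 61)],
  [(.ofNat 1, 62)], [(.ofNat 1, 63)], [], [], [], [], [(.ofNat 1, 70)], [], [], [], [],
  [(.ofNat 1, 75)], [], [], [(.ofNat 1, 76)], [(.ofNat 1, 77)], [(.ofNat 1, 78)], [], [], [], [],
  [(.ofNat 1, 85)], [], [], [], [], [(.ofNat 1, 90)], [], [], [(.ofNat 1, 91)], [(.ofNat 1, 92)],
  [(.ofNat 1, 93)], [], [], [], [], [(.ofNat 1, 100)], [], [], [], [], [(.ofNat 1, 105)], [], [],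
  [(.ofNat 1, 106)], [(.ofNat 1, 107)], [(.ofNat 1, 108)], [], [], [], [], [(.ofNat 1, 115)]]

def tb_DP00 : Tab := [
  [(.ofNat 1, 0)], [], [], [], [], [], [], [], [], [], [], [], [], [], [], [(.ofNat 1, 15)], [],
  [], [], [], [], [], [], [], [], [], [], [], [], [], [], [], [], [], [], [], [], [], [], [], [],
  [], [], [], [], [], [], [], [], [], [], [], [], [], [], [], [], [], [], [], [(.ofNat 1, 60)],
  [], [], [], [], [], [], [], [], [], [], [], [], [], [], [(.ofNat 1, 75)]]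

def tb_DP01 : Tab := [
  [], [(.ofNat 1, 1)], [(.ofNat 1, 2)], [(.ofNat 1, 3)], [], [], [], [], [], [],
  [(.ofNat 1, 10)], [], [], [], [], [], [(.ofNat 1, 16)], [(.ofNat 1, 17)], [(.ofNat 1, 18)], [],
  [], [], [], [], [], [(.ofNat 1, 25)], [], [], [], [], [], [], [], [], [], [], [], [], [], [],
  [], [], [], [], [], [], [], [], [], [], [], [], [], [], [], [], [], [], [], [], [],
  [(.ofNat 1, 61)], [(.ofNat 1, 62)], [(.ofNat 1, 63)], [], [], [], [], [], [], [(.ofNat 1, 70)],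
  [], [], [], [], [], [(.ofNat 1, 76)], [(.ofNat 1, 77)], [(.ofNat 1, 78)], [], [], [], [], [],
  [], [(.ofNat 1, 85)]]

def tb_DP02 : Tab := [
  [], [], [], [], [(.ofNat 1, 4)], [(.ofNat 1, 5)], [(.ofNat 1, 6)], [(.ofNat 1, 7)],
  [(.ofNat 1, 8)], [(.ofNat 1, 9)], [], [(.ofNat 1, 11)], [(.ofNat 1, 12)], [(.ofNat 1, 13)],
  [(.ofNat 1, 14)], [], [], [], [], [(.ofNat 1, 19)], [(.ofNat 1, 20)], [(.ofNat 1, 21)],
  [(.ofNat 1, 22)], [(.ofNat 1, 23)], [(.ofNat 1, 24)], [], [(.ofNat 1, 26)], [(.ofNat 1, 27)],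
  [(.ofNat 1, 28)], [(.ofNat 1, 29)], [], [], [], [], [], [], [], [], [], [], [], [], [], [], [],
  [], [], [], [], [], [], [], [], [], [], [], [], [], [], [], [], [], [], [], [(.ofNat 1, 64)],
  [(.ofNat 1, 65)], [(.ofNat 1, 66)], [(.ofNat 1, 67)], [(.ofNat 1, 68)], [(.ofNat 1, 69)], [],
  [(.ofNat 1, 71)], [(.ofNat 1, 72)], [(.ofNat 1, 73)], [(.ofNat 1, 74)], [], [], [], [],
  [(.ofNat 1, 79)], [(.ofNat 1, 80)], [(.ofNat 1, 81)], [(.ofNat 1, 82)], [(.ofNat 1, 83)],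
  [(.ofNat 1, 84)], [], [(.ofNat 1, 86)], [(.ofNat 1, 87)], [(.ofNat 1, 88)], [(.ofNat 1, 89)]]

def tb_DP10 : Tab := [
  [], [], [], [], [], [], [], [], [], [], [], [], [], [], [], [], [], [], [], [], [], [], [], [],
  [], [], [], [], [], [], [(.ofNat 1, 30)], [], [], [], [], [], [], [], [], [], [], [], [], [],
  [], [(.ofNat 1, 45)], [], [], [], [], [], [], [], [], [], [], [], [], [], [], [], [], [], [],
  [], [], [], [], [], [], [], [], [], [], [], [], [], [], [], [], [], [], [], [], [], [], [], [],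
  [], [], [(.ofNat 1, 90)], [], [], [], [], [], [], [], [], [], [], [], [], [], [],
  [(.ofNat 1, 105)]]

def tb_DP11 : Tab := [
  [], [], [], [], [], [], [], [], [], [], [], [], [], [], [], [], [], [], [], [], [], [], [], [],
  [], [], [], [], [], [], [], [(.ofNat 1, 31)], [(.ofNat 1, 32)], [(.ofNat 1, 33)], [], [], [],
  [], [], [], [(.ofNat 1, 40)], [], [], [], [], [], [(.ofNat 1, 46)], [(.ofNat 1, 47)],
  [(.ofNat 1, 48)], [], [], [], [], [], [], [(.ofNat 1, 55)], [], [], [], [], [], [], [], [], [],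
  [], [], [], [], [], [], [], [], [], [], [], [], [], [], [], [], [], [], [], [], [], [], [], [],
  [], [], [(.ofNat 1, 91)], [(.ofNat 1, 92)], [(.ofNat 1, 93)], [], [], [], [], [], [],
  [(.ofNat 1, 100)], [], [], [], [], [], [(.ofNat 1, 106)], [(.ofNat 1, 107)], [(.ofNat 1, 108)],
  [], [], [], [], [], [], [(.ofNat 1, 115)]]

def tb_DP12 : Tab := [
  [], [], [], [], [], [], [], [], [], [], [], [], [], [], [], [], [], [], [], [], [], [], [], [],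
  [], [], [], [], [], [], [], [], [], [], [(.ofNat 1, 34)], [(.ofNat 1, 35)], [(.ofNat 1, 36)],
  [(.ofNat 1, 37)], [(.ofNat 1, 38)], [(.ofNat 1, 39)], [], [(.ofNat 1, 41)], [(.ofNat 1, 42)],
  [(.ofNat 1, 43)], [(.ofNat 1, 44)], [], [], [], [], [(.ofNat 1, 49)], [(.ofNat 1, 50)],
  [(.ofNat 1, 51)], [(.ofNat 1, 52)], [(.ofNat 1, 53)], [(.ofNat 1, 54)], [], [(.ofNat 1, 56)],
  [(.ofNat 1, 57)], [(.ofNat 1, 58)], [(.ofNat 1, 59)], [], [], [], [], [], [], [], [], [], [],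
  [], [], [], [], [], [], [], [], [], [], [], [], [], [], [], [], [], [], [], [], [], [], [], [],
  [(.ofNat 1, 94)], [(.ofNat 1, 95)], [(.ofNat 1, 96)], [(.ofNat 1, 97)], [(.ofNat 1, 98)],
  [(.ofNat 1, 99)], [], [(.ofNat 1, 101)], [(.ofNat 1, 102)], [(.ofNat 1, 103)],
  [(.ofNat 1, 104)], [], [], [], [], [(.ofNat 1, 109)], [(.ofNat 1, 110)], [(.ofNat 1, 111)],
  [(.ofNat 1, 112)], [(.ofNat 1, 113)], [(.ofNat 1, 114)], [], [(.ofNat 1, 116)],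
  [(.ofNat 1, 117)], [(.ofNat 1, 118)], [(.ofNat 1, 119)]]

def tb_Dsg : Tab := [
  [(.ofNat 1, 45)], [(.ofNat 1, 46), (.negSucc 0, 48)], [(.ofNat 1, 47)], [(.ofNat 1, 48)],
  [(.ofNat 1, 49), (.negSucc 0, 51), (.ofNat 1, 54)], [(.ofNat 1, 50), (.negSucc 0, 53)],
  [(.ofNat 1, 51), (.negSucc 1, 54)], [(.ofNat 1, 52)], [(.ofNat 1, 53)], [(.ofNat 1, 54)],
  [(.ofNat 1, 55)], [(.ofNat 1, 56), (.negSucc 0, 58)], [(.ofNat 1, 57)], [(.ofNat 1, 58)],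
  [(.ofNat 1, 59)], [], [], [], [], [], [], [], [], [], [], [], [], [], [], [], [], [], [], [],
  [], [], [], [], [], [], [], [], [], [], [], [], [], [], [], [], [], [], [], [], [], [], [], [],
  [], [], [], [], [], [], [], [], [], [], [], [], [], [], [], [], [], [(.ofNat 1, 105)],
  [(.ofNat 1, 106), (.negSucc 0, 108)], [(.ofNat 1, 107)], [(.ofNat 1, 108)],
  [(.ofNat 1, 109), (.negSucc 0, 111), (.ofNat 1, 114)], [(.ofNat 1, 110), (.negSucc 0, 113)],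
  [(.ofNat 1, 111), (.negSucc 1, 114)], [(.ofNat 1, 112)], [(.ofNat 1, 113)], [(.ofNat 1, 114)],
  [(.ofNat 1, 115)], [(.ofNat 1, 116), (.negSucc 0, 118)], [(.ofNat 1, 117)], [(.ofNat 1, 118)],
  [(.ofNat 1, 119)]]

def tb_Dta : Tab := [
  [], [], [], [], [], [], [], [], [], [], [], [], [], [], [], [], [], [], [], [], [], [], [], [],
  [], [], [], [], [], [], [(.ofNat 1, 15)], [(.ofNat 1, 16), (.ofNat 1, 18)], [(.ofNat 1, 17)],
  [(.ofNat 1, 18)], [(.ofNat 1, 19), (.ofNat 1, 21), (.ofNat 1, 24)],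
  [(.ofNat 1, 20), (.ofNat 1, 23)], [(.ofNat 1, 21), (.ofNat 2, 24)], [(.ofNat 1, 22)],
  [(.ofNat 1, 23)], [(.ofNat 1, 24)], [(.ofNat 1, 25)], [(.ofNat 1, 26), (.ofNat 1, 28)],
  [(.ofNat 1, 27)], [(.ofNat 1, 28)], [(.ofNat 1, 29)], [], [], [], [], [], [], [], [], [], [],
  [], [], [], [], [], [], [], [], [], [], [], [], [], [], [], [], [], [], [], [], [], [], [], [],
  [], [], [], [], [], [], [], [], [], [], [], [(.ofNat 1, 60)], [(.ofNat 1, 61), (.ofNat 1, 63)],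
  [(.ofNat 1, 62)], [(.ofNat 1, 63)], [(.ofNat 1, 64), (.ofNat 1, 66), (.ofNat 1, 69)],
  [(.ofNat 1, 65), (.ofNat 1, 68)], [(.ofNat 1, 66), (.ofNat 2, 69)], [(.ofNat 1, 67)],
  [(.ofNat 1, 68)], [(.ofNat 1, 69)], [(.ofNat 1, 70)], [(.ofNat 1, 71), (.ofNat 1, 73)],
  [(.ofNat 1, 72)], [(.ofNat 1, 73)], [(.ofNat 1, 74)]]

def tb_Ds : Tab := [
  [(.ofNat 1, 2)], [(.ofNat 1, 5), (.ofNat 1, 8)], [(.ofNat 1, 7)], [(.ofNat 1, 8)], [], [], [],
  [], [], [], [(.ofNat 1, 12)], [], [], [], [], [(.ofNat 1, 17)],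
  [(.ofNat 1, 20), (.ofNat 1, 23)], [(.ofNat 1, 22)], [(.ofNat 1, 23)], [], [], [], [], [], [],
  [(.ofNat 1, 27)], [], [], [], [], [(.ofNat 1, 32)], [(.ofNat 1, 35), (.ofNat 1, 38)],
  [(.ofNat 1, 37)], [(.ofNat 1, 38)], [], [], [], [], [], [], [(.ofNat 1, 42)], [], [], [], [],
  [(.ofNat 1, 47)], [(.ofNat 1, 50), (.ofNat 1, 53)], [(.ofNat 1, 52)], [(.ofNat 1, 53)], [], [],
  [], [], [], [], [(.ofNat 1, 57)], [], [], [], [], [(.ofNat 1, 62)],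
  [(.ofNat 1, 65), (.ofNat 1, 68)], [(.ofNat 1, 67)], [(.ofNat 1, 68)], [], [], [], [], [], [],
  [(.ofNat 1, 72)], [], [], [], [], [(.ofNat 1, 77)], [(.ofNat 1, 80), (.ofNat 1, 83)],
  [(.ofNat 1, 82)], [(.ofNat 1, 83)], [], [], [], [], [], [], [(.ofNat 1, 87)], [], [], [], [],
  [(.ofNat 1, 92)], [(.ofNat 1, 95), (.ofNat 1, 98)], [(.ofNat 1, 97)], [(.ofNat 1, 98)], [], [],
  [], [], [], [], [(.ofNat 1, 102)], [], [], [], [], [(.ofNat 1, 107)],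
  [(.ofNat 1, 110), (.ofNat 1, 113)], [(.ofNat 1, 112)], [(.ofNat 1, 113)], [], [], [], [], [],
  [], [(.ofNat 1, 117)]]

def tb_Dt : Tab := [
  [(.ofNat 1, 3)], [(.ofNat 1, 6)], [], [(.ofNat 1, 9)], [], [], [], [], [], [],
  [(.ofNat 1, 13)], [], [], [], [], [(.ofNat 1, 18)], [(.ofNat 1, 21)], [], [(.ofNat 1, 24)], [],
  [], [], [], [], [], [(.ofNat 1, 28)], [], [], [], [], [(.ofNat 1, 33)], [(.ofNat 1, 36)], [],
  [(.ofNat 1, 39)], [], [], [], [], [], [], [(.ofNat 1, 43)], [], [], [], [], [(.ofNat 1, 48)],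
  [(.ofNat 1, 51)], [], [(.ofNat 1, 54)], [], [], [], [], [], [], [(.ofNat 1, 58)], [], [], [],
  [], [(.ofNat 1, 63)], [(.ofNat 1, 66)], [], [(.ofNat 1, 69)], [], [], [], [], [], [],
  [(.ofNat 1, 73)], [], [], [], [], [(.ofNat 1, 78)], [(.ofNat 1, 81)], [], [(.ofNat 1, 84)], [],
  [], [], [], [], [], [(.ofNat 1, 88)], [], [], [], [], [(.ofNat 1, 93)], [(.ofNat 1, 96)], [],
  [(.ofNat 1, 99)], [], [], [], [], [], [], [(.ofNat 1, 103)], [], [], [], [], [(.ofNat 1, 108)],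
  [(.ofNat 1, 111)], [], [(.ofNat 1, 114)], [], [], [], [], [], [], [(.ofNat 1, 118)]]

def tb_DQ : Tab := [
  [], [], [], [], [], [], [], [], [], [], [], [], [], [], [], [], [], [], [], [], [], [], [], [],
  [], [], [], [], [], [], [], [], [], [], [(.ofNat 1, 34)], [], [], [], [], [], [],
  [(.ofNat 1, 41)], [], [], [(.ofNat 1, 44)], [], [], [], [], [], [], [], [], [], [], [], [], [],
  [], [], [], [], [], [], [], [], [], [], [], [], [], [], [], [], [], [], [], [], [], [], [], [],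
  [], [], [], [], [], [], [], [], [], [], [], [], [(.ofNat 1, 94)], [], [], [], [], [], [],
  [(.ofNat 1, 101)], [], [], [(.ofNat 1, 104)]]

def tb_Phi : Tab := [
  [(.ofNat 1, 0)], [(.ofNat 1, 1)], [(.ofNat 1, 2)], [(.ofNat 1, 3)], [(.ofNat 1, 4)],
  [(.ofNat 1, 5)], [(.ofNat 1, 6)], [(.ofNat 1, 7)], [(.ofNat 1, 8)], [(.ofNat 1, 9)],
  [(.ofNat 1, 10)], [(.ofNat 1, 11)], [(.ofNat 1, 12)], [(.ofNat 1, 13)], [(.ofNat 1, 14)],
  [(.ofNat 1, 15)], [(.ofNat 1, 16)], [(.ofNat 1, 17)], [(.ofNat 1, 18)], [(.ofNat 1, 19)],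
  [(.ofNat 1, 20)], [(.ofNat 1, 21)], [(.ofNat 1, 22)], [(.ofNat 1, 23)], [(.ofNat 1, 24)],
  [(.ofNat 1, 25)], [(.ofNat 1, 26)], [(.ofNat 1, 27)], [(.ofNat 1, 28)], [(.ofNat 1, 29)],
  [(.ofNat 1, 30)], [(.ofNat 1, 31)], [(.ofNat 1, 32)], [(.ofNat 1, 33)], [(.ofNat 1, 34)],
  [(.ofNat 1, 35)], [(.ofNat 1, 36)], [(.ofNat 1, 37)], [(.ofNat 1, 38)], [(.ofNat 1, 39)],
  [(.ofNat 1, 40)], [(.ofNat 1, 41)], [(.ofNat 1, 42)], [(.ofNat 1, 43)], [(.ofNat 1, 44)],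
  [(.ofNat 1, 45)], [(.ofNat 1, 46)], [(.ofNat 1, 47)], [(.ofNat 1, 48)], [(.ofNat 1, 49)],
  [(.ofNat 1, 50)], [(.ofNat 1, 51)], [(.ofNat 1, 52)], [(.ofNat 1, 53)], [(.ofNat 1, 54)],
  [(.ofNat 1, 55)], [(.ofNat 1, 56)], [(.ofNat 1, 57)], [(.ofNat 1, 58)], [(.ofNat 1, 59)],
  [(.ofNat 1, 60)], [(.ofNat 1, 61)], [(.ofNat 1, 62)], [(.ofNat 1, 63)], [(.ofNat 1, 64)],
  [(.ofNat 1, 65)], [(.ofNat 1, 66)], [(.ofNat 1, 67)], [(.ofNat 1, 68)], [(.ofNat 1, 69)],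
  [(.ofNat 1, 70)], [(.ofNat 1, 71)], [(.ofNat 1, 72)], [(.ofNat 1, 73)], [(.ofNat 1, 74)],
  [(.ofNat 1, 75)], [(.ofNat 1, 76)], [(.ofNat 1, 77)], [(.ofNat 1, 78)], [(.ofNat 1, 79)],
  [(.ofNat 1, 80)], [(.ofNat 1, 81)], [(.ofNat 1, 82)], [(.ofNat 1, 83)], [(.ofNat 1, 84)],
  [(.ofNat 1, 85)], [(.ofNat 1, 86)], [(.ofNat 1, 87)], [(.ofNat 1, 88)], [(.ofNat 1, 89)],
  [(.ofNat 1, 90)], [(.ofNat 1, 91)], [(.ofNat 1, 92)], [(.ofNat 1, 93)], [(.ofNat 1, 94)],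
  [(.ofNat 1, 95)], [(.ofNat 1, 96)], [(.ofNat 1, 97)], [(.ofNat 1, 98)], [(.ofNat 1, 99)],
  [(.ofNat 1, 100)], [(.ofNat 1, 101)], [(.ofNat 1, 102)], [(.ofNat 1, 103)], [(.ofNat 1, 104)],
  [(.ofNat 1, 105)], [(.ofNat 1, 106)], [(.ofNat 1, 107)], [(.ofNat 1, 108)], [(.ofNat 1, 109)],
  [(.ofNat 1, 110)], [(.ofNat 1, 111)], [(.ofNat 1, 112)], [(.ofNat 1, 113)], [(.ofNat 1, 114)],
  [(.ofNat 1, 115)], [(.ofNat 1, 116)], [(.ofNat 1, 117)], [(.ofNat 1, 118)], [(.ofNat 1, 119)]]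

def tb_Phi0 : Tab := [
  [], [], [], [(.negSucc 0, 1)], [], [], [(.negSucc 0, 4)], [], [(.negSucc 0, 5)],
  [(.negSucc 1, 6)], [], [], [], [(.negSucc 0, 11)], [], [], [], [], [(.negSucc 0, 16)], [], [],
  [(.negSucc 0, 19)], [], [(.negSucc 0, 20)], [(.negSucc 1, 21)], [], [], [], [(.negSucc 0, 26)],
  [], [], [], [], [(.negSucc 0, 31)], [], [], [(.negSucc 0, 34)], [], [(.negSucc 0, 35)],
  [(.negSucc 1, 36)], [], [], [], [(.negSucc 0, 41)], [], [], [], [(.negSucc 0, 31)],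
  [(.negSucc 0, 46)], [], [(.negSucc 0, 34)], [(.negSucc 0, 49)], [(.negSucc 1, 35)],
  [(.negSucc 0, 36), (.negSucc 0, 50)], [(.negSucc 1, 51)], [], [], [(.negSucc 0, 41)],
  [(.negSucc 0, 56)], [], [], [], [(.ofNat 1, 76)], [(.negSucc 0, 61)], [], [(.ofNat 1, 79)],
  [(.negSucc 0, 64)], [(.ofNat 2, 80)], [(.negSucc 0, 65), (.ofNat 1, 81)], [(.negSucc 1, 66)],
  [], [], [(.ofNat 1, 86)], [(.negSucc 0, 71)], [], [], [], [], [(.negSucc 0, 76)], [], [],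
  [(.negSucc 0, 79)], [], [(.negSucc 0, 80)], [(.negSucc 1, 81)], [], [], [], [(.negSucc 0, 86)],
  [], [], [], [], [(.negSucc 0, 91)], [], [], [(.negSucc 0, 94)], [], [(.negSucc 0, 95)],
  [(.negSucc 1, 96)], [], [], [], [(.negSucc 0, 101)], [], [], [], [], [(.negSucc 0, 106)], [],
  [], [(.negSucc 0, 109)], [], [(.negSucc 0, 110)], [(.negSucc 1, 111)], [], [], [],
  [(.negSucc 0, 116)]]

def tb_Phi1 : Tab := [
  [], [], [(.negSucc 0, 1)], [], [], [(.negSucc 0, 4)], [], [(.negSucc 1, 5)],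
  [(.negSucc 0, 4), (.negSucc 0, 6)], [], [], [], [(.negSucc 0, 11)], [], [], [], [],
  [(.negSucc 0, 16)], [], [], [(.negSucc 0, 19)], [], [(.negSucc 1, 20)],
  [(.negSucc 0, 19), (.negSucc 0, 21)], [], [], [], [(.negSucc 0, 26)], [], [], [], [],
  [(.negSucc 0, 31)], [], [], [(.negSucc 0, 34)], [], [(.negSucc 1, 35)],
  [(.negSucc 0, 34), (.negSucc 0, 36)], [], [], [], [(.negSucc 0, 41)], [], [], [], [],
  [(.negSucc 0, 46)], [], [], [(.negSucc 0, 49)], [], [(.negSucc 0, 34), (.negSucc 1, 50)],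
  [(.negSucc 0, 49), (.negSucc 0, 51)], [], [], [], [(.negSucc 0, 56)], [], [], [], [],
  [(.negSucc 0, 61)], [], [], [(.negSucc 0, 64)], [], [(.negSucc 1, 65), (.ofNat 1, 79)],
  [(.negSucc 0, 64), (.negSucc 0, 66)], [], [], [], [(.negSucc 0, 71)], [], [], [], [],
  [(.negSucc 0, 76)], [], [], [(.negSucc 0, 79)], [], [(.negSucc 1, 80)],
  [(.negSucc 0, 79), (.negSucc 0, 81)], [], [], [], [(.negSucc 0, 86)], [], [], [], [],
  [(.negSucc 0, 91)], [], [], [(.negSucc 0, 94)], [], [(.negSucc 1, 95)],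
  [(.negSucc 0, 94), (.negSucc 0, 96)], [], [], [], [(.negSucc 0, 101)], [], [], [], [],
  [(.negSucc 0, 106)], [], [], [(.negSucc 0, 109)], [], [(.negSucc 1, 110)],
  [(.negSucc 0, 109), (.negSucc 0, 111)], [], [], [], [(.negSucc 0, 116)]]

def tb_Phi2 : Tab := [
  [], [], [], [], [], [], [], [], [], [], [], [], [], [], [], [], [], [], [], [], [], [], [], [],
  [], [], [], [], [], [], [], [], [], [], [], [], [], [], [], [], [], [], [], [], [],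
  [(.negSucc 0, 30)], [(.negSucc 0, 31)], [(.negSucc 0, 32)], [(.ofNat 1, 31), (.negSucc 0, 33)],
  [(.negSucc 0, 34)], [(.negSucc 0, 35)], [(.ofNat 1, 34), (.negSucc 0, 36)], [(.negSucc 0, 37)],
  [(.ofNat 1, 35), (.negSucc 0, 38)], [(.negSucc 0, 34), (.ofNat 2, 36), (.negSucc 0, 39)],
  [(.negSucc 0, 40)], [(.negSucc 0, 41)], [(.negSucc 0, 42)], [(.ofNat 1, 41), (.negSucc 0, 43)],
  [(.negSucc 0, 44)], [(.ofNat 1, 75)], [(.ofNat 1, 76)], [(.ofNat 1, 77)],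
  [(.negSucc 0, 76), (.ofNat 1, 78)], [(.ofNat 1, 79)], [(.ofNat 1, 80)],
  [(.negSucc 0, 79), (.ofNat 1, 81)], [(.ofNat 1, 82)], [(.negSucc 0, 80), (.ofNat 1, 83)],
  [(.ofNat 1, 79), (.negSucc 1, 81), (.ofNat 1, 84)], [(.ofNat 1, 85)], [(.ofNat 1, 86)],
  [(.ofNat 1, 87)], [(.negSucc 0, 86), (.ofNat 1, 88)], [(.ofNat 1, 89)]]

def tb_Phi00 : Tab := [
  [], [], [], [], [], [], [], [], [], [(.ofNat 1, 4)], [], [], [], [], [], [], [], [], [], [],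
  [], [], [], [], [(.ofNat 1, 19)], [], [], [], [], [], [], [], [], [], [], [], [], [], [],
  [(.ofNat 1, 34)], [], [], [], [], [], [], [], [], [], [], [], [], [], [(.ofNat 1, 34)],
  [(.ofNat 1, 49)], [], [], [], [], [], [], [], [], [], [], [], [], [], [(.negSucc 0, 79)],
  [(.ofNat 1, 64)], [], [], [], [], [], [], [], [], [], [], [], [], [], [], [(.ofNat 1, 79)], [],
  [], [], [], [], [], [], [], [], [], [], [], [], [], [(.ofNat 1, 94)], [], [], [], [], [], [],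
  [], [], [], [], [], [], [], [], [(.ofNat 1, 109)]]

def tb_Phi01 : Tab := [
  [], [], [], [], [], [], [], [], [(.ofNat 1, 4)], [], [], [], [], [], [], [], [], [], [], [],
  [], [], [], [(.ofNat 1, 19)], [], [], [], [], [], [], [], [], [], [], [], [], [], [],
  [(.ofNat 1, 34)], [], [], [], [], [], [], [], [], [], [], [], [], [], [(.ofNat 2, 34)],
  [(.ofNat 1, 49)], [], [], [], [], [], [], [], [], [], [], [], [], [], [(.negSucc 1, 79)],
  [(.ofNat 1, 64)], [], [], [], [], [], [], [], [], [], [], [], [], [], [], [(.ofNat 1, 79)], [],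
  [], [], [], [], [], [], [], [], [], [], [], [], [], [(.ofNat 1, 94)], [], [], [], [], [], [],
  [], [], [], [], [], [], [], [], [(.ofNat 1, 109)]]

def tb_Phi02 : Tab := [
  [], [], [], [], [], [], [], [], [], [], [], [], [], [], [], [], [], [], [], [], [], [], [], [],
  [], [], [], [], [], [], [], [], [], [], [], [], [], [], [], [], [], [], [], [], [], [], [], [],
  [(.ofNat 1, 31)], [], [], [(.ofNat 1, 34)], [], [(.ofNat 1, 35)],
  [(.negSucc 1, 34), (.ofNat 2, 36)], [], [], [], [(.ofNat 1, 41)], [], [], [], [],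
  [(.negSucc 0, 76)], [], [], [(.negSucc 0, 79)], [], [(.negSucc 0, 80)],
  [(.ofNat 2, 79), (.negSucc 1, 81)], [], [], [], [(.negSucc 0, 86)]]

def tb_Phi11 : Tab := [
  [], [], [], [], [], [], [], [(.ofNat 1, 4)], [], [], [], [], [], [], [], [], [], [], [], [],
  [], [], [(.ofNat 1, 19)], [], [], [], [], [], [], [], [], [], [], [], [], [], [],
  [(.ofNat 1, 34)], [], [], [], [], [], [], [], [], [], [], [], [], [], [], [(.ofNat 1, 49)], [],
  [], [], [], [], [], [], [], [], [], [], [], [], [], [(.ofNat 1, 64)], [], [], [], [], [], [],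
  [], [], [], [], [], [], [], [], [(.ofNat 1, 79)], [], [], [], [], [], [], [], [], [], [], [],
  [], [], [], [(.ofNat 1, 94)], [], [], [], [], [], [], [], [], [], [], [], [], [], [],
  [(.ofNat 1, 109)]]

def tb_Phi12 : Tab := [
  [], [], [], [], [], [], [], [], [], [], [], [], [], [], [], [], [], [], [], [], [], [], [], [],
  [], [], [], [], [], [], [], [], [], [], [], [], [], [], [], [], [], [], [], [], [], [], [],
  [(.ofNat 1, 31)], [], [], [(.ofNat 1, 34)], [], [(.ofNat 2, 35)], [(.ofNat 1, 36)], [], [], [],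
  [(.ofNat 1, 41)], [], [], [], [], [(.negSucc 0, 76)], [], [], [(.negSucc 0, 79)], [],
  [(.negSucc 1, 80)], [(.negSucc 0, 81)], [], [], [], [(.negSucc 0, 86)]]

def tb_Phi002 : Tab := [
  [], [], [], [], [], [], [], [], [], [], [], [], [], [], [], [], [], [], [], [], [], [], [], [],
  [], [], [], [], [], [], [], [], [], [], [], [], [], [], [], [], [], [], [], [], [], [], [], [],
  [], [], [], [], [], [], [(.negSucc 0, 34)], [], [], [], [], [], [], [], [], [], [], [], [], [],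
  [], [(.ofNat 1, 79)]]

def tb_Phi012 : Tab := [
  [], [], [], [], [], [], [], [], [], [], [], [], [], [], [], [], [], [], [], [], [], [], [], [],
  [], [], [], [], [], [], [], [], [], [], [], [], [], [], [], [], [], [], [], [], [], [], [], [],
  [], [], [], [], [], [(.negSucc 0, 34)], [], [], [], [], [], [], [], [], [], [], [], [], [], [],
  [(.ofNat 1, 79)]]

def tb_Phi112 : Tab := [
  [], [], [], [], [], [], [], [], [], [], [], [], [], [], [], [], [], [], [], [], [], [], [], [],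
  [], [], [], [], [], [], [], [], [], [], [], [], [], [], [], [], [], [], [], [], [], [], [], [],
  [], [], [], [], [(.negSucc 0, 34)], [], [], [], [], [], [], [], [], [], [], [], [], [], [],
  [(.ofNat 1, 79)]]

def tb_Psi : Tab := [
  [(.ofNat 1, 0)], [(.ofNat 1, 1)], [(.ofNat 1, 2)], [(.ofNat 1, 3)], [(.ofNat 1, 4)],
  [(.ofNat 1, 5)], [(.ofNat 1, 6)], [(.ofNat 1, 7)], [(.ofNat 1, 8)], [(.ofNat 1, 9)],
  [(.ofNat 1, 10)], [(.ofNat 1, 11)], [(.ofNat 1, 12)], [(.ofNat 1, 13)], [(.ofNat 1, 14)],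
  [(.ofNat 1, 15)], [(.ofNat 1, 16)], [(.ofNat 1, 17)], [(.ofNat 1, 18)], [(.ofNat 1, 19)],
  [(.ofNat 1, 20)], [(.ofNat 1, 21)], [(.ofNat 1, 22)], [(.ofNat 1, 23)], [(.ofNat 1, 24)],
  [(.ofNat 1, 25)], [(.ofNat 1, 26)], [(.ofNat 1, 27)], [(.ofNat 1, 28)], [(.ofNat 1, 29)],
  [(.ofNat 1, 30)], [(.ofNat 1, 31)], [(.ofNat 1, 32)], [(.ofNat 1, 33)], [(.ofNat 1, 34)],
  [(.ofNat 1, 35)], [(.ofNat 1, 36)], [(.ofNat 1, 37)], [(.ofNat 1, 38)], [(.ofNat 1, 39)],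
  [(.ofNat 1, 40)], [(.ofNat 1, 41)], [(.ofNat 1, 42)], [(.ofNat 1, 43)], [(.ofNat 1, 44)],
  [(.ofNat 1, 45)], [(.ofNat 1, 46)], [(.ofNat 1, 47)], [(.ofNat 1, 48)], [(.ofNat 1, 49)],
  [(.ofNat 1, 50)], [(.ofNat 1, 51)], [(.ofNat 1, 52)], [(.ofNat 1, 53)], [(.ofNat 1, 54)],
  [(.ofNat 1, 55)], [(.ofNat 1, 56)], [(.ofNat 1, 57)], [(.ofNat 1, 58)], [(.ofNat 1, 59)],
  [(.ofNat 1, 60)], [(.ofNat 1, 61)], [(.ofNat 1, 62)], [(.ofNat 1, 63)], [(.ofNat 1, 64)],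
  [(.ofNat 1, 65)], [(.ofNat 1, 66)], [(.ofNat 1, 67)], [(.ofNat 1, 68)], [(.ofNat 1, 69)],
  [(.ofNat 1, 70)], [(.ofNat 1, 71)], [(.ofNat 1, 72)], [(.ofNat 1, 73)], [(.ofNat 1, 74)],
  [(.ofNat 1, 75)], [(.ofNat 1, 76)], [(.ofNat 1, 77)], [(.ofNat 1, 78)], [(.ofNat 1, 79)],
  [(.ofNat 1, 80)], [(.ofNat 1, 81)], [(.ofNat 1, 82)], [(.ofNat 1, 83)], [(.ofNat 1, 84)],
  [(.ofNat 1, 85)], [(.ofNat 1, 86)], [(.ofNat 1, 87)], [(.ofNat 1, 88)], [(.ofNat 1, 89)],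
  [(.ofNat 1, 90)], [(.ofNat 1, 91)], [(.ofNat 1, 92)], [(.ofNat 1, 93)], [(.ofNat 1, 94)],
  [(.ofNat 1, 95)], [(.ofNat 1, 96)], [(.ofNat 1, 97)], [(.ofNat 1, 98)], [(.ofNat 1, 99)],
  [(.ofNat 1, 100)], [(.ofNat 1, 101)], [(.ofNat 1, 102)], [(.ofNat 1, 103)], [(.ofNat 1, 104)],
  [(.ofNat 1, 105)], [(.ofNat 1, 106)], [(.ofNat 1, 107)], [(.ofNat 1, 108)], [(.ofNat 1, 109)],
  [(.ofNat 1, 110)], [(.ofNat 1, 111)], [(.ofNat 1, 112)], [(.ofNat 1, 113)], [(.ofNat 1, 114)],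
  [(.ofNat 1, 115)], [(.ofNat 1, 116)], [(.ofNat 1, 117)], [(.ofNat 1, 118)], [(.ofNat 1, 119)]]

def tb_Psi0 : Tab := [
  [], [], [], [(.ofNat 1, 1)], [], [], [(.ofNat 1, 4)], [], [(.ofNat 1, 5)], [(.ofNat 2, 6)], [],
  [], [], [(.ofNat 1, 11)], [], [], [], [], [(.ofNat 1, 16)], [], [], [(.ofNat 1, 19)], [],
  [(.ofNat 1, 20)], [(.ofNat 2, 21)], [], [], [], [(.ofNat 1, 26)], [], [], [], [],
  [(.ofNat 1, 31)], [], [], [(.ofNat 1, 34)], [], [(.ofNat 1, 35)], [(.ofNat 2, 36)], [], [], [],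
  [(.ofNat 1, 41)], [], [], [], [], [(.ofNat 1, 46)], [], [], [(.ofNat 1, 49)], [],
  [(.ofNat 1, 50)], [(.ofNat 2, 51)], [], [], [], [(.ofNat 1, 56)], [], [], [], [],
  [(.ofNat 1, 61)], [], [], [(.ofNat 1, 64)], [], [(.ofNat 1, 65)], [(.ofNat 2, 66)], [], [], [],
  [(.ofNat 1, 71)], [], [], [], [], [(.ofNat 1, 76)], [], [], [(.ofNat 1, 79)], [],
  [(.ofNat 1, 80)], [(.ofNat 2, 81)], [], [], [], [(.ofNat 1, 86)], [], [], [], [],
  [(.ofNat 1, 91)], [], [], [(.ofNat 1, 94)], [], [(.ofNat 1, 95)], [(.ofNat 2, 96)], [], [], [],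
  [(.ofNat 1, 101)], [], [], [], [], [(.ofNat 1, 106)], [], [], [(.ofNat 1, 109)], [],
  [(.ofNat 1, 110)], [(.ofNat 2, 111)], [], [], [], [(.ofNat 1, 116)]]

def tb_Psi1 : Tab := [
  [], [], [(.ofNat 1, 1)], [], [], [(.ofNat 1, 4)], [], [(.ofNat 2, 5)], [(.ofNat 1, 6)], [], [],
  [], [(.ofNat 1, 11)], [], [], [], [], [(.ofNat 1, 16)], [], [], [(.ofNat 1, 19)], [],
  [(.ofNat 2, 20)], [(.ofNat 1, 21)], [], [], [], [(.ofNat 1, 26)], [], [], [], [],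
  [(.ofNat 1, 31)], [], [], [(.ofNat 1, 34)], [], [(.ofNat 2, 35)], [(.ofNat 1, 36)], [], [], [],
  [(.ofNat 1, 41)], [], [], [], [], [(.ofNat 1, 46)], [], [], [(.ofNat 1, 49)], [],
  [(.ofNat 2, 50)], [(.ofNat 1, 51)], [], [], [], [(.ofNat 1, 56)], [], [], [], [],
  [(.ofNat 1, 61)], [], [], [(.ofNat 1, 64)], [], [(.ofNat 2, 65)], [(.ofNat 1, 66)], [], [], [],
  [(.ofNat 1, 71)], [], [], [], [], [(.ofNat 1, 76)], [], [], [(.ofNat 1, 79)], [],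
  [(.ofNat 2, 80)], [(.ofNat 1, 81)], [], [], [], [(.ofNat 1, 86)], [], [], [], [],
  [(.ofNat 1, 91)], [], [], [(.ofNat 1, 94)], [], [(.ofNat 2, 95)], [(.ofNat 1, 96)], [], [], [],
  [(.ofNat 1, 101)], [], [], [], [], [(.ofNat 1, 106)], [], [], [(.ofNat 1, 109)], [],
  [(.ofNat 2, 110)], [(.ofNat 1, 111)], [], [], [], [(.ofNat 1, 116)]]

def tb_Psi2 : Tab := [
  [], [], [], [], [], [], [], [], [], [], [], [], [], [], [], [], [], [], [], [], [], [], [], [],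
  [], [], [], [], [], [], [], [], [], [], [], [], [], [], [], [], [], [], [], [], [],
  [(.ofNat 1, 30)], [(.ofNat 1, 31)], [(.ofNat 1, 32)], [(.ofNat 1, 33)], [(.ofNat 1, 34)],
  [(.ofNat 1, 35)], [(.ofNat 1, 36)], [(.ofNat 1, 37)], [(.ofNat 1, 38)], [(.ofNat 1, 39)],
  [(.ofNat 1, 40)], [(.ofNat 1, 41)], [(.ofNat 1, 42)], [(.ofNat 1, 43)], [(.ofNat 1, 44)],
  [(.negSucc 0, 75)], [(.negSucc 0, 76)], [(.negSucc 0, 77)], [(.negSucc 0, 78)],
  [(.negSucc 0, 79)], [(.negSucc 0, 80)], [(.negSucc 0, 81)], [(.negSucc 0, 82)],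
  [(.negSucc 0, 83)], [(.negSucc 0, 84)], [(.negSucc 0, 85)], [(.negSucc 0, 86)],
  [(.negSucc 0, 87)], [(.negSucc 0, 88)], [(.negSucc 0, 89)]]

def tb_Psi00 : Tab := [
  [], [], [], [], [], [], [], [], [], [(.ofNat 1, 4)], [], [], [], [], [], [], [], [], [], [],
  [], [], [], [], [(.ofNat 1, 19)], [], [], [], [], [], [], [], [], [], [], [], [], [], [],
  [(.ofNat 1, 34)], [], [], [], [], [], [], [], [], [], [], [], [], [], [], [(.ofNat 1, 49)], [],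
  [], [], [], [], [], [], [], [], [], [], [], [], [], [(.ofNat 1, 64)], [], [], [], [], [], [],
  [], [], [], [], [], [], [], [], [(.ofNat 1, 79)], [], [], [], [], [], [], [], [], [], [], [],
  [], [], [], [(.ofNat 1, 94)], [], [], [], [], [], [], [], [], [], [], [], [], [], [],
  [(.ofNat 1, 109)]]

def tb_Psi01 : Tab := [
  [], [], [], [], [], [], [], [], [(.ofNat 1, 4)], [], [], [], [], [], [], [], [], [], [], [],
  [], [], [], [(.ofNat 1, 19)], [], [], [], [], [], [], [], [], [], [], [], [], [], [],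
  [(.ofNat 1, 34)], [], [], [], [], [], [], [], [], [], [], [], [], [], [], [(.ofNat 1, 49)], [],
  [], [], [], [], [], [], [], [], [], [], [], [], [], [(.ofNat 1, 64)], [], [], [], [], [], [],
  [], [], [], [], [], [], [], [], [(.ofNat 1, 79)], [], [], [], [], [], [], [], [], [], [], [],
  [], [], [], [(.ofNat 1, 94)], [], [], [], [], [], [], [], [], [], [], [], [], [], [],
  [(.ofNat 1, 109)]]

def tb_Psi02 : Tab := [
  [], [], [], [], [], [], [], [], [], [], [], [], [], [], [], [], [], [], [], [], [], [], [], [],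
  [], [], [], [], [], [], [], [], [], [], [], [], [], [], [], [], [], [], [], [], [], [], [], [],
  [(.ofNat 1, 31)], [], [], [(.ofNat 1, 34)], [], [(.ofNat 1, 35)], [(.ofNat 2, 36)], [], [], [],
  [(.ofNat 1, 41)], [], [], [], [], [(.negSucc 0, 76)], [], [], [(.negSucc 0, 79)], [],
  [(.negSucc 0, 80)], [(.negSucc 1, 81)], [], [], [], [(.negSucc 0, 86)]]

def tb_Psi11 : Tab := [
  [], [], [], [], [], [], [], [(.ofNat 1, 4)], [], [], [], [], [], [], [], [], [], [], [], [],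
  [], [], [(.ofNat 1, 19)], [], [], [], [], [], [], [], [], [], [], [], [], [], [],
  [(.ofNat 1, 34)], [], [], [], [], [], [], [], [], [], [], [], [], [], [], [(.ofNat 1, 49)], [],
  [], [], [], [], [], [], [], [], [], [], [], [], [], [(.ofNat 1, 64)], [], [], [], [], [], [],
  [], [], [], [], [], [], [], [], [(.ofNat 1, 79)], [], [], [], [], [], [], [], [], [], [], [],
  [], [], [], [(.ofNat 1, 94)], [], [], [], [], [], [], [], [], [], [], [], [], [], [],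
  [(.ofNat 1, 109)]]

def tb_Psi12 : Tab := [
  [], [], [], [], [], [], [], [], [], [], [], [], [], [], [], [], [], [], [], [], [], [], [], [],
  [], [], [], [], [], [], [], [], [], [], [], [], [], [], [], [], [], [], [], [], [], [], [],
  [(.ofNat 1, 31)], [], [], [(.ofNat 1, 34)], [], [(.ofNat 2, 35)], [(.ofNat 1, 36)], [], [], [],
  [(.ofNat 1, 41)], [], [], [], [], [(.negSucc 0, 76)], [], [], [(.negSucc 0, 79)], [],
  [(.negSucc 1, 80)], [(.negSucc 0, 81)], [], [], [], [(.negSucc 0, 86)]]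

def tb_Psi002 : Tab := [
  [], [], [], [], [], [], [], [], [], [], [], [], [], [], [], [], [], [], [], [], [], [], [], [],
  [], [], [], [], [], [], [], [], [], [], [], [], [], [], [], [], [], [], [], [], [], [], [], [],
  [], [], [], [], [], [], [(.ofNat 1, 34)], [], [], [], [], [], [], [], [], [], [], [], [], [],
  [], [(.negSucc 0, 79)]]

def tb_Psi012 : Tab := [
  [], [], [], [], [], [], [], [], [], [], [], [], [], [], [], [], [], [], [], [], [], [], [], [],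
  [], [], [], [], [], [], [], [], [], [], [], [], [], [], [], [], [], [], [], [], [], [], [], [],
  [], [], [], [], [], [(.ofNat 1, 34)], [], [], [], [], [], [], [], [], [], [], [], [], [], [],
  [(.negSucc 0, 79)]]

def tb_Psi112 : Tab := [
  [], [], [], [], [], [], [], [], [], [], [], [], [], [], [], [], [], [], [], [], [], [], [], [],
  [], [], [], [], [], [], [], [], [], [], [], [], [], [], [], [], [], [], [], [], [], [], [], [],
  [], [], [], [], [(.ofNat 1, 34)], [], [], [], [], [], [], [], [], [], [], [], [], [], [],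
  [(.negSucc 0, 79)]]

/-- The new tables. -/
def newTabs : List Tab := [
  tb_DRa, tb_DRb, tb_DRA, tb_DRB, tb_DRf, tb_DRh, tb_DRz, tb_DP00, tb_DP01, tb_DP02, tb_DP10, tb_DP11, tb_DP12, tb_Dsg, tb_Dta, tb_Ds, tb_Dt, tb_DQ, tb_Phi, tb_Phi0, tb_Phi1, tb_Phi2, tb_Phi00, tb_Phi01, tb_Phi02, tb_Phi11, tb_Phi12, tb_Phi002, tb_Phi012, tb_Phi112, tb_Psi, tb_Psi0, tb_Psi1, tb_Psi2, tb_Psi00, tb_Psi01, tb_Psi02, tb_Psi11, tb_Psi12, tb_Psi002, tb_Psi012, tb_Psi112]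

/-- All tables: those of the library followed by the new ones. -/
def allTabs2 : List Tab := allTabs ++ newTabs

end Pool.Agent.H379.NK
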