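import Pool.Graph.R_seed8.W450.RigIds2
import Pool.Agent.H379.NK.Tab

/-!
# Operator expressions over the extended list of tables

Same language as in the library module `W450.RigEx`, evaluated with the extended list of tables.
-/

set_option autoImplicit false

namespace Pool.Agent.H379.NK

open W450.Rig

/-- The row number `i` of the table number `n` of the extended list. -/
def tabRow2 (n i : ℕ) : Row := (allTabs2.getD n []).getD i []

/-- Symbolic evaluation. -/
def row2 : Ex → FS → FS
  | .one, l => l
  | .tab n, l => l.flatMap fun p => (tabRow2 n p.2.2).map fun q => (p.1 * q.1, p.2.1, q.2)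
  | .ltr k, l => l.map fun p => (p.1, k :: p.2.1, p.2.2)
  | .mul a b, l => row2 a (row2 b l)
  | .add a b, l => row2 a l ++ row2 b l
  | .smul c a, l => (row2 a l).map fun p => (c * p.1, p.2)

/-- The zero test for an operator expression. -/
def chk2 (x : Ex) : Bool := (List.range 120).all fun j => zchk (nfF (row2 x [(1, [], j)]))

universe u

variable {K : Type u} [Field K]
variable {V : Type u} [AddCommGroup V] [Module K V]
variable {V' : Type u} [AddCommGroup V'] [Module K V']

/-- The matrix of a table. -/
def tmat2 (K : Type u) [Field K] (n : ℕ) : Matrix B B K :=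
  fun i j => ((coefR (tabRow2 n j) i : ℤ) : K)

/-- Evaluation of an expression. -/
def ev2 (S : SL K V) : Ex → Module.End K (B → V)
  | .one => 1
  | .tab n => tact (tmat2 K n)
  | .ltr k => lact (S.L k)
  | .mul a b => ev2 S a * ev2 S b
  | .add a b => ev2 S a + ev2 S b
  | .smul c a => c • ev2 S a

theorem ev2_mul (S : SL K V) (a b : Ex) : ev2 S (a * b) = ev2 S a * ev2 S b := rfl
theorem ev2_add (S : SL K V) (a b : Ex) : ev2 S (a + b) = ev2 S a + ev2 S b := rfl
theorem ev2_one (S : SL K V) : ev2 S 1 = 1 := rfl
theorem ev2_sub (S : SL K V) (a b : Ex) : ev2 S (a - b) = ev2 S a - ev2 S b := by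
  show ev2 S a + (-1 : ℤ) • ev2 S b = _
  rw [neg_one_zsmul, sub_eq_add_neg]

theorem tabs_len2 : allTabs2.all (fun t => Nat.ble t.length 120) = true := by decide +kernel

theorem tabRow2_len (n i : ℕ) (hi : 120 ≤ i) : tabRow2 n i = [] := by
  unfold tabRow2
  have h : (allTabs2.getD n []).length ≤ 120 := by
    rw [List.getD_eq_getElem?_getD]
    cases hn : allTabs2[n]? with
    | none => simp
    | some t =>
      have h1 := tabs_len2
      rw [List.all_eq_true] at h1
      have := h1 t (List.mem_of_getElem? hn)
      simpa using Nat.le_of_ble_eq_true this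
  rw [List.getD_eq_default _ _ (by omega)]

theorem ev2_val (S : SL K V) (x : Ex) (l : FS) (v : V) :
    ev2 S x (S.val l v) = S.val (row2 x l) v := by
  induction x generalizing l with
  | one => rfl
  | tab n =>
    show tact (tmat2 K n) (S.val l v) = _
    induction l with
    | nil => simp [SL.val, row2]
    | cons p l ih =>
      have e1 : row2 (Ex.tab n) (p :: l) =
        ((tabRow2 n p.2.2).map fun q => (p.1 * q.1, p.2.1, q.2)) ++ row2 (Ex.tab n) l := by
        simp [row2]
      rw [e1, S.val_append, SL.val, map_add, ih, S.val_tabRow]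
      congr 1
      funext i
      rw [tact_apply]
      by_cases h : p.2.2 < 120
      · rw [Finset.sum_eq_single (⟨p.2.2, h⟩ : B)]
        · simp only [tmat2, if_pos, Int.cast_smul_eq_zsmul]
        · intro j _ hj
          have : (j : ℕ) ≠ p.2.2 := fun h' => hj (Fin.ext h')
          simp [this]
        · simp
      · rw [tabRow2_len n _ (by omega)]
        simp only [coefR, zero_smul]
        apply Finset.sum_eq_zero
        intro j _
        have : (j : ℕ) ≠ p.2.2 := by have := j.isLt; omega
        simp [this]
  | ltr k =>
    show lact (S.L k) (S.val l v) = _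
    induction l with
    | nil => simp [SL.val, row2]
    | cons p l ih =>
      have e1 : row2 (Ex.ltr k) (p :: l) = (p.1, k :: p.2.1, p.2.2) :: row2 (Ex.ltr k) l := by
        simp [row2]
      rw [e1, SL.val, SL.val, map_add, ih]
      congr 1
      funext i
      rw [lact_apply]
      by_cases h : (i : ℕ) = p.2.2
      · simp [h, SL.wd]
      · simp [h]
  | mul a b iha ihb =>
    show ev2 S a (ev2 S b (S.val l v)) = _
    rw [ihb, iha]
    rfl
  | add a b iha ihb =>
    show ev2 S a (S.val l v) + ev2 S b (S.val l v) = _
    rw [iha, ihb, ← S.val_append]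
    rfl
  | smul c a iha =>
    show c • ev2 S a (S.val l v) = _
    rw [iha, ← S.val_map_mul]
    rfl

theorem single_val (S : SL K V) (j : B) (v : V) :
    (Pi.single j v : B → V) = S.val [(1, [], (j : ℕ))] v := by
  funext i
  simp only [SL.val, SL.wd, Pi.add_apply, Pi.zero_apply, add_zero, one_smul,
    Module.End.one_apply]
  by_cases hi : i = j
  · subst hi; simp
  · have : (i : ℕ) ≠ (j : ℕ) := fun h' => hi (Fin.ext h')
    simp [hi, this]

theorem ev2_eq_zero (S : SL K V) (x : Ex) (h : chk2 x = true) : ev2 S x = 0 := by
  apply LinearMap.pi_ext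
  intro j v
  rw [single_val S, ev2_val, ← S.nfF_sound]
  rw [S.val_eq_zero]
  · rfl
  · simp only [chk2, List.all_eq_true] at h
    exact h j (List.mem_range.2 j.isLt)

/-- The main tool: two expressions are equal as operators. -/
theorem ev2_eq (S : SL K V) (x y : Ex) (h : chk2 (x - y) = true) : ev2 S x = ev2 S y := by
  have := ev2_eq_zero S (x - y) h
  rw [ev2_sub] at this
  exact sub_eq_zero.1 this

theorem opEq2 (S : SL K V) {x y : Ex} (h : chk2 (x - y) = true) (v : B → V) :
    ev2 S x v = ev2 S y v := by
  rw [ev2_eq S x y h]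

theorem ev2_Z (S : SL K V) (v : B → V) : ev2 S Z v = 0 := by
  show (0 : ℤ) • ev2 S 1 v = 0
  rw [zero_smul]

theorem opEq2_zero (S : SL K V) {x : Ex} (h : chk2 (x - Z) = true) (v : B → V) :
    ev2 S x v = 0 := by
  rw [opEq2 S h, ev2_Z]

/-! ### Comparison with the library evaluation -/

theorem tabRow2_lt (n i : ℕ) (hn : n < 48) : tabRow2 n i = tabRow n i := by
  unfold tabRow2 tabRow allTabs2
  have hl : allTabs.length = 48 := by decide
  rw [List.getD_append _ _ _ _ (by omega)]

theorem tmat2_lt (n : ℕ) (hn : n < 48) : tmat2 K n = tmat K n := by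
  funext i j
  unfold tmat2 tmat
  rw [tabRow2_lt n _ hn]

/-- All tables of the expression belong to the library. -/
def lib : Ex → Bool
  | .one => true
  | .tab n => Nat.blt n 48
  | .ltr _ => true
  | .mul a b => lib a && lib b
  | .add a b => lib a && lib b
  | .smul _ a => lib a

theorem ev2_lib (S : SL K V) (x : Ex) (h : lib x = true) : ev2 S x = S.ev x := by
  induction x with
  | one => rfl
  | tab n =>
    show tact (tmat2 K n) = tact (tmat K n)
    rw [tmat2_lt n (by simpa [lib] using h)]
  | ltr k => rfl
  | mul a b iha ihb =>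
    simp only [lib, Bool.and_eq_true] at h
    show ev2 S a * ev2 S b = S.ev a * S.ev b
    rw [iha h.1, ihb h.2]
  | add a b iha ihb =>
    simp only [lib, Bool.and_eq_true] at h
    show ev2 S a + ev2 S b = S.ev a + S.ev b
    rw [iha h.1, ihb h.2]
  | smul c a iha =>
    simp only [lib] at h
    show c • ev2 S a = c • S.ev a
    rw [iha h]

end Pool.Agent.H379.NK
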