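import Pool.Agent.H379.NK.Ex2

/-!
# The tables as search trees

The same integer tables as in the lists, stored as binary search trees for fast kernel evaluation.
Generated by computer; the agreement with the lists is checked by the kernel.
-/

set_option autoImplicit false

namespace Pool.Agent.H379.NK

open W450.Rig

/-- Binary search trees. -/
inductive BT (A : Type)
  | N
  | L (a : A)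
  | R (k : ℕ) (l r : BT A)

namespace BT

/-- table 0 -/
def ft0 : BT Row :=
  (R 60 N (R 90 (R 75 (R 68 (R 64 (R 62 (R 61 (L [(.ofNat 1, 15)]) (L [(.ofNat 1, 16)])) (R 63
  (L [(.ofNat 1, 17)]) (L [(.ofNat 1, 18)]))) (R 66 (R 65 (L [(.ofNat 1, 19)]) (L [(.ofNat 1,
  20)])) (R 67 (L [(.ofNat 1, 21)]) (L [(.ofNat 1, 22)])))) (R 72 (R 70 (R 69 (L [(.ofNat 1,
  23)]) (L [(.ofNat 1, 24)])) (R 71 (L [(.ofNat 1, 25)]) (L [(.ofNat 1, 26)]))) (R 74 (R 73 (L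
  [(.ofNat 1, 27)]) (L [(.ofNat 1, 28)])) (L [(.ofNat 1, 29)])))) N) (R 105 (R 98 (R 94 (R 92 (R
  91 (L [(.ofNat 1, 30)]) (L [(.ofNat 1, 31)])) (R 93 (L [(.ofNat 1, 32)]) (L [(.ofNat 1,
  33)]))) (R 96 (R 95 (L [(.ofNat 1, 34)]) (L [(.ofNat 1, 35)])) (R 97 (L [(.ofNat 1, 36)]) (L
  [(.ofNat 1, 37)])))) (R 102 (R 100 (R 99 (L [(.ofNat 1, 38)]) (L [(.ofNat 1, 39)])) (R 101 (L
  [(.ofNat 1, 40)]) (L [(.ofNat 1, 41)]))) (R 104 (R 103 (L [(.ofNat 1, 42)]) (L [(.ofNat 1,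
  43)])) (L [(.ofNat 1, 44)])))) N)))

/-- table 1 -/
def ft1 : BT Row :=
  (R 60 N (R 90 (R 75 N (R 83 (R 79 (R 77 (R 76 (L [(.ofNat 1, 15)]) (L [(.ofNat 1, 16)])) (R 78
  (L [(.ofNat 1, 17)]) (L [(.ofNat 1, 18)]))) (R 81 (R 80 (L [(.ofNat 1, 19)]) (L [(.ofNat 1,
  20)])) (R 82 (L [(.ofNat 1, 21)]) (L [(.ofNat 1, 22)])))) (R 87 (R 85 (R 84 (L [(.ofNat 1,
  23)]) (L [(.ofNat 1, 24)])) (R 86 (L [(.ofNat 1, 25)]) (L [(.ofNat 1, 26)]))) (R 89 (R 88 (L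
  [(.ofNat 1, 27)]) (L [(.ofNat 1, 28)])) (L [(.ofNat 1, 29)]))))) (R 105 (R 98 (R 94 (R 92 (R
  91 (L [(.ofNat 1, 45)]) (L [(.ofNat 1, 46)])) (R 93 (L [(.ofNat 1, 47)]) (L [(.ofNat 1,
  48)]))) (R 96 (R 95 (L [(.ofNat 1, 49)]) (L [(.ofNat 1, 50)])) (R 97 (L [(.ofNat 1, 51)]) (L
  [(.ofNat 1, 52)])))) (R 102 (R 100 (R 99 (L [(.ofNat 1, 53)]) (L [(.ofNat 1, 54)])) (R 101 (L
  [(.ofNat 1, 55)]) (L [(.ofNat 1, 56)]))) (R 104 (R 103 (L [(.ofNat 1, 57)]) (L [(.ofNat 1,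
  58)])) (L [(.ofNat 1, 59)])))) N)))

/-- table 2 -/
def ft2 : BT Row :=
  (R 60 (R 30 (R 15 (R 8 (R 4 (R 2 (R 1 (L [(.ofNat 1, 60)]) (L [(.ofNat 1, 61)])) (R 3 (L
  [(.ofNat 1, 62)]) (L [(.ofNat 1, 63)]))) (R 6 (R 5 (L [(.ofNat 1, 64)]) (L [(.ofNat 1, 65)]))
  (R 7 (L [(.ofNat 1, 66)]) (L [(.ofNat 1, 67)])))) (R 12 (R 10 (R 9 (L [(.ofNat 1, 68)]) (L
  [(.ofNat 1, 69)])) (R 11 (L [(.ofNat 1, 70)]) (L [(.ofNat 1, 71)]))) (R 14 (R 13 (L [(.ofNat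
  1, 72)]) (L [(.ofNat 1, 73)])) (L [(.ofNat 1, 74)])))) N) (R 45 (R 38 (R 34 (R 32 (R 31 (L
  [(.ofNat 1, 105)]) (L [(.ofNat 1, 106)])) (R 33 (L [(.ofNat 1, 107)]) (L [(.ofNat 1, 108)])))
  (R 36 (R 35 (L [(.ofNat 1, 109)]) (L [(.ofNat 1, 110)])) (R 37 (L [(.ofNat 1, 111)]) (L
  [(.ofNat 1, 112)])))) (R 42 (R 40 (R 39 (L [(.ofNat 1, 113)]) (L [(.ofNat 1, 114)])) (R 41 (L
  [(.ofNat 1, 115)]) (L [(.ofNat 1, 116)]))) (R 44 (R 43 (L [(.ofNat 1, 117)]) (L [(.ofNat 1,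
  118)])) (L [(.ofNat 1, 119)])))) N)) N)

/-- table 3 -/
def ft3 : BT Row :=
  (R 60 (R 30 (R 15 (R 8 (R 4 (R 2 (R 1 (L [(.ofNat 1, 75)]) (L [(.ofNat 1, 76)])) (R 3 (L
  [(.ofNat 1, 77)]) (L [(.ofNat 1, 78)]))) (R 6 (R 5 (L [(.ofNat 1, 79)]) (L [(.ofNat 1, 80)]))
  (R 7 (L [(.ofNat 1, 81)]) (L [(.ofNat 1, 82)])))) (R 12 (R 10 (R 9 (L [(.ofNat 1, 83)]) (L
  [(.ofNat 1, 84)])) (R 11 (L [(.ofNat 1, 85)]) (L [(.ofNat 1, 86)]))) (R 14 (R 13 (L [(.ofNat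
  1, 87)]) (L [(.ofNat 1, 88)])) (L [(.ofNat 1, 89)])))) N) (R 45 N (R 53 (R 49 (R 47 (R 46 (L
  [(.ofNat 1, 105)]) (L [(.ofNat 1, 106)])) (R 48 (L [(.ofNat 1, 107)]) (L [(.ofNat 1, 108)])))
  (R 51 (R 50 (L [(.ofNat 1, 109)]) (L [(.ofNat 1, 110)])) (R 52 (L [(.ofNat 1, 111)]) (L
  [(.ofNat 1, 112)])))) (R 57 (R 55 (R 54 (L [(.ofNat 1, 113)]) (L [(.ofNat 1, 114)])) (R 56 (L
  [(.ofNat 1, 115)]) (L [(.ofNat 1, 116)]))) (R 59 (R 58 (L [(.ofNat 1, 117)]) (L [(.ofNat 1,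
  118)])) (L [(.ofNat 1, 119)])))))) N)

/-- table 4 -/
def ft4 : BT Row :=
  (R 60 (R 30 (R 15 (R 8 N (R 12 (R 10 N (R 11 (L [(.ofNat 1, 2)]) (L [(.ofNat 1, 5)]))) (R 14
  (R 13 (L [(.ofNat 1, 7)]) (L [(.ofNat 1, 8)])) (L [(.ofNat 1, 12)])))) (R 23 N (R 27 (R 25 N
  (R 26 (L [(.ofNat 1, 17)]) (L [(.ofNat 1, 20)]))) (R 29 (R 28 (L [(.ofNat 1, 22)]) (L [(.ofNat
  1, 23)])) (L [(.ofNat 1, 27)]))))) (R 45 (R 38 N (R 42 (R 40 N (R 41 (L [(.ofNat 1, 32)]) (L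
  [(.ofNat 1, 35)]))) (R 44 (R 43 (L [(.ofNat 1, 37)]) (L [(.ofNat 1, 38)])) (L [(.ofNat 1,
  42)])))) (R 53 N (R 57 (R 55 N (R 56 (L [(.negSucc 0, 33), (.ofNat 1, 47)]) (L [(.negSucc 0,
  36), (.ofNat 1, 50)]))) (R 59 (R 58 (L [(.ofNat 1, 35), (.negSucc 0, 38), (.ofNat 1, 52)]) (L
  [(.negSucc 0, 39), (.ofNat 1, 53)])) (L [(.negSucc 0, 43), (.ofNat 1, 57)])))))) (R 90 (R 75
  (R 68 N (R 72 (R 70 N (R 71 (L [(.ofNat 1, 62), (.negSucc 0, 76), (.ofNat 1, 78)]) (L [(.ofNat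
  1, 65), (.negSucc 0, 79), (.ofNat 1, 81)]))) (R 74 (R 73 (L [(.ofNat 1, 67), (.negSucc 1, 80),
  (.ofNat 1, 83)]) (L [(.ofNat 1, 68), (.negSucc 0, 81), (.ofNat 1, 84)])) (L [(.ofNat 1, 72),
  (.negSucc 0, 86), (.ofNat 1, 88)])))) (R 83 N (R 87 (R 85 N (R 86 (L [(.ofNat 1, 77)]) (L
  [(.ofNat 1, 80)]))) (R 89 (R 88 (L [(.ofNat 1, 82)]) (L [(.ofNat 1, 83)])) (L [(.ofNat 1,
  87)]))))) (R 105 (R 98 N (R 102 (R 100 N (R 101 (L [(.ofNat 1, 92)]) (L [(.ofNat 1, 95)]))) (R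
  104 (R 103 (L [(.ofNat 1, 97)]) (L [(.ofNat 1, 98)])) (L [(.ofNat 1, 102)])))) (R 113 N (R 117
  (R 115 N (R 116 (L [(.ofNat 1, 107)]) (L [(.ofNat 1, 110)]))) (R 119 (R 118 (L [(.ofNat 1,
  112)]) (L [(.ofNat 1, 113)])) (L [(.ofNat 1, 117)])))))))

/-- table 5 -/
def ft5 : BT Row :=
  (R 60 (R 30 (R 15 (R 8 N (R 12 (R 10 N (R 11 (L [(.ofNat 1, 3)]) (L [(.ofNat 1, 6)]))) (R 14
  (R 13 (L [(.negSucc 0, 5), (.ofNat 1, 8)]) (L [(.ofNat 1, 9)])) (L [(.ofNat 1, 13)])))) (R 23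
  N (R 27 (R 25 N (R 26 (L [(.negSucc 0, 16), (.ofNat 1, 18)]) (L [(.negSucc 0, 19), (.ofNat 1,
  21)]))) (R 29 (R 28 (L [(.negSucc 1, 20), (.ofNat 1, 23)]) (L [(.negSucc 0, 21), (.ofNat 1,
  24)])) (L [(.negSucc 0, 26), (.ofNat 1, 28)]))))) (R 45 (R 38 N (R 42 (R 40 N (R 41 (L
  [(.ofNat 1, 33)]) (L [(.ofNat 1, 36)]))) (R 44 (R 43 (L [(.negSucc 0, 35), (.ofNat 1, 38)]) (L
  [(.ofNat 1, 39)])) (L [(.ofNat 1, 43)])))) (R 53 N (R 57 (R 55 N (R 56 (L [(.ofNat 1, 46),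
  (.ofNat 1, 48)]) (L [(.ofNat 1, 49), (.ofNat 1, 51)]))) (R 59 (R 58 (L [(.ofNat 1, 53)]) (L
  [(.ofNat 1, 51), (.ofNat 1, 54)])) (L [(.ofNat 1, 56), (.ofNat 1, 58)])))))) (R 90 (R 75 (R 68
  N (R 72 (R 70 N (R 71 (L [(.negSucc 0, 61), (.ofNat 1, 63)]) (L [(.negSucc 0, 64), (.ofNat 1,
  66)]))) (R 74 (R 73 (L [(.negSucc 1, 65), (.ofNat 1, 68)]) (L [(.negSucc 0, 66), (.ofNat 1,
  69)])) (L [(.negSucc 0, 71), (.ofNat 1, 73)])))) (R 83 N (R 87 (R 85 N (R 86 (L [(.negSucc 1,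
  76), (.ofNat 1, 78)]) (L [(.negSucc 1, 79), (.ofNat 1, 81)]))) (R 89 (R 88 (L [(.negSucc 2,
  80), (.ofNat 1, 83)]) (L [(.negSucc 1, 81), (.ofNat 1, 84)])) (L [(.negSucc 1, 86), (.ofNat 1,
  88)]))))) (R 105 (R 98 N (R 102 (R 100 N (R 101 (L [(.ofNat 1, 93)]) (L [(.ofNat 1, 96)]))) (R
  104 (R 103 (L [(.negSucc 0, 95), (.ofNat 1, 98), (.negSucc 0, 109)]) (L [(.ofNat 1, 99)])) (L
  [(.ofNat 1, 103)])))) (R 113 N (R 117 (R 115 N (R 116 (L [(.negSucc 0, 106), (.ofNat 1, 108)])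
  (L [(.negSucc 0, 109), (.ofNat 1, 111)]))) (R 119 (R 118 (L [(.negSucc 1, 110), (.ofNat 1,
  113)]) (L [(.negSucc 0, 111), (.ofNat 1, 114)])) (L [(.negSucc 0, 116), (.ofNat 1,
  118)])))))))

/-- table 6 -/
def ft6 : BT Row :=
  (R 60 (R 30 (R 15 (R 8 N (R 12 (R 10 N (R 11 (L [(.ofNat 1, 1)]) (L [(.ofNat 1, 4)]))) (R 14
  (R 13 (L [(.ofNat 1, 5)]) (L [(.ofNat 1, 6)])) (L [(.ofNat 1, 11)])))) (R 23 N (R 27 (R 25 N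
  (R 26 (L [(.ofNat 1, 16)]) (L [(.ofNat 1, 19)]))) (R 29 (R 28 (L [(.ofNat 1, 20)]) (L [(.ofNat
  1, 21)])) (L [(.ofNat 1, 26)]))))) (R 45 (R 38 N (R 42 (R 40 N (R 41 (L [(.ofNat 1, 31)]) (L
  [(.ofNat 1, 34)]))) (R 44 (R 43 (L [(.ofNat 1, 35)]) (L [(.ofNat 1, 36)])) (L [(.ofNat 1,
  41)])))) (R 53 N (R 57 (R 55 N (R 56 (L [(.ofNat 1, 46)]) (L [(.ofNat 1, 49)]))) (R 59 (R 58
  (L [(.ofNat 1, 50)]) (L [(.ofNat 1, 51)])) (L [(.ofNat 1, 56)])))))) (R 90 (R 75 (R 68 N (R 72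
  (R 70 N (R 71 (L [(.ofNat 1, 61)]) (L [(.ofNat 1, 64)]))) (R 74 (R 73 (L [(.ofNat 1, 65)]) (L
  [(.ofNat 1, 66)])) (L [(.ofNat 1, 71)])))) (R 83 N (R 87 (R 85 N (R 86 (L [(.ofNat 1, 76)]) (L
  [(.ofNat 1, 79)]))) (R 89 (R 88 (L [(.ofNat 1, 80)]) (L [(.ofNat 1, 81)])) (L [(.ofNat 1,
  86)]))))) (R 105 (R 98 N (R 102 (R 100 N (R 101 (L [(.ofNat 1, 91)]) (L [(.ofNat 1, 94)]))) (R
  104 (R 103 (L [(.ofNat 1, 95)]) (L [(.ofNat 1, 96)])) (L [(.ofNat 1, 101)])))) (R 113 N (R 117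
  (R 115 N (R 116 (L [(.ofNat 1, 106)]) (L [(.ofNat 1, 109)]))) (R 119 (R 118 (L [(.ofNat 1,
  110)]) (L [(.ofNat 1, 111)])) (L [(.ofNat 1, 116)])))))))

/-- table 7 -/
def ft7 : BT Row :=
  (R 60 (R 30 (R 15 (R 8 (R 4 (R 2 (R 1 (L [(.ofNat 1, 0)]) (L [(.ofNat 1, 1)])) (R 3 (L
  [(.ofNat 1, 2)]) (L [(.ofNat 1, 3)]))) (R 6 (R 5 (L [(.ofNat 1, 4)]) (L [(.ofNat 1, 5)])) (R 7
  (L [(.ofNat 1, 6)]) (L [(.ofNat 1, 7)])))) (R 12 (R 10 (R 9 (L [(.ofNat 1, 8)]) (L [(.ofNat 1,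
  9)])) N) N)) (R 23 (R 19 (R 17 (R 16 (L [(.ofNat 1, 15)]) (L [(.ofNat 1, 16)])) (R 18 (L
  [(.ofNat 1, 17)]) (L [(.ofNat 1, 18)]))) (R 21 (R 20 (L [(.ofNat 1, 19)]) (L [(.ofNat 1,
  20)])) (R 22 (L [(.ofNat 1, 21)]) (L [(.ofNat 1, 22)])))) (R 27 (R 25 (R 24 (L [(.ofNat 1,
  23)]) (L [(.ofNat 1, 24)])) N) N))) (R 45 (R 38 (R 34 (R 32 (R 31 (L [(.ofNat 1, 30)]) (L
  [(.ofNat 1, 31)])) (R 33 (L [(.ofNat 1, 32)]) (L [(.ofNat 1, 33)]))) (R 36 (R 35 (L [(.ofNat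
  1, 34)]) (L [(.ofNat 1, 35)])) (R 37 (L [(.ofNat 1, 36)]) (L [(.ofNat 1, 37)])))) (R 42 (R 40
  (R 39 (L [(.ofNat 1, 38)]) (L [(.ofNat 1, 39)])) N) N)) (R 53 (R 49 (R 47 (R 46 (L [(.ofNat 1,
  45)]) (L [(.ofNat 1, 46)])) (R 48 (L [(.ofNat 1, 47)]) (L [(.ofNat 1, 48)]))) (R 51 (R 50 (L
  [(.ofNat 1, 49)]) (L [(.ofNat 1, 50)])) (R 52 (L [(.ofNat 1, 51)]) (L [(.ofNat 1, 52)])))) (R
  57 (R 55 (R 54 (L [(.ofNat 1, 53)]) (L [(.ofNat 1, 54)])) N) N)))) N)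

/-- table 8 -/
def ft8 : BT Row :=
  (R 60 (R 30 (R 15 (R 8 N (R 12 (R 10 N (R 11 (L [(.ofNat 1, 10)]) (L [(.ofNat 1, 11)]))) (R 14
  (R 13 (L [(.ofNat 1, 12)]) (L [(.ofNat 1, 13)])) N))) (R 23 N (R 27 (R 25 N (R 26 (L [(.ofNat
  1, 25)]) (L [(.ofNat 1, 26)]))) (R 29 (R 28 (L [(.ofNat 1, 27)]) (L [(.ofNat 1, 28)])) N))))
  (R 45 (R 38 N (R 42 (R 40 N (R 41 (L [(.ofNat 1, 40)]) (L [(.ofNat 1, 41)]))) (R 44 (R 43 (L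
  [(.ofNat 1, 42)]) (L [(.ofNat 1, 43)])) N))) (R 53 N (R 57 (R 55 N (R 56 (L [(.ofNat 1, 55)])
  (L [(.ofNat 1, 56)]))) (R 59 (R 58 (L [(.ofNat 1, 57)]) (L [(.ofNat 1, 58)])) N))))) N)

/-- table 9 -/
def ft9 : BT Row :=
  (R 60 (R 30 (R 15 (R 8 N (R 12 N (R 14 N (L [(.ofNat 1, 14)])))) (R 23 N (R 27 N (R 29 N (L
  [(.ofNat 1, 29)]))))) (R 45 (R 38 N (R 42 N (R 44 N (L [(.ofNat 1, 44)])))) (R 53 N (R 57 N (R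
  59 N (L [(.ofNat 1, 59)])))))) N)

/-- table 10 -/
def ft10 : BT Row :=
  (R 60 N (R 90 (R 75 (R 68 (R 64 (R 62 (R 61 (L [(.ofNat 1, 60)]) (L [(.ofNat 1, 61)])) (R 63
  (L [(.ofNat 1, 62)]) (L [(.ofNat 1, 63)]))) (R 66 (R 65 (L [(.ofNat 1, 64)]) (L [(.ofNat 1,
  65)])) (R 67 (L [(.ofNat 1, 66)]) (L [(.ofNat 1, 67)])))) (R 72 (R 70 (R 69 (L [(.ofNat 1,
  68)]) (L [(.ofNat 1, 69)])) N) N)) (R 83 (R 79 (R 77 (R 76 (L [(.ofNat 1, 75)]) (L [(.ofNat 1,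
  76)])) (R 78 (L [(.ofNat 1, 77)]) (L [(.ofNat 1, 78)]))) (R 81 (R 80 (L [(.ofNat 1, 79)]) (L
  [(.ofNat 1, 80)])) (R 82 (L [(.ofNat 1, 81)]) (L [(.ofNat 1, 82)])))) (R 87 (R 85 (R 84 (L
  [(.ofNat 1, 83)]) (L [(.ofNat 1, 84)])) N) N))) (R 105 (R 98 (R 94 (R 92 (R 91 (L [(.ofNat 1,
  90)]) (L [(.ofNat 1, 91)])) (R 93 (L [(.ofNat 1, 92)]) (L [(.ofNat 1, 93)]))) (R 96 (R 95 (L
  [(.ofNat 1, 94)]) (L [(.ofNat 1, 95)])) (R 97 (L [(.ofNat 1, 96)]) (L [(.ofNat 1, 97)])))) (R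
  102 (R 100 (R 99 (L [(.ofNat 1, 98)]) (L [(.ofNat 1, 99)])) N) N)) (R 113 (R 109 (R 107 (R 106
  (L [(.ofNat 1, 105)]) (L [(.ofNat 1, 106)])) (R 108 (L [(.ofNat 1, 107)]) (L [(.ofNat 1,
  108)]))) (R 111 (R 110 (L [(.ofNat 1, 109)]) (L [(.ofNat 1, 110)])) (R 112 (L [(.ofNat 1,
  111)]) (L [(.ofNat 1, 112)])))) (R 117 (R 115 (R 114 (L [(.ofNat 1, 113)]) (L [(.ofNat 1,
  114)])) N) N)))))

/-- table 11 -/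
def ft11 : BT Row :=
  (R 60 N (R 90 (R 75 (R 68 N (R 72 (R 70 N (R 71 (L [(.ofNat 1, 70)]) (L [(.ofNat 1, 71)]))) (R
  74 (R 73 (L [(.ofNat 1, 72)]) (L [(.ofNat 1, 73)])) N))) (R 83 N (R 87 (R 85 N (R 86 (L
  [(.ofNat 1, 85)]) (L [(.ofNat 1, 86)]))) (R 89 (R 88 (L [(.ofNat 1, 87)]) (L [(.ofNat 1,
  88)])) N)))) (R 105 (R 98 N (R 102 (R 100 N (R 101 (L [(.ofNat 1, 100)]) (L [(.ofNat 1,
  101)]))) (R 104 (R 103 (L [(.ofNat 1, 102)]) (L [(.ofNat 1, 103)])) N))) (R 113 N (R 117 (R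
  115 N (R 116 (L [(.ofNat 1, 115)]) (L [(.ofNat 1, 116)]))) (R 119 (R 118 (L [(.ofNat 1, 117)])
  (L [(.ofNat 1, 118)])) N))))))

/-- table 12 -/
def ft12 : BT Row :=
  (R 60 N (R 90 (R 75 (R 68 N (R 72 N (R 74 N (L [(.ofNat 1, 74)])))) (R 83 N (R 87 N (R 89 N (L
  [(.ofNat 1, 89)]))))) (R 105 (R 98 N (R 102 N (R 104 N (L [(.ofNat 1, 104)])))) (R 113 N (R
  117 N (R 119 N (L [(.ofNat 1, 119)])))))))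

/-- table 13 -/
def ft13 : BT Row :=
  (R 60 (R 30 (R 15 (R 8 (R 4 (R 2 (R 1 (L [(.ofNat 1, 30)]) (L [(.ofNat 1, 31)])) (R 3 (L
  [(.ofNat 1, 32)]) (L [(.ofNat 1, 33)]))) (R 6 (R 5 (L [(.ofNat 1, 34)]) (L [(.ofNat 1, 35)]))
  (R 7 (L [(.ofNat 1, 36)]) (L [(.ofNat 1, 37)])))) (R 12 (R 10 (R 9 (L [(.ofNat 1, 38)]) (L
  [(.ofNat 1, 39)])) (R 11 (L [(.ofNat 1, 40)]) (L [(.ofNat 1, 41)]))) (R 14 (R 13 (L [(.ofNat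
  1, 42)]) (L [(.ofNat 1, 43)])) (L [(.ofNat 1, 44)])))) N) N) (R 90 (R 75 (R 68 (R 64 (R 62 (R
  61 (L [(.ofNat 1, 105)]) (L [(.ofNat 1, 106)])) (R 63 (L [(.ofNat 1, 107)]) (L [(.ofNat 1,
  108)]))) (R 66 (R 65 (L [(.ofNat 1, 109)]) (L [(.ofNat 1, 110)])) (R 67 (L [(.ofNat 1, 111)])
  (L [(.ofNat 1, 112)])))) (R 72 (R 70 (R 69 (L [(.ofNat 1, 113)]) (L [(.ofNat 1, 114)])) (R 71
  (L [(.ofNat 1, 115)]) (L [(.ofNat 1, 116)]))) (R 74 (R 73 (L [(.ofNat 1, 117)]) (L [(.ofNat 1,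
  118)])) (L [(.ofNat 1, 119)])))) N) N))

/-- table 14 -/
def ft14 : BT Row :=
  (R 60 (R 30 (R 15 (R 8 (R 4 (R 2 (R 1 (L [(.ofNat 1, 45)]) (L [(.ofNat 1, 46)])) (R 3 (L
  [(.negSucc 0, 33), (.ofNat 1, 47)]) (L [(.ofNat 1, 46), (.ofNat 1, 48)]))) (R 6 (R 5 (L
  [(.ofNat 1, 49)]) (L [(.negSucc 0, 36), (.ofNat 1, 50)])) (R 7 (L [(.ofNat 1, 49), (.ofNat 1,
  51)]) (L [(.ofNat 1, 35), (.negSucc 1, 38), (.ofNat 1, 52)])))) (R 12 (R 10 (R 9 (L [(.negSucc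
  0, 36), (.negSucc 0, 39), (.ofNat 1, 50), (.ofNat 1, 53)]) (L [(.ofNat 1, 49), (.ofNat 2, 51),
  (.ofNat 1, 54)])) (R 11 (L [(.ofNat 1, 55)]) (L [(.ofNat 1, 56)]))) (R 14 (R 13 (L [(.negSucc
  0, 43), (.ofNat 1, 57)]) (L [(.ofNat 1, 56), (.ofNat 1, 58)])) (L [(.ofNat 1, 59)])))) N) N)
  (R 90 (R 75 (R 68 (R 64 (R 62 N (R 63 (L [(.negSucc 0, 108)]) N)) (R 66 (R 65 N (L [(.negSucc
  0, 111)])) (R 67 N (L [(.ofNat 1, 110), (.negSucc 1, 113)])))) (R 72 (R 70 (R 69 (L [(.negSucc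
  0, 111), (.negSucc 0, 114)]) N) N) (R 74 (R 73 (L [(.negSucc 0, 118)]) N) N))) (R 83 (R 79 (R
  77 (R 76 (L [(.ofNat 1, 105)]) (L [(.ofNat 1, 106)])) (R 78 (L [(.ofNat 1, 107)]) (L [(.ofNat
  1, 106), (.ofNat 1, 108)]))) (R 81 (R 80 (L [(.ofNat 1, 109)]) (L [(.ofNat 1, 110)])) (R 82 (L
  [(.ofNat 1, 109), (.ofNat 1, 111)]) (L [(.ofNat 1, 112)])))) (R 87 (R 85 (R 84 (L [(.ofNat 1,
  110), (.ofNat 1, 113)]) (L [(.ofNat 1, 109), (.ofNat 2, 111), (.ofNat 1, 114)])) (R 86 (L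
  [(.ofNat 1, 115)]) (L [(.ofNat 1, 116)]))) (R 89 (R 88 (L [(.ofNat 1, 117)]) (L [(.ofNat 1,
  116), (.ofNat 1, 118)])) (L [(.ofNat 1, 119)]))))) N))

/-- table 15 -/
def ft15 : BT Row :=
  (R 60 (R 30 N (R 45 (R 38 (R 34 (R 32 (R 31 (L [(.ofNat 1, 15)]) (L [(.ofNat 1, 16)])) (R 33
  (L [(.ofNat 1, 17)]) (L [(.negSucc 0, 16), (.ofNat 1, 18)]))) (R 36 (R 35 (L [(.ofNat 1, 19)])
  (L [(.ofNat 1, 20)])) (R 37 (L [(.negSucc 0, 19), (.ofNat 1, 21)]) (L [(.ofNat 1, 22)])))) (R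
  42 (R 40 (R 39 (L [(.negSucc 0, 20), (.ofNat 1, 23)]) (L [(.ofNat 1, 19), (.negSucc 1, 21),
  (.ofNat 1, 24)])) (R 41 (L [(.ofNat 1, 25)]) (L [(.ofNat 1, 26)]))) (R 44 (R 43 (L [(.ofNat 1,
  27)]) (L [(.negSucc 0, 26), (.ofNat 1, 28)])) (L [(.ofNat 1, 29)])))) (R 53 (R 49 (R 47 N (R
  48 (L [(.negSucc 0, 16), (.ofNat 1, 18)]) N)) (R 51 (R 50 N (L [(.negSucc 0, 19), (.ofNat 1,
  21)])) (R 52 N (L [(.negSucc 2, 20), (.ofNat 2, 23)])))) (R 57 (R 55 (R 54 (L [(.ofNat 1, 19),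
  (.negSucc 1, 21), (.ofNat 1, 24)]) N) N) (R 59 (R 58 (L [(.negSucc 0, 26), (.ofNat 1, 28)]) N)
  N))))) (R 90 N (R 105 (R 98 (R 94 (R 92 (R 91 (L [(.ofNat 1, 60)]) (L [(.ofNat 1, 61)])) (R 93
  (L [(.ofNat 1, 62), (.negSucc 0, 76), (.ofNat 1, 78)]) (L [(.negSucc 0, 61), (.ofNat 1,
  63)]))) (R 96 (R 95 (L [(.ofNat 1, 64)]) (L [(.ofNat 1, 65), (.negSucc 0, 79), (.ofNat 1,
  81)])) (R 97 (L [(.negSucc 0, 64), (.ofNat 1, 66)]) (L [(.ofNat 1, 67), (.negSucc 2, 80),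
  (.ofNat 2, 83)])))) (R 102 (R 100 (R 99 (L [(.negSucc 0, 65), (.ofNat 1, 68), (.ofNat 1, 79),
  (.negSucc 1, 81), (.ofNat 1, 84)]) (L [(.ofNat 1, 64), (.negSucc 1, 66), (.ofNat 1, 69)])) (R
  101 (L [(.ofNat 1, 70)]) (L [(.ofNat 1, 71)]))) (R 104 (R 103 (L [(.ofNat 1, 72), (.negSucc 0,
  86), (.ofNat 1, 88)]) (L [(.negSucc 0, 71), (.ofNat 1, 73)])) (L [(.ofNat 1, 74)])))) N)))

/-- table 16 -/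
def ft16 : BT Row :=
  (R 60 (R 30 N (R 45 N (R 53 (R 49 (R 47 (R 46 (L [(.ofNat 1, 15)]) (L [(.ofNat 1, 16)])) (R 48
  (L [(.ofNat 1, 17)]) (L [(.negSucc 1, 16), (.ofNat 1, 18)]))) (R 51 (R 50 (L [(.ofNat 1, 19)])
  (L [(.ofNat 1, 20)])) (R 52 (L [(.negSucc 1, 19), (.ofNat 1, 21)]) (L [(.ofNat 1, 22)])))) (R
  57 (R 55 (R 54 (L [(.negSucc 1, 20), (.ofNat 1, 23)]) (L [(.ofNat 4, 19), (.negSucc 3, 21),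
  (.ofNat 1, 24)])) (R 56 (L [(.ofNat 1, 25)]) (L [(.ofNat 1, 26)]))) (R 59 (R 58 (L [(.ofNat 1,
  27)]) (L [(.negSucc 1, 26), (.ofNat 1, 28)])) (L [(.ofNat 1, 29)])))))) (R 90 N (R 105 (R 98
  (R 94 (R 92 (R 91 (L [(.ofNat 1, 75)]) (L [(.ofNat 1, 76)])) (R 93 (L [(.ofNat 1, 77)]) (L
  [(.negSucc 1, 76), (.ofNat 1, 78)]))) (R 96 (R 95 (L [(.ofNat 1, 79)]) (L [(.ofNat 1, 80)]))
  (R 97 (L [(.negSucc 1, 79), (.ofNat 1, 81)]) (L [(.ofNat 1, 82)])))) (R 102 (R 100 (R 99 (L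
  [(.negSucc 1, 80), (.ofNat 1, 83)]) (L [(.ofNat 4, 79), (.negSucc 3, 81), (.ofNat 1, 84)])) (R
  101 (L [(.ofNat 1, 85)]) (L [(.ofNat 1, 86)]))) (R 104 (R 103 (L [(.ofNat 1, 87)]) (L
  [(.negSucc 1, 86), (.ofNat 1, 88)])) (L [(.ofNat 1, 89)])))) N)))

/-- table 17 -/
def ft17 : BT Row :=
  (R 60 (R 30 (R 15 (R 8 (R 4 (R 2 (R 1 (L [(.ofNat 1, 2)]) (L [(.ofNat 1, 5)])) (R 3 (L
  [(.ofNat 1, 7)]) (L [(.negSucc 0, 5), (.ofNat 1, 8)]))) N) (R 12 (R 10 N (R 11 (L [(.ofNat 1,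
  12)]) N)) N)) (R 23 (R 19 (R 17 (R 16 (L [(.ofNat 1, 17)]) (L [(.ofNat 1, 20)])) (R 18 (L
  [(.ofNat 1, 22)]) (L [(.negSucc 0, 20), (.ofNat 1, 23)]))) N) (R 27 (R 25 N (R 26 (L [(.ofNat
  1, 27)]) N)) N))) (R 45 (R 38 (R 34 (R 32 (R 31 (L [(.ofNat 1, 32)]) (L [(.ofNat 1, 35)])) (R
  33 (L [(.ofNat 1, 37)]) (L [(.negSucc 0, 35), (.ofNat 1, 38)]))) N) (R 42 (R 40 N (R 41 (L
  [(.ofNat 1, 42)]) N)) N)) (R 53 (R 49 (R 47 (R 46 (L [(.ofNat 1, 47)]) (L [(.ofNat 1, 50)]))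
  (R 48 (L [(.ofNat 1, 52)]) (L [(.negSucc 0, 50), (.ofNat 1, 53)]))) N) (R 57 (R 55 N (R 56 (L
  [(.ofNat 1, 57)]) N)) N)))) (R 90 (R 75 (R 68 (R 64 (R 62 (R 61 (L [(.ofNat 1, 62)]) (L
  [(.ofNat 1, 65)])) (R 63 (L [(.ofNat 1, 67)]) (L [(.negSucc 0, 65), (.ofNat 1, 68)]))) N) (R
  72 (R 70 N (R 71 (L [(.ofNat 1, 72)]) N)) N)) (R 83 (R 79 (R 77 (R 76 (L [(.ofNat 1, 77)]) (L
  [(.ofNat 1, 80)])) (R 78 (L [(.ofNat 1, 82)]) (L [(.negSucc 0, 80), (.ofNat 1, 83)]))) N) (R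
  87 (R 85 N (R 86 (L [(.ofNat 1, 87)]) N)) N))) (R 105 (R 98 (R 94 (R 92 (R 91 (L [(.ofNat 1,
  92)]) (L [(.ofNat 1, 95)])) (R 93 (L [(.ofNat 1, 97)]) (L [(.negSucc 0, 95), (.ofNat 1, 98),
  (.negSucc 0, 109)]))) N) (R 102 (R 100 N (R 101 (L [(.ofNat 1, 102)]) N)) N)) (R 113 (R 109 (R
  107 (R 106 (L [(.ofNat 1, 107)]) (L [(.ofNat 1, 110)])) (R 108 (L [(.ofNat 1, 112)]) (L
  [(.negSucc 0, 110), (.ofNat 1, 113)]))) N) (R 117 (R 115 N (R 116 (L [(.ofNat 1, 117)]) N))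
  N)))))

/-- table 18 -/
def ft18 : BT Row :=
  (R 60 (R 30 (R 15 (R 8 (R 4 (R 2 (R 1 (L [(.ofNat 1, 3)]) (L [(.ofNat 1, 6)])) (R 3 (L
  [(.ofNat 1, 8)]) (L [(.ofNat 1, 9)]))) N) (R 12 (R 10 N (R 11 (L [(.ofNat 1, 13)]) N)) N)) (R
  23 (R 19 (R 17 (R 16 (L [(.ofNat 1, 18)]) (L [(.ofNat 1, 21)])) (R 18 (L [(.ofNat 1, 23)]) (L
  [(.ofNat 1, 24)]))) N) (R 27 (R 25 N (R 26 (L [(.ofNat 1, 28)]) N)) N))) (R 45 (R 38 (R 34 (R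
  32 (R 31 (L [(.ofNat 1, 33)]) (L [(.ofNat 1, 36)])) (R 33 (L [(.ofNat 1, 38)]) (L [(.ofNat 1,
  39)]))) N) (R 42 (R 40 N (R 41 (L [(.ofNat 1, 43)]) N)) N)) (R 53 (R 49 (R 47 (R 46 (L
  [(.ofNat 1, 48)]) (L [(.ofNat 1, 51)])) (R 48 (L [(.ofNat 1, 53)]) (L [(.ofNat 1, 54)]))) N)
  (R 57 (R 55 N (R 56 (L [(.ofNat 1, 58)]) N)) N)))) (R 90 (R 75 (R 68 (R 64 (R 62 (R 61 (L
  [(.ofNat 1, 63)]) (L [(.ofNat 1, 66)])) (R 63 (L [(.ofNat 1, 68)]) (L [(.ofNat 1, 69)]))) N)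
  (R 72 (R 70 N (R 71 (L [(.ofNat 1, 73)]) N)) N)) (R 83 (R 79 (R 77 (R 76 (L [(.ofNat 1, 78)])
  (L [(.ofNat 1, 81)])) (R 78 (L [(.ofNat 1, 83)]) (L [(.ofNat 1, 84)]))) N) (R 87 (R 85 N (R 86
  (L [(.ofNat 1, 88)]) N)) N))) (R 105 (R 98 (R 94 (R 92 (R 91 (L [(.ofNat 1, 93)]) (L [(.ofNat
  1, 96)])) (R 93 (L [(.ofNat 1, 98)]) (L [(.ofNat 1, 99)]))) N) (R 102 (R 100 N (R 101 (L
  [(.ofNat 1, 103)]) N)) N)) (R 113 (R 109 (R 107 (R 106 (L [(.ofNat 1, 108)]) (L [(.ofNat 1,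
  111)])) (R 108 (L [(.ofNat 1, 113)]) (L [(.ofNat 1, 114)]))) N) (R 117 (R 115 N (R 116 (L
  [(.ofNat 1, 118)]) N)) N)))))

/-- table 19 -/
def ft19 : BT Row :=
  (R 60 (R 30 (R 15 (R 8 (R 4 (R 2 (R 1 (L [(.ofNat 1, 1)]) (L [(.ofNat 1, 4)])) (R 3 (L
  [(.ofNat 1, 5)]) (L [(.ofNat 1, 6)]))) N) (R 12 (R 10 N (R 11 (L [(.ofNat 1, 11)]) N)) N)) (R
  23 (R 19 (R 17 (R 16 (L [(.ofNat 1, 16)]) (L [(.ofNat 1, 19)])) (R 18 (L [(.ofNat 1, 20)]) (L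
  [(.ofNat 1, 21)]))) N) (R 27 (R 25 N (R 26 (L [(.ofNat 1, 26)]) N)) N))) (R 45 (R 38 (R 34 (R
  32 (R 31 (L [(.ofNat 1, 31)]) (L [(.ofNat 1, 34)])) (R 33 (L [(.ofNat 1, 35)]) (L [(.ofNat 1,
  36)]))) N) (R 42 (R 40 N (R 41 (L [(.ofNat 1, 41)]) N)) N)) (R 53 (R 49 (R 47 (R 46 (L
  [(.ofNat 1, 46)]) (L [(.ofNat 1, 49)])) (R 48 (L [(.ofNat 1, 50)]) (L [(.ofNat 1, 51)]))) N)
  (R 57 (R 55 N (R 56 (L [(.ofNat 1, 56)]) N)) N)))) (R 90 (R 75 (R 68 (R 64 (R 62 (R 61 (L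
  [(.ofNat 1, 61)]) (L [(.ofNat 1, 64)])) (R 63 (L [(.ofNat 1, 65)]) (L [(.ofNat 1, 66)]))) N)
  (R 72 (R 70 N (R 71 (L [(.ofNat 1, 71)]) N)) N)) (R 83 (R 79 (R 77 (R 76 (L [(.ofNat 1, 76)])
  (L [(.ofNat 1, 79)])) (R 78 (L [(.ofNat 1, 80)]) (L [(.ofNat 1, 81)]))) N) (R 87 (R 85 N (R 86
  (L [(.ofNat 1, 86)]) N)) N))) (R 105 (R 98 (R 94 (R 92 (R 91 (L [(.ofNat 1, 91)]) (L [(.ofNat
  1, 94)])) (R 93 (L [(.ofNat 1, 95)]) (L [(.ofNat 1, 96)]))) N) (R 102 (R 100 N (R 101 (L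
  [(.ofNat 1, 101)]) N)) N)) (R 113 (R 109 (R 107 (R 106 (L [(.ofNat 1, 106)]) (L [(.ofNat 1,
  109)])) (R 108 (L [(.ofNat 1, 110)]) (L [(.ofNat 1, 111)]))) N) (R 117 (R 115 N (R 116 (L
  [(.ofNat 1, 116)]) N)) N)))))

/-- table 20 -/
def ft20 : BT Row :=
  (R 60 (R 30 (R 15 (R 8 (R 4 (R 2 (R 1 (L [(.ofNat 1, 0)]) N) N) N) N) (R 23 (R 19 (R 17 (R 16
  (L [(.ofNat 1, 15)]) N) N) N) N)) N) (R 90 (R 75 (R 68 (R 64 (R 62 (R 61 (L [(.ofNat 1, 60)])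
  N) N) N) N) (R 83 (R 79 (R 77 (R 76 (L [(.ofNat 1, 75)]) N) N) N) N)) N))

/-- table 21 -/
def ft21 : BT Row :=
  (R 60 (R 30 (R 15 (R 8 (R 4 (R 2 (R 1 N (L [(.ofNat 1, 1)])) (R 3 (L [(.ofNat 1, 2)]) (L
  [(.ofNat 1, 3)]))) N) (R 12 (R 10 N (R 11 (L [(.ofNat 1, 10)]) N)) N)) (R 23 (R 19 (R 17 (R 16
  N (L [(.ofNat 1, 16)])) (R 18 (L [(.ofNat 1, 17)]) (L [(.ofNat 1, 18)]))) N) (R 27 (R 25 N (R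
  26 (L [(.ofNat 1, 25)]) N)) N))) N) (R 90 (R 75 (R 68 (R 64 (R 62 (R 61 N (L [(.ofNat 1,
  61)])) (R 63 (L [(.ofNat 1, 62)]) (L [(.ofNat 1, 63)]))) N) (R 72 (R 70 N (R 71 (L [(.ofNat 1,
  70)]) N)) N)) (R 83 (R 79 (R 77 (R 76 N (L [(.ofNat 1, 76)])) (R 78 (L [(.ofNat 1, 77)]) (L
  [(.ofNat 1, 78)]))) N) (R 87 (R 85 N (R 86 (L [(.ofNat 1, 85)]) N)) N))) N))

/-- table 22 -/
def ft22 : BT Row :=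
  (R 60 (R 30 (R 15 (R 8 (R 4 N (R 6 (R 5 (L [(.ofNat 1, 4)]) (L [(.ofNat 1, 5)])) (R 7 (L
  [(.ofNat 1, 6)]) (L [(.ofNat 1, 7)])))) (R 12 (R 10 (R 9 (L [(.ofNat 1, 8)]) (L [(.ofNat 1,
  9)])) (R 11 N (L [(.ofNat 1, 11)]))) (R 14 (R 13 (L [(.ofNat 1, 12)]) (L [(.ofNat 1, 13)])) (L
  [(.ofNat 1, 14)])))) (R 23 (R 19 N (R 21 (R 20 (L [(.ofNat 1, 19)]) (L [(.ofNat 1, 20)])) (R
  22 (L [(.ofNat 1, 21)]) (L [(.ofNat 1, 22)])))) (R 27 (R 25 (R 24 (L [(.ofNat 1, 23)]) (L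
  [(.ofNat 1, 24)])) (R 26 N (L [(.ofNat 1, 26)]))) (R 29 (R 28 (L [(.ofNat 1, 27)]) (L [(.ofNat
  1, 28)])) (L [(.ofNat 1, 29)]))))) N) (R 90 (R 75 (R 68 (R 64 N (R 66 (R 65 (L [(.ofNat 1,
  64)]) (L [(.ofNat 1, 65)])) (R 67 (L [(.ofNat 1, 66)]) (L [(.ofNat 1, 67)])))) (R 72 (R 70 (R
  69 (L [(.ofNat 1, 68)]) (L [(.ofNat 1, 69)])) (R 71 N (L [(.ofNat 1, 71)]))) (R 74 (R 73 (L
  [(.ofNat 1, 72)]) (L [(.ofNat 1, 73)])) (L [(.ofNat 1, 74)])))) (R 83 (R 79 N (R 81 (R 80 (L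
  [(.ofNat 1, 79)]) (L [(.ofNat 1, 80)])) (R 82 (L [(.ofNat 1, 81)]) (L [(.ofNat 1, 82)])))) (R
  87 (R 85 (R 84 (L [(.ofNat 1, 83)]) (L [(.ofNat 1, 84)])) (R 86 N (L [(.ofNat 1, 86)]))) (R 89
  (R 88 (L [(.ofNat 1, 87)]) (L [(.ofNat 1, 88)])) (L [(.ofNat 1, 89)]))))) N))

/-- table 23 -/
def ft23 : BT Row :=
  (R 60 (R 30 N (R 45 (R 38 (R 34 (R 32 (R 31 (L [(.ofNat 1, 30)]) N) N) N) N) (R 53 (R 49 (R 47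
  (R 46 (L [(.ofNat 1, 45)]) N) N) N) N))) (R 90 N (R 105 (R 98 (R 94 (R 92 (R 91 (L [(.ofNat 1,
  90)]) N) N) N) N) (R 113 (R 109 (R 107 (R 106 (L [(.ofNat 1, 105)]) N) N) N) N))))

/-- table 24 -/
def ft24 : BT Row :=
  (R 60 (R 30 N (R 45 (R 38 (R 34 (R 32 (R 31 N (L [(.ofNat 1, 31)])) (R 33 (L [(.ofNat 1, 32)])
  (L [(.ofNat 1, 33)]))) N) (R 42 (R 40 N (R 41 (L [(.ofNat 1, 40)]) N)) N)) (R 53 (R 49 (R 47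
  (R 46 N (L [(.ofNat 1, 46)])) (R 48 (L [(.ofNat 1, 47)]) (L [(.ofNat 1, 48)]))) N) (R 57 (R 55
  N (R 56 (L [(.ofNat 1, 55)]) N)) N)))) (R 90 N (R 105 (R 98 (R 94 (R 92 (R 91 N (L [(.ofNat 1,
  91)])) (R 93 (L [(.ofNat 1, 92)]) (L [(.ofNat 1, 93)]))) N) (R 102 (R 100 N (R 101 (L [(.ofNat
  1, 100)]) N)) N)) (R 113 (R 109 (R 107 (R 106 N (L [(.ofNat 1, 106)])) (R 108 (L [(.ofNat 1,
  107)]) (L [(.ofNat 1, 108)]))) N) (R 117 (R 115 N (R 116 (L [(.ofNat 1, 115)]) N)) N)))))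

/-- table 25 -/
def ft25 : BT Row :=
  (R 60 (R 30 N (R 45 (R 38 (R 34 N (R 36 (R 35 (L [(.ofNat 1, 34)]) (L [(.ofNat 1, 35)])) (R 37
  (L [(.ofNat 1, 36)]) (L [(.ofNat 1, 37)])))) (R 42 (R 40 (R 39 (L [(.ofNat 1, 38)]) (L
  [(.ofNat 1, 39)])) (R 41 N (L [(.ofNat 1, 41)]))) (R 44 (R 43 (L [(.ofNat 1, 42)]) (L [(.ofNat
  1, 43)])) (L [(.ofNat 1, 44)])))) (R 53 (R 49 N (R 51 (R 50 (L [(.ofNat 1, 49)]) (L [(.ofNat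
  1, 50)])) (R 52 (L [(.ofNat 1, 51)]) (L [(.ofNat 1, 52)])))) (R 57 (R 55 (R 54 (L [(.ofNat 1,
  53)]) (L [(.ofNat 1, 54)])) (R 56 N (L [(.ofNat 1, 56)]))) (R 59 (R 58 (L [(.ofNat 1, 57)]) (L
  [(.ofNat 1, 58)])) (L [(.ofNat 1, 59)])))))) (R 90 N (R 105 (R 98 (R 94 N (R 96 (R 95 (L
  [(.ofNat 1, 94)]) (L [(.ofNat 1, 95)])) (R 97 (L [(.ofNat 1, 96)]) (L [(.ofNat 1, 97)])))) (R
  102 (R 100 (R 99 (L [(.ofNat 1, 98)]) (L [(.ofNat 1, 99)])) (R 101 N (L [(.ofNat 1, 101)])))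
  (R 104 (R 103 (L [(.ofNat 1, 102)]) (L [(.ofNat 1, 103)])) (L [(.ofNat 1, 104)])))) (R 113 (R
  109 N (R 111 (R 110 (L [(.ofNat 1, 109)]) (L [(.ofNat 1, 110)])) (R 112 (L [(.ofNat 1, 111)])
  (L [(.ofNat 1, 112)])))) (R 117 (R 115 (R 114 (L [(.ofNat 1, 113)]) (L [(.ofNat 1, 114)])) (R
  116 N (L [(.ofNat 1, 116)]))) (R 119 (R 118 (L [(.ofNat 1, 117)]) (L [(.ofNat 1, 118)])) (L
  [(.ofNat 1, 119)])))))))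

/-- table 26 -/
def ft26 : BT Row :=
  (R 60 (R 30 (R 15 N (R 23 (R 19 (R 17 (R 16 (L [(.ofNat 1, 75)]) (L [(.ofNat 1, 76)])) (R 18
  (L [(.ofNat 1, 77)]) (L [(.ofNat 1, 78)]))) (R 21 (R 20 (L [(.ofNat 1, 79)]) (L [(.ofNat 1,
  80)])) (R 22 (L [(.ofNat 1, 81)]) (L [(.ofNat 1, 82)])))) (R 27 (R 25 (R 24 (L [(.ofNat 1,
  83)]) (L [(.ofNat 1, 84)])) (R 26 (L [(.ofNat 1, 85)]) (L [(.ofNat 1, 86)]))) (R 29 (R 28 (L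
  [(.ofNat 1, 87)]) (L [(.ofNat 1, 88)])) (L [(.ofNat 1, 89)]))))) (R 45 N (R 53 (R 49 (R 47 (R
  46 (L [(.ofNat 1, 90)]) (L [(.ofNat 1, 91)])) (R 48 (L [(.ofNat 1, 92)]) (L [(.ofNat 1,
  93)]))) (R 51 (R 50 (L [(.ofNat 1, 94)]) (L [(.ofNat 1, 95)])) (R 52 (L [(.ofNat 1, 96)]) (L
  [(.ofNat 1, 97)])))) (R 57 (R 55 (R 54 (L [(.ofNat 1, 98)]) (L [(.ofNat 1, 99)])) (R 56 (L
  [(.ofNat 1, 100)]) (L [(.ofNat 1, 101)]))) (R 59 (R 58 (L [(.ofNat 1, 102)]) (L [(.ofNat 1,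
  103)])) (L [(.ofNat 1, 104)])))))) N)

/-- table 27 -/
def ft27 : BT Row :=
  (R 60 N (R 90 (R 75 (R 68 (R 64 (R 62 (R 61 (L [(.ofNat 1, 0)]) (L [(.ofNat 1, 1)])) (R 63 (L
  [(.ofNat 1, 2)]) (L [(.ofNat 1, 3)]))) (R 66 (R 65 (L [(.ofNat 1, 4)]) (L [(.ofNat 1, 5)])) (R
  67 (L [(.ofNat 1, 6)]) (L [(.ofNat 1, 7)])))) (R 72 (R 70 (R 69 (L [(.ofNat 1, 8)]) (L
  [(.ofNat 1, 9)])) (R 71 (L [(.ofNat 1, 10)]) (L [(.ofNat 1, 11)]))) (R 74 (R 73 (L [(.ofNat 1,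
  12)]) (L [(.ofNat 1, 13)])) (L [(.ofNat 1, 14)])))) N) (R 105 N (R 113 (R 109 (R 107 (R 106 (L
  [(.ofNat 1, 30)]) (L [(.ofNat 1, 31)])) (R 108 (L [(.ofNat 1, 32)]) (L [(.ofNat 1, 33)]))) (R
  111 (R 110 (L [(.ofNat 1, 34)]) (L [(.ofNat 1, 35)])) (R 112 (L [(.ofNat 1, 36)]) (L [(.ofNat
  1, 37)])))) (R 117 (R 115 (R 114 (L [(.ofNat 1, 38)]) (L [(.ofNat 1, 39)])) (R 116 (L [(.ofNat
  1, 40)]) (L [(.ofNat 1, 41)]))) (R 119 (R 118 (L [(.ofNat 1, 42)]) (L [(.ofNat 1, 43)])) (L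
  [(.ofNat 1, 44)])))))))

/-- table 28 -/
def ft28 : BT Row :=
  (R 60 N (R 90 (R 75 (R 68 N (R 72 N (R 74 (R 73 N (L [(.ofNat 1, 14)])) N))) N) (R 105 N (R
  113 N (R 117 N (R 119 (R 118 N (L [(.ofNat 1, 44)])) N))))))

/-- table 29 -/
def ft29 : BT Row :=
  (R 60 N (R 90 (R 75 (R 68 (R 64 (R 62 (R 61 (L [(.ofNat 1, 60)]) (L [(.ofNat 1, 61)])) (R 63
  (L [(.ofNat 1, 62)]) (L [(.ofNat 1, 63)]))) (R 66 (R 65 (L [(.ofNat 1, 64)]) (L [(.ofNat 1,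
  65)])) (R 67 (L [(.ofNat 1, 66)]) (L [(.ofNat 1, 67)])))) (R 72 (R 70 (R 69 (L [(.ofNat 1,
  68)]) (L [(.ofNat 1, 69)])) (R 71 (L [(.ofNat 1, 70)]) (L [(.ofNat 1, 71)]))) (R 74 (R 73 (L
  [(.ofNat 1, 72)]) (L [(.ofNat 1, 73)])) (L [(.ofNat 1, 74)])))) N) (R 105 N (R 113 (R 109 (R
  107 (R 106 (L [(.ofNat 1, 105)]) (L [(.ofNat 1, 106)])) (R 108 (L [(.ofNat 1, 107)]) (L
  [(.ofNat 1, 108)]))) (R 111 (R 110 (L [(.ofNat 1, 109)]) (L [(.ofNat 1, 110)])) (R 112 (L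
  [(.ofNat 1, 111)]) (L [(.ofNat 1, 112)])))) (R 117 (R 115 (R 114 (L [(.ofNat 1, 113)]) (L
  [(.ofNat 1, 114)])) (R 116 (L [(.ofNat 1, 115)]) (L [(.ofNat 1, 116)]))) (R 119 (R 118 (L
  [(.ofNat 1, 117)]) (L [(.ofNat 1, 118)])) (L [(.ofNat 1, 119)])))))))

/-- table 30 -/
def ft30 : BT Row :=
  (R 60 N (R 90 (R 75 (R 68 (R 64 (R 62 N (R 63 (L [(.ofNat 1, 70)]) N)) (R 66 (R 65 N (L
  [(.ofNat 1, 71)])) (R 67 N (L [(.ofNat 1, 72)])))) (R 72 (R 70 (R 69 (L [(.ofNat 1, 71)]) N)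
  N) N)) N) (R 105 N (R 113 (R 109 (R 107 N (R 108 (L [(.ofNat 1, 115)]) N)) (R 111 (R 110 N (L
  [(.ofNat 1, 116)])) (R 112 N (L [(.ofNat 1, 117)])))) (R 117 (R 115 (R 114 (L [(.ofNat 1,
  116)]) N) N) N)))))

/-- table 31 -/
def ft31 : BT Row :=
  (R 60 N (R 90 (R 75 (R 68 (R 64 N (R 66 N (R 67 N (L [(.ofNat 1, 71)])))) N) N) (R 105 N (R
  113 (R 109 N (R 111 N (R 112 N (L [(.ofNat 1, 116)])))) N))))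

/-- table 32 -/
def ft32 : BT Row :=
  (R 60 N (R 90 (R 75 (R 68 N (R 72 (R 70 (R 69 (L [(.ofNat 1, 71)]) N) N) N)) N) (R 105 N (R
  113 N (R 117 (R 115 (R 114 (L [(.ofNat 1, 116)]) N) N) N)))))

/-- table 33 -/
def ft33 : BT Row :=
  (R 60 N (R 90 (R 75 (R 68 (R 64 (R 62 N (R 63 N (L [(.ofNat 1, 70)]))) (R 66 N (R 67 (L
  [(.ofNat 1, 71)]) N))) (R 72 (R 70 (R 69 (L [(.ofNat 1, 72)]) (L [(.ofNat 1, 73)])) N) N)) N)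
  (R 105 N (R 113 (R 109 (R 107 N (R 108 N (L [(.ofNat 1, 115)]))) (R 111 N (R 112 (L [(.ofNat
  1, 116)]) N))) (R 117 (R 115 (R 114 (L [(.ofNat 1, 117)]) (L [(.ofNat 1, 118)])) N) N)))))

/-- table 34 -/
def ft34 : BT Row :=
  (R 60 N (R 90 (R 75 (R 68 N (R 72 (R 70 (R 69 N (L [(.ofNat 1, 71)])) N) N)) N) (R 105 N (R
  113 N (R 117 (R 115 (R 114 N (L [(.ofNat 1, 116)])) N) N)))))

/-- table 35 -/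
def ft35 : BT Row :=
  (R 60 N (R 90 (R 75 (R 68 N (R 72 N (R 74 (R 73 N (L [(.ofNat 1, 74)])) N))) N) (R 105 N (R
  113 N (R 117 N (R 119 (R 118 N (L [(.ofNat 1, 119)])) N))))))

/-- table 36 -/
def ft36 : BT Row :=
  (R 60 (R 30 (R 15 (R 8 (R 4 (R 2 (R 1 (L [(.ofNat 1, 0)]) (L [(.ofNat 1, 1)])) N) (R 6 (R 5 (L
  [(.ofNat 1, 4)]) N) N)) N) N) (R 45 (R 38 (R 34 (R 32 (R 31 (L [(.ofNat 1, 30)]) (L [(.ofNat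
  1, 31)])) N) (R 36 (R 35 (L [(.ofNat 1, 34)]) N) N)) N) N)) N)

/-- table 37 -/
def ft37 : BT Row :=
  (R 60 (R 30 (R 15 (R 8 (R 4 (R 2 N (R 3 (L [(.ofNat 1, 1)]) N)) (R 6 (R 5 N (L [(.ofNat 1,
  4)])) N)) N) N) (R 45 (R 38 (R 34 (R 32 N (R 33 (L [(.ofNat 1, 31)]) N)) (R 36 (R 35 N (L
  [(.ofNat 1, 34)])) N)) N) N)) N)

/-- table 38 -/
def ft38 : BT Row :=
  (R 60 (R 30 (R 15 (R 8 (R 4 (R 2 N (R 3 N (L [(.ofNat 1, 1)]))) (R 6 N (R 7 (L [(.ofNat 1,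
  4)]) N))) N) N) (R 45 (R 38 (R 34 (R 32 N (R 33 N (L [(.ofNat 1, 31)]))) (R 36 N (R 37 (L
  [(.ofNat 1, 34)]) N))) N) N)) N)

/-- table 39 -/
def ft39 : BT Row :=
  (R 60 (R 30 (R 15 (R 8 (R 4 N (R 6 N (R 7 N (L [(.ofNat 1, 4)])))) N) N) (R 45 (R 38 (R 34 N
  (R 36 N (R 37 N (L [(.ofNat 1, 34)])))) N) N)) N)

/-- table 40 -/
def ft40 : BT Row :=
  (R 60 (R 30 (R 15 (R 8 N (R 12 (R 10 (R 9 (L [(.ofNat 1, 4)]) N) N) N)) N) (R 45 (R 38 N (R 42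
  (R 40 (R 39 (L [(.ofNat 1, 34)]) N) N) N)) N)) N)

/-- table 41 -/
def ft41 : BT Row :=
  (R 60 (R 30 (R 15 (R 8 N (R 12 (R 10 (R 9 N (L [(.ofNat 1, 4)])) N) N)) N) (R 45 (R 38 N (R 42
  (R 40 (R 39 N (L [(.ofNat 1, 34)])) N) N)) N)) N)

/-- table 42 -/
def ft42 : BT Row :=
  (R 60 (R 30 (R 15 (R 8 (R 4 (R 2 N (R 3 (L [(.ofNat 1, 10)]) N)) (R 6 (R 5 N (L [(.ofNat 1,
  11)])) (R 7 N (L [(.ofNat 1, 12)])))) (R 12 (R 10 (R 9 (L [(.ofNat 1, 13)]) N) N) N)) N) (R 45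
  (R 38 (R 34 (R 32 N (R 33 (L [(.ofNat 1, 40)]) N)) (R 36 (R 35 N (L [(.ofNat 1, 41)])) (R 37 N
  (L [(.ofNat 1, 42)])))) (R 42 (R 40 (R 39 (L [(.ofNat 1, 43)]) N) N) N)) N)) N)

/-- table 43 -/
def ft43 : BT Row :=
  (R 60 (R 30 (R 15 (R 8 (R 4 N (R 6 N (R 7 N (L [(.ofNat 1, 11)])))) N) N) (R 45 (R 38 (R 34 N
  (R 36 N (R 37 N (L [(.ofNat 1, 41)])))) N) N)) N)

/-- table 44 -/
def ft44 : BT Row :=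
  (R 60 (R 30 (R 15 (R 8 (R 4 (R 2 N (R 3 N (L [(.ofNat 1, 10)]))) (R 6 N (R 7 (L [(.ofNat 1,
  11)]) N))) (R 12 (R 10 (R 9 N (L [(.ofNat 1, 13)])) N) N)) N) (R 45 (R 38 (R 34 (R 32 N (R 33
  N (L [(.ofNat 1, 40)]))) (R 36 N (R 37 (L [(.ofNat 1, 41)]) N))) (R 42 (R 40 (R 39 N (L
  [(.ofNat 1, 43)])) N) N)) N)) N)

/-- table 45 -/
def ft45 : BT Row :=
  (R 60 (R 30 (R 15 (R 8 N (R 12 (R 10 (R 9 N (L [(.ofNat 1, 11)])) N) N)) N) (R 45 (R 38 N (R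
  42 (R 40 (R 39 N (L [(.ofNat 1, 41)])) N) N)) N)) N)

/-- table 46 -/
def ft46 : BT Row :=
  (R 60 (R 30 (R 15 (R 8 N (R 12 (R 10 (R 9 (L [(.ofNat 1, 11)]) N) N) N)) N) (R 45 (R 38 N (R
  42 (R 40 (R 39 (L [(.ofNat 1, 41)]) N) N) N)) N)) N)

/-- table 47 -/
def ft47 : BT Row :=
  (R 60 (R 30 (R 15 (R 8 (R 4 (R 2 (R 1 (L [(.ofNat 1, 0)]) (L [(.ofNat 1, 1)])) (R 3 (L
  [(.ofNat 1, 2)]) (L [(.ofNat 1, 3)]))) (R 6 (R 5 (L [(.ofNat 1, 4)]) (L [(.ofNat 1, 5)])) (R 7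
  (L [(.ofNat 1, 6)]) (L [(.ofNat 1, 7)])))) (R 12 (R 10 (R 9 (L [(.ofNat 1, 8)]) (L [(.ofNat 1,
  9)])) N) N)) N) (R 45 (R 38 (R 34 (R 32 (R 31 (L [(.ofNat 1, 30)]) (L [(.ofNat 1, 31)])) (R 33
  (L [(.ofNat 1, 32)]) (L [(.ofNat 1, 33)]))) (R 36 (R 35 (L [(.ofNat 1, 34)]) (L [(.ofNat 1,
  35)])) (R 37 (L [(.ofNat 1, 36)]) (L [(.ofNat 1, 37)])))) (R 42 (R 40 (R 39 (L [(.ofNat 1,
  38)]) (L [(.ofNat 1, 39)])) N) N)) N)) N)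

/-- table 48 -/
def ft48 : BT Row :=
  (R 60 (R 30 N (R 45 (R 38 (R 34 (R 32 (R 31 (L [(.ofNat 1, 0)]) (L [(.ofNat 1, 1)])) (R 33 (L
  [(.ofNat 1, 2)]) (L [(.ofNat 1, 3)]))) (R 36 (R 35 (L [(.ofNat 1, 4)]) (L [(.ofNat 1, 5)])) (R
  37 (L [(.ofNat 1, 6)]) (L [(.ofNat 1, 7)])))) (R 42 (R 40 (R 39 (L [(.ofNat 1, 8)]) (L
  [(.ofNat 1, 9)])) (R 41 (L [(.ofNat 1, 10)]) (L [(.ofNat 1, 11)]))) (R 44 (R 43 (L [(.ofNat 1,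
  12)]) (L [(.ofNat 1, 13)])) (L [(.ofNat 1, 14)])))) N)) (R 90 N (R 105 N (R 113 (R 109 (R 107
  (R 106 (L [(.ofNat 1, 60)]) (L [(.ofNat 1, 61)])) (R 108 (L [(.ofNat 1, 62)]) (L [(.ofNat 1,
  63)]))) (R 111 (R 110 (L [(.ofNat 1, 64)]) (L [(.ofNat 1, 65)])) (R 112 (L [(.ofNat 1, 66)])
  (L [(.ofNat 1, 67)])))) (R 117 (R 115 (R 114 (L [(.ofNat 1, 68)]) (L [(.ofNat 1, 69)])) (R 116
  (L [(.ofNat 1, 70)]) (L [(.ofNat 1, 71)]))) (R 119 (R 118 (L [(.ofNat 1, 72)]) (L [(.ofNat 1,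
  73)])) (L [(.ofNat 1, 74)])))))))

/-- table 49 -/
def ft49 : BT Row :=
  (R 60 (R 30 N (R 45 (R 38 (R 34 (R 32 N (R 33 N (L [(.negSucc 0, 2)]))) (R 36 (R 35 N (L
  [(.ofNat 1, 7)])) (R 37 (L [(.negSucc 0, 5), (.negSucc 0, 8)]) N))) (R 42 (R 40 (R 39 (L
  [(.negSucc 1, 7)]) (L [(.negSucc 0, 8)])) N) (R 44 (R 43 N (L [(.negSucc 0, 12)])) N))) (R 53
  (R 49 (R 47 (R 46 (L [(.ofNat 1, 0)]) (L [(.ofNat 1, 1), (.ofNat 1, 3)])) (R 48 (L [(.ofNat 1,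
  2)]) (L [(.ofNat 1, 3)]))) (R 51 (R 50 (L [(.ofNat 1, 4), (.ofNat 1, 6), (.ofNat 1, 9)]) (L
  [(.ofNat 1, 5), (.ofNat 1, 8)])) (R 52 (L [(.ofNat 1, 6), (.ofNat 2, 9)]) (L [(.ofNat 1,
  7)])))) (R 57 (R 55 (R 54 (L [(.ofNat 1, 8)]) (L [(.ofNat 1, 9)])) (R 56 (L [(.ofNat 1, 10)])
  (L [(.ofNat 1, 11), (.ofNat 1, 13)]))) (R 59 (R 58 (L [(.ofNat 1, 12)]) (L [(.ofNat 1, 13)]))
  (L [(.ofNat 1, 14)])))))) (R 90 N (R 105 N (R 113 (R 109 (R 107 (R 106 (L [(.ofNat 1, 75)]) (L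
  [(.ofNat 1, 76), (.ofNat 1, 78)])) (R 108 (L [(.ofNat 1, 77)]) (L [(.negSucc 0, 62), (.ofNat
  1, 78)]))) (R 111 (R 110 (L [(.ofNat 1, 79), (.ofNat 1, 81), (.ofNat 1, 84)]) (L [(.ofNat 1,
  67), (.ofNat 1, 80), (.ofNat 1, 83)])) (R 112 (L [(.negSucc 0, 65), (.negSucc 0, 68), (.ofNat
  1, 81), (.ofNat 2, 84)]) (L [(.ofNat 1, 82)])))) (R 117 (R 115 (R 114 (L [(.negSucc 1, 67),
  (.ofNat 1, 83)]) (L [(.negSucc 0, 68), (.ofNat 1, 84)])) (R 116 (L [(.ofNat 1, 85)]) (L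
  [(.ofNat 1, 86), (.ofNat 1, 88)]))) (R 119 (R 118 (L [(.ofNat 1, 87)]) (L [(.negSucc 0, 72),
  (.ofNat 1, 88)])) (L [(.ofNat 1, 89)])))))))

/-- table 50 -/
def ft50 : BT Row :=
  (R 60 (R 30 (R 15 N (R 23 (R 19 (R 17 (R 16 (L [(.ofNat 1, 30)]) (L [(.ofNat 1, 31), (.negSucc
  0, 33), (.negSucc 0, 47)])) (R 18 (L [(.ofNat 1, 32)]) (L [(.ofNat 1, 33), (.ofNat 1, 47)])))
  (R 21 (R 20 (L [(.ofNat 1, 34), (.negSucc 0, 36), (.ofNat 1, 39), (.negSucc 0, 50), (.ofNat 1,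
  53)]) (L [(.ofNat 1, 35), (.negSucc 0, 38), (.negSucc 2, 52)])) (R 22 (L [(.ofNat 1, 36),
  (.negSucc 1, 39), (.ofNat 1, 50), (.negSucc 1, 53)]) (L [(.ofNat 1, 37)])))) (R 27 (R 25 (R 24
  (L [(.ofNat 1, 38), (.ofNat 2, 52)]) (L [(.ofNat 1, 39), (.ofNat 1, 53)])) (R 26 (L [(.ofNat
  1, 40)]) (L [(.ofNat 1, 41), (.negSucc 0, 43), (.negSucc 0, 57)]))) (R 29 (R 28 (L [(.ofNat 1,
  42)]) (L [(.ofNat 1, 43), (.ofNat 1, 57)])) (L [(.ofNat 1, 44)]))))) N) (R 90 (R 75 (R 68 (R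
  64 (R 62 (R 61 (L [(.ofNat 1, 90)]) (L [(.ofNat 1, 91), (.negSucc 0, 93)])) (R 63 (L [(.ofNat
  1, 92)]) (L [(.ofNat 1, 93)]))) (R 66 (R 65 (L [(.ofNat 1, 94), (.negSucc 0, 96), (.ofNat 1,
  99)]) (L [(.ofNat 1, 95), (.negSucc 0, 98)])) (R 67 (L [(.ofNat 1, 96), (.negSucc 1, 99)]) (L
  [(.ofNat 1, 97)])))) (R 72 (R 70 (R 69 (L [(.ofNat 1, 98)]) (L [(.ofNat 1, 99)])) (R 71 (L
  [(.ofNat 1, 100)]) (L [(.ofNat 1, 101), (.negSucc 0, 103)]))) (R 74 (R 73 (L [(.ofNat 1,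
  102)]) (L [(.ofNat 1, 103)])) (L [(.ofNat 1, 104)])))) (R 83 (R 79 (R 77 (R 76 N (L [(.negSucc
  0, 92)])) (R 78 N (L [(.ofNat 1, 92)]))) (R 81 (R 80 (L [(.negSucc 0, 95), (.ofNat 1, 98)]) (L
  [(.negSucc 2, 97)])) (R 82 (L [(.ofNat 1, 95), (.negSucc 1, 98)]) N))) (R 87 (R 85 (R 84 (L
  [(.ofNat 2, 97)]) (L [(.ofNat 1, 98)])) (R 86 N (L [(.negSucc 0, 102)]))) (R 89 (R 88 N (L
  [(.ofNat 1, 102)])) N)))) N))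

/-- table 51 -/
def ft51 : BT Row :=
  (R 60 (R 30 (R 15 N (R 23 (R 19 (R 17 (R 16 (L [(.ofNat 1, 45)]) (L [(.ofNat 1, 46), (.negSucc
  1, 48)])) (R 18 (L [(.ofNat 1, 47)]) (L [(.ofNat 1, 48)]))) (R 21 (R 20 (L [(.ofNat 1, 49),
  (.negSucc 1, 51), (.ofNat 4, 54)]) (L [(.ofNat 1, 50), (.negSucc 1, 53)])) (R 22 (L [(.ofNat
  1, 51), (.negSucc 3, 54)]) (L [(.ofNat 1, 52)])))) (R 27 (R 25 (R 24 (L [(.ofNat 1, 53)]) (L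
  [(.ofNat 1, 54)])) (R 26 (L [(.ofNat 1, 55)]) (L [(.ofNat 1, 56), (.negSucc 1, 58)]))) (R 29
  (R 28 (L [(.ofNat 1, 57)]) (L [(.ofNat 1, 58)])) (L [(.ofNat 1, 59)]))))) N) (R 90 (R 75 N (R
  83 (R 79 (R 77 (R 76 (L [(.ofNat 1, 90)]) (L [(.ofNat 1, 91), (.negSucc 1, 93)])) (R 78 (L
  [(.ofNat 1, 92)]) (L [(.ofNat 1, 93)]))) (R 81 (R 80 (L [(.ofNat 1, 94), (.negSucc 1, 96),
  (.ofNat 4, 99)]) (L [(.ofNat 1, 95), (.negSucc 1, 98)])) (R 82 (L [(.ofNat 1, 96), (.negSucc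
  3, 99)]) (L [(.ofNat 1, 97)])))) (R 87 (R 85 (R 84 (L [(.ofNat 1, 98)]) (L [(.ofNat 1, 99)]))
  (R 86 (L [(.ofNat 1, 100)]) (L [(.ofNat 1, 101), (.negSucc 1, 103)]))) (R 89 (R 88 (L [(.ofNat
  1, 102)]) (L [(.ofNat 1, 103)])) (L [(.ofNat 1, 104)]))))) N))

/-- table 52 -/
def ft52 : BT Row :=
  (R 60 (R 30 (R 15 (R 8 (R 4 (R 2 N (R 3 (L [(.ofNat 1, 0)]) N)) (R 6 (R 5 N (L [(.ofNat 1, 1),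
  (.negSucc 0, 3)])) (R 7 N (L [(.ofNat 1, 2)])))) (R 12 (R 10 (R 9 (L [(.ofNat 1, 3)]) N) N) (R
  14 (R 13 (L [(.ofNat 1, 10)]) N) N))) (R 23 (R 19 (R 17 N (R 18 (L [(.ofNat 1, 15)]) N)) (R 21
  (R 20 N (L [(.ofNat 1, 16), (.negSucc 0, 18)])) (R 22 N (L [(.ofNat 1, 17)])))) (R 27 (R 25 (R
  24 (L [(.ofNat 1, 18)]) N) N) (R 29 (R 28 (L [(.ofNat 1, 25)]) N) N)))) (R 45 (R 38 (R 34 (R
  32 N (R 33 (L [(.ofNat 1, 30)]) N)) (R 36 (R 35 N (L [(.ofNat 1, 31), (.negSucc 0, 33)])) (R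
  37 N (L [(.ofNat 1, 32)])))) (R 42 (R 40 (R 39 (L [(.ofNat 1, 33)]) N) N) (R 44 (R 43 (L
  [(.ofNat 1, 40)]) N) N))) (R 53 (R 49 (R 47 N (R 48 (L [(.ofNat 1, 45)]) N)) (R 51 (R 50 N (L
  [(.ofNat 1, 46), (.negSucc 0, 48)])) (R 52 N (L [(.ofNat 1, 47)])))) (R 57 (R 55 (R 54 (L
  [(.ofNat 1, 48)]) N) N) (R 59 (R 58 (L [(.ofNat 1, 55)]) N) N))))) (R 90 (R 75 (R 68 (R 64 (R
  62 N (R 63 (L [(.ofNat 1, 60)]) N)) (R 66 (R 65 N (L [(.ofNat 1, 61), (.negSucc 0, 63)])) (R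
  67 N (L [(.ofNat 1, 62)])))) (R 72 (R 70 (R 69 (L [(.ofNat 1, 63)]) N) N) (R 74 (R 73 (L
  [(.ofNat 1, 70)]) N) N))) (R 83 (R 79 (R 77 N (R 78 (L [(.ofNat 1, 75)]) N)) (R 81 (R 80 N (L
  [(.ofNat 1, 76), (.negSucc 0, 78)])) (R 82 N (L [(.ofNat 1, 77)])))) (R 87 (R 85 (R 84 (L
  [(.ofNat 1, 78)]) N) N) (R 89 (R 88 (L [(.ofNat 1, 85)]) N) N)))) (R 105 (R 98 (R 94 (R 92 N
  (R 93 (L [(.ofNat 1, 90)]) N)) (R 96 (R 95 N (L [(.ofNat 1, 91), (.negSucc 0, 93)])) (R 97 N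
  (L [(.ofNat 1, 92)])))) (R 102 (R 100 (R 99 (L [(.ofNat 1, 93)]) N) N) (R 104 (R 103 (L
  [(.ofNat 1, 100)]) N) N))) (R 113 (R 109 (R 107 N (R 108 (L [(.ofNat 1, 105)]) N)) (R 111 (R
  110 (L [(.negSucc 0, 93)]) (L [(.ofNat 1, 106), (.negSucc 0, 108)])) (R 112 N (L [(.ofNat 1,
  107)])))) (R 117 (R 115 (R 114 (L [(.ofNat 1, 108)]) N) N) (R 119 (R 118 (L [(.ofNat 1, 115)])
  N) N))))))

/-- table 53 -/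
def ft53 : BT Row :=
  (R 60 (R 30 (R 15 (R 8 (R 4 (R 2 N (R 3 N (L [(.ofNat 1, 0)]))) (R 6 N (R 7 (L [(.ofNat 1,
  1)]) N))) (R 12 (R 10 (R 9 (L [(.ofNat 1, 2)]) (L [(.ofNat 1, 3)])) N) (R 14 (R 13 N (L
  [(.ofNat 1, 10)])) N))) (R 23 (R 19 (R 17 N (R 18 N (L [(.ofNat 1, 15)]))) (R 21 N (R 22 (L
  [(.ofNat 1, 16)]) N))) (R 27 (R 25 (R 24 (L [(.ofNat 1, 17)]) (L [(.ofNat 1, 18)])) N) (R 29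
  (R 28 N (L [(.ofNat 1, 25)])) N)))) (R 45 (R 38 (R 34 (R 32 N (R 33 N (L [(.ofNat 1, 30)])))
  (R 36 N (R 37 (L [(.ofNat 1, 31)]) N))) (R 42 (R 40 (R 39 (L [(.ofNat 1, 32)]) (L [(.ofNat 1,
  33)])) N) (R 44 (R 43 N (L [(.ofNat 1, 40)])) N))) (R 53 (R 49 (R 47 N (R 48 N (L [(.ofNat 1,
  45)]))) (R 51 N (R 52 (L [(.ofNat 1, 46)]) N))) (R 57 (R 55 (R 54 (L [(.ofNat 1, 47)]) (L
  [(.ofNat 1, 48)])) N) (R 59 (R 58 N (L [(.ofNat 1, 55)])) N))))) (R 90 (R 75 (R 68 (R 64 (R 62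
  N (R 63 N (L [(.ofNat 1, 60)]))) (R 66 N (R 67 (L [(.ofNat 1, 61)]) N))) (R 72 (R 70 (R 69 (L
  [(.ofNat 1, 62)]) (L [(.ofNat 1, 63)])) N) (R 74 (R 73 N (L [(.ofNat 1, 70)])) N))) (R 83 (R
  79 (R 77 N (R 78 N (L [(.ofNat 1, 75)]))) (R 81 N (R 82 (L [(.ofNat 1, 76)]) N))) (R 87 (R 85
  (R 84 (L [(.ofNat 1, 77)]) (L [(.ofNat 1, 78)])) N) (R 89 (R 88 N (L [(.ofNat 1, 85)])) N))))
  (R 105 (R 98 (R 94 (R 92 N (R 93 N (L [(.ofNat 1, 90)]))) (R 96 N (R 97 (L [(.ofNat 1, 91)])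
  N))) (R 102 (R 100 (R 99 (L [(.ofNat 1, 92)]) (L [(.ofNat 1, 93)])) N) (R 104 (R 103 N (L
  [(.ofNat 1, 100)])) N))) (R 113 (R 109 (R 107 N (R 108 N (L [(.ofNat 1, 105)]))) (R 111 N (R
  112 (L [(.ofNat 1, 106)]) N))) (R 117 (R 115 (R 114 (L [(.ofNat 1, 107)]) (L [(.ofNat 1,
  108)])) N) (R 119 (R 118 N (L [(.ofNat 1, 115)])) N))))))

/-- table 54 -/
def ft54 : BT Row :=
  (R 60 (R 30 (R 15 (R 8 (R 4 (R 2 (R 1 N (L [(.ofNat 1, 0)])) N) (R 6 (R 5 (L [(.ofNat 1, 1)])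
  (L [(.ofNat 1, 2)])) (R 7 (L [(.ofNat 1, 3)]) N))) (R 12 (R 10 N (R 11 N (L [(.ofNat 1,
  10)]))) N)) (R 23 (R 19 (R 17 (R 16 N (L [(.ofNat 1, 15)])) N) (R 21 (R 20 (L [(.ofNat 1,
  16)]) (L [(.ofNat 1, 17)])) (R 22 (L [(.ofNat 1, 18)]) N))) (R 27 (R 25 N (R 26 N (L [(.ofNat
  1, 25)]))) N))) (R 45 (R 38 (R 34 (R 32 (R 31 N (L [(.ofNat 1, 30)])) N) (R 36 (R 35 (L
  [(.ofNat 1, 31)]) (L [(.ofNat 1, 32)])) (R 37 (L [(.ofNat 1, 33)]) N))) (R 42 (R 40 N (R 41 N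
  (L [(.ofNat 1, 40)]))) N)) (R 53 (R 49 (R 47 (R 46 N (L [(.ofNat 1, 45)])) N) (R 51 (R 50 (L
  [(.ofNat 1, 46)]) (L [(.ofNat 1, 47)])) (R 52 (L [(.ofNat 1, 48)]) N))) (R 57 (R 55 N (R 56 N
  (L [(.ofNat 1, 55)]))) N)))) (R 90 (R 75 (R 68 (R 64 (R 62 (R 61 N (L [(.ofNat 1, 60)])) N) (R
  66 (R 65 (L [(.ofNat 1, 61)]) (L [(.ofNat 1, 62)])) (R 67 (L [(.ofNat 1, 63)]) N))) (R 72 (R
  70 N (R 71 N (L [(.ofNat 1, 70)]))) N)) (R 83 (R 79 (R 77 (R 76 N (L [(.ofNat 1, 75)])) N) (R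
  81 (R 80 (L [(.ofNat 1, 76)]) (L [(.ofNat 1, 77)])) (R 82 (L [(.ofNat 1, 78)]) N))) (R 87 (R
  85 N (R 86 N (L [(.ofNat 1, 85)]))) N))) (R 105 (R 98 (R 94 (R 92 (R 91 N (L [(.ofNat 1,
  90)])) N) (R 96 (R 95 (L [(.ofNat 1, 91)]) (L [(.ofNat 1, 92)])) (R 97 (L [(.ofNat 1, 93)])
  N))) (R 102 (R 100 N (R 101 N (L [(.ofNat 1, 100)]))) N)) (R 113 (R 109 (R 107 (R 106 N (L
  [(.ofNat 1, 105)])) N) (R 111 (R 110 (L [(.ofNat 1, 106)]) (L [(.ofNat 1, 107)])) (R 112 (L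
  [(.ofNat 1, 108)]) N))) (R 117 (R 115 N (R 116 N (L [(.ofNat 1, 115)]))) N)))))

/-- table 55 -/
def ft55 : BT Row :=
  (R 60 (R 30 (R 15 (R 8 (R 4 (R 2 (R 1 (L [(.ofNat 1, 0)]) N) N) N) N) (R 23 (R 19 (R 17 (R 16
  (L [(.ofNat 1, 15)]) N) N) N) N)) N) (R 90 (R 75 (R 68 (R 64 (R 62 (R 61 (L [(.ofNat 1, 60)])
  N) N) N) N) (R 83 (R 79 (R 77 (R 76 (L [(.ofNat 1, 75)]) N) N) N) N)) N))

/-- table 56 -/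
def ft56 : BT Row :=
  (R 60 (R 30 (R 15 (R 8 (R 4 (R 2 (R 1 N (L [(.ofNat 1, 1)])) (R 3 (L [(.ofNat 1, 2)]) (L
  [(.ofNat 1, 3)]))) N) (R 12 (R 10 N (R 11 (L [(.ofNat 1, 10)]) N)) N)) (R 23 (R 19 (R 17 (R 16
  N (L [(.ofNat 1, 16)])) (R 18 (L [(.ofNat 1, 17)]) (L [(.ofNat 1, 18)]))) N) (R 27 (R 25 N (R
  26 (L [(.ofNat 1, 25)]) N)) N))) N) (R 90 (R 75 (R 68 (R 64 (R 62 (R 61 N (L [(.ofNat 1,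
  61)])) (R 63 (L [(.ofNat 1, 62)]) (L [(.ofNat 1, 63)]))) N) (R 72 (R 70 N (R 71 (L [(.ofNat 1,
  70)]) N)) N)) (R 83 (R 79 (R 77 (R 76 N (L [(.ofNat 1, 76)])) (R 78 (L [(.ofNat 1, 77)]) (L
  [(.ofNat 1, 78)]))) N) (R 87 (R 85 N (R 86 (L [(.ofNat 1, 85)]) N)) N))) N))

/-- table 57 -/
def ft57 : BT Row :=
  (R 60 (R 30 (R 15 (R 8 (R 4 N (R 6 (R 5 (L [(.ofNat 1, 4)]) (L [(.ofNat 1, 5)])) (R 7 (L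
  [(.ofNat 1, 6)]) (L [(.ofNat 1, 7)])))) (R 12 (R 10 (R 9 (L [(.ofNat 1, 8)]) (L [(.ofNat 1,
  9)])) (R 11 N (L [(.ofNat 1, 11)]))) (R 14 (R 13 (L [(.ofNat 1, 12)]) (L [(.ofNat 1, 13)])) (L
  [(.ofNat 1, 14)])))) (R 23 (R 19 N (R 21 (R 20 (L [(.ofNat 1, 19)]) (L [(.ofNat 1, 20)])) (R
  22 (L [(.ofNat 1, 21)]) (L [(.ofNat 1, 22)])))) (R 27 (R 25 (R 24 (L [(.ofNat 1, 23)]) (L
  [(.ofNat 1, 24)])) (R 26 N (L [(.ofNat 1, 26)]))) (R 29 (R 28 (L [(.ofNat 1, 27)]) (L [(.ofNat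
  1, 28)])) (L [(.ofNat 1, 29)]))))) N) (R 90 (R 75 (R 68 (R 64 N (R 66 (R 65 (L [(.ofNat 1,
  64)]) (L [(.ofNat 1, 65)])) (R 67 (L [(.ofNat 1, 66)]) (L [(.ofNat 1, 67)])))) (R 72 (R 70 (R
  69 (L [(.ofNat 1, 68)]) (L [(.ofNat 1, 69)])) (R 71 N (L [(.ofNat 1, 71)]))) (R 74 (R 73 (L
  [(.ofNat 1, 72)]) (L [(.ofNat 1, 73)])) (L [(.ofNat 1, 74)])))) (R 83 (R 79 N (R 81 (R 80 (L
  [(.ofNat 1, 79)]) (L [(.ofNat 1, 80)])) (R 82 (L [(.ofNat 1, 81)]) (L [(.ofNat 1, 82)])))) (R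
  87 (R 85 (R 84 (L [(.ofNat 1, 83)]) (L [(.ofNat 1, 84)])) (R 86 N (L [(.ofNat 1, 86)]))) (R 89
  (R 88 (L [(.ofNat 1, 87)]) (L [(.ofNat 1, 88)])) (L [(.ofNat 1, 89)]))))) N))

/-- table 58 -/
def ft58 : BT Row :=
  (R 60 (R 30 N (R 45 (R 38 (R 34 (R 32 (R 31 (L [(.ofNat 1, 30)]) N) N) N) N) (R 53 (R 49 (R 47
  (R 46 (L [(.ofNat 1, 45)]) N) N) N) N))) (R 90 N (R 105 (R 98 (R 94 (R 92 (R 91 (L [(.ofNat 1,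
  90)]) N) N) N) N) (R 113 (R 109 (R 107 (R 106 (L [(.ofNat 1, 105)]) N) N) N) N))))

/-- table 59 -/
def ft59 : BT Row :=
  (R 60 (R 30 N (R 45 (R 38 (R 34 (R 32 (R 31 N (L [(.ofNat 1, 31)])) (R 33 (L [(.ofNat 1, 32)])
  (L [(.ofNat 1, 33)]))) N) (R 42 (R 40 N (R 41 (L [(.ofNat 1, 40)]) N)) N)) (R 53 (R 49 (R 47
  (R 46 N (L [(.ofNat 1, 46)])) (R 48 (L [(.ofNat 1, 47)]) (L [(.ofNat 1, 48)]))) N) (R 57 (R 55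
  N (R 56 (L [(.ofNat 1, 55)]) N)) N)))) (R 90 N (R 105 (R 98 (R 94 (R 92 (R 91 N (L [(.ofNat 1,
  91)])) (R 93 (L [(.ofNat 1, 92)]) (L [(.ofNat 1, 93)]))) N) (R 102 (R 100 N (R 101 (L [(.ofNat
  1, 100)]) N)) N)) (R 113 (R 109 (R 107 (R 106 N (L [(.ofNat 1, 106)])) (R 108 (L [(.ofNat 1,
  107)]) (L [(.ofNat 1, 108)]))) N) (R 117 (R 115 N (R 116 (L [(.ofNat 1, 115)]) N)) N)))))

/-- table 60 -/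
def ft60 : BT Row :=
  (R 60 (R 30 N (R 45 (R 38 (R 34 N (R 36 (R 35 (L [(.ofNat 1, 34)]) (L [(.ofNat 1, 35)])) (R 37
  (L [(.ofNat 1, 36)]) (L [(.ofNat 1, 37)])))) (R 42 (R 40 (R 39 (L [(.ofNat 1, 38)]) (L
  [(.ofNat 1, 39)])) (R 41 N (L [(.ofNat 1, 41)]))) (R 44 (R 43 (L [(.ofNat 1, 42)]) (L [(.ofNat
  1, 43)])) (L [(.ofNat 1, 44)])))) (R 53 (R 49 N (R 51 (R 50 (L [(.ofNat 1, 49)]) (L [(.ofNat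
  1, 50)])) (R 52 (L [(.ofNat 1, 51)]) (L [(.ofNat 1, 52)])))) (R 57 (R 55 (R 54 (L [(.ofNat 1,
  53)]) (L [(.ofNat 1, 54)])) (R 56 N (L [(.ofNat 1, 56)]))) (R 59 (R 58 (L [(.ofNat 1, 57)]) (L
  [(.ofNat 1, 58)])) (L [(.ofNat 1, 59)])))))) (R 90 N (R 105 (R 98 (R 94 N (R 96 (R 95 (L
  [(.ofNat 1, 94)]) (L [(.ofNat 1, 95)])) (R 97 (L [(.ofNat 1, 96)]) (L [(.ofNat 1, 97)])))) (R
  102 (R 100 (R 99 (L [(.ofNat 1, 98)]) (L [(.ofNat 1, 99)])) (R 101 N (L [(.ofNat 1, 101)])))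
  (R 104 (R 103 (L [(.ofNat 1, 102)]) (L [(.ofNat 1, 103)])) (L [(.ofNat 1, 104)])))) (R 113 (R
  109 N (R 111 (R 110 (L [(.ofNat 1, 109)]) (L [(.ofNat 1, 110)])) (R 112 (L [(.ofNat 1, 111)])
  (L [(.ofNat 1, 112)])))) (R 117 (R 115 (R 114 (L [(.ofNat 1, 113)]) (L [(.ofNat 1, 114)])) (R
  116 N (L [(.ofNat 1, 116)]))) (R 119 (R 118 (L [(.ofNat 1, 117)]) (L [(.ofNat 1, 118)])) (L
  [(.ofNat 1, 119)])))))))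

/-- table 61 -/
def ft61 : BT Row :=
  (R 60 (R 30 (R 15 (R 8 (R 4 (R 2 (R 1 (L [(.ofNat 1, 45)]) (L [(.ofNat 1, 46), (.negSucc 0,
  48)])) (R 3 (L [(.ofNat 1, 47)]) (L [(.ofNat 1, 48)]))) (R 6 (R 5 (L [(.ofNat 1, 49),
  (.negSucc 0, 51), (.ofNat 1, 54)]) (L [(.ofNat 1, 50), (.negSucc 0, 53)])) (R 7 (L [(.ofNat 1,
  51), (.negSucc 1, 54)]) (L [(.ofNat 1, 52)])))) (R 12 (R 10 (R 9 (L [(.ofNat 1, 53)]) (L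
  [(.ofNat 1, 54)])) (R 11 (L [(.ofNat 1, 55)]) (L [(.ofNat 1, 56), (.negSucc 0, 58)]))) (R 14
  (R 13 (L [(.ofNat 1, 57)]) (L [(.ofNat 1, 58)])) (L [(.ofNat 1, 59)])))) N) N) (R 90 (R 75 N
  (R 83 (R 79 (R 77 (R 76 (L [(.ofNat 1, 105)]) (L [(.ofNat 1, 106), (.negSucc 0, 108)])) (R 78
  (L [(.ofNat 1, 107)]) (L [(.ofNat 1, 108)]))) (R 81 (R 80 (L [(.ofNat 1, 109), (.negSucc 0,
  111), (.ofNat 1, 114)]) (L [(.ofNat 1, 110), (.negSucc 0, 113)])) (R 82 (L [(.ofNat 1, 111),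
  (.negSucc 1, 114)]) (L [(.ofNat 1, 112)])))) (R 87 (R 85 (R 84 (L [(.ofNat 1, 113)]) (L
  [(.ofNat 1, 114)])) (R 86 (L [(.ofNat 1, 115)]) (L [(.ofNat 1, 116), (.negSucc 0, 118)]))) (R
  89 (R 88 (L [(.ofNat 1, 117)]) (L [(.ofNat 1, 118)])) (L [(.ofNat 1, 119)]))))) N))

/-- table 62 -/
def ft62 : BT Row :=
  (R 60 (R 30 N (R 45 (R 38 (R 34 (R 32 (R 31 (L [(.ofNat 1, 15)]) (L [(.ofNat 1, 16), (.ofNat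
  1, 18)])) (R 33 (L [(.ofNat 1, 17)]) (L [(.ofNat 1, 18)]))) (R 36 (R 35 (L [(.ofNat 1, 19),
  (.ofNat 1, 21), (.ofNat 1, 24)]) (L [(.ofNat 1, 20), (.ofNat 1, 23)])) (R 37 (L [(.ofNat 1,
  21), (.ofNat 2, 24)]) (L [(.ofNat 1, 22)])))) (R 42 (R 40 (R 39 (L [(.ofNat 1, 23)]) (L
  [(.ofNat 1, 24)])) (R 41 (L [(.ofNat 1, 25)]) (L [(.ofNat 1, 26), (.ofNat 1, 28)]))) (R 44 (R
  43 (L [(.ofNat 1, 27)]) (L [(.ofNat 1, 28)])) (L [(.ofNat 1, 29)])))) N)) (R 90 N (R 105 (R 98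
  (R 94 (R 92 (R 91 (L [(.ofNat 1, 60)]) (L [(.ofNat 1, 61), (.ofNat 1, 63)])) (R 93 (L [(.ofNat
  1, 62)]) (L [(.ofNat 1, 63)]))) (R 96 (R 95 (L [(.ofNat 1, 64), (.ofNat 1, 66), (.ofNat 1,
  69)]) (L [(.ofNat 1, 65), (.ofNat 1, 68)])) (R 97 (L [(.ofNat 1, 66), (.ofNat 2, 69)]) (L
  [(.ofNat 1, 67)])))) (R 102 (R 100 (R 99 (L [(.ofNat 1, 68)]) (L [(.ofNat 1, 69)])) (R 101 (L
  [(.ofNat 1, 70)]) (L [(.ofNat 1, 71), (.ofNat 1, 73)]))) (R 104 (R 103 (L [(.ofNat 1, 72)]) (L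
  [(.ofNat 1, 73)])) (L [(.ofNat 1, 74)])))) N)))

/-- table 63 -/
def ft63 : BT Row :=
  (R 60 (R 30 (R 15 (R 8 (R 4 (R 2 (R 1 (L [(.ofNat 1, 2)]) (L [(.ofNat 1, 5), (.ofNat 1, 8)]))
  (R 3 (L [(.ofNat 1, 7)]) (L [(.ofNat 1, 8)]))) N) (R 12 (R 10 N (R 11 (L [(.ofNat 1, 12)]) N))
  N)) (R 23 (R 19 (R 17 (R 16 (L [(.ofNat 1, 17)]) (L [(.ofNat 1, 20), (.ofNat 1, 23)])) (R 18
  (L [(.ofNat 1, 22)]) (L [(.ofNat 1, 23)]))) N) (R 27 (R 25 N (R 26 (L [(.ofNat 1, 27)]) N))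
  N))) (R 45 (R 38 (R 34 (R 32 (R 31 (L [(.ofNat 1, 32)]) (L [(.ofNat 1, 35), (.ofNat 1, 38)]))
  (R 33 (L [(.ofNat 1, 37)]) (L [(.ofNat 1, 38)]))) N) (R 42 (R 40 N (R 41 (L [(.ofNat 1, 42)])
  N)) N)) (R 53 (R 49 (R 47 (R 46 (L [(.ofNat 1, 47)]) (L [(.ofNat 1, 50), (.ofNat 1, 53)])) (R
  48 (L [(.ofNat 1, 52)]) (L [(.ofNat 1, 53)]))) N) (R 57 (R 55 N (R 56 (L [(.ofNat 1, 57)]) N))
  N)))) (R 90 (R 75 (R 68 (R 64 (R 62 (R 61 (L [(.ofNat 1, 62)]) (L [(.ofNat 1, 65), (.ofNat 1,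
  68)])) (R 63 (L [(.ofNat 1, 67)]) (L [(.ofNat 1, 68)]))) N) (R 72 (R 70 N (R 71 (L [(.ofNat 1,
  72)]) N)) N)) (R 83 (R 79 (R 77 (R 76 (L [(.ofNat 1, 77)]) (L [(.ofNat 1, 80), (.ofNat 1,
  83)])) (R 78 (L [(.ofNat 1, 82)]) (L [(.ofNat 1, 83)]))) N) (R 87 (R 85 N (R 86 (L [(.ofNat 1,
  87)]) N)) N))) (R 105 (R 98 (R 94 (R 92 (R 91 (L [(.ofNat 1, 92)]) (L [(.ofNat 1, 95), (.ofNat
  1, 98)])) (R 93 (L [(.ofNat 1, 97)]) (L [(.ofNat 1, 98)]))) N) (R 102 (R 100 N (R 101 (L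
  [(.ofNat 1, 102)]) N)) N)) (R 113 (R 109 (R 107 (R 106 (L [(.ofNat 1, 107)]) (L [(.ofNat 1,
  110), (.ofNat 1, 113)])) (R 108 (L [(.ofNat 1, 112)]) (L [(.ofNat 1, 113)]))) N) (R 117 (R 115
  N (R 116 (L [(.ofNat 1, 117)]) N)) N)))))

/-- table 64 -/
def ft64 : BT Row :=
  (R 60 (R 30 (R 15 (R 8 (R 4 (R 2 (R 1 (L [(.ofNat 1, 3)]) (L [(.ofNat 1, 6)])) (R 3 N (L
  [(.ofNat 1, 9)]))) N) (R 12 (R 10 N (R 11 (L [(.ofNat 1, 13)]) N)) N)) (R 23 (R 19 (R 17 (R 16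
  (L [(.ofNat 1, 18)]) (L [(.ofNat 1, 21)])) (R 18 N (L [(.ofNat 1, 24)]))) N) (R 27 (R 25 N (R
  26 (L [(.ofNat 1, 28)]) N)) N))) (R 45 (R 38 (R 34 (R 32 (R 31 (L [(.ofNat 1, 33)]) (L
  [(.ofNat 1, 36)])) (R 33 N (L [(.ofNat 1, 39)]))) N) (R 42 (R 40 N (R 41 (L [(.ofNat 1, 43)])
  N)) N)) (R 53 (R 49 (R 47 (R 46 (L [(.ofNat 1, 48)]) (L [(.ofNat 1, 51)])) (R 48 N (L [(.ofNat
  1, 54)]))) N) (R 57 (R 55 N (R 56 (L [(.ofNat 1, 58)]) N)) N)))) (R 90 (R 75 (R 68 (R 64 (R 62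
  (R 61 (L [(.ofNat 1, 63)]) (L [(.ofNat 1, 66)])) (R 63 N (L [(.ofNat 1, 69)]))) N) (R 72 (R 70
  N (R 71 (L [(.ofNat 1, 73)]) N)) N)) (R 83 (R 79 (R 77 (R 76 (L [(.ofNat 1, 78)]) (L [(.ofNat
  1, 81)])) (R 78 N (L [(.ofNat 1, 84)]))) N) (R 87 (R 85 N (R 86 (L [(.ofNat 1, 88)]) N)) N)))
  (R 105 (R 98 (R 94 (R 92 (R 91 (L [(.ofNat 1, 93)]) (L [(.ofNat 1, 96)])) (R 93 N (L [(.ofNat
  1, 99)]))) N) (R 102 (R 100 N (R 101 (L [(.ofNat 1, 103)]) N)) N)) (R 113 (R 109 (R 107 (R 106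
  (L [(.ofNat 1, 108)]) (L [(.ofNat 1, 111)])) (R 108 N (L [(.ofNat 1, 114)]))) N) (R 117 (R 115
  N (R 116 (L [(.ofNat 1, 118)]) N)) N)))))

/-- table 65 -/
def ft65 : BT Row :=
  (R 60 (R 30 N (R 45 (R 38 (R 34 N (R 36 (R 35 (L [(.ofNat 1, 34)]) N) N)) (R 42 (R 40 N (R 41
  N (L [(.ofNat 1, 41)]))) (R 44 N (L [(.ofNat 1, 44)])))) N)) (R 90 N (R 105 (R 98 (R 94 N (R
  96 (R 95 (L [(.ofNat 1, 94)]) N) N)) (R 102 (R 100 N (R 101 N (L [(.ofNat 1, 101)]))) (R 104 N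
  (L [(.ofNat 1, 104)])))) N)))

/-- table 66 -/
def ft66 : BT Row :=
  (R 60 (R 30 (R 15 (R 8 (R 4 (R 2 (R 1 (L [(.ofNat 1, 0)]) (L [(.ofNat 1, 1)])) (R 3 (L
  [(.ofNat 1, 2)]) (L [(.ofNat 1, 3)]))) (R 6 (R 5 (L [(.ofNat 1, 4)]) (L [(.ofNat 1, 5)])) (R 7
  (L [(.ofNat 1, 6)]) (L [(.ofNat 1, 7)])))) (R 12 (R 10 (R 9 (L [(.ofNat 1, 8)]) (L [(.ofNat 1,
  9)])) (R 11 (L [(.ofNat 1, 10)]) (L [(.ofNat 1, 11)]))) (R 14 (R 13 (L [(.ofNat 1, 12)]) (L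
  [(.ofNat 1, 13)])) (L [(.ofNat 1, 14)])))) (R 23 (R 19 (R 17 (R 16 (L [(.ofNat 1, 15)]) (L
  [(.ofNat 1, 16)])) (R 18 (L [(.ofNat 1, 17)]) (L [(.ofNat 1, 18)]))) (R 21 (R 20 (L [(.ofNat
  1, 19)]) (L [(.ofNat 1, 20)])) (R 22 (L [(.ofNat 1, 21)]) (L [(.ofNat 1, 22)])))) (R 27 (R 25
  (R 24 (L [(.ofNat 1, 23)]) (L [(.ofNat 1, 24)])) (R 26 (L [(.ofNat 1, 25)]) (L [(.ofNat 1,
  26)]))) (R 29 (R 28 (L [(.ofNat 1, 27)]) (L [(.ofNat 1, 28)])) (L [(.ofNat 1, 29)]))))) (R 45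
  (R 38 (R 34 (R 32 (R 31 (L [(.ofNat 1, 30)]) (L [(.ofNat 1, 31)])) (R 33 (L [(.ofNat 1, 32)])
  (L [(.ofNat 1, 33)]))) (R 36 (R 35 (L [(.ofNat 1, 34)]) (L [(.ofNat 1, 35)])) (R 37 (L
  [(.ofNat 1, 36)]) (L [(.ofNat 1, 37)])))) (R 42 (R 40 (R 39 (L [(.ofNat 1, 38)]) (L [(.ofNat
  1, 39)])) (R 41 (L [(.ofNat 1, 40)]) (L [(.ofNat 1, 41)]))) (R 44 (R 43 (L [(.ofNat 1, 42)])
  (L [(.ofNat 1, 43)])) (L [(.ofNat 1, 44)])))) (R 53 (R 49 (R 47 (R 46 (L [(.ofNat 1, 45)]) (L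
  [(.ofNat 1, 46)])) (R 48 (L [(.ofNat 1, 47)]) (L [(.ofNat 1, 48)]))) (R 51 (R 50 (L [(.ofNat
  1, 49)]) (L [(.ofNat 1, 50)])) (R 52 (L [(.ofNat 1, 51)]) (L [(.ofNat 1, 52)])))) (R 57 (R 55
  (R 54 (L [(.ofNat 1, 53)]) (L [(.ofNat 1, 54)])) (R 56 (L [(.ofNat 1, 55)]) (L [(.ofNat 1,
  56)]))) (R 59 (R 58 (L [(.ofNat 1, 57)]) (L [(.ofNat 1, 58)])) (L [(.ofNat 1, 59)])))))) (R 90
  (R 75 (R 68 (R 64 (R 62 (R 61 (L [(.ofNat 1, 60)]) (L [(.ofNat 1, 61)])) (R 63 (L [(.ofNat 1,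
  62)]) (L [(.ofNat 1, 63)]))) (R 66 (R 65 (L [(.ofNat 1, 64)]) (L [(.ofNat 1, 65)])) (R 67 (L
  [(.ofNat 1, 66)]) (L [(.ofNat 1, 67)])))) (R 72 (R 70 (R 69 (L [(.ofNat 1, 68)]) (L [(.ofNat
  1, 69)])) (R 71 (L [(.ofNat 1, 70)]) (L [(.ofNat 1, 71)]))) (R 74 (R 73 (L [(.ofNat 1, 72)])
  (L [(.ofNat 1, 73)])) (L [(.ofNat 1, 74)])))) (R 83 (R 79 (R 77 (R 76 (L [(.ofNat 1, 75)]) (L
  [(.ofNat 1, 76)])) (R 78 (L [(.ofNat 1, 77)]) (L [(.ofNat 1, 78)]))) (R 81 (R 80 (L [(.ofNat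
  1, 79)]) (L [(.ofNat 1, 80)])) (R 82 (L [(.ofNat 1, 81)]) (L [(.ofNat 1, 82)])))) (R 87 (R 85
  (R 84 (L [(.ofNat 1, 83)]) (L [(.ofNat 1, 84)])) (R 86 (L [(.ofNat 1, 85)]) (L [(.ofNat 1,
  86)]))) (R 89 (R 88 (L [(.ofNat 1, 87)]) (L [(.ofNat 1, 88)])) (L [(.ofNat 1, 89)]))))) (R 105
  (R 98 (R 94 (R 92 (R 91 (L [(.ofNat 1, 90)]) (L [(.ofNat 1, 91)])) (R 93 (L [(.ofNat 1, 92)])
  (L [(.ofNat 1, 93)]))) (R 96 (R 95 (L [(.ofNat 1, 94)]) (L [(.ofNat 1, 95)])) (R 97 (L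
  [(.ofNat 1, 96)]) (L [(.ofNat 1, 97)])))) (R 102 (R 100 (R 99 (L [(.ofNat 1, 98)]) (L [(.ofNat
  1, 99)])) (R 101 (L [(.ofNat 1, 100)]) (L [(.ofNat 1, 101)]))) (R 104 (R 103 (L [(.ofNat 1,
  102)]) (L [(.ofNat 1, 103)])) (L [(.ofNat 1, 104)])))) (R 113 (R 109 (R 107 (R 106 (L [(.ofNat
  1, 105)]) (L [(.ofNat 1, 106)])) (R 108 (L [(.ofNat 1, 107)]) (L [(.ofNat 1, 108)]))) (R 111
  (R 110 (L [(.ofNat 1, 109)]) (L [(.ofNat 1, 110)])) (R 112 (L [(.ofNat 1, 111)]) (L [(.ofNat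
  1, 112)])))) (R 117 (R 115 (R 114 (L [(.ofNat 1, 113)]) (L [(.ofNat 1, 114)])) (R 116 (L
  [(.ofNat 1, 115)]) (L [(.ofNat 1, 116)]))) (R 119 (R 118 (L [(.ofNat 1, 117)]) (L [(.ofNat 1,
  118)])) (L [(.ofNat 1, 119)])))))))

/-- table 67 -/
def ft67 : BT Row :=
  (R 60 (R 30 (R 15 (R 8 (R 4 (R 2 N (R 3 N (L [(.negSucc 0, 1)]))) (R 6 N (R 7 (L [(.negSucc 0,
  4)]) N))) (R 12 (R 10 (R 9 (L [(.negSucc 0, 5)]) (L [(.negSucc 1, 6)])) N) (R 14 (R 13 N (L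
  [(.negSucc 0, 11)])) N))) (R 23 (R 19 (R 17 N (R 18 N (L [(.negSucc 0, 16)]))) (R 21 N (R 22
  (L [(.negSucc 0, 19)]) N))) (R 27 (R 25 (R 24 (L [(.negSucc 0, 20)]) (L [(.negSucc 1, 21)]))
  N) (R 29 (R 28 N (L [(.negSucc 0, 26)])) N)))) (R 45 (R 38 (R 34 (R 32 N (R 33 N (L [(.negSucc
  0, 31)]))) (R 36 N (R 37 (L [(.negSucc 0, 34)]) N))) (R 42 (R 40 (R 39 (L [(.negSucc 0, 35)])
  (L [(.negSucc 1, 36)])) N) (R 44 (R 43 N (L [(.negSucc 0, 41)])) N))) (R 53 (R 49 (R 47 N (R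
  48 (L [(.negSucc 0, 31)]) (L [(.negSucc 0, 46)]))) (R 51 (R 50 N (L [(.negSucc 0, 34)])) (R 52
  (L [(.negSucc 0, 49)]) (L [(.negSucc 1, 35)])))) (R 57 (R 55 (R 54 (L [(.negSucc 0, 36),
  (.negSucc 0, 50)]) (L [(.negSucc 1, 51)])) N) (R 59 (R 58 (L [(.negSucc 0, 41)]) (L [(.negSucc
  0, 56)])) N))))) (R 90 (R 75 (R 68 (R 64 (R 62 N (R 63 (L [(.ofNat 1, 76)]) (L [(.negSucc 0,
  61)]))) (R 66 (R 65 N (L [(.ofNat 1, 79)])) (R 67 (L [(.negSucc 0, 64)]) (L [(.ofNat 2,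
  80)])))) (R 72 (R 70 (R 69 (L [(.negSucc 0, 65), (.ofNat 1, 81)]) (L [(.negSucc 1, 66)])) N)
  (R 74 (R 73 (L [(.ofNat 1, 86)]) (L [(.negSucc 0, 71)])) N))) (R 83 (R 79 (R 77 N (R 78 N (L
  [(.negSucc 0, 76)]))) (R 81 N (R 82 (L [(.negSucc 0, 79)]) N))) (R 87 (R 85 (R 84 (L
  [(.negSucc 0, 80)]) (L [(.negSucc 1, 81)])) N) (R 89 (R 88 N (L [(.negSucc 0, 86)])) N)))) (R
  105 (R 98 (R 94 (R 92 N (R 93 N (L [(.negSucc 0, 91)]))) (R 96 N (R 97 (L [(.negSucc 0, 94)])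
  N))) (R 102 (R 100 (R 99 (L [(.negSucc 0, 95)]) (L [(.negSucc 1, 96)])) N) (R 104 (R 103 N (L
  [(.negSucc 0, 101)])) N))) (R 113 (R 109 (R 107 N (R 108 N (L [(.negSucc 0, 106)]))) (R 111 N
  (R 112 (L [(.negSucc 0, 109)]) N))) (R 117 (R 115 (R 114 (L [(.negSucc 0, 110)]) (L [(.negSucc
  1, 111)])) N) (R 119 (R 118 N (L [(.negSucc 0, 116)])) N))))))

/-- table 68 -/
def ft68 : BT Row :=
  (R 60 (R 30 (R 15 (R 8 (R 4 (R 2 N (R 3 (L [(.negSucc 0, 1)]) N)) (R 6 (R 5 N (L [(.negSucc 0,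
  4)])) (R 7 N (L [(.negSucc 1, 5)])))) (R 12 (R 10 (R 9 (L [(.negSucc 0, 4), (.negSucc 0, 6)])
  N) N) (R 14 (R 13 (L [(.negSucc 0, 11)]) N) N))) (R 23 (R 19 (R 17 N (R 18 (L [(.negSucc 0,
  16)]) N)) (R 21 (R 20 N (L [(.negSucc 0, 19)])) (R 22 N (L [(.negSucc 1, 20)])))) (R 27 (R 25
  (R 24 (L [(.negSucc 0, 19), (.negSucc 0, 21)]) N) N) (R 29 (R 28 (L [(.negSucc 0, 26)]) N)
  N)))) (R 45 (R 38 (R 34 (R 32 N (R 33 (L [(.negSucc 0, 31)]) N)) (R 36 (R 35 N (L [(.negSucc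
  0, 34)])) (R 37 N (L [(.negSucc 1, 35)])))) (R 42 (R 40 (R 39 (L [(.negSucc 0, 34), (.negSucc
  0, 36)]) N) N) (R 44 (R 43 (L [(.negSucc 0, 41)]) N) N))) (R 53 (R 49 (R 47 N (R 48 (L
  [(.negSucc 0, 46)]) N)) (R 51 (R 50 N (L [(.negSucc 0, 49)])) (R 52 N (L [(.negSucc 0, 34),
  (.negSucc 1, 50)])))) (R 57 (R 55 (R 54 (L [(.negSucc 0, 49), (.negSucc 0, 51)]) N) N) (R 59
  (R 58 (L [(.negSucc 0, 56)]) N) N))))) (R 90 (R 75 (R 68 (R 64 (R 62 N (R 63 (L [(.negSucc 0,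
  61)]) N)) (R 66 (R 65 N (L [(.negSucc 0, 64)])) (R 67 N (L [(.negSucc 1, 65), (.ofNat 1,
  79)])))) (R 72 (R 70 (R 69 (L [(.negSucc 0, 64), (.negSucc 0, 66)]) N) N) (R 74 (R 73 (L
  [(.negSucc 0, 71)]) N) N))) (R 83 (R 79 (R 77 N (R 78 (L [(.negSucc 0, 76)]) N)) (R 81 (R 80 N
  (L [(.negSucc 0, 79)])) (R 82 N (L [(.negSucc 1, 80)])))) (R 87 (R 85 (R 84 (L [(.negSucc 0,
  79), (.negSucc 0, 81)]) N) N) (R 89 (R 88 (L [(.negSucc 0, 86)]) N) N)))) (R 105 (R 98 (R 94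
  (R 92 N (R 93 (L [(.negSucc 0, 91)]) N)) (R 96 (R 95 N (L [(.negSucc 0, 94)])) (R 97 N (L
  [(.negSucc 1, 95)])))) (R 102 (R 100 (R 99 (L [(.negSucc 0, 94), (.negSucc 0, 96)]) N) N) (R
  104 (R 103 (L [(.negSucc 0, 101)]) N) N))) (R 113 (R 109 (R 107 N (R 108 (L [(.negSucc 0,
  106)]) N)) (R 111 (R 110 N (L [(.negSucc 0, 109)])) (R 112 N (L [(.negSucc 1, 110)])))) (R 117
  (R 115 (R 114 (L [(.negSucc 0, 109), (.negSucc 0, 111)]) N) N) (R 119 (R 118 (L [(.negSucc 0,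
  116)]) N) N))))))

/-- table 69 -/
def ft69 : BT Row :=
  (R 60 (R 30 N (R 45 N (R 53 (R 49 (R 47 (R 46 (L [(.negSucc 0, 30)]) (L [(.negSucc 0, 31)]))
  (R 48 (L [(.negSucc 0, 32)]) (L [(.ofNat 1, 31), (.negSucc 0, 33)]))) (R 51 (R 50 (L
  [(.negSucc 0, 34)]) (L [(.negSucc 0, 35)])) (R 52 (L [(.ofNat 1, 34), (.negSucc 0, 36)]) (L
  [(.negSucc 0, 37)])))) (R 57 (R 55 (R 54 (L [(.ofNat 1, 35), (.negSucc 0, 38)]) (L [(.negSucc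
  0, 34), (.ofNat 2, 36), (.negSucc 0, 39)])) (R 56 (L [(.negSucc 0, 40)]) (L [(.negSucc 0,
  41)]))) (R 59 (R 58 (L [(.negSucc 0, 42)]) (L [(.ofNat 1, 41), (.negSucc 0, 43)])) (L
  [(.negSucc 0, 44)])))))) (R 90 (R 75 (R 68 (R 64 (R 62 (R 61 (L [(.ofNat 1, 75)]) (L [(.ofNat
  1, 76)])) (R 63 (L [(.ofNat 1, 77)]) (L [(.negSucc 0, 76), (.ofNat 1, 78)]))) (R 66 (R 65 (L
  [(.ofNat 1, 79)]) (L [(.ofNat 1, 80)])) (R 67 (L [(.negSucc 0, 79), (.ofNat 1, 81)]) (L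
  [(.ofNat 1, 82)])))) (R 72 (R 70 (R 69 (L [(.negSucc 0, 80), (.ofNat 1, 83)]) (L [(.ofNat 1,
  79), (.negSucc 1, 81), (.ofNat 1, 84)])) (R 71 (L [(.ofNat 1, 85)]) (L [(.ofNat 1, 86)]))) (R
  74 (R 73 (L [(.ofNat 1, 87)]) (L [(.negSucc 0, 86), (.ofNat 1, 88)])) (L [(.ofNat 1, 89)]))))
  N) N))

/-- table 70 -/
def ft70 : BT Row :=
  (R 60 (R 30 (R 15 (R 8 N (R 12 (R 10 (R 9 N (L [(.ofNat 1, 4)])) N) N)) (R 23 N (R 27 (R 25 (R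
  24 N (L [(.ofNat 1, 19)])) N) N))) (R 45 (R 38 N (R 42 (R 40 (R 39 N (L [(.ofNat 1, 34)])) N)
  N)) (R 53 N (R 57 (R 55 (R 54 (L [(.ofNat 1, 34)]) (L [(.ofNat 1, 49)])) N) N)))) (R 90 (R 75
  (R 68 N (R 72 (R 70 (R 69 (L [(.negSucc 0, 79)]) (L [(.ofNat 1, 64)])) N) N)) (R 83 N (R 87 (R
  85 (R 84 N (L [(.ofNat 1, 79)])) N) N))) (R 105 (R 98 N (R 102 (R 100 (R 99 N (L [(.ofNat 1,
  94)])) N) N)) (R 113 N (R 117 (R 115 (R 114 N (L [(.ofNat 1, 109)])) N) N)))))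

/-- table 71 -/
def ft71 : BT Row :=
  (R 60 (R 30 (R 15 (R 8 N (R 12 (R 10 (R 9 (L [(.ofNat 1, 4)]) N) N) N)) (R 23 N (R 27 (R 25 (R
  24 (L [(.ofNat 1, 19)]) N) N) N))) (R 45 (R 38 N (R 42 (R 40 (R 39 (L [(.ofNat 1, 34)]) N) N)
  N)) (R 53 (R 49 N (R 51 N (R 52 N (L [(.ofNat 2, 34)])))) (R 57 (R 55 (R 54 (L [(.ofNat 1,
  49)]) N) N) N)))) (R 90 (R 75 (R 68 (R 64 N (R 66 N (R 67 N (L [(.negSucc 1, 79)])))) (R 72 (R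
  70 (R 69 (L [(.ofNat 1, 64)]) N) N) N)) (R 83 N (R 87 (R 85 (R 84 (L [(.ofNat 1, 79)]) N) N)
  N))) (R 105 (R 98 N (R 102 (R 100 (R 99 (L [(.ofNat 1, 94)]) N) N) N)) (R 113 N (R 117 (R 115
  (R 114 (L [(.ofNat 1, 109)]) N) N) N)))))

/-- table 72 -/
def ft72 : BT Row :=
  (R 60 (R 30 N (R 45 N (R 53 (R 49 (R 47 N (R 48 N (L [(.ofNat 1, 31)]))) (R 51 N (R 52 (L
  [(.ofNat 1, 34)]) N))) (R 57 (R 55 (R 54 (L [(.ofNat 1, 35)]) (L [(.negSucc 1, 34), (.ofNat 2,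
  36)])) N) (R 59 (R 58 N (L [(.ofNat 1, 41)])) N))))) (R 90 (R 75 (R 68 (R 64 (R 62 N (R 63 N
  (L [(.negSucc 0, 76)]))) (R 66 N (R 67 (L [(.negSucc 0, 79)]) N))) (R 72 (R 70 (R 69 (L
  [(.negSucc 0, 80)]) (L [(.ofNat 2, 79), (.negSucc 1, 81)])) N) (R 74 (R 73 N (L [(.negSucc 0,
  86)])) N))) N) N))

/-- table 73 -/
def ft73 : BT Row :=
  (R 60 (R 30 (R 15 (R 8 (R 4 N (R 6 N (R 7 N (L [(.ofNat 1, 4)])))) N) (R 23 (R 19 N (R 21 N (R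
  22 N (L [(.ofNat 1, 19)])))) N)) (R 45 (R 38 (R 34 N (R 36 N (R 37 N (L [(.ofNat 1, 34)]))))
  N) (R 53 (R 49 N (R 51 N (R 52 N (L [(.ofNat 1, 49)])))) N))) (R 90 (R 75 (R 68 (R 64 N (R 66
  N (R 67 N (L [(.ofNat 1, 64)])))) N) (R 83 (R 79 N (R 81 N (R 82 N (L [(.ofNat 1, 79)])))) N))
  (R 105 (R 98 (R 94 N (R 96 N (R 97 N (L [(.ofNat 1, 94)])))) N) (R 113 (R 109 N (R 111 N (R
  112 N (L [(.ofNat 1, 109)])))) N))))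

/-- table 74 -/
def ft74 : BT Row :=
  (R 60 (R 30 N (R 45 N (R 53 (R 49 (R 47 N (R 48 (L [(.ofNat 1, 31)]) N)) (R 51 (R 50 N (L
  [(.ofNat 1, 34)])) (R 52 N (L [(.ofNat 2, 35)])))) (R 57 (R 55 (R 54 (L [(.ofNat 1, 36)]) N)
  N) (R 59 (R 58 (L [(.ofNat 1, 41)]) N) N))))) (R 90 (R 75 (R 68 (R 64 (R 62 N (R 63 (L
  [(.negSucc 0, 76)]) N)) (R 66 (R 65 N (L [(.negSucc 0, 79)])) (R 67 N (L [(.negSucc 1,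
  80)])))) (R 72 (R 70 (R 69 (L [(.negSucc 0, 81)]) N) N) (R 74 (R 73 (L [(.negSucc 0, 86)]) N)
  N))) N) N))

/-- table 75 -/
def ft75 : BT Row :=
  (R 60 (R 30 N (R 45 N (R 53 N (R 57 (R 55 (R 54 N (L [(.negSucc 0, 34)])) N) N)))) (R 90 (R 75
  (R 68 N (R 72 (R 70 (R 69 N (L [(.ofNat 1, 79)])) N) N)) N) N))

/-- table 76 -/
def ft76 : BT Row :=
  (R 60 (R 30 N (R 45 N (R 53 N (R 57 (R 55 (R 54 (L [(.negSucc 0, 34)]) N) N) N)))) (R 90 (R 75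
  (R 68 N (R 72 (R 70 (R 69 (L [(.ofNat 1, 79)]) N) N) N)) N) N))

/-- table 77 -/
def ft77 : BT Row :=
  (R 60 (R 30 N (R 45 N (R 53 (R 49 N (R 51 N (R 52 N (L [(.negSucc 0, 34)])))) N))) (R 90 (R 75
  (R 68 (R 64 N (R 66 N (R 67 N (L [(.ofNat 1, 79)])))) N) N) N))

/-- table 78 -/
def ft78 : BT Row :=
  (R 60 (R 30 (R 15 (R 8 (R 4 (R 2 (R 1 (L [(.ofNat 1, 0)]) (L [(.ofNat 1, 1)])) (R 3 (L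
  [(.ofNat 1, 2)]) (L [(.ofNat 1, 3)]))) (R 6 (R 5 (L [(.ofNat 1, 4)]) (L [(.ofNat 1, 5)])) (R 7
  (L [(.ofNat 1, 6)]) (L [(.ofNat 1, 7)])))) (R 12 (R 10 (R 9 (L [(.ofNat 1, 8)]) (L [(.ofNat 1,
  9)])) (R 11 (L [(.ofNat 1, 10)]) (L [(.ofNat 1, 11)]))) (R 14 (R 13 (L [(.ofNat 1, 12)]) (L
  [(.ofNat 1, 13)])) (L [(.ofNat 1, 14)])))) (R 23 (R 19 (R 17 (R 16 (L [(.ofNat 1, 15)]) (L
  [(.ofNat 1, 16)])) (R 18 (L [(.ofNat 1, 17)]) (L [(.ofNat 1, 18)]))) (R 21 (R 20 (L [(.ofNat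
  1, 19)]) (L [(.ofNat 1, 20)])) (R 22 (L [(.ofNat 1, 21)]) (L [(.ofNat 1, 22)])))) (R 27 (R 25
  (R 24 (L [(.ofNat 1, 23)]) (L [(.ofNat 1, 24)])) (R 26 (L [(.ofNat 1, 25)]) (L [(.ofNat 1,
  26)]))) (R 29 (R 28 (L [(.ofNat 1, 27)]) (L [(.ofNat 1, 28)])) (L [(.ofNat 1, 29)]))))) (R 45
  (R 38 (R 34 (R 32 (R 31 (L [(.ofNat 1, 30)]) (L [(.ofNat 1, 31)])) (R 33 (L [(.ofNat 1, 32)])
  (L [(.ofNat 1, 33)]))) (R 36 (R 35 (L [(.ofNat 1, 34)]) (L [(.ofNat 1, 35)])) (R 37 (L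
  [(.ofNat 1, 36)]) (L [(.ofNat 1, 37)])))) (R 42 (R 40 (R 39 (L [(.ofNat 1, 38)]) (L [(.ofNat
  1, 39)])) (R 41 (L [(.ofNat 1, 40)]) (L [(.ofNat 1, 41)]))) (R 44 (R 43 (L [(.ofNat 1, 42)])
  (L [(.ofNat 1, 43)])) (L [(.ofNat 1, 44)])))) (R 53 (R 49 (R 47 (R 46 (L [(.ofNat 1, 45)]) (L
  [(.ofNat 1, 46)])) (R 48 (L [(.ofNat 1, 47)]) (L [(.ofNat 1, 48)]))) (R 51 (R 50 (L [(.ofNat
  1, 49)]) (L [(.ofNat 1, 50)])) (R 52 (L [(.ofNat 1, 51)]) (L [(.ofNat 1, 52)])))) (R 57 (R 55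
  (R 54 (L [(.ofNat 1, 53)]) (L [(.ofNat 1, 54)])) (R 56 (L [(.ofNat 1, 55)]) (L [(.ofNat 1,
  56)]))) (R 59 (R 58 (L [(.ofNat 1, 57)]) (L [(.ofNat 1, 58)])) (L [(.ofNat 1, 59)])))))) (R 90
  (R 75 (R 68 (R 64 (R 62 (R 61 (L [(.ofNat 1, 60)]) (L [(.ofNat 1, 61)])) (R 63 (L [(.ofNat 1,
  62)]) (L [(.ofNat 1, 63)]))) (R 66 (R 65 (L [(.ofNat 1, 64)]) (L [(.ofNat 1, 65)])) (R 67 (L
  [(.ofNat 1, 66)]) (L [(.ofNat 1, 67)])))) (R 72 (R 70 (R 69 (L [(.ofNat 1, 68)]) (L [(.ofNat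
  1, 69)])) (R 71 (L [(.ofNat 1, 70)]) (L [(.ofNat 1, 71)]))) (R 74 (R 73 (L [(.ofNat 1, 72)])
  (L [(.ofNat 1, 73)])) (L [(.ofNat 1, 74)])))) (R 83 (R 79 (R 77 (R 76 (L [(.ofNat 1, 75)]) (L
  [(.ofNat 1, 76)])) (R 78 (L [(.ofNat 1, 77)]) (L [(.ofNat 1, 78)]))) (R 81 (R 80 (L [(.ofNat
  1, 79)]) (L [(.ofNat 1, 80)])) (R 82 (L [(.ofNat 1, 81)]) (L [(.ofNat 1, 82)])))) (R 87 (R 85
  (R 84 (L [(.ofNat 1, 83)]) (L [(.ofNat 1, 84)])) (R 86 (L [(.ofNat 1, 85)]) (L [(.ofNat 1,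
  86)]))) (R 89 (R 88 (L [(.ofNat 1, 87)]) (L [(.ofNat 1, 88)])) (L [(.ofNat 1, 89)]))))) (R 105
  (R 98 (R 94 (R 92 (R 91 (L [(.ofNat 1, 90)]) (L [(.ofNat 1, 91)])) (R 93 (L [(.ofNat 1, 92)])
  (L [(.ofNat 1, 93)]))) (R 96 (R 95 (L [(.ofNat 1, 94)]) (L [(.ofNat 1, 95)])) (R 97 (L
  [(.ofNat 1, 96)]) (L [(.ofNat 1, 97)])))) (R 102 (R 100 (R 99 (L [(.ofNat 1, 98)]) (L [(.ofNat
  1, 99)])) (R 101 (L [(.ofNat 1, 100)]) (L [(.ofNat 1, 101)]))) (R 104 (R 103 (L [(.ofNat 1,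
  102)]) (L [(.ofNat 1, 103)])) (L [(.ofNat 1, 104)])))) (R 113 (R 109 (R 107 (R 106 (L [(.ofNat
  1, 105)]) (L [(.ofNat 1, 106)])) (R 108 (L [(.ofNat 1, 107)]) (L [(.ofNat 1, 108)]))) (R 111
  (R 110 (L [(.ofNat 1, 109)]) (L [(.ofNat 1, 110)])) (R 112 (L [(.ofNat 1, 111)]) (L [(.ofNat
  1, 112)])))) (R 117 (R 115 (R 114 (L [(.ofNat 1, 113)]) (L [(.ofNat 1, 114)])) (R 116 (L
  [(.ofNat 1, 115)]) (L [(.ofNat 1, 116)]))) (R 119 (R 118 (L [(.ofNat 1, 117)]) (L [(.ofNat 1,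
  118)])) (L [(.ofNat 1, 119)])))))))

/-- table 79 -/
def ft79 : BT Row :=
  (R 60 (R 30 (R 15 (R 8 (R 4 (R 2 N (R 3 N (L [(.ofNat 1, 1)]))) (R 6 N (R 7 (L [(.ofNat 1,
  4)]) N))) (R 12 (R 10 (R 9 (L [(.ofNat 1, 5)]) (L [(.ofNat 2, 6)])) N) (R 14 (R 13 N (L
  [(.ofNat 1, 11)])) N))) (R 23 (R 19 (R 17 N (R 18 N (L [(.ofNat 1, 16)]))) (R 21 N (R 22 (L
  [(.ofNat 1, 19)]) N))) (R 27 (R 25 (R 24 (L [(.ofNat 1, 20)]) (L [(.ofNat 2, 21)])) N) (R 29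
  (R 28 N (L [(.ofNat 1, 26)])) N)))) (R 45 (R 38 (R 34 (R 32 N (R 33 N (L [(.ofNat 1, 31)])))
  (R 36 N (R 37 (L [(.ofNat 1, 34)]) N))) (R 42 (R 40 (R 39 (L [(.ofNat 1, 35)]) (L [(.ofNat 2,
  36)])) N) (R 44 (R 43 N (L [(.ofNat 1, 41)])) N))) (R 53 (R 49 (R 47 N (R 48 N (L [(.ofNat 1,
  46)]))) (R 51 N (R 52 (L [(.ofNat 1, 49)]) N))) (R 57 (R 55 (R 54 (L [(.ofNat 1, 50)]) (L
  [(.ofNat 2, 51)])) N) (R 59 (R 58 N (L [(.ofNat 1, 56)])) N))))) (R 90 (R 75 (R 68 (R 64 (R 62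
  N (R 63 N (L [(.ofNat 1, 61)]))) (R 66 N (R 67 (L [(.ofNat 1, 64)]) N))) (R 72 (R 70 (R 69 (L
  [(.ofNat 1, 65)]) (L [(.ofNat 2, 66)])) N) (R 74 (R 73 N (L [(.ofNat 1, 71)])) N))) (R 83 (R
  79 (R 77 N (R 78 N (L [(.ofNat 1, 76)]))) (R 81 N (R 82 (L [(.ofNat 1, 79)]) N))) (R 87 (R 85
  (R 84 (L [(.ofNat 1, 80)]) (L [(.ofNat 2, 81)])) N) (R 89 (R 88 N (L [(.ofNat 1, 86)])) N))))
  (R 105 (R 98 (R 94 (R 92 N (R 93 N (L [(.ofNat 1, 91)]))) (R 96 N (R 97 (L [(.ofNat 1, 94)])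
  N))) (R 102 (R 100 (R 99 (L [(.ofNat 1, 95)]) (L [(.ofNat 2, 96)])) N) (R 104 (R 103 N (L
  [(.ofNat 1, 101)])) N))) (R 113 (R 109 (R 107 N (R 108 N (L [(.ofNat 1, 106)]))) (R 111 N (R
  112 (L [(.ofNat 1, 109)]) N))) (R 117 (R 115 (R 114 (L [(.ofNat 1, 110)]) (L [(.ofNat 2,
  111)])) N) (R 119 (R 118 N (L [(.ofNat 1, 116)])) N))))))

/-- table 80 -/
def ft80 : BT Row :=
  (R 60 (R 30 (R 15 (R 8 (R 4 (R 2 N (R 3 (L [(.ofNat 1, 1)]) N)) (R 6 (R 5 N (L [(.ofNat 1,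
  4)])) (R 7 N (L [(.ofNat 2, 5)])))) (R 12 (R 10 (R 9 (L [(.ofNat 1, 6)]) N) N) (R 14 (R 13 (L
  [(.ofNat 1, 11)]) N) N))) (R 23 (R 19 (R 17 N (R 18 (L [(.ofNat 1, 16)]) N)) (R 21 (R 20 N (L
  [(.ofNat 1, 19)])) (R 22 N (L [(.ofNat 2, 20)])))) (R 27 (R 25 (R 24 (L [(.ofNat 1, 21)]) N)
  N) (R 29 (R 28 (L [(.ofNat 1, 26)]) N) N)))) (R 45 (R 38 (R 34 (R 32 N (R 33 (L [(.ofNat 1,
  31)]) N)) (R 36 (R 35 N (L [(.ofNat 1, 34)])) (R 37 N (L [(.ofNat 2, 35)])))) (R 42 (R 40 (R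
  39 (L [(.ofNat 1, 36)]) N) N) (R 44 (R 43 (L [(.ofNat 1, 41)]) N) N))) (R 53 (R 49 (R 47 N (R
  48 (L [(.ofNat 1, 46)]) N)) (R 51 (R 50 N (L [(.ofNat 1, 49)])) (R 52 N (L [(.ofNat 2,
  50)])))) (R 57 (R 55 (R 54 (L [(.ofNat 1, 51)]) N) N) (R 59 (R 58 (L [(.ofNat 1, 56)]) N)
  N))))) (R 90 (R 75 (R 68 (R 64 (R 62 N (R 63 (L [(.ofNat 1, 61)]) N)) (R 66 (R 65 N (L
  [(.ofNat 1, 64)])) (R 67 N (L [(.ofNat 2, 65)])))) (R 72 (R 70 (R 69 (L [(.ofNat 1, 66)]) N)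
  N) (R 74 (R 73 (L [(.ofNat 1, 71)]) N) N))) (R 83 (R 79 (R 77 N (R 78 (L [(.ofNat 1, 76)]) N))
  (R 81 (R 80 N (L [(.ofNat 1, 79)])) (R 82 N (L [(.ofNat 2, 80)])))) (R 87 (R 85 (R 84 (L
  [(.ofNat 1, 81)]) N) N) (R 89 (R 88 (L [(.ofNat 1, 86)]) N) N)))) (R 105 (R 98 (R 94 (R 92 N
  (R 93 (L [(.ofNat 1, 91)]) N)) (R 96 (R 95 N (L [(.ofNat 1, 94)])) (R 97 N (L [(.ofNat 2,
  95)])))) (R 102 (R 100 (R 99 (L [(.ofNat 1, 96)]) N) N) (R 104 (R 103 (L [(.ofNat 1, 101)]) N)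
  N))) (R 113 (R 109 (R 107 N (R 108 (L [(.ofNat 1, 106)]) N)) (R 111 (R 110 N (L [(.ofNat 1,
  109)])) (R 112 N (L [(.ofNat 2, 110)])))) (R 117 (R 115 (R 114 (L [(.ofNat 1, 111)]) N) N) (R
  119 (R 118 (L [(.ofNat 1, 116)]) N) N))))))

/-- table 81 -/
def ft81 : BT Row :=
  (R 60 (R 30 N (R 45 N (R 53 (R 49 (R 47 (R 46 (L [(.ofNat 1, 30)]) (L [(.ofNat 1, 31)])) (R 48
  (L [(.ofNat 1, 32)]) (L [(.ofNat 1, 33)]))) (R 51 (R 50 (L [(.ofNat 1, 34)]) (L [(.ofNat 1,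
  35)])) (R 52 (L [(.ofNat 1, 36)]) (L [(.ofNat 1, 37)])))) (R 57 (R 55 (R 54 (L [(.ofNat 1,
  38)]) (L [(.ofNat 1, 39)])) (R 56 (L [(.ofNat 1, 40)]) (L [(.ofNat 1, 41)]))) (R 59 (R 58 (L
  [(.ofNat 1, 42)]) (L [(.ofNat 1, 43)])) (L [(.ofNat 1, 44)])))))) (R 90 (R 75 (R 68 (R 64 (R
  62 (R 61 (L [(.negSucc 0, 75)]) (L [(.negSucc 0, 76)])) (R 63 (L [(.negSucc 0, 77)]) (L
  [(.negSucc 0, 78)]))) (R 66 (R 65 (L [(.negSucc 0, 79)]) (L [(.negSucc 0, 80)])) (R 67 (L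
  [(.negSucc 0, 81)]) (L [(.negSucc 0, 82)])))) (R 72 (R 70 (R 69 (L [(.negSucc 0, 83)]) (L
  [(.negSucc 0, 84)])) (R 71 (L [(.negSucc 0, 85)]) (L [(.negSucc 0, 86)]))) (R 74 (R 73 (L
  [(.negSucc 0, 87)]) (L [(.negSucc 0, 88)])) (L [(.negSucc 0, 89)])))) N) N))

/-- table 82 -/
def ft82 : BT Row :=
  (R 60 (R 30 (R 15 (R 8 N (R 12 (R 10 (R 9 N (L [(.ofNat 1, 4)])) N) N)) (R 23 N (R 27 (R 25 (R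
  24 N (L [(.ofNat 1, 19)])) N) N))) (R 45 (R 38 N (R 42 (R 40 (R 39 N (L [(.ofNat 1, 34)])) N)
  N)) (R 53 N (R 57 (R 55 (R 54 N (L [(.ofNat 1, 49)])) N) N)))) (R 90 (R 75 (R 68 N (R 72 (R 70
  (R 69 N (L [(.ofNat 1, 64)])) N) N)) (R 83 N (R 87 (R 85 (R 84 N (L [(.ofNat 1, 79)])) N) N)))
  (R 105 (R 98 N (R 102 (R 100 (R 99 N (L [(.ofNat 1, 94)])) N) N)) (R 113 N (R 117 (R 115 (R
  114 N (L [(.ofNat 1, 109)])) N) N)))))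

/-- table 83 -/
def ft83 : BT Row :=
  (R 60 (R 30 (R 15 (R 8 N (R 12 (R 10 (R 9 (L [(.ofNat 1, 4)]) N) N) N)) (R 23 N (R 27 (R 25 (R
  24 (L [(.ofNat 1, 19)]) N) N) N))) (R 45 (R 38 N (R 42 (R 40 (R 39 (L [(.ofNat 1, 34)]) N) N)
  N)) (R 53 N (R 57 (R 55 (R 54 (L [(.ofNat 1, 49)]) N) N) N)))) (R 90 (R 75 (R 68 N (R 72 (R 70
  (R 69 (L [(.ofNat 1, 64)]) N) N) N)) (R 83 N (R 87 (R 85 (R 84 (L [(.ofNat 1, 79)]) N) N) N)))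
  (R 105 (R 98 N (R 102 (R 100 (R 99 (L [(.ofNat 1, 94)]) N) N) N)) (R 113 N (R 117 (R 115 (R
  114 (L [(.ofNat 1, 109)]) N) N) N)))))

/-- table 84 -/
def ft84 : BT Row :=
  (R 60 (R 30 N (R 45 N (R 53 (R 49 (R 47 N (R 48 N (L [(.ofNat 1, 31)]))) (R 51 N (R 52 (L
  [(.ofNat 1, 34)]) N))) (R 57 (R 55 (R 54 (L [(.ofNat 1, 35)]) (L [(.ofNat 2, 36)])) N) (R 59
  (R 58 N (L [(.ofNat 1, 41)])) N))))) (R 90 (R 75 (R 68 (R 64 (R 62 N (R 63 N (L [(.negSucc 0,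
  76)]))) (R 66 N (R 67 (L [(.negSucc 0, 79)]) N))) (R 72 (R 70 (R 69 (L [(.negSucc 0, 80)]) (L
  [(.negSucc 1, 81)])) N) (R 74 (R 73 N (L [(.negSucc 0, 86)])) N))) N) N))

/-- table 85 -/
def ft85 : BT Row :=
  (R 60 (R 30 (R 15 (R 8 (R 4 N (R 6 N (R 7 N (L [(.ofNat 1, 4)])))) N) (R 23 (R 19 N (R 21 N (R
  22 N (L [(.ofNat 1, 19)])))) N)) (R 45 (R 38 (R 34 N (R 36 N (R 37 N (L [(.ofNat 1, 34)]))))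
  N) (R 53 (R 49 N (R 51 N (R 52 N (L [(.ofNat 1, 49)])))) N))) (R 90 (R 75 (R 68 (R 64 N (R 66
  N (R 67 N (L [(.ofNat 1, 64)])))) N) (R 83 (R 79 N (R 81 N (R 82 N (L [(.ofNat 1, 79)])))) N))
  (R 105 (R 98 (R 94 N (R 96 N (R 97 N (L [(.ofNat 1, 94)])))) N) (R 113 (R 109 N (R 111 N (R
  112 N (L [(.ofNat 1, 109)])))) N))))

/-- table 86 -/
def ft86 : BT Row :=
  (R 60 (R 30 N (R 45 N (R 53 (R 49 (R 47 N (R 48 (L [(.ofNat 1, 31)]) N)) (R 51 (R 50 N (L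
  [(.ofNat 1, 34)])) (R 52 N (L [(.ofNat 2, 35)])))) (R 57 (R 55 (R 54 (L [(.ofNat 1, 36)]) N)
  N) (R 59 (R 58 (L [(.ofNat 1, 41)]) N) N))))) (R 90 (R 75 (R 68 (R 64 (R 62 N (R 63 (L
  [(.negSucc 0, 76)]) N)) (R 66 (R 65 N (L [(.negSucc 0, 79)])) (R 67 N (L [(.negSucc 1,
  80)])))) (R 72 (R 70 (R 69 (L [(.negSucc 0, 81)]) N) N) (R 74 (R 73 (L [(.negSucc 0, 86)]) N)
  N))) N) N))

/-- table 87 -/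
def ft87 : BT Row :=
  (R 60 (R 30 N (R 45 N (R 53 N (R 57 (R 55 (R 54 N (L [(.ofNat 1, 34)])) N) N)))) (R 90 (R 75
  (R 68 N (R 72 (R 70 (R 69 N (L [(.negSucc 0, 79)])) N) N)) N) N))

/-- table 88 -/
def ft88 : BT Row :=
  (R 60 (R 30 N (R 45 N (R 53 N (R 57 (R 55 (R 54 (L [(.ofNat 1, 34)]) N) N) N)))) (R 90 (R 75
  (R 68 N (R 72 (R 70 (R 69 (L [(.negSucc 0, 79)]) N) N) N)) N) N))

/-- table 89 -/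
def ft89 : BT Row :=
  (R 60 (R 30 N (R 45 N (R 53 (R 49 N (R 51 N (R 52 N (L [(.ofNat 1, 34)])))) N))) (R 90 (R 75
  (R 68 (R 64 N (R 66 N (R 67 N (L [(.negSucc 0, 79)])))) N) N) N))

/-- all tables -/
def big : BT (BT Row) :=
  (R 45 (R 23 (R 12 (R 6 (R 3 (R 2 (R 1 (L ft0) (L ft1)) (L ft2)) (R 5 (R 4 (L ft3) (L ft4)) (L
  ft5))) (R 9 (R 8 (R 7 (L ft6) (L ft7)) (L ft8)) (R 11 (R 10 (L ft9) (L ft10)) (L ft11)))) (R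
  18 (R 15 (R 14 (R 13 (L ft12) (L ft13)) (L ft14)) (R 17 (R 16 (L ft15) (L ft16)) (L ft17))) (R
  21 (R 20 (R 19 (L ft18) (L ft19)) (L ft20)) (R 22 (L ft21) (L ft22))))) (R 34 (R 29 (R 26 (R
  25 (R 24 (L ft23) (L ft24)) (L ft25)) (R 28 (R 27 (L ft26) (L ft27)) (L ft28))) (R 32 (R 31 (R
  30 (L ft29) (L ft30)) (L ft31)) (R 33 (L ft32) (L ft33)))) (R 40 (R 37 (R 36 (R 35 (L ft34) (L
  ft35)) (L ft36)) (R 39 (R 38 (L ft37) (L ft38)) (L ft39))) (R 43 (R 42 (R 41 (L ft40) (L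
  ft41)) (L ft42)) (R 44 (L ft43) (L ft44)))))) (R 68 (R 57 (R 51 (R 48 (R 47 (R 46 (L ft45) (L
  ft46)) (L ft47)) (R 50 (R 49 (L ft48) (L ft49)) (L ft50))) (R 54 (R 53 (R 52 (L ft51) (L
  ft52)) (L ft53)) (R 56 (R 55 (L ft54) (L ft55)) (L ft56)))) (R 63 (R 60 (R 59 (R 58 (L ft57)
  (L ft58)) (L ft59)) (R 62 (R 61 (L ft60) (L ft61)) (L ft62))) (R 66 (R 65 (R 64 (L ft63) (L
  ft64)) (L ft65)) (R 67 (L ft66) (L ft67))))) (R 79 (R 74 (R 71 (R 70 (R 69 (L ft68) (L ft69))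
  (L ft70)) (R 73 (R 72 (L ft71) (L ft72)) (L ft73))) (R 77 (R 76 (R 75 (L ft74) (L ft75)) (L
  ft76)) (R 78 (L ft77) (L ft78)))) (R 85 (R 82 (R 81 (R 80 (L ft79) (L ft80)) (L ft81)) (R 84
  (R 83 (L ft82) (L ft83)) (L ft84))) (R 88 (R 87 (R 86 (L ft85) (L ft86)) (L ft87)) (R 89 (L
  ft88) (L ft89)))))))

end BT

end Pool.Agent.H379.NK
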