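import Pool.Agent.H379.NK.FTab

/-!
# Fast evaluation of operator expressions

The table lookups of the zero test are replaced by lookups in search trees.
-/

set_option autoImplicit false

namespace Pool.Agent.H379.NK

open W450.Rig

/-- Lookup in a search tree. -/
noncomputable def BT.get {A : Type} (d : A) (t : BT A) : ℕ → A :=
  BT.rec (motive := fun _ => ℕ → A) (fun _ => d) (fun a _ => a)
    (fun k _ _ gl gr i => cond (Nat.ble k i) (gr i) (gl i)) t

/-- Fast lookup of a row. -/
noncomputable def fastRow (n i : ℕ) : Row :=
  cond (Nat.ble 90 n) [] (cond (Nat.ble 120 i) [] ((BT.big.get BT.N n).get [] i))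

/-- Boolean equality of integers. -/
def ieq : ℤ → ℤ → Bool
  | .ofNat a, .ofNat b => Nat.beq a b
  | .negSucc a, .negSucc b => Nat.beq a b
  | _, _ => false

theorem ieq_sound (a b : ℤ) (h : ieq a b = true) : a = b := by
  cases a <;> cases b <;> simp [ieq] at h <;> simp [h]

/-- Boolean equality of rows. -/
def req : Row → Row → Bool
  | [], [] => true
  | p :: l, q :: m => ieq p.1 q.1 && (Nat.beq p.2 q.2 && req l m)
  | _, _ => false

theorem req_sound (l m : Row) (h : req l m = true) : l = m := by
  induction l generalizing m with
  | nil => cases m <;> simp_all [req]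
  | cons p l ih =>
    cases m with
    | nil => simp [req] at h
    | cons q m =>
      simp only [req, Bool.and_eq_true] at h
      obtain ⟨h1, h2, h3⟩ := h
      rw [ih m h3, show p = q from Prod.ext (ieq_sound _ _ h1) (Nat.eq_of_beq_eq_true h2)]

/-- Agreement of a tree with a list of rows. -/
noncomputable def chkF (t : BT Row) : ℕ → ℕ → List Row → Bool
  | 0, _, _ => true
  | m + 1, i, [] => req (t.get [] i) [] && chkF t m (i + 1) []
  | m + 1, i, r :: l => req (t.get [] i) r && chkF t m (i + 1) l

theorem chkF_sound (t : BT Row) (m i : ℕ) (l : List Row) (h : chkF t m i l = true) :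
    ∀ j < m, t.get [] (i + j) = l.getD j [] := by
  induction m generalizing i l with
  | zero => intro j hj; omega
  | succ m ih =>
    intro j hj
    cases l with
    | nil =>
      simp only [chkF, Bool.and_eq_true] at h
      rcases j with _ | j
      · simpa using req_sound _ _ h.1
      · have := ih (i + 1) [] h.2 j (by omega)
        rw [show i + (j + 1) = i + 1 + j by omega, this]
        simp
    | cons r l =>
      simp only [chkF, Bool.and_eq_true] at h
      rcases j with _ | j
      · simpa using req_sound _ _ h.1
      · have := ih (i + 1) l h.2 j (by omega)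
        rw [show i + (j + 1) = i + 1 + j by omega, this]
        simp

/-- Agreement of the tree of trees with a list of tables. -/
noncomputable def chkA : ℕ → List Tab → Bool
  | n, [] => Nat.beq n 90
  | n, T :: l => chkF (BT.big.get BT.N n) 120 0 T && chkA (n + 1) l

theorem chkA_sound (n : ℕ) (l : List Tab) (h : chkA n l = true) :
    n + l.length = 90 ∧ ∀ k < l.length, ∀ i < 120,
      (BT.big.get BT.N (n + k)).get [] i = (l.getD k []).getD i [] := by
  induction l generalizing n with
  | nil =>
    refine ⟨?_, fun k hk => by simp at hk⟩
    simpa using Nat.eq_of_beq_eq_true h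
  | cons T l ih =>
    simp only [chkA, Bool.and_eq_true] at h
    obtain ⟨h1, h2⟩ := ih (n + 1) h.2
    refine ⟨by simp only [List.length_cons]; omega, fun k hk i hi => ?_⟩
    rcases k with _ | k
    · have := chkF_sound _ _ _ _ h.1 i hi
      simpa using this
    · have := h2 k (by simpa using hk) i hi
      rw [show n + (k + 1) = n + 1 + k by omega, this]
      simp

theorem chkA_true : chkA 0 allTabs2 = true := by decide +kernel

theorem fastRow_eq (n i : ℕ) : fastRow n i = tabRow2 n i := by
  obtain ⟨h1, h2⟩ := chkA_sound 0 allTabs2 chkA_true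
  rw [Nat.zero_add] at h1
  unfold fastRow
  cases h : Nat.ble 90 n with
  | true =>
    have hn : 90 ≤ n := Nat.le_of_ble_eq_true h
    unfold tabRow2
    rw [List.getD_eq_default allTabs2 _ (by omega)]
    rfl
  | false =>
    have hn : n < 90 := by
      by_contra hc
      have := Nat.ble_eq_true_of_le (not_lt.1 hc)
      rw [h] at this
      exact Bool.noConfusion this
    cases h' : Nat.ble 120 i with
    | true =>
      rw [tabRow2_len n i (Nat.le_of_ble_eq_true h')]
      rfl
    | false =>
      have hi : i < 120 := by
        by_contra hc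
        have := Nat.ble_eq_true_of_le (not_lt.1 hc)
        rw [h'] at this
        exact Bool.noConfusion this
      have := h2 n (by omega) i hi
      rw [Nat.zero_add] at this
      exact this

/-- Fast symbolic evaluation. -/
noncomputable def row3 : Ex → FS → FS
  | .one, l => l
  | .tab n, l => l.flatMap fun p => (fastRow n p.2.2).map fun q => (p.1 * q.1, p.2.1, q.2)
  | .ltr k, l => l.map fun p => (p.1, k :: p.2.1, p.2.2)
  | .mul a b, l => row3 a (row3 b l)
  | .add a b, l => row3 a l ++ row3 b l
  | .smul c a, l => (row3 a l).map fun p => (c * p.1, p.2)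

theorem row3_eq (x : Ex) (l : FS) : row3 x l = row2 x l := by
  induction x generalizing l with
  | one => rfl
  | tab n => simp only [row3, row2, fastRow_eq]
  | ltr k => rfl
  | mul a b iha ihb => simp only [row3, row2, iha, ihb]
  | add a b iha ihb => simp only [row3, row2, iha, ihb]
  | smul c a iha => simp only [row3, row2, iha]

/-- The fast zero test for an operator expression. -/
noncomputable def chk3 (x : Ex) : Bool :=
  (List.range 120).all fun j => zchk (nfF (row3 x [(1, [], j)]))

theorem chk3_eq (x : Ex) : chk3 x = chk2 x := by
  unfold chk3 chk2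
  simp only [row3_eq]

theorem fch {x : Ex} (h : chk3 x = true) : chk2 x = true := (chk3_eq x) ▸ h

theorem fchA {m : ℕ} {g : ℕ → Ex} (h : ((List.range m).all fun n => chk3 (g n)) = true) :
    ((List.range m).all fun n => chk2 (g n)) = true := by
  simpa only [chk3_eq] using h

theorem row_lib (x : Ex) (h : lib x = true) (l : FS) : x.row l = row3 x l := by
  rw [row3_eq]
  induction x generalizing l with
  | one => rfl
  | tab n =>
    have hn : n < 48 := by simpa [lib] using h
    simp only [Ex.row, row2, tabRow2_lt n _ hn]
  | ltr k => rfl
  | mul a b iha ihb =>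
    simp only [lib, Bool.and_eq_true] at h
    simp only [Ex.row, row2, iha h.1, ihb h.2]
  | add a b iha ihb =>
    simp only [lib, Bool.and_eq_true] at h
    simp only [Ex.row, row2, iha h.1, ihb h.2]
  | smul c a iha =>
    simp only [lib] at h
    simp only [Ex.row, row2, iha h]

theorem fcl {x : Ex} (h1 : lib x = true) (h : chk3 x = true) : x.chk = true := by
  unfold Ex.chk
  unfold chk3 at h
  simpa only [row_lib x h1] using h

/-! ### Transposition -/

/-- Transposition check. -/
def trchk (A C : ℕ → Row) : Bool :=
  ((List.range 120).all fun j => (A j).all fun p => coefR (A j) p.2 == coefR (C p.2) j) &&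
  ((List.range 120).all fun i => (C i).all fun p => coefR (A p.2) i == coefR (C i) p.2)

theorem coefR_zero (r : Row) (i : ℕ) (h : ∀ p ∈ r, p.2 ≠ i) : coefR r i = 0 := by
  induction r with
  | nil => rfl
  | cons p r ih =>
    rw [coefR, if_neg (h p (by simp)), ih (fun q hq => h q (by simp [hq]))]
    rfl

theorem trchk_sound {A C : ℕ → Row} (h : trchk A C = true) (i j : ℕ) (hi : i < 120)
    (hj : j < 120) : coefR (A j) i = coefR (C i) j := by
  rw [trchk, Bool.and_eq_true, List.all_eq_true, List.all_eq_true] at h
  by_cases h1 : ∃ p ∈ A j, p.2 = i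
  · obtain ⟨p, hp, rfl⟩ := h1
    have := h.1 j (List.mem_range.2 hj)
    rw [List.all_eq_true] at this
    have h2 := this p hp
    simpa using h2
  · by_cases h3 : ∃ p ∈ C i, p.2 = j
    · obtain ⟨p, hp, rfl⟩ := h3
      have := h.2 i (List.mem_range.2 hi)
      rw [List.all_eq_true] at this
      have h2 := this p hp
      simpa using h2
    · push Not at h1 h3
      rw [coefR_zero _ _ h1, coefR_zero _ _ h3]

theorem tr_chk3 : ((List.range 13).all fun n =>
    trchk (fastRow (48 + n)) (fastRow (13 + n))) = true := by decide +kernel

theorem tr_coef (n : ℕ) (hn : n < 13) (i j : ℕ) (hi : i < 120) (hj : j < 120) :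
    coefR (tabRow2 (48 + n) j) i = coefR (tabRow (13 + n) i) j := by
  have h := tr_chk3
  rw [List.all_eq_true] at h
  have h1 := trchk_sound (h n (List.mem_range.2 hn)) i j hi hj
  rw [fastRow_eq, fastRow_eq, tabRow2_lt (13 + n) _ (by omega)] at h1
  exact h1

end Pool.Agent.H379.NK
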