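import Pool.Agent.H379.NK.Fast

/-!
# Named expressions and kernel-checked identities
-/

set_option autoImplicit false

namespace Pool.Agent.H379.NK

open W450.Rig

namespace DX

/-- table 48 -/
def Ra : Ex := Ex.tab 48
/-- table 49 -/
def Rb : Ex := Ex.tab 49
/-- table 50 -/
def RA : Ex := Ex.tab 50
/-- table 51 -/
def RB : Ex := Ex.tab 51
/-- table 52 -/
def Rf : Ex := Ex.tab 52
/-- table 53 -/
def Rh : Ex := Ex.tab 53
/-- table 54 -/
def Rz : Ex := Ex.tab 54
/-- table 55 -/
def P00 : Ex := Ex.tab 55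
/-- table 56 -/
def P01 : Ex := Ex.tab 56
/-- table 57 -/
def P02 : Ex := Ex.tab 57
/-- table 58 -/
def P10 : Ex := Ex.tab 58
/-- table 59 -/
def P11 : Ex := Ex.tab 59
/-- table 60 -/
def P12 : Ex := Ex.tab 60
/-- table 61 -/
def sg : Ex := Ex.tab 61
/-- table 62 -/
def ta : Ex := Ex.tab 62
/-- table 63 -/
def s : Ex := Ex.tab 63
/-- table 64 -/
def t : Ex := Ex.tab 64
/-- table 65 -/
def Q : Ex := Ex.tab 65

/-- letter -/
def h : Ex := Ex.ltr 0
/-- letter -/
def f : Ex := Ex.ltr 1
/-- letter -/
def e : Ex := Ex.ltr 2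

/-- The operator `R_b - e R_a` of the dual block. -/
def EE : Ex := Rb - e * Ra
/-- The operator `R_f - f R_z` of the dual block. -/
def FF : Ex := Rf - f * Rz
/-- The operator `R_h - h R_z` of the dual block. -/
def HH : Ex := Rh - h * Rz
/-- The operator `R_A + e R_B` of the dual block. -/
def WW : Ex := RA + e * RB
/-- A section of `FF`. -/
def sF : Ex := s * (1 + f * Rz * s)
/-- A section of `HH - Rz` on the kernel of `FF`. -/
def sH : Ex := (1 - sF * FF) * (t * (1 + (h + 1) * Rz * t))
/-- A projection-like operator, the identity on the kernel of `FF`. -/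
def TF : Ex := 1 - sF * FF
/-- A projection-like operator, the identity on the kernel of `HH`. -/
def TH : Ex := 1 - t * (1 + h * Rz * t) * HH
/-- A projection-like operator, the identity on the kernel of `EE`. -/
def TE : Ex := 1 - sg * EE

/-- The twisting operator Phi. -/
def Phi : Ex :=
  Ex.tab 66 +
  h * Ex.tab 67 +
  f * Ex.tab 68 +
  e * Ex.tab 69 +
  h * h * Ex.tab 70 +
  h * f * Ex.tab 71 +
  h * e * Ex.tab 72 +
  f * f * Ex.tab 73 +
  f * e * Ex.tab 74 +
  h * h * e * Ex.tab 75 +
  h * f * e * Ex.tab 76 +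
  f * f * e * Ex.tab 77
/-- The twisting operator Psi. -/
def Psi : Ex :=
  Ex.tab 78 +
  h * Ex.tab 79 +
  f * Ex.tab 80 +
  e * Ex.tab 81 +
  h * h * Ex.tab 82 +
  h * f * Ex.tab 83 +
  h * e * Ex.tab 84 +
  f * f * Ex.tab 85 +
  f * e * Ex.tab 86 +
  h * h * e * Ex.tab 87 +
  h * f * e * Ex.tab 88 +
  f * f * e * Ex.tab 89

end DX

open DX

theorem dd_EW : chk2 (EE * WW - Z) = true := fch (by decide +kernel)
theorem dd_WE : chk2 (WW * EE - Z) = true := fch (by decide +kernel)
theorem dd_FE : chk2 (FF * EE - (EE * FF - HH * Ra)) = true := fch (by decide +kernel)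
theorem dd_HE : chk2 (HH * EE - EE * (HH + Rz)) = true := fch (by decide +kernel)
theorem dd_WH : chk2 (WW * HH - (HH + Rz) * WW) = true := fch (by decide +kernel)
theorem dd_Wa : chk2 (WW * Ra - RB * EE) = true := fch (by decide +kernel)
theorem dd_WF : chk2 (WW * FF - (FF * WW - (HH + Rz) * RB)) = true := fch (by decide +kernel)
theorem dd_aW : chk2 (Ra * WW - EE * RB) = true := fch (by decide +kernel)
theorem dd_BH : chk2 (RB * HH - (HH + Rz + Rz) * RB) = true := fch (by decide +kernel)
theorem dd_HF : chk2 (HH * FF - (FF * HH - FF * Rz - RB * EE * Rz * Rz)) = true := fch (by decide +kernel)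
theorem dd_FB : chk2 (FF * RB - RB * FF) = true := fch (by decide +kernel)
theorem dd_Ha : chk2 (HH * Ra - Ra * HH) = true := fch (by decide +kernel)
theorem dd_Fa : chk2 (FF * Ra - Ra * FF) = true := fch (by decide +kernel)
theorem dd_za : chk2 (Rz * Ra - Ra * Rz) = true := fch (by decide +kernel)
theorem dd_zB : chk2 (Rz * RB - RB * Rz) = true := fch (by decide +kernel)
theorem dd_zE : chk2 (Rz * EE - EE * Rz) = true := fch (by decide +kernel)
theorem dd_zF : chk2 (Rz * FF - FF * Rz) = true := fch (by decide +kernel)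
theorem dd_zH : chk2 (Rz * HH - HH * Rz) = true := fch (by decide +kernel)
theorem dd_zW : chk2 (Rz * WW - WW * Rz) = true := fch (by decide +kernel)
end Pool.Agent.H379.NK
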