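import Pool.Agent.H379.NK.Ids0

/-!
# Kernel-checked identities, second part
-/

set_option autoImplicit false

namespace Pool.Agent.H379.NK

open W450.Rig

open DX

theorem dd_hom0_0 : chk2 ((EE * sg + ta * WW) * P00 - P00) = true := fch (by decide +kernel)
theorem dd_hom1_0 : chk2 ((sg * EE + WW * ta) * P10 - P10) = true := fch (by decide +kernel)
theorem dd_E0 : chk2 (EE * P10 - P00 * EE) = true := fch (by decide +kernel)
theorem dd_W0 : chk2 (WW * P00 - P10 * WW) = true := fch (by decide +kernel)
theorem dd_sg0 : chk2 (sg * P00 - P10 * sg) = true := fch (by decide +kernel)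
theorem dd_ta0 : chk2 (ta * P10 - P00 * ta) = true := fch (by decide +kernel)
theorem dd_a0 : chk2 (Ra * P10 - P00 * Ra) = true := fch (by decide +kernel)
theorem dd_B0 : chk2 (RB * P00 - P10 * RB) = true := fch (by decide +kernel)
theorem dd_Ez0 : chk2 (EE * P00 - Z) = true := fch (by decide +kernel)
theorem dd_hom0_1 : chk2 ((EE * sg + ta * WW) * P01 - P01) = true := fch (by decide +kernel)
theorem dd_hom1_1 : chk2 ((sg * EE + WW * ta) * P11 - P11) = true := fch (by decide +kernel)
theorem dd_E1 : chk2 (EE * P11 - P01 * EE) = true := fch (by decide +kernel)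
theorem dd_W1 : chk2 (WW * P01 - P11 * WW) = true := fch (by decide +kernel)
theorem dd_sg1 : chk2 (sg * P01 - P11 * sg) = true := fch (by decide +kernel)
theorem dd_ta1 : chk2 (ta * P11 - P01 * ta) = true := fch (by decide +kernel)
theorem dd_a1 : chk2 (Ra * P11 - P01 * Ra) = true := fch (by decide +kernel)
theorem dd_B1 : chk2 (RB * P01 - P11 * RB) = true := fch (by decide +kernel)
theorem dd_Ez1 : chk2 (EE * P01 - Z) = true := fch (by decide +kernel)
theorem dd_hom0_2 : chk2 ((EE * sg + ta * WW) * P02 - P02) = true := fch (by decide +kernel)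
theorem dd_hom1_2 : chk2 ((sg * EE + WW * ta) * P12 - P12) = true := fch (by decide +kernel)
theorem dd_E2 : chk2 (EE * P12 - P02 * EE) = true := fch (by decide +kernel)
theorem dd_W2 : chk2 (WW * P02 - P12 * WW) = true := fch (by decide +kernel)
theorem dd_sg2 : chk2 (sg * P02 - P12 * sg) = true := fch (by decide +kernel)
theorem dd_ta2 : chk2 (ta * P12 - P02 * ta) = true := fch (by decide +kernel)
theorem dd_a2 : chk2 (Ra * P12 - P02 * Ra) = true := fch (by decide +kernel)
theorem dd_B2 : chk2 (RB * P02 - P12 * RB) = true := fch (by decide +kernel)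
theorem dd_Ez2 : chk2 (EE * P02 - Z) = true := fch (by decide +kernel)
end Pool.Agent.H379.NK
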