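import Pool.Graph.R_seed8.W450.RigExt

/-!
# Vanishing of `Ext` from a complex with homology in degrees `0` and `3`
-/

set_option autoImplicit false

namespace Pool.Agent.H379.NK

open CategoryTheory CategoryTheory.Abelian

universe u

/-- A complex of projective modules `C n ⊆ F` (images of idempotents), exact except in degree
`0`, with `H_0 = N`, and degree `3`, with `H_3 = N'`. -/
structure CData (T : Type u) [Ring T] (F : Type u) [AddCommGroup F] [Module T F]
    (N : Type u) [AddCommGroup N] [Module T N] (N' : Type u) [AddCommGroup N'] [Module T N']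
    (X : Type u) [AddCommGroup X] [Module T X] where
  /-- projections onto the terms -/
  p : ℕ → F →ₗ[T] F
  /-- the terms -/
  C : ℕ → Submodule T F
  /-- the differentials -/
  d : ℕ → F →ₗ[T] F
  /-- the augmentation -/
  π : C 0 →ₗ[T] N
  /-- the map to the third homology, defined on the 3-cycles -/
  τ : (C 3 ⊓ LinearMap.ker (d 2) : Submodule T F) →ₗ[T] N'
  p_mem : ∀ n x, p n x ∈ C n
  p_id : ∀ n, ∀ x ∈ C n, p n x = x
  d_mem : ∀ n, ∀ x ∈ C (n + 1), d n x ∈ C n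
  dd : ∀ n, ∀ x ∈ C (n + 2), d n (d (n + 1) x) = 0
  ex : ∀ n, n ≠ 2 → ∀ x ∈ C (n + 1), d n x = 0 → ∃ y ∈ C (n + 2), d (n + 1) y = x
  π_surj : Function.Surjective π
  π_ex : ∀ x : C 0, π x = 0 ↔ ∃ y ∈ C 1, d 0 y = x
  τ_surj : Function.Surjective τ
  τ_ex : ∀ x : (C 3 ⊓ LinearMap.ker (d 2) : Submodule T F), τ x = 0 ↔ ∃ y ∈ C 4, d 3 y = x
  /-- `Hom(C, X)` is exact in degrees at least one -/
  coc : ∀ (n : ℕ) (g : F →ₗ[T] X), (∀ y ∈ C (n + 2), g (d (n + 1) y) = 0) →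
    ∃ φ : F →ₗ[T] X, ∀ x ∈ C (n + 1), g x = φ (d n x)

namespace LemE

section ext

variable {R : Type u} [Ring R] {M P N Y : Type u}
  [AddCommGroup M] [AddCommGroup P] [AddCommGroup N] [AddCommGroup Y]
  [Module R M] [Module R P] [Module R N] [Module R Y]

/-- the middle term of the long exact sequence -/
theorem ext_mid (i : N →ₗ[R] P) (p : P →ₗ[R] M) (hex : Function.Exact i p)
    (hi : Function.Injective i) (hp : Function.Surjective p) (n : ℕ)
    (hN : Subsingleton (Ext (ModuleCat.of R N) (ModuleCat.of R Y) n))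
    (hM : Subsingleton (Ext (ModuleCat.of R M) (ModuleCat.of R Y) n)) :
    Subsingleton (Ext (ModuleCat.of R P) (ModuleCat.of R Y) n) := by
  refine subsingleton_of_forall_eq 0 fun x => ?_
  have hS := W450.Rig.sc_exact i p hex hi hp
  obtain ⟨y, hy⟩ := Ext.contravariant_sequence_exact₂ (S := W450.Rig.sc i p hex) hS
    (ModuleCat.of R Y) (n := n) x (@Subsingleton.elim _ hN _ _)
  have h0 : y = 0 := @Subsingleton.elim _ hM y 0
  rw [← hy, h0, Ext.comp_zero]
  rfl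

theorem hom_zero (h : Subsingleton (Ext (ModuleCat.of R M) (ModuleCat.of R Y) 0))
    (g : M →ₗ[R] Y) : g = 0 := by
  have h1 : ModuleCat.ofHom g = (0 : ModuleCat.of R M ⟶ ModuleCat.of R Y) :=
    (Ext.addEquiv₀ (X := ModuleCat.of R M) (Y := ModuleCat.of R Y)).symm.injective
      (@Subsingleton.elim _ h _ _)
  ext x
  have := congrArg (fun f => f.hom x) h1
  exact this

theorem ext_zero (h : ∀ g : M →ₗ[R] Y, g = 0) :
    Subsingleton (Ext (ModuleCat.of R M) (ModuleCat.of R Y) 0) := by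
  refine subsingleton_of_forall_eq 0 fun x => ?_
  obtain ⟨g, rfl⟩ := (Ext.addEquiv₀ (X := ModuleCat.of R M) (Y := ModuleCat.of R Y)).symm.surjective x
  have : g = 0 := by
    ext x
    exact LinearMap.congr_fun (h g.hom) x
  rw [this, map_zero]

end ext

variable {T : Type u} [Ring T] {F : Type u} [AddCommGroup F] [Module T F]
    {N : Type u} [AddCommGroup N] [Module T N] {N' : Type u} [AddCommGroup N'] [Module T N']
    {X : Type u} [AddCommGroup X] [Module T X] (D : CData T F N N' X)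

/-- the boundaries -/
def Zs (n : ℕ) : Submodule T F := (D.C (n + 1)).map (D.d n)

theorem mem_Zs {n : ℕ} {z : F} : z ∈ Zs D n ↔ ∃ x ∈ D.C (n + 1), D.d n x = z := Iff.rfl

theorem Zs_le (n : ℕ) : Zs D n ≤ D.C n := by
  rintro _ ⟨x, hx, rfl⟩
  exact D.d_mem n x hx

theorem proj (n : ℕ) [Module.Projective T F] : Module.Projective T (D.C n) :=
  Module.Projective.of_split (D.C n).subtype ((D.p n).codRestrict (D.C n) (D.p_mem n)) (by
    ext x
    exact D.p_id n x x.2)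

/-- (0) every homomorphism `Z_n → X` extends to `F` -/
theorem hom_ext (n : ℕ) (g : Zs D n →ₗ[T] X) : ∃ φ : F →ₗ[T] X, ∀ z : Zs D n, φ z = g z := by
  have hm : ∀ x, (D.d n ∘ₗ D.p (n+1)) x ∈ Zs D n := fun x => ⟨D.p (n+1) x, D.p_mem (n+1) x, rfl⟩
  obtain ⟨φ, hφ⟩ := D.coc n (g ∘ₗ (D.d n ∘ₗ D.p (n+1)).codRestrict (Zs D n) hm) (by
    intro y hy
    have h1 : (D.d n ∘ₗ D.p (n+1)) (D.d (n+1) y) = 0 := by
      rw [LinearMap.comp_apply, D.p_id (n+1) _ (D.d_mem (n+1) y hy), D.dd n y hy]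
    have h2 : (D.d n ∘ₗ D.p (n+1)).codRestrict (Zs D n) hm (D.d (n+1) y) = 0 :=
      Subtype.ext h1
    rw [LinearMap.comp_apply, h2, map_zero])
  refine ⟨φ, ?_⟩
  rintro ⟨z, x, hx, rfl⟩
  rw [← hφ x hx, LinearMap.comp_apply]
  congr 1
  apply Subtype.ext
  show D.d n (D.p (n+1) x) = D.d n x
  rw [D.p_id (n+1) x hx]

/-- the inclusion -/
def inc (n : ℕ) : Zs D n →ₗ[T] D.C n := Submodule.inclusion (Zs_le D n)

/-- the differential onto its image -/
def dif (n : ℕ) : D.C (n+1) →ₗ[T] Zs D n :=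
  ((D.d n).domRestrict (D.C (n+1))).codRestrict (Zs D n) (fun x => ⟨x, x.2, rfl⟩)

theorem inc_inj (n : ℕ) : Function.Injective (inc D n) := Submodule.inclusion_injective _

theorem dif_surj (n : ℕ) : Function.Surjective (dif D n) := by
  rintro ⟨z, x, hx, rfl⟩
  exact ⟨⟨x, hx⟩, rfl⟩

theorem exact_inc_dif (n : ℕ) (hn : n ≠ 2) : Function.Exact (inc D (n+1)) (dif D n) := by
  rintro ⟨x, hx⟩
  constructor
  · intro h
    have h0 : D.d n x = 0 := congrArg Subtype.val h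
    obtain ⟨y, hy, e⟩ := D.ex n hn x hx h0
    exact ⟨⟨x, y, hy, e⟩, rfl⟩
  · rintro ⟨⟨z, y, hy, rfl⟩, e⟩
    have e' : D.d (n+1) y = x := congrArg Subtype.val e
    apply Subtype.ext
    show D.d n x = 0
    rw [← e']
    exact D.dd n y hy

variable [Module.Projective T F]

theorem ext1_Zs (n : ℕ) (hn : n ≠ 2) :
    Subsingleton (Ext (ModuleCat.of T (Zs D n)) (ModuleCat.of T X) 1) := by
  haveI := proj D (n+1)
  refine W450.Rig.ext_one (inc D (n+1)) (dif D n) (exact_inc_dif D n hn) (inc_inj D (n+1))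
    (dif_surj D n) (fun g => ?_)
  obtain ⟨φ, hφ⟩ := hom_ext D (n+1) g
  exact ⟨φ ∘ₗ (D.C (n+1)).subtype, LinearMap.ext fun z => hφ z⟩

theorem step_Zs (n : ℕ) (hn : n ≠ 2) (i : ℕ)
    (h : Subsingleton (Ext (ModuleCat.of T (Zs D (n+1))) (ModuleCat.of T X) i)) :
    Subsingleton (Ext (ModuleCat.of T (Zs D n)) (ModuleCat.of T X) (i+1)) := by
  haveI := proj D (n+1)
  exact W450.Rig.ext_step (inc D (n+1)) (dif D n) (exact_inc_dif D n hn) (inc_inj D (n+1))
    (dif_surj D n) i h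

/-- (1) -/
theorem high (i : ℕ) : ∀ n, 3 ≤ n →
    Subsingleton (Ext (ModuleCat.of T (Zs D n)) (ModuleCat.of T X) (i+1)) := by
  induction i with
  | zero => intro n hn; exact ext1_Zs D n (by omega)
  | succ i ih => intro n hn; exact step_Zs D n (by omega) (i+1) (ih (n+1) (by omega))

/-- one step down: `Z_{n+1}` to `Z_n`, `n ≠ 2` -/
theorem down (n : ℕ) (hn : n ≠ 2) (k : ℕ)
    (h : ∀ i, 1 ≤ i → i ≤ k →
      Subsingleton (Ext (ModuleCat.of T (Zs D (n+1))) (ModuleCat.of T X) i)) :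
    ∀ i, 1 ≤ i → i ≤ k + 1 →
      Subsingleton (Ext (ModuleCat.of T (Zs D n)) (ModuleCat.of T X) i) := by
  intro i h1 h2
  obtain ⟨j, rfl⟩ : ∃ j, i = j + 1 := ⟨i - 1, by omega⟩
  rcases Nat.eq_zero_or_pos j with rfl | hj
  · exact ext1_Zs D n hn
  · exact step_Zs D n hn j (h j hj (by omega))

/-- the 3-cycles -/
abbrev Zc : Submodule T F := D.C 3 ⊓ LinearMap.ker (D.d 2)

theorem Zs_le_Zc : Zs D 3 ≤ Zc D := by
  rintro _ ⟨x, hx, rfl⟩
  exact ⟨D.d_mem 3 x hx, D.dd 2 x hx⟩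

/-- (2) -/
theorem ext_Zc (i : ℕ) (hi : 1 ≤ i)
    (h : Subsingleton (Ext (ModuleCat.of T N') (ModuleCat.of T X) i)) :
    Subsingleton (Ext (ModuleCat.of T (Zc D)) (ModuleCat.of T X) i) := by
  obtain ⟨j, rfl⟩ : ∃ j, i = j + 1 := ⟨i - 1, by omega⟩
  refine ext_mid (Submodule.inclusion (Zs_le_Zc D)) D.τ ?_ (Submodule.inclusion_injective _)
    D.τ_surj (j+1) (high D j 3 le_rfl) h
  intro x
  rw [D.τ_ex]
  constructor
  · rintro ⟨y, hy, e⟩
    exact ⟨⟨x, y, hy, e⟩, rfl⟩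
  · rintro ⟨⟨z, y, hy, rfl⟩, e⟩
    exact ⟨y, hy, congrArg Subtype.val e⟩

/-- the sequence `0 → Z' → C_3 → Z_2 → 0` -/
theorem exact_Zc : Function.Exact (Submodule.inclusion (inf_le_left : Zc D ≤ D.C 3))
    (dif D 2) := by
  rintro ⟨x, hx⟩
  constructor
  · intro h
    have h0 : D.d 2 x = 0 := congrArg Subtype.val h
    exact ⟨⟨x, hx, h0⟩, rfl⟩
  · rintro ⟨⟨z, hz, hz'⟩, e⟩
    have e' : z = x := congrArg Subtype.val e
    subst e'
    exact Subtype.ext hz'

/-- (3) -/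
theorem ext_Z2 (k : ℕ) (h : ∀ i ≤ k, Subsingleton (Ext (ModuleCat.of T N') (ModuleCat.of T X) i)) :
    ∀ i, 1 ≤ i → i ≤ k + 1 →
      Subsingleton (Ext (ModuleCat.of T (Zs D 2)) (ModuleCat.of T X) i) := by
  intro i h1 h2
  haveI := proj D 3
  obtain ⟨j, rfl⟩ : ∃ j, i = j + 1 := ⟨i - 1, by omega⟩
  rcases Nat.eq_zero_or_pos j with rfl | hj
  · refine W450.Rig.ext_one _ (dif D 2) (exact_Zc D) (Submodule.inclusion_injective _)
      (dif_surj D 2) (fun g => ?_)
    obtain ⟨φ, hφ⟩ := hom_ext D 3 (g ∘ₗ Submodule.inclusion (Zs_le_Zc D))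
    -- `g - φ` factors through `N'`
    set ψ : Zc D →ₗ[T] X := g - φ ∘ₗ (Zc D).subtype with hψ
    have hker : ∀ x : Zc D, D.τ x = 0 → ψ x = 0 := by
      intro x hx
      obtain ⟨y, hy, e⟩ := (D.τ_ex x).1 hx
      have hz := hφ ⟨x, y, hy, e⟩
      have hz' : φ (x : F) = g x := hz
      rw [hψ, LinearMap.sub_apply, LinearMap.comp_apply, Submodule.subtype_apply, hz', sub_self]
    have hle : LinearMap.ker D.τ ≤ LinearMap.ker ψ := fun x hx => hker x hx
    have hfac : ∃ χ : N' →ₗ[T] X, χ ∘ₗ D.τ = ψ := by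
      refine ⟨(LinearMap.ker D.τ).liftQ ψ hle ∘ₗ
        (D.τ.quotKerEquivOfSurjective D.τ_surj).symm.toLinearMap, ?_⟩
      ext x
      have : (D.τ.quotKerEquivOfSurjective D.τ_surj).symm (D.τ x) =
          (LinearMap.ker D.τ).mkQ x := by
        rw [LinearEquiv.symm_apply_eq]
        rfl
      show (LinearMap.ker D.τ).liftQ ψ hle ((D.τ.quotKerEquivOfSurjective D.τ_surj).symm (D.τ x)) = _
      rw [this]
      rfl
    obtain ⟨χ, hχ⟩ := hfac
    have h0 : χ = 0 := hom_zero (h 0 (Nat.zero_le _)) χ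
    have hz : ψ = 0 := by rw [← hχ, h0, LinearMap.zero_comp]
    refine ⟨φ ∘ₗ (D.C 3).subtype, LinearMap.ext fun z => ?_⟩
    have := LinearMap.congr_fun hz z
    rw [hψ, LinearMap.sub_apply, LinearMap.zero_apply, sub_eq_zero] at this
    exact this.symm
  · exact W450.Rig.ext_step _ (dif D 2) (exact_Zc D) (Submodule.inclusion_injective _)
      (dif_surj D 2) j (ext_Zc D j hj (h j (by omega)))

theorem exact_π : Function.Exact (inc D 0) D.π := by
  intro x
  rw [D.π_ex]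
  constructor
  · rintro ⟨y, hy, e⟩
    exact ⟨⟨x, y, hy, e⟩, rfl⟩
  · rintro ⟨⟨z, y, hy, rfl⟩, e⟩
    exact ⟨y, hy, congrArg Subtype.val e⟩

end LemE

open LemE in
/-- LEMMA E.  If `Ext^i(N', X) = 0` for `0 ≤ i ≤ k`, then `Ext^i(N, X) = 0` for
`1 ≤ i ≤ k + 4`. -/
theorem lemE {T : Type u} [Ring T] {F : Type u} [AddCommGroup F] [Module T F]
    {N : Type u} [AddCommGroup N] [Module T N] {N' : Type u} [AddCommGroup N'] [Module T N']
    {X : Type u} [AddCommGroup X] [Module T X] [Module.Projective T F] (D : CData T F N N' X)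
    (k : ℕ) (h : ∀ i ≤ k, Subsingleton (Ext (ModuleCat.of T N') (ModuleCat.of T X) i)) :
    ∀ i, 1 ≤ i → i ≤ k + 4 → Subsingleton (Ext (ModuleCat.of T N) (ModuleCat.of T X) i) := by
  have h2 := ext_Z2 D k h
  have h1 := down D 1 (by omega) (k+1) h2
  have h0 := down D 0 (by omega) (k+1+1) h1
  intro i hi1 hi2
  haveI := proj D 0
  obtain ⟨j, rfl⟩ : ∃ j, i = j + 1 := ⟨i - 1, by omega⟩
  rcases Nat.eq_zero_or_pos j with rfl | hj
  · refine W450.Rig.ext_one (inc D 0) D.π (exact_π D) (inc_inj D 0) D.π_surj (fun g => ?_)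
    obtain ⟨φ, hφ⟩ := hom_ext D 0 g
    exact ⟨φ ∘ₗ (D.C 0).subtype, LinearMap.ext fun z => hφ z⟩
  · exact W450.Rig.ext_step (inc D 0) D.π (exact_π D) (inc_inj D 0) D.π_surj j
      (h0 j hj (by omega))

open LemE in
/-- The conclusion, by induction: a family `N m` (`m ≥ 0`) with `N (m + 1)` having no maps to
`X`, each `N m` resolved up to `N (m + 2)`. -/
theorem lemE_family {T : Type u} [Ring T] (F : ℕ → Type u) [∀ m, AddCommGroup (F m)]
    [∀ m, Module T (F m)] [∀ m, Module.Projective T (F m)]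
    (N : ℕ → Type u) [∀ m, AddCommGroup (N m)] [∀ m, Module T (N m)]
    {X : Type u} [AddCommGroup X] [Module T X]
    (D : ∀ m, CData T (F m) (N m) (N (m + 2)) X)
    (h0 : ∀ m, ∀ g : N (m + 1) →ₗ[T] X, g = 0) (m : ℕ) :
    ∀ i, 1 ≤ i → Subsingleton (Ext (ModuleCat.of T (N m)) (ModuleCat.of T X) i) := by
  have key : ∀ j m, ∀ i ≤ j,
      Subsingleton (Ext (ModuleCat.of T (N (m + 1))) (ModuleCat.of T X) i) := by
    intro j
    induction j with
    | zero =>
      intro m i hi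
      obtain rfl : i = 0 := by omega
      exact ext_zero (h0 m)
    | succ j ih =>
      intro m i hi
      rcases Nat.eq_zero_or_pos i with rfl | hi1
      · exact ext_zero (h0 m)
      · exact lemE (D (m+1)) j (ih (m+2)) i hi1 (by omega)
  intro i hi
  exact lemE (D m) i (key i (m+1)) i hi (by omega)

end Pool.Agent.H379.NK
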