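import Mathlib

/-!
# Operator systems

An operator system on a module `Q` over a ring `O` is a family of `O`-linear operators
`E F H W a B z` and six projections. With the laws below it gives rise to a complex; exactness
properties are deduced from exactness of the pair `E, W`.
-/

set_option autoImplicit false
set_option linter.unusedSectionVars false

namespace Pool.Agent.H379.NK

universe u v

/-- An operator system. -/
structure OS (O : Type u) [Ring O] (Q : Type v) [AddCommGroup Q] [Module O Q] where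
  E : Q →ₗ[O] Q
  F : Q →ₗ[O] Q
  H : Q →ₗ[O] Q
  W : Q →ₗ[O] Q
  a : Q →ₗ[O] Q
  B : Q →ₗ[O] Q
  z : Q →ₗ[O] Q
  p00 : Q →ₗ[O] Q
  p01 : Q →ₗ[O] Q
  p02 : Q →ₗ[O] Q
  p10 : Q →ₗ[O] Q
  p11 : Q →ₗ[O] Q
  p12 : Q →ₗ[O] Q

variable {O : Type u} [Ring O] {Q : Type v} [AddCommGroup Q] [Module O Q]

/-- The laws of an operator system. -/
structure OS.Laws (A : OS O Q) : Prop where
  EW : ∀ x, A.E (A.W x) = 0
  WE : ∀ x, A.W (A.E x) = 0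
  FE : ∀ x, A.F (A.E x) = A.E (A.F x) - A.H (A.a x)
  HE : ∀ x, A.H (A.E x) = A.E (A.H x) + A.E (A.z x)
  WH : ∀ x, A.W (A.H x) = A.H (A.W x) + A.z (A.W x)
  Wa : ∀ x, A.W (A.a x) = A.B (A.E x)
  WF : ∀ x, A.W (A.F x) = A.F (A.W x) - (A.H (A.B x) + A.z (A.B x))
  aW : ∀ x, A.a (A.W x) = A.E (A.B x)
  BH : ∀ x, A.B (A.H x) = A.H (A.B x) + A.z (A.B x) + A.z (A.B x)
  HF : ∀ x, A.H (A.F x) = A.F (A.H x) - A.F (A.z x) - A.B (A.E (A.z (A.z x)))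
  FB : ∀ x, A.F (A.B x) = A.B (A.F x)
  Ha : ∀ x, A.H (A.a x) = A.a (A.H x)
  Fa : ∀ x, A.F (A.a x) = A.a (A.F x)
  za : ∀ x, A.z (A.a x) = A.a (A.z x)
  zB : ∀ x, A.z (A.B x) = A.B (A.z x)
  zE : ∀ x, A.z (A.E x) = A.E (A.z x)
  zF : ∀ x, A.z (A.F x) = A.F (A.z x)
  zH : ∀ x, A.z (A.H x) = A.H (A.z x)
  zW : ∀ x, A.z (A.W x) = A.W (A.z x)
  i00 : ∀ x, A.p00 (A.p00 x) = A.p00 x
  i01 : ∀ x, A.p01 (A.p01 x) = A.p01 x
  i02 : ∀ x, A.p02 (A.p02 x) = A.p02 x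
  i10 : ∀ x, A.p10 (A.p10 x) = A.p10 x
  i11 : ∀ x, A.p11 (A.p11 x) = A.p11 x
  i12 : ∀ x, A.p12 (A.p12 x) = A.p12 x
  E0 : ∀ x, A.p10 x = x → A.p00 (A.E x) = A.E x
  E1 : ∀ x, A.p11 x = x → A.p01 (A.E x) = A.E x
  E2 : ∀ x, A.p12 x = x → A.p02 (A.E x) = A.E x
  Ez : ∀ x, A.p00 x = x → A.E x = 0
  W0 : ∀ x, A.p00 x = x → A.p10 (A.W x) = A.W x
  W1 : ∀ x, A.p01 x = x → A.p11 (A.W x) = A.W x
  W2 : ∀ x, A.p02 x = x → A.p12 (A.W x) = A.W x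
  F00 : ∀ x, A.p01 x = x → A.p00 (A.F x) = A.F x
  F01 : ∀ x, A.p02 x = x → A.p01 (A.F x) = A.F x
  F10 : ∀ x, A.p11 x = x → A.p10 (A.F x) = A.F x
  F11 : ∀ x, A.p12 x = x → A.p11 (A.F x) = A.F x
  H00 : ∀ x, A.p01 x = x → A.p00 (A.H x) = A.H x
  H01 : ∀ x, A.p02 x = x → A.p01 (A.H x) = A.H x
  H10 : ∀ x, A.p11 x = x → A.p10 (A.H x) = A.H x
  H11 : ∀ x, A.p12 x = x → A.p11 (A.H x) = A.H x
  z00 : ∀ x, A.p01 x = x → A.p00 (A.z x) = A.z x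
  z01 : ∀ x, A.p02 x = x → A.p01 (A.z x) = A.z x
  z10 : ∀ x, A.p11 x = x → A.p10 (A.z x) = A.z x
  z11 : ∀ x, A.p12 x = x → A.p11 (A.z x) = A.z x
  a0 : ∀ x, A.p10 x = x → A.p00 (A.a x) = A.a x
  a1 : ∀ x, A.p11 x = x → A.p01 (A.a x) = A.a x
  B0 : ∀ x, A.p00 x = x → A.p10 (A.B x) = A.B x
  B1 : ∀ x, A.p01 x = x → A.p11 (A.B x) = A.B x

/-- Exactness of the pair `E, W`. -/
structure OS.EWex (A : OS O Q) : Prop where
  w0 : ∀ x, A.p00 x = x → A.W x = 0 → ∃ y, A.p10 y = y ∧ A.E y = x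
  w1 : ∀ x, A.p01 x = x → A.W x = 0 → ∃ y, A.p11 y = y ∧ A.E y = x
  w2 : ∀ x, A.p02 x = x → A.W x = 0 → ∃ y, A.p12 y = y ∧ A.E y = x
  e0 : ∀ x, A.p10 x = x → A.E x = 0 → ∃ y, A.p00 y = y ∧ A.W y = x
  e1 : ∀ x, A.p11 x = x → A.E x = 0 → ∃ y, A.p01 y = y ∧ A.W y = x
  e2 : ∀ x, A.p12 x = x → A.E x = 0 → ∃ y, A.p02 y = y ∧ A.W y = x

/-- Exactness of the complex in degree one. -/
def OS.Ex1 (A : OS O Q) : Prop :=
  ∀ x0 xh xf, A.p10 x0 = x0 → A.p01 xh = xh → A.p01 xf = xf →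
    A.E x0 + A.H xh + A.F xf = 0 →
    ∃ y0 yh yf yx, A.p00 y0 = y0 ∧ A.p11 yh = yh ∧ A.p11 yf = yf ∧ A.p02 yx = yx ∧
      A.W y0 - (A.H yh + A.z yh) - A.F yf = x0 ∧ A.E yh + A.a yf + A.F yx = xh ∧
      A.E yf - (A.H yx - A.z yx) = xf

/-- Four copies of a module. -/
abbrev X4 (Q : Type v) : Type v := Q × Q × Q × Q

namespace OS

variable (A : OS O Q)

/-- Differential in odd degrees (general). -/
def Do (k : ℤ) : X4 Q →ₗ[O] X4 Q where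
  toFun x := (A.E x.1 + A.H x.2.1 + A.F x.2.2.1 + k • A.a (A.z (A.z x.2.2.2)),
    A.W x.2.1 - A.B x.2.2.1 - A.F x.2.2.2, A.W x.2.2.1 + A.H x.2.2.2, A.E x.2.2.2)
  map_add' x y := by
    refine Prod.ext ?_ (Prod.ext ?_ (Prod.ext ?_ ?_)) <;>
    simp only [Prod.fst_add, Prod.snd_add, map_add, smul_add] <;> abel
  map_smul' r x := by
    refine Prod.ext ?_ (Prod.ext ?_ (Prod.ext ?_ ?_)) <;>
    simp only [Prod.smul_fst, Prod.smul_snd, map_smul, smul_add, smul_sub, RingHom.id_apply,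
      smul_comm k r]

/-- Differential in even degrees (general). -/
def De (c : ℤ) : X4 Q →ₗ[O] X4 Q where
  toFun x := (A.W x.1 - (A.H x.2.1 + A.z x.2.1) - A.F x.2.2.1 +
      c • A.B (A.z (A.z x.2.2.2)),
    A.E x.2.1 + A.a x.2.2.1 + A.F x.2.2.2, A.E x.2.2.1 - (A.H x.2.2.2 - A.z x.2.2.2),
    A.W x.2.2.2)
  map_add' x y := by
    refine Prod.ext ?_ (Prod.ext ?_ (Prod.ext ?_ ?_)) <;>
    simp only [Prod.fst_add, Prod.snd_add, map_add, smul_add] <;> abel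
  map_smul' r x := by
    refine Prod.ext ?_ (Prod.ext ?_ (Prod.ext ?_ ?_)) <;>
    simp only [Prod.smul_fst, Prod.smul_snd, map_smul, smul_add, smul_sub, RingHom.id_apply,
      smul_comm c r]

/-- The first differential. -/
def D1 : X4 Q →ₗ[O] X4 Q where
  toFun x := (A.E x.1 + A.H x.2.1 + A.F x.2.2.1, 0, 0, 0)
  map_add' x y := by
    refine Prod.ext ?_ (Prod.ext ?_ (Prod.ext ?_ ?_)) <;>
    simp only [Prod.fst_add, Prod.snd_add, map_add, add_zero] <;> abel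
  map_smul' r x := by
    refine Prod.ext ?_ (Prod.ext ?_ (Prod.ext ?_ ?_)) <;>
    simp only [Prod.smul_fst, Prod.smul_snd, map_smul, smul_add, RingHom.id_apply, smul_zero]

/-- The second differential. -/
def D2 : X4 Q →ₗ[O] X4 Q where
  toFun x := (A.W x.1 - (A.H x.2.1 + A.z x.2.1) - A.F x.2.2.1,
    A.E x.2.1 + A.a x.2.2.1 + A.F x.2.2.2, A.E x.2.2.1 - (A.H x.2.2.2 - A.z x.2.2.2), 0)
  map_add' x y := by
    refine Prod.ext ?_ (Prod.ext ?_ (Prod.ext ?_ ?_)) <;>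
    simp only [Prod.fst_add, Prod.snd_add, map_add, add_zero] <;> abel
  map_smul' r x := by
    refine Prod.ext ?_ (Prod.ext ?_ (Prod.ext ?_ ?_)) <;>
    simp only [Prod.smul_fst, Prod.smul_snd, map_smul, smul_add, smul_sub, RingHom.id_apply,
      smul_zero]

/-- The differentials `D n : P (n+1) → P n`. -/
def D : ℕ → (X4 Q →ₗ[O] X4 Q)
  | 0 => A.D1
  | 1 => A.D2
  | n + 2 => if n % 2 = 0 then A.Do ((n / 2 : ℕ) + 1) else A.De (-((n / 2 : ℕ) + 1))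

theorem D_even (m : ℕ) : A.D (2 * m + 2) = A.Do ((m : ℤ) + 1) := by
  rw [D, if_pos (by omega)]
  congr 2
  have : 2 * m / 2 = m := by omega
  rw [this]

theorem D_odd (m : ℕ) : A.D (2 * m + 3) = A.De (-((m : ℤ) + 1)) := by
  rw [show 2 * m + 3 = (2 * m + 1) + 2 by omega, D, if_neg (by omega)]
  congr 3
  have : (2 * m + 1) / 2 = m := by omega
  rw [this]

/-- Four diagonal maps. -/
def pm (a b c d : Q →ₗ[O] Q) : X4 Q →ₗ[O] X4 Q := a.prodMap (b.prodMap (c.prodMap d))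

/-- Projections onto the terms of the complex. -/
def pn : ℕ → (X4 Q →ₗ[O] X4 Q)
  | 0 => pm A.p00 0 0 0
  | 1 => pm A.p10 A.p01 A.p01 0
  | n + 2 => if n % 2 = 0 then pm A.p00 A.p11 A.p11 A.p02 else pm A.p10 A.p01 A.p01 A.p12

/-- The terms of the complex. -/
def Pn (n : ℕ) : Submodule O (X4 Q) := LinearMap.eqLocus (A.pn n) LinearMap.id

theorem mem_Pn (n : ℕ) (x : X4 Q) : x ∈ A.Pn n ↔ A.pn n x = x := Iff.rfl

theorem mem_P0 {x : X4 Q} : x ∈ A.Pn 0 ↔ A.p00 x.1 = x.1 ∧ x.2 = 0 := by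
  rw [mem_Pn]
  constructor
  · intro h
    exact ⟨congrArg Prod.fst h, (congrArg Prod.snd h).symm⟩
  · rintro ⟨h1, h2⟩
    exact Prod.ext h1 h2.symm

theorem mem_P1 {x : X4 Q} : x ∈ A.Pn 1 ↔ A.p10 x.1 = x.1 ∧ A.p01 x.2.1 = x.2.1 ∧
    A.p01 x.2.2.1 = x.2.2.1 ∧ x.2.2.2 = 0 := by
  rw [mem_Pn]
  constructor
  · intro h
    have a2 := congrArg (fun p : X4 Q => p.2.1) h
    have a3 := congrArg (fun p : X4 Q => p.2.2.1) h
    have a4 := congrArg (fun p : X4 Q => p.2.2.2) h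
    exact ⟨congrArg Prod.fst h, a2, a3, a4.symm⟩
  · rintro ⟨h1, h2, h3, h4⟩
    exact Prod.ext h1 (Prod.ext h2 (Prod.ext h3 h4.symm))

theorem mem_Pe {x : X4 Q} (m : ℕ) : x ∈ A.Pn (2 * m + 2) ↔ A.p00 x.1 = x.1 ∧
    A.p11 x.2.1 = x.2.1 ∧ A.p11 x.2.2.1 = x.2.2.1 ∧ A.p02 x.2.2.2 = x.2.2.2 := by
  rw [mem_Pn, pn, if_pos (by omega)]
  constructor
  · intro h
    have a2 := congrArg (fun p : X4 Q => p.2.1) h
    have a3 := congrArg (fun p : X4 Q => p.2.2.1) h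
    have a4 := congrArg (fun p : X4 Q => p.2.2.2) h
    exact ⟨congrArg Prod.fst h, a2, a3, a4⟩
  · rintro ⟨h1, h2, h3, h4⟩
    exact Prod.ext h1 (Prod.ext h2 (Prod.ext h3 h4))

theorem mem_Po {x : X4 Q} (m : ℕ) : x ∈ A.Pn (2 * m + 3) ↔ A.p10 x.1 = x.1 ∧
    A.p01 x.2.1 = x.2.1 ∧ A.p01 x.2.2.1 = x.2.2.1 ∧ A.p12 x.2.2.2 = x.2.2.2 := by
  rw [mem_Pn, show 2 * m + 3 = (2 * m + 1) + 2 by omega, pn, if_neg (by omega)]
  constructor
  · intro h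
    have a2 := congrArg (fun p : X4 Q => p.2.1) h
    have a3 := congrArg (fun p : X4 Q => p.2.2.1) h
    have a4 := congrArg (fun p : X4 Q => p.2.2.2) h
    exact ⟨congrArg Prod.fst h, a2, a3, a4⟩
  · rintro ⟨h1, h2, h3, h4⟩
    exact Prod.ext h1 (Prod.ext h2 (Prod.ext h3 h4))

end OS

namespace OS.Laws

variable {A : OS O Q} (L : A.Laws)
include L

theorem pn_idem (n : ℕ) (x : X4 Q) : A.pn n (A.pn n x) = A.pn n x := by
  obtain ⟨x0, xh, xf, xx⟩ := x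
  match n with
  | 0 => exact Prod.ext (L.i00 x0) rfl
  | 1 => exact Prod.ext (L.i10 x0) (Prod.ext (L.i01 xh) (Prod.ext (L.i01 xf) rfl))
  | n + 2 =>
    rw [OS.pn]
    split_ifs
    · exact Prod.ext (L.i00 x0) (Prod.ext (L.i11 xh) (Prod.ext (L.i11 xf) (L.i02 xx)))
    · exact Prod.ext (L.i10 x0) (Prod.ext (L.i01 xh) (Prod.ext (L.i01 xf) (L.i12 xx)))

theorem aux_A {x : Q} (hx : A.p02 x = x) : A.B (A.E (A.z (A.z x))) = 0 := by
  rw [L.Ez _ (L.z00 _ (L.z01 _ hx)), map_zero]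

theorem EF (x : Q) : A.E (A.F x) = A.F (A.E x) + A.H (A.a x) := by rw [L.FE]; abel

theorem EHz (x : Q) : A.E (A.H x) + A.E (A.z x) = A.H (A.E x) := (L.HE x).symm

theorem De_Do (c : ℤ) (x : X4 Q) : A.De c (A.Do (1 - c) x) = 0 := by
  obtain ⟨x0, xh, xf, xx⟩ := x
  refine Prod.ext ?_ (Prod.ext ?_ (Prod.ext ?_ ?_))
  · show A.W (A.E x0 + A.H xh + A.F xf + (1 - c) • A.a (A.z (A.z xx))) -
      (A.H (A.W xh - A.B xf - A.F xx) + A.z (A.W xh - A.B xf - A.F xx)) -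
      A.F (A.W xf + A.H xx) + c • A.B (A.z (A.z (A.E xx))) = 0
    simp only [map_add, map_sub, map_zsmul, L.WE, L.WH, L.WF, L.Wa, L.HF, L.zF, L.zE,
      sub_smul, one_smul]
    abel
  · show A.E (A.W xh - A.B xf - A.F xx) + A.a (A.W xf + A.H xx) + A.F (A.E xx) = 0
    simp only [map_add, map_sub, L.EW, L.aW, L.FE, L.Ha]
    abel
  · show A.E (A.W xf + A.H xx) - (A.H (A.E xx) - A.z (A.E xx)) = 0
    simp only [map_add, L.EW, L.HE, L.zE]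
    abel
  · show A.W (A.E xx) = 0
    exact L.WE xx

theorem Do_De (k : ℤ) (x : X4 Q) (hx : A.p02 x.2.2.2 = x.2.2.2) : A.Do k (A.De (-k) x) = 0 := by
  obtain ⟨x0, xh, xf, xx⟩ := x
  have hx' : A.p02 xx = xx := hx
  refine Prod.ext ?_ (Prod.ext ?_ (Prod.ext ?_ ?_))
  · show A.E (A.W x0 - (A.H xh + A.z xh) - A.F xf + (-k) • A.B (A.z (A.z xx))) +
      A.H (A.E xh + A.a xf + A.F xx) + A.F (A.E xf - (A.H xx - A.z xx)) +
      k • A.a (A.z (A.z (A.W xx))) = 0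
    simp only [map_add, map_sub, map_zsmul, map_neg, L.EW, L.HE, L.FE, L.HF, L.aux_A hx', L.zW,
      L.aW, neg_smul]
    abel
  · show A.W (A.E xh + A.a xf + A.F xx) - A.B (A.E xf - (A.H xx - A.z xx)) -
      A.F (A.W xx) = 0
    simp only [map_add, map_sub, L.WE, L.Wa, L.WF, L.BH, L.zB]
    abel
  · show A.W (A.E xf - (A.H xx - A.z xx)) + A.H (A.W xx) = 0
    simp only [map_sub, L.WE, L.WH, L.zW]
    abel
  · show A.E (A.W xx) = 0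
    exact L.EW xx

theorem D1_D2 (x : X4 Q) (hx : A.p02 x.2.2.2 = x.2.2.2) : A.D1 (A.D2 x) = 0 := by
  obtain ⟨x0, xh, xf, xx⟩ := x
  have hx' : A.p02 xx = xx := hx
  refine Prod.ext ?_ rfl
  show A.E (A.W x0 - (A.H xh + A.z xh) - A.F xf) +
      A.H (A.E xh + A.a xf + A.F xx) + A.F (A.E xf - (A.H xx - A.z xx)) = 0
  simp only [map_add, map_sub, L.EW, L.HE, L.FE, L.HF, L.aux_A hx']
  abel

theorem D2_Do (x : X4 Q) : A.D2 (A.Do 1 x) = 0 := by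
  have h := L.De_Do 0 x
  rw [sub_zero] at h
  have h1 : A.D2 (A.Do 1 x) = ((A.De 0 (A.Do 1 x)).1, (A.De 0 (A.Do 1 x)).2.1,
      (A.De 0 (A.Do 1 x)).2.2.1, 0) := by
    refine Prod.ext ?_ rfl
    show _ = _ + (0 : ℤ) • _
    rw [zero_smul, add_zero]
    rfl
  rw [h1, h]
  rfl

end OS.Laws

end Pool.Agent.H379.NK
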