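import Pool.Agent.H379.NK.TY5

/-!
# Opaque versions of `ζ`, `η`, `Φ`
-/

set_option autoImplicit false
set_option linter.unusedSectionVars false

namespace Pool.Agent.H379.NK

open W450.Rig Pool.Agent.H379.GS MulOpposite TrivSqZeroExt

universe u

/-- opaque version of `zet` -/
irreducible_def zetO {K V : Type u} [Field K] [AddCommGroup V] [Module K V] (S : SL K V) :
    (B → V) →ₗ[K] V := zet S

/-- opaque version of `eta` -/
irreducible_def etaO {K V : Type u} [Field K] [AddCommGroup V] [Module K V] (S : SL K V) :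
    (B → V) →ₗ[K] (B → V) := eta S

/-- opaque version of `Phi'` -/
irreducible_def PhO (K V : Type u) [Field K] [CharZero K] [AddCommGroup V] [Module K V] :
    (B → V × V) →ₗ[K] (B → V × V) := Phi' K V

section gen

variable {K V V' : Type u} [Field K] [AddCommGroup V] [Module K V] [AddCommGroup V'] [Module K V']
variable (S : SL K V) (S' : SL K V')

theorem etaO_apply (x : B → V) (b : B) : etaO S x b = zetO S (lam K b • x) := by
  rw [etaO_def, zetO_def, eta_apply]

theorem etaO_of_pr {x : B → V} (h : S.pr x = 0) : etaO S x = 0 := by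
  rw [etaO_def, eta_of_pr S h]

theorem pr_of_etaO {x : B → V} (h : etaO S x = 0) : S.pr x = 0 := by
  rw [etaO_def] at h
  exact pr_of_eta S h

theorem etaO_mem (x : B → V) : etaO S x ∈ (dB S).Kk := by
  rw [etaO_def]
  exact eta_mem S x

theorem etaO_surj {y : B → V} (h : y ∈ (dB S).Kk) : ∃ x, etaO S x = y := by
  rw [etaO_def]
  exact eta_surj S h

theorem etaO_nat {m : V →ₗ[K] V'} (h : Eqv S S' m) (x : B → V) :
    etaO S' (lact m x) = lact m (etaO S x) := by
  rw [etaO_def, etaO_def, eta_nat S S' h]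

theorem zetO_nat [CharZero K] {m : V →ₗ[K] V'} (h : Eqv S S' m) (x : B → V) :
    zetO S' (lact m x) = m (zetO S x) := by
  rw [zetO_def, zetO_def, zet_nat' S S' h]

theorem inl_eqv : Eqv S (SS S) (LinearMap.inl K V V) where
  e _ := Prod.ext rfl (map_zero S.e).symm
  f _ := Prod.ext rfl (map_zero S.f).symm
  h _ := Prod.ext rfl (map_zero S.h).symm

theorem inr_eqv : Eqv S (SS S) (LinearMap.inr K V V) where
  e _ := Prod.ext (map_zero S.e).symm rfl
  f _ := Prod.ext (map_zero S.f).symm rfl
  h _ := Prod.ext (map_zero S.h).symm rfl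

variable [CharZero K]

theorem zkP_inr {κ : V × V →ₗ[K] V'} (h : Eqv (UV S) S' κ) (r : Rg K) (y : B → V) :
    zetO S' (lact κ (PhO K V (r • lact (LinearMap.inr K V V) y))) = κ (0, zetO S (r • y)) := by
  rw [zetO_def, zetO_def, PhO_def, zet_kap_Phi S S' h, rsmul_lact, zet_nat' _ _ (inr_eqv S),
    LinearMap.inr_apply]

theorem zkP_inl {κ : V × V →ₗ[K] V'} (h : Eqv (UV S) S' κ) (r : Rg K) (y : B → V) :
    zetO S' (lact κ (PhO K V (r • lact (LinearMap.inl K V V) y))) = κ (zetO S (r • y), 0) := by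
  rw [zetO_def, zetO_def, PhO_def, zet_kap_Phi S S' h, rsmul_lact, zet_nat' _ _ (inl_eqv S),
    LinearMap.inl_apply]

end gen

variable {K : Type u} [Field K] [CharZero K] {n n' : ℕ}

theorem as2_PhO (x : Fin n → (B → K × K)) :
    as2 (fun i => PhO K K (x i)) = PhO K (Fin n → K) (as2 x) := by
  rw [PhO_def, PhO_def]
  exact as2_Phi x

theorem be1_rnuO (f : MB K →ₗ[K] K) (t : C0 K) :
    be1 K (rnu f t) = (0,
      fun b => (f (MB.mk (PhO K K (lam K b • vt (be0 K t).1))),
        - f (MB.mk (PhO K K (lam K b • vs (be0 K t).1)))),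
      fun b => f (MB.mk (lam K b • (be0 K t).2.1))) := by
  rw [PhO_def]
  exact be1_rnu f t

end Pool.Agent.H379.NK
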