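import Pool.Agent.H379.NK.Bim2
import Pool.Agent.H379.NK.Col

/-!
# The ring `T(Y)` and coordinates on its columns
-/

set_option autoImplicit false
set_option linter.unusedSectionVars false

namespace Pool.Agent.H379.NK

open W450.Rig Pool.Agent.H379.GS MulOpposite TrivSqZeroExt

universe u

instance rg_finite (K : Type u) [Field K] : Module.Finite K (Rg K) :=
  have := alg_finite K
  Module.Finite.equiv (MulOpposite.opLinearEquiv K)

/-- The triangular ring. -/
abbrev YY (K : Type u) [Field K] [CharZero K] : Type u := Tri (Rg K) (MB K)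

/-- Its trivial extension. -/
abbrev TT (K : Type u) [Field K] [CharZero K] : Type u := T K (YY K)

variable {K : Type u} [Field K] [CharZero K]

/-! ### Shortcut instances -/

instance (priority := 5000) yySc1 : Ring (YY K) := inferInstance
instance (priority := 5000) yySc2 : Semiring (YY K) := inferInstance
instance (priority := 5000) ttSc1 : Ring (TT K) := inferInstance
instance (priority := 5000) ttSc2 : Semiring (TT K) := inferInstance
instance (priority := 5000) ttSc3 : NonAssocSemiring (TT K) := inferInstance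
instance (priority := 5000) ttSc4 : Mul (TT K) := inferInstance
instance (priority := 5000) ttSc5 : AddCommGroup (TT K) := inferInstance
instance (priority := 5000) ttSc6 : AddCommMonoid (TT K) := inferInstance
instance (priority := 5000) ttSc7 : AddGroup (TT K) := inferInstance
instance (priority := 5000) ttSc8 : Add (TT K) := inferInstance
instance (priority := 5000) ttSc9 : Zero (TT K) := inferInstance
instance (priority := 5000) ttSc10 : Monoid (TT K) := inferInstance

/-- The idempotent at vertex `0`. -/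
def eps0 (K : Type u) [Field K] [CharZero K] : TT K := inl (Tri.mk 1 0 0)
/-- The idempotent at vertex `1`. -/
def eps1 (K : Type u) [Field K] [CharZero K] : TT K := inl (Tri.mk 0 1 0)
/-- Elements at vertex `0`. -/
def io0 (r : Rg K) : TT K := inl (Tri.mk r 0 0)
/-- Elements at vertex `1`. -/
def io1 (r : Rg K) : TT K := inl (Tri.mk 0 r 0)
/-- Elements of the bimodule. -/
def muM (m : MB K) : TT K := inl (Tri.mk 0 0 m)
/-- Functionals on the bimodule. -/
def nuM (f : MB K →ₗ[K] K) : TT K :=
  inr (DA.mk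
    { toFun := fun x => f x.m
      map_add' := fun x y => by rw [Tri.m_add, map_add]
      map_smul' := fun c x => by rw [Tri.m_smul, map_smul]; rfl })

theorem ev_nuM (f : MB K →ₗ[K] K) (x : YY K) : DA.ev (nuM f).snd x = f x.m := rfl

/-- `ev` of the dual part of a product -/
theorem ev_mul_snd (s t : TT K) (x : YY K) :
    DA.ev (s * t).snd x = DA.ev t.snd (x * s.fst) + DA.ev s.snd (t.fst * x) := by
  rw [TrivSqZeroExt.snd_mul, DA.ev_add, DA.ev_smul, DA.ev_op_smul, MulOpposite.unop_op]

theorem TT_ext {s t : TT K} (h1 : s.fst = t.fst) (h2 : ∀ x, DA.ev s.snd x = DA.ev t.snd x) :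
    s = t := TrivSqZeroExt.ext h1 (DA.ext h2)

theorem eps0_idem : eps0 K * eps0 K = eps0 K := by
  refine TT_ext (Tri.ext ?_ ?_ ?_) fun x => ?_
  · simp [eps0]
  · simp [eps0]
  · simp [eps0]
  · rw [ev_mul_snd]; simp [eps0]

theorem eps1_idem : eps1 K * eps1 K = eps1 K := by
  refine TT_ext (Tri.ext ?_ ?_ ?_) fun x => ?_
  · simp [eps1]
  · simp [eps1]
  · simp [eps1]
  · rw [ev_mul_snd]; simp [eps1]

theorem io0_eps (r : Rg K) : io0 r * eps0 K = io0 r := by
  refine TT_ext (Tri.ext ?_ ?_ ?_) fun x => ?_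
  · simp [eps0, io0]
  · simp [eps0, io0]
  · simp [eps0, io0]
  · rw [ev_mul_snd]; simp [eps0, io0]

theorem io1_eps (r : Rg K) : io1 r * eps1 K = io1 r := by
  refine TT_ext (Tri.ext ?_ ?_ ?_) fun x => ?_
  · simp [eps1, io1]
  · simp [eps1, io1]
  · simp [eps1, io1]
  · rw [ev_mul_snd]; simp [eps1, io1]

theorem muM_eps (m : MB K) : muM m * eps0 K = muM m := by
  refine TT_ext (Tri.ext ?_ ?_ ?_) fun x => ?_
  · simp [eps0, muM]
  · simp [eps0, muM]
  · simp [eps0, muM]
  · rw [ev_mul_snd]; simp [eps0, muM]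

theorem nuM_eps (f : MB K →ₗ[K] K) : nuM f * eps1 K = nuM f := by
  refine TT_ext (Tri.ext ?_ ?_ ?_) fun x => ?_
  · simp [eps1, nuM]
  · simp [eps1, nuM]
  · simp [eps1, nuM]
  · rw [ev_mul_snd, ev_nuM, ev_nuM]; simp [eps1]

/-! ### Membership in the columns -/

theorem col0_b (t : Col (eps0 K)) : t.1.fst.b = 0 := by
  have h := congrArg (fun s : TT K => s.fst.b) t.2
  simpa [eps0] using h.symm

theorem col0_ev (t : Col (eps0 K)) (x : YY K) :
    DA.ev t.1.snd x = DA.ev t.1.snd (Tri.mk x.a 0 0) := by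
  have h := congrArg (fun s : TT K => DA.ev s.snd x) (mem_Col.1 t.2)
  simp only [ev_mul_snd] at h
  have h0 : DA.ev (eps0 K).snd (x * t.1.fst) = 0 := rfl
  rw [h0, zero_add] at h
  rw [← h]
  congr 1
  exact Tri.ext (by simp [eps0]) (by simp [eps0]) (by simp [eps0])

theorem col1_a (t : Col (eps1 K)) : t.1.fst.a = 0 := by
  have h := congrArg (fun s : TT K => s.fst.a) (mem_Col.1 t.2)
  simpa [eps1] using h.symm

theorem col1_m (t : Col (eps1 K)) : t.1.fst.m = 0 := by
  have h := congrArg (fun s : TT K => s.fst.m) (mem_Col.1 t.2)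
  simpa [eps1] using h.symm

theorem col1_ev (t : Col (eps1 K)) (x : YY K) :
    DA.ev t.1.snd x = DA.ev t.1.snd (Tri.mk 0 x.b x.m) := by
  have h := congrArg (fun s : TT K => DA.ev s.snd x) (mem_Col.1 t.2)
  simp only [ev_mul_snd] at h
  have h0 : DA.ev (eps1 K).snd (x * t.1.fst) = 0 := rfl
  rw [h0, zero_add] at h
  rw [← h]
  congr 1
  exact Tri.ext (by simp [eps1]) (by simp [eps1]) (by simp [eps1])

end Pool.Agent.H379.NK
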