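import Pool.Agent.H379.NK.TY9

/-!
# The modules `N`
-/

set_option autoImplicit false
set_option linter.unusedSectionVars false

namespace Pool.Agent.H379.NK

open W450.Rig Pool.Agent.H379.GS MulOpposite TrivSqZeroExt

universe u

variable {K : Type u} [Field K] [CharZero K] {n : ℕ}

theorem theta_dec {x : Fin (n + 1 + 1) → C0 K} (h : (A0 (irr K (n + 1))).Dec x) :
    theta K n x = 0 := by
  have h1 : (Bl0 (irr K (n + 1))).Dec (Be0 K (n + 1 + 1) x) := (map0 (irr K (n + 1))).dec h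
  have h2 : Be1 K (n + 1) (theta K n x) = Be1 K (n + 1) 0 := by
    rw [Be1_bth, bth_dec h1, map_zero]
  exact Be1_bij.1 h2

theorem theta_psi (y : Fin (n + 1 + 1 + 1) → C1 K) : theta K n (psi K (n + 1) y) = 0 := by
  have h2 : Be1 K (n + 1) (theta K n (psi K (n + 1) y)) = Be1 K (n + 1) 0 := by
    rw [Be1_bth, Be0_bps, bth_bps, map_zero]
  exact Be1_bij.1 h2

theorem theta_p00 (x : Fin (n + 1 + 1) → C0 K) :
    theta K n ((A0 (irr K (n + 1))).p00 x) = theta K n x := by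
  have h1 := (map0 (irr K (n + 1))).p00 x
  have h2 : Be1 K (n + 1) (theta K n ((A0 (irr K (n + 1))).p00 x)) =
      Be1 K (n + 1) (theta K n x) := by
    rw [Be1_bth, Be1_bth, h1, bth_p00]
  exact Be1_bij.1 h2

theorem theta_ker {x : Fin (n + 1 + 1) → C0 K} (h0 : (A0 (irr K (n + 1))).p00 x = x)
    (h : theta K n x = 0) : ∃ y, (A1 (irr K (n + 1 + 1))).p00 y = y ∧
      (A0 (irr K (n + 1))).Dec (x - psi K (n + 1) y) := by
  have h1 : bth K n (Be0 K (n + 1 + 1) x) = 0 := by rw [← Be1_bth, h, map_zero]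
  have h2 : (Bl0 (irr K (n + 1))).p00 (Be0 K (n + 1 + 1) x) = Be0 K (n + 1 + 1) x := by
    rw [← (map0 (irr K (n + 1))).p00, h0]
  obtain ⟨y, hy, e⟩ := bth_ker h2 h1
  obtain ⟨z, rfl⟩ := Be1_bij.2 y
  have h3 := (map1 (irr K (n + 1 + 1))).p00 z
  have h4 : Be1 K (n + 1 + 1 + 1) ((A1 (irr K (n + 1 + 1))).p00 z) =
    Be1 K (n + 1 + 1 + 1) z := by rw [h3, hy]
  refine ⟨z, Be1_bij.1 h4, ?_⟩
  rw [← Be0_bps, ← map_sub] at e
  exact (map0 (irr K (n + 1))).dec_of Be0_bij e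

theorem theta_range : LinearMap.range (theta K (n + 1)) =
    N3 (A1 (irr K (n + 1))) (psi K n) := by
  ext w
  have key := bth_range (K := K) (n := n) (w := Be1 K (n + 1 + 1) w)
  constructor
  · rintro ⟨x, rfl⟩
    obtain ⟨h1, h2⟩ := key.1 ⟨Be0 K (n + 1 + 1 + 1) x, (Be1_bth x).symm⟩
    have h3 : Be0 K (n + 1) (psi K n (theta K (n + 1) x)) = Be0 K (n + 1) 0 := by
      rw [Be0_bps, h2, map_zero]
    exact ⟨((map1 (irr K (n + 1))).Kk Be1_bij.1).2 h1, Be0_bij.1 h3⟩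
  · rintro ⟨h1, h2⟩
    have h2' : psi K n w = 0 := h2
    obtain ⟨x, hx⟩ := key.2 ⟨((map1 (irr K (n + 1))).Kk Be1_bij.1).1 h1, by
      rw [← Be0_bps, h2', map_zero]⟩
    obtain ⟨z, rfl⟩ := Be0_bij.2 x
    have h3 : Be1 K (n + 1 + 1) (theta K (n + 1) z) = Be1 K (n + 1 + 1) w := by
      rw [Be1_bth, hx]
    exact ⟨z, Be1_bij.1 h3⟩

end Pool.Agent.H379.NK
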