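import Pool.Agent.H379.NK.TY10

/-!
# Linear maps into the modules concentrated at vertex `0`
-/

set_option autoImplicit false
set_option linter.unusedSectionVars false

namespace Pool.Agent.H379.NK

open W450.Rig Pool.Agent.H379.GS MulOpposite TrivSqZeroExt

universe u

/-- The projection to the algebra at vertex `0`. -/
def toR (K : Type u) [Field K] [CharZero K] : TT K →+* Rg K where
  toFun t := t.fst.a
  map_one' := rfl
  map_mul' s t := by rw [TrivSqZeroExt.fst_mul, Tri.a_mul]
  map_zero' := rfl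
  map_add' s t := by rw [TrivSqZeroExt.fst_add, Tri.a_add]

theorem toR_apply {K : Type u} [Field K] [CharZero K] (t : TT K) : toR K t = t.fst.a := rfl

/-- A module over the algebra as a module over `T`. -/
def JJ (_K : Type u) (W : Type u) : Type u := W

section jj

variable {K : Type u} [Field K] [CharZero K] {W : Type u} [AddCommGroup W] [Module (Rg K) W]

instance : AddCommGroup (JJ K W) := inferInstanceAs (AddCommGroup W)

instance : Module (TT K) (JJ K W) :=
  Module.compHom (R := Rg K) W (toR K)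

/-- identification -/
def JJ.of : W → JJ K W := fun x => x
/-- identification -/
def JJ.to : JJ K W → W := fun x => x

theorem JJ.of_add (x y : W) : (JJ.of (x + y) : JJ K W) = JJ.of x + JJ.of y := rfl
theorem JJ.of_zero : (JJ.of (0 : W) : JJ K W) = 0 := rfl
theorem JJ.smul_of (t : TT K) (x : W) : t • (JJ.of x : JJ K W) = JJ.of (toR K t • x) := rfl
theorem JJ.to_of (x : W) : JJ.to (JJ.of x : JJ K W) = x := rfl
theorem JJ.of_to (x : JJ K W) : JJ.of (JJ.to x) = x := rfl
theorem JJ.to_add (x y : JJ K W) : JJ.to (x + y) = JJ.to x + JJ.to y := rfl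
theorem JJ.to_zero : JJ.to (0 : JJ K W) = 0 := rfl
theorem JJ.to_smul (t : TT K) (x : JJ K W) : JJ.to (t • x) = toR K t • JJ.to x := rfl

end jj

variable {K : Type u} [Field K] [CharZero K] {n : ℕ}

/-- The first coordinate. -/
def fs (K : Type u) [Field K] [CharZero K] (n : ℕ) : (Fin n → C0 K) →+ (B → (Fin n → K)) :=
  (AddMonoidHom.fst _ _).comp (Be0 K n)

theorem fs_apply (x : Fin n → C0 K) : fs K n x = (Be0 K n x).1 := rfl

theorem asmB_fst (y : Fin n → (B → K) × (B → K × K) × (B → K)) :
    (asmB y).1 = as1 (fun i => (y i).1) := rfl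

theorem fs_as1 (x : Fin n → C0 K) : fs K n x = as1 (fun i => rco K (toR K (x i).1)) := by
  rw [fs_apply, Be0_apply, asmB_fst]
  congr 1

theorem rco_mul (r s : Rg K) : rco K (r * s) = r • rco K s := by
  rw [rco_apply, rco_apply, mul_smul]

theorem fs_smul (t : TT K) (x : Fin n → C0 K) : fs K n (t • x) = toR K t • fs K n x := by
  rw [fs_as1, fs_as1, ← as1_smul]
  congr 1
  funext i
  have h : toR K ((t • x) i).1 = toR K t * toR K (x i).1 := (toR K).map_mul t (x i).1
  rw [h, rco_mul]

theorem fs_surj : Function.Surjective (fs K n) := by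
  intro y
  obtain ⟨x, hx⟩ := Be0_bij.2 ((y, 0, 0) : Bl K n)
  exact ⟨x, congrArg Prod.fst hx⟩

variable {W : Type u} [AddCommGroup W] [Module (Rg K) W]

/-- Linear maps from powers of the column `0`. -/
def upm (g : (B → (Fin n → K)) →ₗ[Rg K] W) : (Fin n → C0 K) →ₗ[TT K] JJ K W where
  toFun x := JJ.of (g (fs K n x))
  map_add' x y := by rw [map_add, map_add, JJ.of_add]
  map_smul' t x := by rw [fs_smul, map_smul, RingHom.id_apply, JJ.smul_of]

theorem upm_apply (g : (B → (Fin n → K)) →ₗ[Rg K] W) (x : Fin n → C0 K) :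
    upm g x = JJ.of (g (fs K n x)) := rfl

/-- The coefficient map. -/
def cof (n : ℕ) (w : Fin n → W) : (B → (Fin n → K)) →ₗ[Rg K] W where
  toFun y := ∑ i, rmk (fun b => y b i) • w i
  map_add' x y := by
    rw [← Finset.sum_add_distrib]
    refine Finset.sum_congr rfl fun i _ => ?_
    have h : rmk (fun b => (x + y) b i) = rmk (fun b => x b i) + rmk (fun b => y b i) := by
      apply rco_inj
      rw [map_add, rco_rmk, rco_rmk, rco_rmk]
      rfl
    rw [h, add_smul]
  map_smul' r y := by
    rw [RingHom.id_apply, Finset.smul_sum]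
    refine Finset.sum_congr rfl fun i _ => ?_
    have h : rmk (fun b => (r • y) b i) = r * rmk (fun b => y b i) := by
      apply rco_inj
      rw [rco_mul, rco_rmk, rco_rmk]
      have h1 := as1_smul r (fun i => fun b => y b i)
      funext b
      exact (congrFun (congrFun h1 b) i).symm
    rw [h, mul_smul]

theorem hom0 (g : (Fin n → C0 K) →ₗ[TT K] JJ K W) :
    ∃ g' : (B → (Fin n → K)) →ₗ[Rg K] W, ∀ x, g x = JJ.of (g' (fs K n x)) := by
  classical
  let w : Fin n → W := fun i => JJ.to (g (Pi.single i ⟨eps0 K, eps0_idem⟩))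
  refine ⟨cof n w, fun x => ?_⟩
  have h1 : x = ∑ i, (x i).1 • (Pi.single i ⟨eps0 K, eps0_idem⟩ : Fin n → C0 K) := by
    funext k
    rw [Finset.sum_apply, Finset.sum_eq_single k]
    · rw [Pi.smul_apply, Pi.single_eq_same]
      exact Subtype.ext (x k).2.symm
    · intro j _ hj
      rw [Pi.smul_apply, Pi.single_eq_of_ne hj.symm, smul_zero]
    · intro h
      exact absurd (Finset.mem_univ k) h
  have h2 : g x = ∑ i, (x i).1 • g (Pi.single i ⟨eps0 K, eps0_idem⟩) := by
    conv_lhs => rw [h1]
    rw [map_sum]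
    exact Finset.sum_congr rfl fun i _ => map_smul g _ _
  rw [h2]
  show ∑ i, (x i).1 • g (Pi.single i ⟨eps0 K, eps0_idem⟩) =
    ∑ i, rmk (fun b => fs K n x b i) • w i
  refine Finset.sum_congr rfl fun i _ => ?_
  have h3 : rmk (fun b => fs K n x b i) = toR K (x i).1 := by
    have h4 : (fun b => fs K n x b i) = rco K (toR K (x i).1) := by
      rw [fs_as1]
      rfl
    rw [h4, rmk_rco]
  rw [h3]
  rfl

theorem hom1 (g : (Fin n → C1 K) →ₗ[TT K] JJ K W) (x : Fin n → C1 K) : g x = 0 := by
  classical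
  have h1 : x = ∑ i, (x i).1 • (Pi.single i ⟨eps1 K, eps1_idem⟩ : Fin n → C1 K) := by
    funext k
    rw [Finset.sum_apply, Finset.sum_eq_single k]
    · rw [Pi.smul_apply, Pi.single_eq_same]
      exact Subtype.ext (x k).2.symm
    · intro j _ hj
      rw [Pi.smul_apply, Pi.single_eq_of_ne hj.symm, smul_zero]
    · intro h
      exact absurd (Finset.mem_univ k) h
  have h2 : g x = ∑ i, (x i).1 • g (Pi.single i ⟨eps1 K, eps1_idem⟩) := by
    conv_lhs => rw [h1]
    rw [map_sum]
    exact Finset.sum_congr rfl fun i _ => map_smul g _ _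
  rw [h2]
  refine Finset.sum_eq_zero fun i _ => ?_
  obtain ⟨w, hw⟩ : ∃ w, w = g (Pi.single i ⟨eps1 K, eps1_idem⟩) := ⟨_, rfl⟩
  rw [← hw, ← JJ.of_to w, JJ.smul_of, toR_apply, col1_a, zero_smul, JJ.of_zero]

end Pool.Agent.H379.NK
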