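import Pool.Agent.H379.NK.TY11
import Pool.Graph.R_seed8.W450.RigVan

/-!
# Comparison with the complexes of the library
-/

set_option autoImplicit false
set_option linter.unusedSectionVars false

namespace Pool.Agent.H379.NK

open Pool.Agent.H379.GS MulOpposite TrivSqZeroExt

universe u

section mp4

universe v w v' w'

variable {O : Type u} [Ring O] {Q : Type v} [AddCommGroup Q] [Module O Q]
variable {O' : Type w} [Ring O'] {Q' : Type v'} [AddCommGroup Q'] [Module O' Q']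
variable {A : OS O Q} {A' : OS O' Q'}

/-- A map on each of the four components. -/
def mp4 (f : Q →+ Q') : X4 Q →+ X4 Q' := f.prodMap (f.prodMap (f.prodMap f))

theorem mp4_apply (f : Q →+ Q') (x : X4 Q) : mp4 f x = (f x.1, f x.2.1, f x.2.2.1, f x.2.2.2) :=
  rfl

theorem mp4_surj {f : Q →+ Q'} (hf : Function.Surjective f) : Function.Surjective (mp4 f) := by
  rintro ⟨a, b, c, d⟩
  obtain ⟨a, rfl⟩ := hf a
  obtain ⟨b, rfl⟩ := hf b
  obtain ⟨c, rfl⟩ := hf c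
  obtain ⟨d, rfl⟩ := hf d
  exact ⟨(a, b, c, d), rfl⟩

variable {f : Q →+ Q'} (m : OS.Map A A' f)
include m

theorem mp4_D1 (x : X4 Q) : mp4 f (A.D1 x) = A'.D1 (mp4 f x) := by
  obtain ⟨x0, xh, xf, xx⟩ := x
  refine Prod.ext ?_ (Prod.ext ?_ (Prod.ext ?_ ?_))
  · show f (A.E x0 + A.H xh + A.F xf) = A'.E (f x0) + A'.H (f xh) + A'.F (f xf)
    simp only [map_add, m.E, m.F, m.H]
  · exact map_zero f
  · exact map_zero f
  · exact map_zero f

theorem mp4_D2 (x : X4 Q) : mp4 f (A.D2 x) = A'.D2 (mp4 f x) := by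
  obtain ⟨x0, xh, xf, xx⟩ := x
  refine Prod.ext ?_ (Prod.ext ?_ (Prod.ext ?_ ?_))
  · show f (A.W x0 - (A.H xh + A.z xh) - A.F xf) =
      A'.W (f x0) - (A'.H (f xh) + A'.z (f xh)) - A'.F (f xf)
    simp only [map_add, map_sub, m.W, m.F, m.H, m.z]
  · show f (A.E xh + A.a xf + A.F xx) = A'.E (f xh) + A'.a (f xf) + A'.F (f xx)
    simp only [map_add, m.E, m.F, m.a]
  · show f (A.E xf - (A.H xx - A.z xx)) = A'.E (f xf) - (A'.H (f xx) - A'.z (f xx))
    simp only [map_sub, m.E, m.H, m.z]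
  · exact map_zero f

theorem mp4_Do (k : ℤ) (x : X4 Q) : mp4 f (A.Do k x) = A'.Do k (mp4 f x) := by
  obtain ⟨x0, xh, xf, xx⟩ := x
  refine Prod.ext ?_ (Prod.ext ?_ (Prod.ext ?_ ?_))
  · show f (A.E x0 + A.H xh + A.F xf + k • A.a (A.z (A.z xx))) =
      A'.E (f x0) + A'.H (f xh) + A'.F (f xf) + k • A'.a (A'.z (A'.z (f xx)))
    simp only [map_add, map_zsmul, m.E, m.F, m.H, m.a, m.z]
  · show f (A.W xh - A.B xf - A.F xx) = A'.W (f xh) - A'.B (f xf) - A'.F (f xx)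
    simp only [map_sub, m.W, m.B, m.F]
  · show f (A.W xf + A.H xx) = A'.W (f xf) + A'.H (f xx)
    simp only [map_add, m.W, m.H]
  · exact m.E xx

theorem mp4_De (c : ℤ) (x : X4 Q) : mp4 f (A.De c x) = A'.De c (mp4 f x) := by
  obtain ⟨x0, xh, xf, xx⟩ := x
  refine Prod.ext ?_ (Prod.ext ?_ (Prod.ext ?_ ?_))
  · show f (A.W x0 - (A.H xh + A.z xh) - A.F xf + c • A.B (A.z (A.z xx))) =
      A'.W (f x0) - (A'.H (f xh) + A'.z (f xh)) - A'.F (f xf) + c • A'.B (A'.z (A'.z (f xx)))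
    simp only [map_add, map_sub, map_zsmul, m.W, m.F, m.H, m.B, m.z]
  · show f (A.E xh + A.a xf + A.F xx) = A'.E (f xh) + A'.a (f xf) + A'.F (f xx)
    simp only [map_add, m.E, m.F, m.a]
  · show f (A.E xf - (A.H xx - A.z xx)) = A'.E (f xf) - (A'.H (f xx) - A'.z (f xx))
    simp only [map_sub, m.E, m.H, m.z]
  · exact m.W xx

theorem mp4_D (n : ℕ) (x : X4 Q) : mp4 f (A.D n x) = A'.D n (mp4 f x) := by
  match n with
  | 0 => exact mp4_D1 m x
  | 1 => exact mp4_D2 m x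
  | n + 2 =>
    rcases Nat.even_or_odd' n with ⟨k, rfl | rfl⟩
    · rw [A.D_even, A'.D_even]
      exact mp4_Do m _ x
    · rw [show 2 * k + 1 + 2 = 2 * k + 3 by omega, A.D_odd, A'.D_odd]
      exact mp4_De m _ x

theorem mp4_pn (n : ℕ) (x : X4 Q) : mp4 f (A.pn n x) = A'.pn n (mp4 f x) := by
  obtain ⟨x0, xh, xf, xx⟩ := x
  match n with
  | 0 => exact Prod.ext (m.p00 x0) (Prod.ext (map_zero f) (Prod.ext (map_zero f) (map_zero f)))
  | 1 => exact Prod.ext (m.p10 x0) (Prod.ext (m.p01 xh) (Prod.ext (m.p01 xf) (map_zero f)))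
  | n + 2 =>
    rw [OS.pn, OS.pn]
    split_ifs
    · exact Prod.ext (m.p00 x0) (Prod.ext (m.p11 xh) (Prod.ext (m.p11 xf) (m.p02 xx)))
    · exact Prod.ext (m.p10 x0) (Prod.ext (m.p01 xh) (Prod.ext (m.p01 xf) (m.p12 xx)))

theorem mp4_mem {n : ℕ} {x : X4 Q} (hx : x ∈ A.Pn n) : mp4 f x ∈ A'.Pn n := by
  rw [OS.mem_Pn] at hx ⊢
  rw [← mp4_pn m, hx]

theorem mp4_lift (L : A.Laws) (hf : Function.Surjective f) {n : ℕ} {y : X4 Q'}
    (hy : y ∈ A'.Pn n) : ∃ x ∈ A.Pn n, mp4 f x = y := by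
  obtain ⟨x, rfl⟩ := mp4_surj hf y
  rw [OS.mem_Pn] at hy
  exact ⟨A.pn n x, (OS.mem_Pn A n _).2 (L.pn_idem n x), by rw [mp4_pn m, hy]⟩

end mp4

open W450.Rig

section lib

variable {K : Type u} [Field K] {V V' : Type u} [AddCommGroup V] [Module K V]
  [AddCommGroup V'] [Module K V'] (S : SL K V) (S' : SL K V')

theorem lib_D (n : ℕ) (x : W450.Rig.X4 V) : (rB S).D n x = S.D n x := by
  match n with
  | 0 => rfl
  | 1 => rfl
  | n + 2 =>
    rcases Nat.even_or_odd' n with ⟨k, rfl | rfl⟩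
    · rw [OS.D_even, SL.D_even]
      rfl
    · rw [show 2 * k + 1 + 2 = 2 * k + 3 by omega, OS.D_odd, SL.D_odd]
      rfl

theorem lib_Pn (n : ℕ) (x : W450.Rig.X4 V) : x ∈ (rB S).Pn n ↔ x ∈ S.Rn n := by
  match n with
  | 0 => exact Iff.rfl
  | 1 => exact Iff.rfl
  | n + 2 =>
    rcases Nat.even_or_odd' n with ⟨k, rfl | rfl⟩
    · rw [OS.mem_Pe, SL.mem_Re]
      exact Iff.rfl
    · rw [show 2 * k + 1 + 2 = 2 * k + 3 by omega, OS.mem_Po, SL.mem_Ro]
      exact Iff.rfl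

end lib

end Pool.Agent.H379.NK
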