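import Pool.Agent.H379.NK.TY12
import Pool.Graph.R_seed8.W450.RigGreen

/-!
# Exactness of `Hom(C, X)`
-/

set_option autoImplicit false
set_option linter.unusedSectionVars false

namespace Pool.Agent.H379.NK

open W450.Rig Pool.Agent.H379.GS MulOpposite TrivSqZeroExt

universe u

variable {K : Type u} [Field K] [CharZero K] {n n' : ℕ}

theorem fsMap (S : SL K (Fin n → K)) : OS.Map (A0 S) (rB S) (fs K n) where
  E x := by rw [fs_apply, (map0 S).E, Bl0_E, fs_apply]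
  F x := by rw [fs_apply, (map0 S).F, Bl0_F, fs_apply]
  H x := by rw [fs_apply, (map0 S).H, Bl0_H, fs_apply]
  W x := by rw [fs_apply, (map0 S).W, Bl0_W, fs_apply]
  a x := by rw [fs_apply, (map0 S).a, Bl0_a, fs_apply]
  B x := by rw [fs_apply, (map0 S).B, Bl0_B, fs_apply]
  z x := by rw [fs_apply, (map0 S).z, Bl0_z, fs_apply]
  p00 x := by rw [fs_apply, (map0 S).p00, Bl0_p00, fs_apply]
  p01 x := by rw [fs_apply, (map0 S).p01, Bl0_p01, fs_apply]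
  p02 x := by rw [fs_apply, (map0 S).p02, Bl0_p02, fs_apply]
  p10 x := by rw [fs_apply, (map0 S).p10, Bl0_p10, fs_apply]
  p11 x := by rw [fs_apply, (map0 S).p11, Bl0_p11, fs_apply]
  p12 x := by rw [fs_apply, (map0 S).p12, Bl0_p12, fs_apply]

theorem fs_psi (y : Fin (n + 1 + 1) → C1 K) : fs K (n + 1) (psi K n y) = 0 := by
  rw [fs_apply, Be0_bps, bps_apply]

theorem mp4_fs_psi4 (y : X4 (Fin (n + 1 + 1) → C1 K)) :
    mp4 (fs K (n + 1)) (psi4 (psi K n) y) = 0 := by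
  rw [mp4_apply]
  exact Prod.ext (fs_psi _) (Prod.ext (fs_psi _) (Prod.ext (fs_psi _) (fs_psi _)))

section four

variable {W : Type u} [AddCommGroup W] [Module (Rg K) W]

/-- four maps -/
def cop4 {R Q W : Type u} [Ring R] [AddCommGroup Q] [Module R Q] [AddCommGroup W] [Module R W]
    (a b c d : Q →ₗ[R] W) : X4 Q →ₗ[R] W := a.coprod (b.coprod (c.coprod d))

theorem cop4_apply {R Q W : Type u} [Ring R] [AddCommGroup Q] [Module R Q] [AddCommGroup W]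
    [Module R W] (a b c d : Q →ₗ[R] W) (x : X4 Q) :
    cop4 a b c d x = a x.1 + (b x.2.1 + (c x.2.2.1 + d x.2.2.2)) := rfl

theorem split4' {R Q W : Type u} [Ring R] [AddCommGroup Q] [Module R Q] [AddCommGroup W]
    [Module R W] (g : X4 Q →ₗ[R] W) : ∃ a b c d : Q →ₗ[R] W, g = cop4 a b c d := by
  refine ⟨g ∘ₗ LinearMap.inl R _ _, g ∘ₗ LinearMap.inr R _ _ ∘ₗ LinearMap.inl R _ _,
    g ∘ₗ LinearMap.inr R _ _ ∘ₗ LinearMap.inr R _ _ ∘ₗ LinearMap.inl R _ _,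
    g ∘ₗ LinearMap.inr R _ _ ∘ₗ LinearMap.inr R _ _ ∘ₗ LinearMap.inr R _ _, ?_⟩
  refine LinearMap.ext fun x => ?_
  obtain ⟨a, b, c, d⟩ := x
  rw [cop4_apply]
  simp only [LinearMap.comp_apply, LinearMap.inl_apply, LinearMap.inr_apply]
  rw [← map_add, ← map_add, ← map_add]
  congr 1
  simp

theorem homX0 (g : X4 (Fin n → C0 K) →ₗ[TT K] JJ K W) :
    ∃ G : X4 (B → (Fin n → K)) →ₗ[Rg K] W, ∀ x, g x = JJ.of (G (mp4 (fs K n) x)) := by
  obtain ⟨a, b, c, d, rfl⟩ := split4' g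
  obtain ⟨a', ha⟩ := hom0 a
  obtain ⟨b', hb⟩ := hom0 b
  obtain ⟨c', hc⟩ := hom0 c
  obtain ⟨d', hd⟩ := hom0 d
  refine ⟨cop4 a' b' c' d', fun x => ?_⟩
  rw [cop4_apply, cop4_apply, mp4_apply, ha, hb, hc, hd]
  rfl

theorem homX1 (g : X4 (Fin n → C1 K) →ₗ[TT K] JJ K W) (x : X4 (Fin n → C1 K)) : g x = 0 := by
  obtain ⟨a, b, c, d, rfl⟩ := split4' g
  rw [cop4_apply, hom1, hom1, hom1, hom1]
  simp

theorem homF (g : CF (Fin n → C0 K) (Fin n' → C1 K) →ₗ[TT K] JJ K W) :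
    ∃ G : X4 (B → (Fin n → K)) →ₗ[Rg K] W, ∀ x, g x = JJ.of (G (mp4 (fs K n) x.1)) := by
  obtain ⟨G, hG⟩ := homX0 (g ∘ₗ LinearMap.inl _ _ _)
  refine ⟨G, fun x => ?_⟩
  rw [← hG]
  have h := homX1 (g ∘ₗ LinearMap.inr _ _ _) x.2
  have e : x = LinearMap.inl (TT K) _ _ x.1 + LinearMap.inr (TT K) _ _ x.2 := by
    rw [LinearMap.inl_apply, LinearMap.inr_apply]
    exact Prod.ext (add_zero _).symm (zero_add _).symm
  conv_lhs => rw [e]
  rw [map_add]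
  rw [LinearMap.comp_apply] at h
  rw [h, add_zero]
  rfl

theorem mp4_fs_smul (t : TT K) (x : X4 (Fin n → C0 K)) :
    mp4 (fs K n) (t • x) = toR K t • mp4 (fs K n) x := by
  rw [mp4_apply, mp4_apply]
  exact Prod.ext (fs_smul _ _) (Prod.ext (fs_smul _ _) (Prod.ext (fs_smul _ _) (fs_smul _ _)))

/-- Maps on the cone from maps on the first coordinates. -/
def upF (n' : ℕ) (G : X4 (B → (Fin n → K)) →ₗ[Rg K] W) :
    CF (Fin n → C0 K) (Fin n' → C1 K) →ₗ[TT K] JJ K W where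
  toFun x := JJ.of (G (mp4 (fs K n) x.1))
  map_add' x y := by rw [Prod.fst_add, map_add, map_add, JJ.of_add]
  map_smul' t x := by rw [Prod.smul_fst, mp4_fs_smul, map_smul, RingHom.id_apply, JJ.smul_of]

theorem upF_apply (G : X4 (B → (Fin n → K)) →ₗ[Rg K] W)
    (x : CF (Fin n → C0 K) (Fin n' → C1 K)) :
    upF n' G x = JJ.of (G (mp4 (fs K n) x.1)) := rfl

end four

/-- The module `X`. -/
abbrev XX (K : Type u) [Field K] [CharZero K] : Type u := JJ K (irr K 0).Wm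

theorem cocX (m n : ℕ)
    (g : CF (Fin (m + 1) → C0 K) (Fin (m + 1 + 1) → C1 K) →ₗ[TT K] XX K)
    (hg : ∀ y ∈ Cn (A0 (irr K m)) (A1 (irr K (m + 1))) (n + 2),
      g (cd (A0 (irr K m)) (A1 (irr K (m + 1))) (psi K m) (n + 1) y) = 0) :
    ∃ φ : CF (Fin (m + 1) → C0 K) (Fin (m + 1 + 1) → C1 K) →ₗ[TT K] XX K,
      ∀ x ∈ Cn (A0 (irr K m)) (A1 (irr K (m + 1))) (n + 1),
        g x = φ (cd (A0 (irr K m)) (A1 (irr K (m + 1))) (psi K m) n x) := by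
  obtain ⟨G, hG⟩ := homF g
  obtain ⟨_, _, D⟩ := cohData_of_green (irr K m) (irr K 0) (green_irr K m 0)
  obtain ⟨φ, hφ⟩ := (irr K m).coc (irr K 0) D n G (by
    intro y hy
    obtain ⟨x, hx, rfl⟩ := mp4_lift (fsMap (irr K m)) (L0 _) fs_surj ((lib_Pn _ _ _).2 hy)
    have hx0 : ((x, 0) : CF (Fin (m + 1) → C0 K) (Fin (m + 1 + 1) → C1 K)) ∈
        Cn (A0 (irr K m)) (A1 (irr K (m + 1))) (n + 2) := mem_Cn.2 ⟨hx, Submodule.zero_mem _⟩
    have h1 := hg _ hx0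
    rw [hG, cd_succ_apply, map_zero, add_zero] at h1
    have h2 := mp4_D (fsMap (irr K m)) (n + 1) x
    rw [← lib_D, ← h2]
    exact h1)
  refine ⟨upF _ φ, fun x hx => ?_⟩
  have hx1 := (mem_Cn.1 hx).1
  have h3 := hφ _ ((lib_Pn _ _ _).1 (mp4_mem (fsMap (irr K m)) hx1))
  have h4 : (cd (A0 (irr K m)) (A1 (irr K (m + 1))) (psi K m) n x).1 =
      (A0 (irr K m)).D n x.1 + psi4 (psi K m) x.2 := by
    match n with
    | 0 => rfl
    | n + 1 => rfl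
  rw [hG, h3, upF_apply, h4, map_add, mp4_fs_psi4, add_zero, mp4_D (fsMap (irr K m)), lib_D]

end Pool.Agent.H379.NK
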