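import Pool.Agent.H379.NK.TY13
import Pool.Graph.R_seed8.W450.RigFam

/-!
# There are no maps from `N_{m+1}` to `X`
-/

set_option autoImplicit false
set_option linter.unusedSectionVars false

namespace Pool.Agent.H379.NK

open W450.Rig Pool.Agent.H379.GS MulOpposite TrivSqZeroExt

universe u

variable {K : Type u} [Field K] [CharZero K] {n : ℕ}

section blk

variable {V V' : Type u} [AddCommGroup V] [Module K V] [AddCommGroup V'] [Module K V']
  {S : SL K V} {S' : SL K V'} {m : V →ₗ[K] V'}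

theorem eO_E (x : B → V) : etaO S ((rB S).E x) = 0 := etaO_of_pr S (S.pr_E x)
theorem eO_H (x : B → V) : etaO S ((rB S).H x) = 0 := etaO_of_pr S (S.pr_H x)
theorem eO_F (x : B → V) : etaO S ((rB S).F x) = 0 := etaO_of_pr S (S.pr_F x)

theorem eOl_E (h : Eqv S S' m) (x : B → V) : etaO S' (lact m ((rB S).E x)) = 0 := by
  have h1 : lact m ((rB S).E x) = (rB S').E (lact m x) := (rB_nat h).E x
  rw [h1, eO_E]
theorem eOl_H (h : Eqv S S' m) (x : B → V) : etaO S' (lact m ((rB S).H x)) = 0 := by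
  have h1 : lact m ((rB S).H x) = (rB S').H (lact m x) := (rB_nat h).H x
  rw [h1, eO_H]
theorem eOl_F (h : Eqv S S' m) (x : B → V) : etaO S' (lact m ((rB S).F x)) = 0 := by
  have h1 : lact m ((rB S).F x) = (rB S').F (lact m x) := (rB_nat h).F x
  rw [h1, eO_F]

end blk

theorem bth_E (x : Bl K (n + 1 + 1)) : bth K n ((Bl0 (irr K (n + 1))).E x) = 0 := by
  have h : etaO (irr K n) (lact (kap K n) ((rB (UV (irr K (n + 1)))).E x.2.1)) = 0 :=
    eOl_E (kap_eqv n) _
  rw [Bl0_E, bth_apply]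
  refine Prod.ext rfl (Prod.ext ?_ h)
  show lact (iot K n) (etaO (irr K (n + 1)) ((rB (irr K (n + 1))).E x.1)) = 0
  rw [eO_E, map_zero]

theorem bth_H (x : Bl K (n + 1 + 1)) : bth K n ((Bl0 (irr K (n + 1))).H x) = 0 := by
  have h : etaO (irr K n) (lact (kap K n) ((rB (UV (irr K (n + 1)))).H x.2.1)) = 0 :=
    eOl_H (kap_eqv n) _
  rw [Bl0_H, bth_apply]
  refine Prod.ext rfl (Prod.ext ?_ h)
  show lact (iot K n) (etaO (irr K (n + 1)) ((rB (irr K (n + 1))).H x.1)) = 0
  rw [eO_H, map_zero]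

theorem bth_F (x : Bl K (n + 1 + 1)) : bth K n ((Bl0 (irr K (n + 1))).F x) = 0 := by
  have h : etaO (irr K n) (lact (kap K n) ((rB (UV (irr K (n + 1)))).F x.2.1)) = 0 :=
    eOl_F (kap_eqv n) _
  rw [Bl0_F, bth_apply]
  refine Prod.ext rfl (Prod.ext ?_ h)
  show lact (iot K n) (etaO (irr K (n + 1)) ((rB (irr K (n + 1))).F x.1)) = 0
  rw [eO_F, map_zero]

theorem theta_E (x : Fin (n + 1 + 1) → C0 K) : theta K n ((A0 (irr K (n + 1))).E x) = 0 := by
  have h1 := (map0 (irr K (n + 1))).E x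
  have h2 : Be1 K (n + 1) (theta K n ((A0 (irr K (n + 1))).E x)) = Be1 K (n + 1) 0 := by
    rw [Be1_bth, h1, bth_E, map_zero]
  exact Be1_bij.1 h2

theorem theta_H (x : Fin (n + 1 + 1) → C0 K) : theta K n ((A0 (irr K (n + 1))).H x) = 0 := by
  have h1 := (map0 (irr K (n + 1))).H x
  have h2 : Be1 K (n + 1) (theta K n ((A0 (irr K (n + 1))).H x)) = Be1 K (n + 1) 0 := by
    rw [Be1_bth, h1, bth_H, map_zero]
  exact Be1_bij.1 h2

theorem theta_F (x : Fin (n + 1 + 1) → C0 K) : theta K n ((A0 (irr K (n + 1))).F x) = 0 := by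
  have h1 := (map0 (irr K (n + 1))).F x
  have h2 : Be1 K (n + 1) (theta K n ((A0 (irr K (n + 1))).F x)) = Be1 K (n + 1) 0 := by
    rw [Be1_bth, h1, bth_F, map_zero]
  exact Be1_bij.1 h2

/-- An equivariant-looking map killing the relations is zero. -/
theorem no_hom (G : (B → (Fin (n + 1 + 1) → K)) →ₗ[Rg K] (irr K 0).Wm)
    (hE : ∀ x, G ((irr K (n + 1)).E x) = 0) (hH : ∀ x, G ((irr K (n + 1)).H x) = 0)
    (hF : ∀ x, G ((irr K (n + 1)).F x) = 0) (hP : ∀ x, G ((irr K (n + 1)).p00 x) = G x) :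
    ∀ x, G x = 0 := by
  have hN : (irr K (n + 1)).N ≤ LinearMap.ker G := by
    rintro _ ⟨y, rfl⟩
    show G ((irr K (n + 1)).E y.1 + (irr K (n + 1)).H y.2.1 + (irr K (n + 1)).F y.2.2.1 +
      (y.2.2.2 - (irr K (n + 1)).p00 y.2.2.2)) = 0
    rw [map_add, map_add, map_add, map_sub, hE, hH, hF, hP, sub_self]
    simp
  obtain ⟨m, hm, h1, h2, h3⟩ := (irr K (n + 1)).hom_desc (irr K 0)
    ((irr K (n + 1)).N.liftQ G hN)
  have hm0 : m = 0 := no_inv n m h1 h2 h3
  intro x
  have h4 := hm x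
  have h5 : (irr K (n + 1)).N.liftQ G hN ((irr K (n + 1)).pr x) = G x := rfl
  rw [h5, hm0] at h4
  rw [h4]
  have h6 : lactR (0 : (Fin (n + 1 + 1) → K) →ₗ[K] (Fin (0 + 1) → K)) x = 0 := rfl
  rw [h6, map_zero]

theorem hom_theta (g : LinearMap.range (theta K n) →ₗ[TT K] XX K) : g = 0 := by
  obtain ⟨G, hG⟩ := hom0 (g ∘ₗ (theta K n).rangeRestrict)
  have hz : ∀ x, theta K n x = 0 → G (fs K (n + 1 + 1) x) = 0 := by
    intro x hx
    have h1 := hG x
    have h2 : (theta K n).rangeRestrict x = 0 := Subtype.ext hx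
    rw [LinearMap.comp_apply, h2, map_zero] at h1
    exact h1.symm
  have hall : ∀ y, G y = 0 := by
    apply no_hom
    · intro y
      obtain ⟨x, rfl⟩ := fs_surj y
      have h1 := (fsMap (irr K (n + 1))).E x
      have h2 := hz _ (theta_E x)
      rw [h1] at h2
      exact h2
    · intro y
      obtain ⟨x, rfl⟩ := fs_surj y
      have h1 := (fsMap (irr K (n + 1))).H x
      have h2 := hz _ (theta_H x)
      rw [h1] at h2
      exact h2
    · intro y
      obtain ⟨x, rfl⟩ := fs_surj y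
      have h1 := (fsMap (irr K (n + 1))).F x
      have h2 := hz _ (theta_F x)
      rw [h1] at h2
      exact h2
    · intro y
      obtain ⟨x, rfl⟩ := fs_surj y
      have h1 := (fsMap (irr K (n + 1))).p00 x
      have h2 := hz ((A0 (irr K (n + 1))).p00 x - x) (by rw [map_sub, theta_p00, sub_self])
      rw [map_sub, map_sub, h1, sub_eq_zero] at h2
      exact h2
  refine LinearMap.ext fun w => ?_
  obtain ⟨w, x, rfl⟩ := w
  have h1 := hG x
  rw [hall] at h1
  exact h1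

end Pool.Agent.H379.NK
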