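import Pool.Agent.H379.NK.TY14
import Pool.Agent.H379.NK.LemE

/-!
# Assembly of the resolutions
-/

set_option autoImplicit false
set_option linter.unusedSectionVars false

namespace Pool.Agent.H379.NK

open CategoryTheory.Abelian

universe u

section gen

variable {O : Type u} [Ring O] {Q0 Q1 N N' X : Type u} [AddCommGroup Q0] [Module O Q0]
  [AddCommGroup Q1] [Module O Q1] [AddCommGroup N] [Module O N] [AddCommGroup X] [Module O X]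
variable {A0 : OS O Q0} {A1 : OS O Q1} {ψ : Q1 →ₗ[O] Q0}

/-- The augmentation. -/
def pi0 (A0 : OS O Q0) (A1 : OS O Q1) (θ : Q0 →ₗ[O] N) : Cn A0 A1 0 →ₗ[O] N :=
  θ ∘ₗ LinearMap.fst O _ _ ∘ₗ LinearMap.fst O _ _ ∘ₗ (Cn A0 A1 0).subtype

theorem pi0_apply (θ : Q0 →ₗ[O] N) (x : Cn A0 A1 0) : pi0 A0 A1 θ x = θ x.1.1.1 := rfl

/-- The properties of the augmentation. -/
structure AugHyp (A0 : OS O Q0) (A1 : OS O Q1) (ψ : Q1 →ₗ[O] Q0) (θ : Q0 →ₗ[O] N) : Prop where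
  surj : Function.Surjective θ
  p00 : ∀ x, θ (A0.p00 x) = θ x
  E : ∀ x, θ (A0.E x) = 0
  H : ∀ x, θ (A0.H x) = 0
  F : ∀ x, θ (A0.F x) = 0
  psi : ∀ y, θ (ψ y) = 0
  ker : ∀ x, A0.p00 x = x → θ x = 0 → ∃ y, A1.p00 y = y ∧ A0.Dec (x - ψ y)

theorem pi0_surj {θ : Q0 →ₗ[O] N} (L0 : A0.Laws) (h : AugHyp A0 A1 ψ θ) :
    Function.Surjective (pi0 A0 A1 θ) := by
  intro w
  obtain ⟨x, rfl⟩ := h.surj w
  exact ⟨⟨((A0.p00 x, 0), 0), mem_Cn0.2 ⟨A0.mem_P0.2 ⟨L0.i00 x, rfl⟩, rfl⟩⟩, h.p00 x⟩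

theorem pi0_ex {θ : Q0 →ₗ[O] N} (h : AugHyp A0 A1 ψ θ) (x : Cn A0 A1 0) :
    pi0 A0 A1 θ x = 0 ↔ ∃ y ∈ Cn A0 A1 1, cd A0 A1 ψ 0 y = x := by
  constructor
  · intro hx
    obtain ⟨x, hm⟩ := x
    obtain ⟨h1, h2⟩ := mem_Cn0.1 hm
    obtain ⟨h3, h4⟩ := A0.mem_P0.1 h1
    obtain ⟨y, hy, y0, yh, yf, k1, k2, k3, k4⟩ := h.ker _ h3 hx
    refine ⟨((y0, yh, yf, 0), (y, 0)), mem_Cn.2 ⟨A0.mem_P1.2 ⟨k1, k2, k3, rfl⟩,
      A1.mem_P0.2 ⟨hy, rfl⟩⟩, ?_⟩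
    rw [cd_zero_apply]
    refine Prod.ext (Prod.ext ?_ ?_) h2.symm
    · show A0.E y0 + A0.H yh + A0.F yf + ψ y = x.1.1
      rw [k4]
      abel
    · show (0 : Q0 × Q0 × Q0) + (psi4 ψ (y, 0)).2 = x.1.2
      rw [h4]
      show (0 : Q0 × Q0 × Q0) + (ψ 0, ψ 0, ψ 0) = 0
      rw [map_zero, zero_add]
      rfl
  · rintro ⟨y, hy, e⟩
    rw [pi0_apply, ← e, cd_zero_apply]
    show θ (A0.E y.1.1 + A0.H y.1.2.1 + A0.F y.1.2.2.1 + ψ y.2.1) = 0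
    rw [map_add, map_add, map_add, h.E, h.H, h.F, h.psi]
    simp

/-- The map to the third homology. -/
def tau3 (L0 : A0.Laws) (L1 : A1.Laws) (h : ConeHyp A0 A1 ψ) (M : Submodule O Q1)
    (hM : M = N3 A1 ψ) :
    (Cn A0 A1 3 ⊓ LinearMap.ker (cd A0 A1 ψ 2) : Submodule O (CF Q0 Q1)) →ₗ[O] M :=
  LinearMap.codRestrict M
    (tau Q0 A1 ∘ₗ (Cn A0 A1 3 ⊓ LinearMap.ker (cd A0 A1 ψ 2) : Submodule O (CF Q0 Q1)).subtype)
    (fun x => by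
      rw [hM]
      exact tau_mem L0 L1 h x.2.1 x.2.2)

theorem tau3_val (L0 : A0.Laws) (L1 : A1.Laws) (h : ConeHyp A0 A1 ψ) (M : Submodule O Q1)
    (hM : M = N3 A1 ψ)
    (x : (Cn A0 A1 3 ⊓ LinearMap.ker (cd A0 A1 ψ 2) : Submodule O (CF Q0 Q1))) :
    ((tau3 L0 L1 h M hM x : M) : Q1) = tau Q0 A1 x.1 := rfl

/-- The data of Lemma E. -/
def mkC (L0 : A0.Laws) (L1 : A1.Laws) (X0 : A0.EWex) (X1 : A1.EWex) (G0 : A0.Ex1)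
    (G1 : A1.Ex1) (h : ConeHyp A0 A1 ψ) (θ : Q0 →ₗ[O] N) (hθ : AugHyp A0 A1 ψ θ)
    (M : Submodule O Q1) (hM : M = N3 A1 ψ)
    (hc : ∀ (n : ℕ) (g : CF Q0 Q1 →ₗ[O] X),
      (∀ y ∈ Cn A0 A1 (n + 2), g (cd A0 A1 ψ (n + 1) y) = 0) →
      ∃ φ : CF Q0 Q1 →ₗ[O] X, ∀ x ∈ Cn A0 A1 (n + 1), g x = φ (cd A0 A1 ψ n x)) :
    CData O (CF Q0 Q1) N M X where
  p := cp A0 A1
  C := Cn A0 A1
  d := cd A0 A1 ψ
  π := pi0 A0 A1 θ
  τ := tau3 L0 L1 h M hM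
  p_mem n x := cp_idem L0 L1 n x
  p_id n x hx := hx
  d_mem n x hx := cd_mem L0 L1 h.map n hx
  dd n x hx := cd_cd L0 L1 h.map n hx
  ex n hn x hx h0 := cd_ex L0 L1 X0 X1 G0 G1 h n hn hx h0
  π_surj := pi0_surj L0 hθ
  π_ex := pi0_ex hθ
  τ_surj := by
    rintro ⟨w, hw⟩
    have hw' : w ∈ N3 A1 ψ := hM ▸ hw
    obtain ⟨x, hx, h0, e⟩ := tau_surj L0 L1 X0 X1 h hw'
    exact ⟨⟨x, hx, h0⟩, Subtype.ext e⟩
  τ_ex := by
    rintro ⟨x, hx, h0⟩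
    constructor
    · intro e
      exact tau_zero L0 L1 X0 X1 h hx h0 (congrArg Subtype.val e)
    · rintro ⟨y, hy, e⟩
      refine Subtype.ext ?_
      show tau Q0 A1 x = 0
      have e' : cd A0 A1 ψ 3 y = x := e
      rw [← e']
      exact tau_cd L0 L1 hy
  coc := hc

end gen

/-! ### Projectivity -/

theorem proj_pi {R M : Type u} [Ring R] [AddCommGroup M] [Module R M] [Module.Projective R M]
    (n : ℕ) : Module.Projective R (Fin n → M) := by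
  have h : Module.Projective R (Π₀ _ : Fin n, M) := inferInstance
  exact Module.Projective.of_equiv (DFinsupp.linearEquivFunOnFintype (R := R) (M := fun _ : Fin n => M))

end Pool.Agent.H379.NK
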