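import Pool.Agent.H379.NK.TY15

/-!
# The vanishing of `Ext`
-/

set_option autoImplicit false
set_option linter.unusedSectionVars false

namespace Pool.Agent.H379.NK

open W450.Rig Pool.Agent.H379.GS MulOpposite TrivSqZeroExt CategoryTheory.Abelian

universe u

variable {K : Type u} [Field K] [CharZero K] {n : ℕ}

theorem split5 {V V'' : Type u} [AddCommGroup V] [Module K V] [AddCommGroup V''] [Module K V'']
    {S : SL K V} {S'' : SL K V''} {i : V'' →ₗ[K] V} (h : Eqv S'' S i)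
    (hi : Function.Surjective i) {x : B → V} (hx : (rB S).p00 x = x) :
    ∃ y, (rB S'').p00 y = y ∧ lact i y = x := by
  obtain ⟨y, e⟩ := lact_surj hi x
  have m00 : lact i ((rB S'').p00 y) = (rB S).p00 (lact i y) := (rB_nat h).p00 y
  exact ⟨(rB S'').p00 y, (rB_laws S'').i00 y, by rw [m00, e, hx]⟩

theorem bl0_ker {x : Bl K (0 + 1)} (h0 : (Bl0 (irr K 0)).p00 x = x)
    (h : (irr K 0).pr x.1 = 0) : ∃ y : Bl K (0 + 1 + 1), (Bl1 (irr K (0 + 1))).p00 y = y ∧
      (Bl0 (irr K 0)).Dec (x - bps K 0 y) := by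
  rw [Bl0_p00] at h0
  have a1 : (rB (irr K 0)).p00 x.1 = x.1 := congrArg Prod.fst h0
  have a2 : (rB (UV (irr K 0))).p00 x.2.1 = x.2.1 := congrArg (fun p => p.2.1) h0
  have a3 : (dB (irr K 0)).p00 x.2.2 = x.2.2 := congrArg (fun p => p.2.2) h0
  obtain ⟨y, hy, ey⟩ := split5 (iot_eqv 0) iot_zero_surj a2
  refine ⟨(y, 0, 0), ?_, ?_⟩
  · rw [Bl1_p00]
    exact Prod.ext hy (Prod.ext (map_zero _) (map_zero _))
  · unfold Bl0
    have f1 : (rB (irr K 0)).Dec x.1 := rB_dec _ a1 h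
    have f3 : (dB (irr K 0)).Dec x.2.2 := dB_dec _ a3
    have f2 : x.2.1 - lact (iot K 0) y = 0 := by rw [ey, sub_self]
    have g : x - bps K 0 (y, 0, 0) = (x.1, 0, x.2.2) := by
      rw [bps_apply]
      refine Prod.ext (sub_zero _) (Prod.ext f2 ?_)
      show x.2.2 - - lact (kap K 0) 0 = x.2.2
      rw [map_zero, neg_zero, sub_zero]
    rw [g]
    have hd : (rB (UV (irr K 0))).Dec 0 :=
      ⟨0, 0, 0, map_zero _, map_zero _, map_zero _, by simp⟩
    exact prod_dec.2 ⟨f1, prod_dec.2 ⟨hd, f3⟩⟩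

theorem aug0 : AugHyp (A0 (irr K 0)) (A1 (irr K (0 + 1))) (psi K 0)
    (upm (irr K 0).pr : (Fin (0 + 1) → C0 K) →ₗ[TT K] XX K) where
  surj w := by
    obtain ⟨y, hy⟩ := (irr K 0).pr_surj (JJ.to w)
    obtain ⟨x, rfl⟩ := fs_surj y
    refine ⟨x, ?_⟩
    rw [upm_apply, hy, JJ.of_to]
  p00 x := by
    have h1 := (fsMap (irr K 0)).p00 x
    rw [upm_apply, upm_apply, h1, pr_p00']
  E x := by
    have h1 := (fsMap (irr K 0)).E x
    have h2 : (irr K 0).pr ((rB (irr K 0)).E (fs K (0 + 1) x)) = 0 := (irr K 0).pr_E _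
    rw [upm_apply, h1, h2, JJ.of_zero]
  H x := by
    have h1 := (fsMap (irr K 0)).H x
    have h2 : (irr K 0).pr ((rB (irr K 0)).H (fs K (0 + 1) x)) = 0 := (irr K 0).pr_H _
    rw [upm_apply, h1, h2, JJ.of_zero]
  F x := by
    have h1 := (fsMap (irr K 0)).F x
    have h2 : (irr K 0).pr ((rB (irr K 0)).F (fs K (0 + 1) x)) = 0 := (irr K 0).pr_F _
    rw [upm_apply, h1, h2, JJ.of_zero]
  psi y := by
    rw [upm_apply, fs_psi, map_zero, JJ.of_zero]
  ker x h0 h := by
    have h1 : (irr K 0).pr (Be0 K (0 + 1) x).1 = 0 := h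
    have h2 : (Bl0 (irr K 0)).p00 (Be0 K (0 + 1) x) = Be0 K (0 + 1) x := by
      rw [← (map0 (irr K 0)).p00, h0]
    obtain ⟨y, hy, e⟩ := bl0_ker h2 h1
    obtain ⟨z, rfl⟩ := Be1_bij.2 y
    have h3 := (map1 (irr K (0 + 1))).p00 z
    have h4 : Be1 K (0 + 1 + 1) ((A1 (irr K (0 + 1))).p00 z) =
      Be1 K (0 + 1 + 1) z := by rw [h3, hy]
    refine ⟨z, Be1_bij.1 h4, ?_⟩
    rw [← Be0_bps, ← map_sub] at e
    exact (map0 (irr K 0)).dec_of Be0_bij e

theorem augS : AugHyp (N := LinearMap.range (theta K n)) (A0 (irr K (n + 1)))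
    (A1 (irr K (n + 1 + 1))) (psi K (n + 1)) (theta K n).rangeRestrict where
  surj := (theta K n).surjective_rangeRestrict
  p00 x := Subtype.ext (theta_p00 x)
  E x := Subtype.ext (theta_E x)
  H x := Subtype.ext (theta_H x)
  F x := Subtype.ext (theta_F x)
  psi y := Subtype.ext (theta_psi y)
  ker x h0 h := theta_ker h0 (congrArg Subtype.val h)

/-- The family of modules. -/
def NN (K : Type u) [Field K] [CharZero K] : ℕ → Type u
  | 0 => XX K
  | m + 1 => LinearMap.range (theta K m)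

instance : ∀ m, AddCommGroup (NN K m)
  | 0 => inferInstanceAs (AddCommGroup (XX K))
  | m + 1 => inferInstanceAs (AddCommGroup (LinearMap.range (theta K m)))

instance : ∀ m, Module (TT K) (NN K m)
  | 0 => inferInstanceAs (Module (TT K) (XX K))
  | m + 1 => inferInstanceAs (Module (TT K) (LinearMap.range (theta K m)))

/-- The ambient modules. -/
abbrev FF (K : Type u) [Field K] [CharZero K] (m : ℕ) : Type u :=
  CF (Fin (m + 1) → C0 K) (Fin (m + 1 + 1) → C1 K)

/-- The resolutions. -/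
def DD (K : Type u) [Field K] [CharZero K] : ∀ m : ℕ, CData (TT K) (FF K m) (NN K m) (NN K (m + 2)) (XX K)
  | 0 => mkC (L0 _) (L1 _) (X0 _) (X1 _) (G0 _) (G1 _) (coneHyp K 0) _ aug0
      (LinearMap.range (theta K (0 + 1))) theta_range (cocX 0)
  | m + 1 => mkC (L0 _) (L1 _) (X0 _) (X1 _) (G0 _) (G1 _) (coneHyp K (m + 1)) _ augS
      (LinearMap.range (theta K (m + 1 + 1))) theta_range (cocX (m + 1))

instance proj0 : Module.Projective (TT K) (C0 K) := col_proj eps0_idem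
instance proj1 : Module.Projective (TT K) (C1 K) := col_proj eps1_idem

instance projF (m : ℕ) : Module.Projective (TT K) (FF K m) := by
  have h0 : Module.Projective (TT K) (Fin (m + 1) → C0 K) := proj_pi _
  have h1 : Module.Projective (TT K) (Fin (m + 1 + 1) → C1 K) := proj_pi _
  infer_instance

theorem hom_NN (m : ℕ) (g : NN K (m + 1) →ₗ[TT K] XX K) : g = 0 := hom_theta g

theorem ext_XX (i : ℕ) (hi : 1 ≤ i) :
    Subsingleton (Ext (ModuleCat.of (TT K) (XX K)) (ModuleCat.of (TT K) (XX K)) i) :=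
  lemE_family (FF K) (NN K) (DD K) hom_NN 0 i hi

end Pool.Agent.H379.NK
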