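import Pool.Agent.H379.NK.TY16

/-!
# A self-orthogonal non-projective module over a symmetric algebra
-/

set_option autoImplicit false
set_option linter.unusedSectionVars false

namespace Pool.Agent.H379.NK

open W450.Rig Pool.Agent.H379.GS MulOpposite TrivSqZeroExt CategoryTheory.Abelian

universe u

variable (K : Type u) [Field K] [CharZero K]

theorem TT_symmetric : IsSymmetricAlg K (TT K) := t_symmetric K (YY K)

instance finC0 : Module.Finite (TT K) (C0 K) := by
  let r : TT K →ₗ[TT K] C0 K :=
    { toFun := fun t => ⟨t * eps0 K, by rw [mem_Col, mul_assoc, eps0_idem]⟩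
      map_add' := fun x y => Subtype.ext (add_mul _ _ _)
      map_smul' := fun c x => Subtype.ext (mul_assoc _ _ _) }
  exact Module.Finite.of_surjective r fun t => ⟨t.1, Subtype.ext t.2⟩

instance finXX : Module.Finite (TT K) (XX K) := by
  have h : Module.Finite (TT K) (Fin (0 + 1) → C0 K) := inferInstance
  exact Module.Finite.of_surjective _ (aug0 (K := K)).surj

theorem XX_nontrivial : Nontrivial (XX K) := (irr K 0).Wm_nontrivial

/-- The dual part acts as zero on `X`. -/
theorem inr_smul (f : DA K (YY K)) (x : XX K) : (inr f : TT K) • x = 0 := by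
  rw [← JJ.of_to x, JJ.smul_of, toR_apply, TrivSqZeroExt.fst_inr, Tri.a_zero, zero_smul,
    JJ.of_zero]

theorem fst_of_inr (t : TT K) (h : ∀ f : DA K (YY K), (inr f : TT K) * t = 0) : t.fst = 0 := by
  refine (Module.forall_dual_apply_eq_zero_iff K t.fst).1 fun f => ?_
  have h1 := congrArg (fun s : TT K => DA.ev s.snd (1 : YY K)) (h (DA.mk f))
  simp only [ev_mul_snd] at h1
  rw [TrivSqZeroExt.fst_inr, TrivSqZeroExt.snd_inr, mul_zero, map_zero, zero_add, mul_one,
    DA.ev_mk, TrivSqZeroExt.snd_zero, DA.ev_zero] at h1
  exact h1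

theorem XX_not_projective : ¬ Module.Projective (TT K) (XX K) := by
  intro hp
  obtain ⟨s, hs⟩ := (Module.projective_def (R := TT K) (P := XX K)).1 hp
  have hz : ∀ x : XX K, x = 0 := by
    intro x
    have h1 : ∀ f : DA K (YY K), (inr f : TT K) • s x = 0 := by
      intro f
      rw [← map_smul, inr_smul, map_zero]
    have h2 : ∀ y, (s x y).fst = 0 := by
      intro y
      refine fst_of_inr K _ fun f => ?_
      have h3 := congrArg (fun l : XX K →₀ TT K => l y) (h1 f)
      exact h3
    have h3 : Finsupp.linearCombination (TT K) id (s x) = x := hs x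
    rw [← h3, Finsupp.linearCombination_apply, Finsupp.sum]
    refine Finset.sum_eq_zero fun y _ => ?_
    show s x y • y = 0
    rw [← JJ.of_to y, JJ.smul_of, toR_apply]
    have h4 : (s x (JJ.of (JJ.to y))).fst = 0 := h2 y
    rw [h4, Tri.a_zero, zero_smul, JJ.of_zero]
  obtain ⟨x, y, hxy⟩ := (XX_nontrivial K).exists_pair_ne
  exact hxy ((hz x).trans (hz y).symm)

/-- **The counterexample to the second conjecture of Tachikawa**: over every field of
characteristic zero there are a symmetric algebra `T` and a finitely generated non-projective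
`T`-module `X` with `Ext^i_T(X, X) = 0` for all `i ≥ 1`. -/
theorem tachikawa_two_false (K : Type) [Field K] [CharZero K] :
    ∃ (T : Type) (_ : Ring T) (_ : Algebra K T) (X : Type) (_ : AddCommGroup X) (_ : Module T X),
      IsSymmetricAlg K T ∧ Module.Finite T X ∧ ¬ Module.Projective T X ∧
      ∀ i : ℕ, 1 ≤ i → Subsingleton (Ext (ModuleCat.of T X) (ModuleCat.of T X) i) :=
  ⟨TT K, inferInstance, inferInstance, XX K, inferInstance, inferInstance, TT_symmetric K,
    finXX K, XX_not_projective K, ext_XX⟩

end Pool.Agent.H379.NK
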