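import Pool.Agent.H379.NK.TY1

/-!
# Coordinates on the columns (continued)
-/

set_option autoImplicit false
set_option linter.unusedSectionVars false

namespace Pool.Agent.H379.NK

open W450.Rig Pool.Agent.H379.GS MulOpposite TrivSqZeroExt

universe u

variable {K : Type u} [Field K] [CharZero K]

/-! ### Elements of the algebra in coordinates -/

/-- Coordinates of an element of the algebra. -/
def rco (K : Type u) [Field K] : Rg K →ₗ[K] (B → K) where
  toFun r := r • (oneV 1 : B → K)
  map_add' r s := add_smul _ _ _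
  map_smul' c r := by rw [RingHom.id_apply, smul_assoc]

theorem rco_apply (r : Rg K) : rco K r = r • (oneV 1 : B → K) := rfl

theorem rco_inj {r s : Rg K} (h : rco K r = rco K s) : r = s := smul_oneV_inj h

/-- The element of the algebra with given coordinates. -/
def rmk (x : B → K) : Rg K := ∑ b, x b • lam K b

theorem rco_rmk (x : B → K) : rco K (rmk x) = x := by
  rw [rco_apply, rmk, Finset.sum_smul]
  funext i
  rw [Finset.sum_apply, Finset.sum_eq_single i]
  · rw [smul_assoc, lam_oneV']
    simp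
  · intro b _ hb
    rw [smul_assoc, lam_oneV']
    simp [hb.symm]
  · simp

theorem rmk_rco (r : Rg K) : rmk (rco K r) = r := (rg_sum r).symm

theorem rco_mul_gen (r : Rg K) (n : Fin 13) :
    rco K (r * gen K n) = (tact (tmat K n) : Module.End K (B → K)) (rco K r) := by
  rw [rco_apply, mul_smul, gen_oneV, ← tab_rsmul n n.isLt]
  rfl

/-- functionals on the algebra in coordinates -/
theorem fun_sum (f : Rg K →ₗ[K] K) (r : Rg K) : f r = ∑ b, rco K r b * f (lam K b) := by
  conv_lhs => rw [← rmk_rco r]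
  rw [rmk, map_sum]
  refine Finset.sum_congr rfl fun b _ => ?_
  rw [map_smul, smul_eq_mul]

theorem fun_gen_lam (f : Rg K →ₗ[K] K) (n : Fin 13) (b : B) :
    f (gen K n * lam K b) =
      (tact (tmat2 K (48 + n)) : Module.End K (B → K)) (fun c => f (lam K c)) b := by
  rw [mul_lam, map_sum, tact_apply, tmat2_tr n n.isLt]
  refine Finset.sum_congr rfl fun c _ => ?_
  rw [map_smul]
  rfl

/-! ### The twisting operator is bijective -/

theorem Phi_Psi (x : B → K × K) : Phi' K K (ev2 (Utriv K K) DX.Psi x) = x :=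
  opEq2 (Utriv K K) phi_psi x

theorem Psi_Phi (x : B → K × K) : ev2 (Utriv K K) DX.Psi (Phi' K K x) = x :=
  opEq2 (Utriv K K) psi_phi x

theorem Phi_twL (n : ℕ) (hn : n < 13) (x : B → K × K) :
    Phi' K K (ev2 (Utriv K K) (twL n) x) = tact (tmat K (13 + n)) (Phi' K K x) := by
  have h := phi_L
  rw [List.all_eq_true] at h
  have h1 := opEq2 (Utriv K K) (h n (List.mem_range.2 hn)) x
  rw [ev2_mul, ev2_mul, Module.End.mul_apply, Module.End.mul_apply] at h1
  rw [← tmat2_lt (K := K) (13 + n) (by omega)]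
  exact h1

/-! ### Functionals on the bimodule -/

/-- a vector as an element of the bimodule -/
def MB.mk : (B → K × K) →ₗ[K] MB K where
  toFun x := x
  map_add' _ _ := rfl
  map_smul' _ _ := rfl

/-- an element of the bimodule as a vector -/
def MB.v : MB K →ₗ[K] (B → K × K) where
  toFun x := x
  map_add' _ _ := rfl
  map_smul' _ _ := rfl

theorem MB.v_mk (x : B → K × K) : MB.v (MB.mk x) = x := rfl
theorem MB.mk_v (x : MB K) : MB.mk (MB.v x) = x := rfl

/-- Coordinates of a functional on the bimodule. -/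
def fco (f : MB K →ₗ[K] K) : B → K × K := fun b =>
  (f (MB.mk (Phi' K K (Pi.single b (0, 1)))), - f (MB.mk (Phi' K K (Pi.single b (1, 0)))))

theorem fco_pai (f : MB K →ₗ[K] K) (x : B → K × K) :
    f (MB.mk (Phi' K K x)) = pai (fco f) x := by
  have hx : x = ∑ b, ((x b).1 • (Pi.single b ((1 : K), (0 : K)) : B → K × K) +
      (x b).2 • (Pi.single b ((0 : K), (1 : K)) : B → K × K)) := by
    funext i
    rw [Finset.sum_apply, Finset.sum_eq_single i]
    · simp
    · intro b _ hb
      simp [hb.symm]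
    · simp
  have h1 : f (MB.mk (Phi' K K x)) = ∑ b, ((x b).1 * f (MB.mk (Phi' K K (Pi.single b (1, 0)))) +
      (x b).2 * f (MB.mk (Phi' K K (Pi.single b (0, 1))))) := by
    conv_lhs => rw [hx]
    rw [map_sum, map_sum, map_sum]
    refine Finset.sum_congr rfl fun b _ => ?_
    rw [map_add, map_smul, map_smul, map_add, map_smul, map_smul, map_add, map_smul, map_smul]
    rfl
  rw [h1, pai]
  refine Finset.sum_congr rfl fun b _ => ?_
  simp only [fco]
  ring

/-- The functional with given coordinates. -/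
def fmk (y : B → K × K) : MB K →ₗ[K] K where
  toFun m := pai y (ev2 (Utriv K K) DX.Psi (MB.v m))
  map_add' m m' := by rw [map_add, map_add, pai_add_right]
  map_smul' c m := by rw [map_smul, map_smul, pai_smul_right]; rfl

theorem fco_fmk (y : B → K × K) : fco (fmk y) = y := by
  apply pai_ext
  intro x
  rw [← fco_pai]
  show pai y (ev2 (Utriv K K) DX.Psi (MB.v (MB.mk (Phi' K K x)))) = _
  rw [MB.v_mk, Psi_Phi]

theorem fmk_fco (f : MB K →ₗ[K] K) : fmk (fco f) = f := by
  refine LinearMap.ext fun m => ?_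
  show pai (fco f) (ev2 (Utriv K K) DX.Psi (MB.v m)) = f m
  rw [← fco_pai, Phi_Psi, MB.mk_v]

/-- Precomposition with left multiplication by a generator. -/
theorem fco_gen (f g : MB K →ₗ[K] K) (n : Fin 13) (h : ∀ m : MB K, g m = f (gen K n • m)) :
    fco g = ev2 (Utriv K K) (twD n) (fco f) := by
  apply pai_ext
  intro x
  rw [← fco_pai, h, pai_tw n n.isLt, ← fco_pai, Phi_twL n n.isLt]
  rfl

/-! ### Coordinates on the columns -/

/-- the part `R` at vertex `0` of the dual -/
def ph0 (t : TT K) : Rg K →ₗ[K] K where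
  toFun r := DA.ev t.snd (Tri.mk r 0 0)
  map_add' r s := by
    rw [← map_add]; congr 1; exact Tri.ext (by simp) (by simp) (by simp)
  map_smul' c r := by
    rw [RingHom.id_apply, ← map_smul]; congr 1; exact Tri.ext (by simp) (by simp) (by simp)

/-- the part `R` at vertex `1` of the dual -/
def ph1 (t : TT K) : Rg K →ₗ[K] K where
  toFun r := DA.ev t.snd (Tri.mk 0 r 0)
  map_add' r s := by
    rw [← map_add]; congr 1; exact Tri.ext (by simp) (by simp) (by simp)
  map_smul' c r := by
    rw [RingHom.id_apply, ← map_smul]; congr 1; exact Tri.ext (by simp) (by simp) (by simp)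

/-- the part `M` of the dual -/
def phM (t : TT K) : MB K →ₗ[K] K where
  toFun r := DA.ev t.snd (Tri.mk 0 0 r)
  map_add' r s := by
    rw [← map_add]; congr 1; exact Tri.ext (by simp) (by simp) (by simp)
  map_smul' c r := by
    rw [RingHom.id_apply, ← map_smul]; congr 1; exact Tri.ext (by simp) (by simp) (by simp)

theorem ph0_apply (t : TT K) (r : Rg K) : ph0 t r = DA.ev t.snd (Tri.mk r 0 0) := rfl
theorem ph1_apply (t : TT K) (r : Rg K) : ph1 t r = DA.ev t.snd (Tri.mk 0 r 0) := rfl
theorem phM_apply (t : TT K) (r : MB K) : phM t r = DA.ev t.snd (Tri.mk 0 0 r) := rfl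

theorem ev_dec (t : TT K) (x : YY K) : DA.ev t.snd x = ph0 t x.a + ph1 t x.b + phM t x.m := by
  rw [ph0_apply, ph1_apply, phM_apply, ← map_add, ← map_add]
  congr 1
  exact Tri.ext (by simp) (by simp) (by simp)

/-- Coordinates on the column `0`. -/
def be0 (K : Type u) [Field K] [CharZero K] :
    Col (eps0 K) →+ (B → K) × (B → K × K) × (B → K) where
  toFun t := (rco K t.1.fst.a, MB.v t.1.fst.m, fun b => ph0 t.1 (lam K b))
  map_zero' := by
    refine Prod.ext ?_ (Prod.ext ?_ ?_)
    · exact map_zero (rco K)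
    · rfl
    · rfl
  map_add' s t := by
    refine Prod.ext ?_ (Prod.ext ?_ ?_)
    · exact map_add (rco K) _ _
    · rfl
    · rfl

/-- Coordinates on the column `1`. -/
def be1 (K : Type u) [Field K] [CharZero K] :
    Col (eps1 K) →+ (B → K) × (B → K × K) × (B → K) where
  toFun t := (rco K t.1.fst.b, fco (phM t.1), fun b => ph1 t.1 (lam K b))
  map_zero' := by
    refine Prod.ext ?_ (Prod.ext ?_ ?_)
    · exact map_zero (rco K)
    · funext b
      exact Prod.ext rfl neg_zero
    · rfl
  map_add' s t := by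
    refine Prod.ext ?_ (Prod.ext ?_ ?_)
    · exact map_add (rco K) _ _
    · funext b
      exact Prod.ext rfl (neg_add _ _)
    · rfl

theorem be0_apply (t : Col (eps0 K)) :
    be0 K t = (rco K t.1.fst.a, MB.v t.1.fst.m, fun b => ph0 t.1 (lam K b)) := rfl

theorem be1_apply (t : Col (eps1 K)) :
    be1 K t = (rco K t.1.fst.b, fco (phM t.1), fun b => ph1 t.1 (lam K b)) := rfl

theorem be0_inj : Function.Injective (be0 K) := by
  intro s t h
  have h1 : s.1.fst.a = t.1.fst.a := rco_inj (congrArg Prod.fst h)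
  have h2 : s.1.fst.m = t.1.fst.m := congrArg (fun p => p.2.1) h
  have h3 : ∀ b, ph0 s.1 (lam K b) = ph0 t.1 (lam K b) := fun b =>
    congrFun (congrArg (fun p => p.2.2) h) b
  refine Subtype.ext (TT_ext (Tri.ext h1 ((col0_b s).trans (col0_b t).symm) h2) fun x => ?_)
  rw [col0_ev s, col0_ev t, ← ph0_apply, ← ph0_apply, fun_sum, fun_sum (ph0 t.1)]
  exact Finset.sum_congr rfl fun b _ => by rw [h3]

theorem be1_inj : Function.Injective (be1 K) := by
  intro s t h
  have h1 : s.1.fst.b = t.1.fst.b := rco_inj (congrArg Prod.fst h)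
  have h2 : phM s.1 = phM t.1 := by
    rw [← fmk_fco (phM s.1), ← fmk_fco (phM t.1)]
    exact congrArg fmk (congrArg (fun p => p.2.1) h)
  have h3 : ∀ b, ph1 s.1 (lam K b) = ph1 t.1 (lam K b) := fun b =>
    congrFun (congrArg (fun p => p.2.2) h) b
  refine Subtype.ext (TT_ext (Tri.ext ((col1_a s).trans (col1_a t).symm) h1
    ((col1_m s).trans (col1_m t).symm)) fun x => ?_)
  rw [col1_ev s, col1_ev t, ev_dec, ev_dec t.1, h2, fun_sum (ph1 s.1), fun_sum (ph1 t.1)]
  have h4 : ∀ u : TT K, ph0 u (Tri.a (Tri.mk (0 : Rg K) x.b x.m)) = 0 := fun u => map_zero _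
  rw [h4, h4]
  congr 2
  exact Finset.sum_congr rfl fun b _ => by rw [h3]

/-- A functional on the algebra from its values on the basis. -/
def yfun (y : B → K) : Rg K →ₗ[K] K where
  toFun r := ∑ b, rco K r b * y b
  map_add' r s := by
    rw [← Finset.sum_add_distrib]
    refine Finset.sum_congr rfl fun b _ => ?_
    rw [map_add, Pi.add_apply, add_mul]
  map_smul' c r := by
    rw [RingHom.id_apply, Finset.smul_sum]
    refine Finset.sum_congr rfl fun b _ => ?_
    rw [map_smul, Pi.smul_apply, smul_eq_mul, smul_eq_mul, mul_assoc]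

theorem yfun_lam (y : B → K) (b : B) : yfun y (lam K b) = y b := by
  show ∑ c, rco K (lam K b) c * y c = y b
  rw [rco_apply, lam_oneV', Finset.sum_eq_single b]
  · simp
  · intro c _ hc
    simp [hc]
  · simp

/-- element of `T` with given dual part -/
def dmk (f0 f1 : Rg K →ₗ[K] K) (fM : MB K →ₗ[K] K) : DA K (YY K) := DA.mk
  { toFun := fun x => f0 x.a + f1 x.b + fM x.m
    map_add' := fun x y => by
      rw [Tri.a_add, Tri.b_add, Tri.m_add, map_add, map_add, map_add]; abel
    map_smul' := fun c x => by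
      rw [Tri.a_smul, Tri.b_smul, Tri.m_smul, map_smul, map_smul, map_smul, RingHom.id_apply,
        smul_add, smul_add] }

theorem ev_dmk (f0 f1 : Rg K →ₗ[K] K) (fM : MB K →ₗ[K] K) (x : YY K) :
    DA.ev (dmk f0 f1 fM) x = f0 x.a + f1 x.b + fM x.m := rfl

theorem be0_surj : Function.Surjective (be0 K) := by
  rintro ⟨x, m, y⟩
  let t : TT K := (Tri.mk (rmk x) 0 (MB.mk m), dmk (yfun y) 0 0)
  have ht : t ∈ Col (eps0 K) := by
    rw [mem_Col]
    refine TT_ext (Tri.ext ?_ ?_ ?_) fun z => ?_
    · show (rmk x : Rg K) * 1 = rmk x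
      rw [mul_one]
    · show (0 : Rg K) * 0 = 0
      rw [mul_zero]
    · show (0 : Rg K) • (0 : MB K) + op (1 : Rg K) • (MB.mk m) = MB.mk m
      rw [smul_zero, zero_add, op_one, one_smul]
    · rw [ev_mul_snd]
      have h0 : ∀ w, DA.ev (eps0 K).snd w = 0 := fun _ => rfl
      have h1 : ∀ w, DA.ev t.snd w = yfun y w.a := fun w => by
        show yfun y w.a + 0 + 0 = _
        rw [add_zero, add_zero]
      rw [h0, zero_add, h1, h1]
      congr 1
      show (1 : Rg K) * z.a = z.a
      rw [one_mul]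
  refine ⟨⟨t, ht⟩, ?_⟩
  rw [be0_apply]
  refine Prod.ext ?_ (Prod.ext ?_ ?_)
  · exact rco_rmk x
  · rfl
  · funext b
    show yfun y (lam K b) + 0 + 0 = y b
    rw [add_zero, add_zero, yfun_lam]

theorem be1_surj : Function.Surjective (be1 K) := by
  rintro ⟨x, m, y⟩
  let t : TT K := (Tri.mk 0 (rmk x) 0, dmk 0 (yfun y) (fmk m))
  have h1 : ∀ w, DA.ev t.snd w = yfun y w.b + fmk m w.m := fun w => by
    show 0 + yfun y w.b + fmk m w.m = _
    rw [zero_add]
  have ht : t ∈ Col (eps1 K) := by
    rw [mem_Col]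
    refine TT_ext (Tri.ext ?_ ?_ ?_) fun z => ?_
    · show (0 : Rg K) * 0 = 0
      rw [mul_zero]
    · show (rmk x : Rg K) * 1 = rmk x
      rw [mul_one]
    · show (rmk x : Rg K) • (0 : MB K) + op (0 : Rg K) • (0 : MB K) = 0
      rw [smul_zero, smul_zero, zero_add]
    · rw [ev_mul_snd]
      have h0 : ∀ w, DA.ev (eps1 K).snd w = 0 := fun _ => rfl
      rw [h0, zero_add, h1, h1]
      congr 2
      · show (1 : Rg K) * z.b = z.b
        rw [one_mul]
      · show (1 : Rg K) • z.m + op z.a • (0 : MB K) = z.m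
        rw [one_smul, smul_zero, add_zero]
  refine ⟨⟨t, ht⟩, ?_⟩
  rw [be1_apply]
  refine Prod.ext ?_ (Prod.ext ?_ ?_)
  · exact rco_rmk x
  · show fco (phM t) = m
    have : phM t = fmk m := by
      refine LinearMap.ext fun w => ?_
      rw [phM_apply, h1]
      show yfun y 0 + fmk m w = _
      rw [map_zero, zero_add]
    rw [this, fco_fmk]
  · funext b
    show ph1 t (lam K b) = y b
    rw [ph1_apply, h1]
    show yfun y (lam K b) + fmk m 0 = y b
    rw [map_zero, add_zero, yfun_lam]

/-! ### The right multiplications in coordinates -/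

theorem be0_gen (t : Col (eps0 K)) (n : Fin 13) :
    be0 K (rmul (io0 (gen K n)) (io0_eps _) t) =
      (tact (tmat K n) (be0 K t).1, ev2 (Utriv K K) (twR n) (be0 K t).2.1,
        tact (tmat2 K (48 + n)) (be0 K t).2.2) := by
  refine Prod.ext ?_ (Prod.ext ?_ ?_)
  · exact rco_mul_gen _ n
  · show MB.v (t.1.fst.b • (0 : MB K) + op (gen K n) • t.1.fst.m : MB K) = _
    rw [smul_zero, zero_add]
    exact rho_gen n t.1.fst.m
  · funext b
    refine Eq.trans ?_ (fun_gen_lam (ph0 t.1) n b)
    show DA.ev (t.1 * io0 (gen K n)).snd (Tri.mk (lam K b) 0 0) = _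
    rw [ev_mul_snd, ph0_apply]
    have h0 : ∀ w, DA.ev (io0 (gen K n)).snd w = 0 := fun _ => rfl
    rw [h0, zero_add]
    congr 1
    exact Tri.ext rfl (mul_zero _) (by simp [io0])

theorem be1_gen (t : Col (eps1 K)) (n : Fin 13) :
    be1 K (rmul (io1 (gen K n)) (io1_eps _) t) =
      (tact (tmat K n) (be1 K t).1, ev2 (Utriv K K) (twD n) (be1 K t).2.1,
        tact (tmat2 K (48 + n)) (be1 K t).2.2) := by
  have h0 : ∀ w, DA.ev (io1 (gen K n)).snd w = 0 := fun _ => rfl
  refine Prod.ext ?_ (Prod.ext ?_ ?_)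
  · exact rco_mul_gen _ n
  · refine fco_gen _ _ n fun m => ?_
    show DA.ev (t.1 * io1 (gen K n)).snd (Tri.mk 0 0 m) = _
    rw [ev_mul_snd, phM_apply, h0, zero_add]
    congr 1
    exact Tri.ext (mul_zero _) (mul_zero _) (by simp [io1])
  · funext b
    refine Eq.trans ?_ (fun_gen_lam (ph1 t.1) n b)
    show DA.ev (t.1 * io1 (gen K n)).snd (Tri.mk 0 (lam K b) 0) = _
    rw [ev_mul_snd, ph1_apply, h0, zero_add]
    congr 1
    exact Tri.ext (mul_zero _) rfl (by simp [io1])

end Pool.Agent.H379.NK
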