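import Pool.Agent.H379.NK.TY2
import Pool.Agent.H379.NK.Blocks

/-!
# Powers of the columns as operator systems
-/

set_option autoImplicit false
set_option linter.unusedSectionVars false

namespace Pool.Agent.H379.NK

open W450.Rig Pool.Agent.H379.GS MulOpposite TrivSqZeroExt

universe u

/-! ### The operator system of a module with thirteen endomorphisms -/

section cols

variable {K : Type u} [Field K] {A : Type u} [Ring A]
variable {C : Type u} [AddCommGroup C] [Module A C] [Module K C] [SMulCommClass A K C]

/-- The operator system on `C^n`. -/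
def colOS {n : ℕ} (g : Fin 13 → (C →ₗ[A] C)) (S : SL K (Fin n → K)) : OS A (Fin n → C) where
  E := cw (g ⟨1, by decide⟩) - mat S.e ∘ₗ cw (g ⟨0, by decide⟩)
  F := cw (g ⟨4, by decide⟩) - mat S.f ∘ₗ cw (g ⟨6, by decide⟩)
  H := cw (g ⟨5, by decide⟩) - mat S.h ∘ₗ cw (g ⟨6, by decide⟩)
  W := cw (g ⟨2, by decide⟩) + mat S.e ∘ₗ cw (g ⟨3, by decide⟩)
  a := cw (g ⟨0, by decide⟩)
  B := cw (g ⟨3, by decide⟩)
  z := cw (g ⟨6, by decide⟩)
  p00 := cw (g ⟨7, by decide⟩)
  p01 := cw (g ⟨8, by decide⟩)
  p02 := cw (g ⟨9, by decide⟩)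
  p10 := cw (g ⟨10, by decide⟩)
  p11 := cw (g ⟨11, by decide⟩)
  p12 := cw (g ⟨12, by decide⟩)

end cols

/-! ### Assembling -/

section asm

variable {K : Type u} [Field K] {n : ℕ}

/-- Exchange of the indices. -/
def as1 (x : Fin n → (B → K)) : B → (Fin n → K) := fun b i => x i b

/-- Exchange of the indices. -/
def as2 (x : Fin n → (B → K × K)) : B → (Fin n → K) × (Fin n → K) :=
  fun b => (fun i => (x i b).1, fun i => (x i b).2)

theorem as1_tact (M : Matrix B B K) (x : Fin n → (B → K)) :
    as1 (fun i => tact M (x i)) = tact M (as1 x) := by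
  funext b i
  simp only [as1, tact_apply, Finset.sum_apply, Pi.smul_apply]

theorem as2_tact (M : Matrix B B K) (x : Fin n → (B → K × K)) :
    as2 (fun i => tact M (x i)) = tact M (as2 x) := by
  funext b
  simp only [as2, tact_apply]
  refine Prod.ext ?_ ?_
  · funext i
    simp only [Prod.fst_sum, Finset.sum_apply, Prod.smul_fst, Pi.smul_apply]
  · funext i
    simp only [Prod.snd_sum, Finset.sum_apply, Prod.smul_snd, Pi.smul_apply]

variable [CharZero K]

theorem as2_ltr (k : ℕ) (x : Fin n → (B → K × K)) :
    as2 (fun i => lact ((Utriv K K).L k) (x i)) =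
      lact ((Utriv K (Fin n → K)).L k) (as2 x) := by
  match k with
  | 0 => rfl
  | 1 => rfl
  | 2 => rfl
  | k + 3 => rfl

theorem as2_ev (X : Ex) (x : Fin n → (B → K × K)) :
    as2 (fun i => ev2 (Utriv K K) X (x i)) = ev2 (Utriv K (Fin n → K)) X (as2 x) := by
  induction X generalizing x with
  | one => rfl
  | tab m => exact as2_tact _ x
  | ltr k => exact as2_ltr k x
  | mul a b iha ihb =>
    show as2 (fun i => ev2 (Utriv K K) a (ev2 (Utriv K K) b (x i))) = _
    rw [iha, ihb]
    rfl
  | add a b iha ihb =>
    have h1 : as2 (fun i => ev2 (Utriv K K) a (x i) + ev2 (Utriv K K) b (x i)) =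
      as2 (fun i => ev2 (Utriv K K) a (x i)) + as2 (fun i => ev2 (Utriv K K) b (x i)) := rfl
    exact h1.trans (by rw [iha, ihb]; rfl)
  | smul c a iha =>
    have h1 : as2 (fun i => c • ev2 (Utriv K K) a (x i)) =
      c • as2 (fun i => ev2 (Utriv K K) a (x i)) := rfl
    exact h1.trans (by rw [iha]; rfl)

end asm

/-! ### Coordinates on the powers of the columns -/

section main

variable {K : Type u} [Field K] [CharZero K] {n n' : ℕ}

/-- The blocks. -/
abbrev Bl (K : Type u) (n : ℕ) : Type u :=
  (B → (Fin n → K)) × (B → (Fin n → K) × (Fin n → K)) × (B → (Fin n → K))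

/-- The column `0`. -/
abbrev C0 (K : Type u) [Field K] [CharZero K] : Type u := Col (eps0 K)
/-- The column `1`. -/
abbrev C1 (K : Type u) [Field K] [CharZero K] : Type u := Col (eps1 K)

/-! ### Shortcut instances -/

instance (priority := 5000) c0Sc0 : AddCommGroup (C0 K) := inferInstance
instance (priority := 5000) c0Sc1 : AddCommMonoid (C0 K) := inferInstance
instance (priority := 5000) c0Sc2 : AddGroup (C0 K) := inferInstance
instance (priority := 5000) c0Sc3 : AddMonoid (C0 K) := inferInstance
instance (priority := 5000) c0Sc4 : AddZeroClass (C0 K) := inferInstance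
instance (priority := 5000) c0Sc5 : AddZero (C0 K) := inferInstance
instance (priority := 5000) c0Sc6 : Zero (C0 K) := inferInstance
instance (priority := 5000) c0Sc7 : Add (C0 K) := inferInstance
instance (priority := 5000) c0Sc8 : Sub (C0 K) := inferInstance
instance (priority := 5000) c0Sc9 : Neg (C0 K) := inferInstance
instance (priority := 5000) c0Scm0 : Module (TT K) (C0 K) := inferInstance
instance (priority := 5000) c0Scm1 : SMul (TT K) (C0 K) := inferInstance
instance (priority := 5000) c0Scm2 : MulAction (TT K) (C0 K) := inferInstance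
instance (priority := 5000) c0Scm3 : SemigroupAction (TT K) (C0 K) := inferInstance
instance (priority := 5000) c0Scm4 : DistribMulAction (TT K) (C0 K) := inferInstance
instance (priority := 5000) c0Scm5 : DistribSMul (TT K) (C0 K) := inferInstance
instance (priority := 5000) c0Scm6 : SMulZeroClass (TT K) (C0 K) := inferInstance
instance (priority := 5000) c1Sc0 : AddCommGroup (C1 K) := inferInstance
instance (priority := 5000) c1Sc1 : AddCommMonoid (C1 K) := inferInstance
instance (priority := 5000) c1Sc2 : AddGroup (C1 K) := inferInstance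
instance (priority := 5000) c1Sc3 : AddMonoid (C1 K) := inferInstance
instance (priority := 5000) c1Sc4 : AddZeroClass (C1 K) := inferInstance
instance (priority := 5000) c1Sc5 : AddZero (C1 K) := inferInstance
instance (priority := 5000) c1Sc6 : Zero (C1 K) := inferInstance
instance (priority := 5000) c1Sc7 : Add (C1 K) := inferInstance
instance (priority := 5000) c1Sc8 : Sub (C1 K) := inferInstance
instance (priority := 5000) c1Sc9 : Neg (C1 K) := inferInstance
instance (priority := 5000) c1Scm0 : Module (TT K) (C1 K) := inferInstance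
instance (priority := 5000) c1Scm1 : SMul (TT K) (C1 K) := inferInstance
instance (priority := 5000) c1Scm2 : MulAction (TT K) (C1 K) := inferInstance
instance (priority := 5000) c1Scm3 : SemigroupAction (TT K) (C1 K) := inferInstance
instance (priority := 5000) c1Scm4 : DistribMulAction (TT K) (C1 K) := inferInstance
instance (priority := 5000) c1Scm5 : DistribSMul (TT K) (C1 K) := inferInstance
instance (priority := 5000) c1Scm6 : SMulZeroClass (TT K) (C1 K) := inferInstance

/-- Assembling the coordinates. -/
def asmB (x : Fin n → (B → K) × (B → K × K) × (B → K)) : Bl K n :=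
  (as1 fun i => (x i).1, as2 fun i => (x i).2.1, as1 fun i => (x i).2.2)

theorem asmB_inj {x y : Fin n → (B → K) × (B → K × K) × (B → K)} (h : asmB x = asmB y) :
    x = y := by
  funext i
  have h1 := congrArg Prod.fst h
  have h2 := congrArg (fun p => p.2.1) h
  have h3 := congrArg (fun p => p.2.2) h
  refine Prod.ext ?_ (Prod.ext ?_ ?_)
  · funext b; exact congrFun (congrFun h1 b) i
  · funext b
    refine Prod.ext ?_ ?_
    · exact congrFun (congrArg Prod.fst (congrFun h2 b)) i
    · exact congrFun (congrArg Prod.snd (congrFun h2 b)) i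
  · funext b; exact congrFun (congrFun h3 b) i

/-- Coordinates on powers of the column `0`. -/
def Be0 (K : Type u) [Field K] [CharZero K] (n : ℕ) : (Fin n → C0 K) →+ Bl K n where
  toFun x := asmB fun i => be0 K (x i)
  map_zero' := by
    have : (fun i : Fin n => be0 K ((0 : Fin n → C0 K) i)) = 0 := by
      funext i; exact map_zero (be0 K)
    rw [this]; rfl
  map_add' x y := by
    have : (fun i : Fin n => be0 K ((x + y) i)) =
      (fun i : Fin n => be0 K (x i)) + (fun i : Fin n => be0 K (y i)) := by
      funext i; exact map_add (be0 K) _ _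
    rw [this]; rfl

/-- Coordinates on powers of the column `1`. -/
def Be1 (K : Type u) [Field K] [CharZero K] (n : ℕ) : (Fin n → C1 K) →+ Bl K n where
  toFun x := asmB fun i => be1 K (x i)
  map_zero' := by
    have : (fun i : Fin n => be1 K ((0 : Fin n → C1 K) i)) = 0 := by
      funext i; exact map_zero (be1 K)
    rw [this]; rfl
  map_add' x y := by
    have : (fun i : Fin n => be1 K ((x + y) i)) =
      (fun i : Fin n => be1 K (x i)) + (fun i : Fin n => be1 K (y i)) := by
      funext i; exact map_add (be1 K) _ _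
    rw [this]; rfl

theorem Be0_apply (x : Fin n → C0 K) : Be0 K n x = asmB fun i => be0 K (x i) := rfl
theorem Be1_apply (x : Fin n → C1 K) : Be1 K n x = asmB fun i => be1 K (x i) := rfl

theorem Be0_bij : Function.Bijective (Be0 K n) := by
  constructor
  · intro x y h
    funext i
    exact be0_inj (congrFun (asmB_inj h) i)
  · intro y
    have h : ∀ i : Fin n, ∃ c : C0 K, be0 K c = (fun b => y.1 b i,
        fun b => ((y.2.1 b).1 i, (y.2.1 b).2 i), fun b => y.2.2 b i) := fun i => be0_surj _
    choose c hc using h
    refine ⟨c, ?_⟩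
    rw [Be0_apply]
    have : (fun i => be0 K (c i)) = fun i => (fun b => y.1 b i,
        fun b => ((y.2.1 b).1 i, (y.2.1 b).2 i), fun b => y.2.2 b i) := by
      funext i; exact hc i
    rw [this]
    rfl

theorem Be1_bij : Function.Bijective (Be1 K n) := by
  constructor
  · intro x y h
    funext i
    exact be1_inj (congrFun (asmB_inj h) i)
  · intro y
    have h : ∀ i : Fin n, ∃ c : C1 K, be1 K c = (fun b => y.1 b i,
        fun b => ((y.2.1 b).1 i, (y.2.1 b).2 i), fun b => y.2.2 b i) := fun i => be1_surj _
    choose c hc using h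
    refine ⟨c, ?_⟩
    rw [Be1_apply]
    have : (fun i => be1 K (c i)) = fun i => (fun b => y.1 b i,
        fun b => ((y.2.1 b).1 i, (y.2.1 b).2 i), fun b => y.2.2 b i) := by
      funext i; exact hc i
    rw [this]
    rfl

/-! ### The generators -/

/-- Right multiplication by a generator on the column `0`. -/
def g0 (K : Type u) [Field K] [CharZero K] (k : Fin 13) : C0 K →ₗ[TT K] C0 K :=
  rmul (io0 (gen K k)) (io0_eps _)

/-- Right multiplication by a generator on the column `1`. -/
def g1 (K : Type u) [Field K] [CharZero K] (k : Fin 13) : C1 K →ₗ[TT K] C1 K :=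
  rmul (io1 (gen K k)) (io1_eps _)

theorem Be0_cw (k : Fin 13) (x : Fin n → C0 K) :
    Be0 K n (cw (g0 K k) x) = (tact (tmat K k) (Be0 K n x).1,
      ev2 (Utriv K (Fin n → K)) (twR k) (Be0 K n x).2.1,
      tact (tmat2 K (48 + k)) (Be0 K n x).2.2) := by
  rw [Be0_apply, Be0_apply]
  have h : (fun i => be0 K (cw (g0 K k) x i)) = fun i =>
      (tact (tmat K k) (be0 K (x i)).1, ev2 (Utriv K K) (twR k) (be0 K (x i)).2.1,
        tact (tmat2 K (48 + k)) (be0 K (x i)).2.2) := by
    funext i
    exact be0_gen (x i) k
  rw [h]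
  refine Prod.ext ?_ (Prod.ext ?_ ?_)
  · exact as1_tact _ _
  · exact as2_ev _ _
  · exact as1_tact _ _

theorem Be1_cw (k : Fin 13) (x : Fin n → C1 K) :
    Be1 K n (cw (g1 K k) x) = (tact (tmat K k) (Be1 K n x).1,
      ev2 (Utriv K (Fin n → K)) (twD k) (Be1 K n x).2.1,
      tact (tmat2 K (48 + k)) (Be1 K n x).2.2) := by
  rw [Be1_apply, Be1_apply]
  have h : (fun i => be1 K (cw (g1 K k) x i)) = fun i =>
      (tact (tmat K k) (be1 K (x i)).1, ev2 (Utriv K K) (twD k) (be1 K (x i)).2.1,
        tact (tmat2 K (48 + k)) (be1 K (x i)).2.2) := by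
    funext i
    exact be1_gen (x i) k
  rw [h]
  refine Prod.ext ?_ (Prod.ext ?_ ?_)
  · exact as1_tact _ _
  · exact as2_ev _ _
  · exact as1_tact _ _

end main

end Pool.Agent.H379.NK
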