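import Pool.Agent.H379.NK.TY3
import Pool.Agent.H379.NK.BlOp
import Pool.Agent.H379.NK.DLow

/-!
# The operator systems of the columns, compared with the blocks
-/

set_option autoImplicit false
set_option linter.unusedSectionVars false

namespace Pool.Agent.H379.NK

open W450.Rig Pool.Agent.H379.GS MulOpposite TrivSqZeroExt

universe u

variable {K : Type u} [Field K] [CharZero K] {n n' : ℕ}

/-! ### Instances -/

instance iTTa : Algebra K (TT K) := inferInstance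
instance iTTm : Module K (TT K) := inferInstance
instance iTTt : IsScalarTower K (TT K) (TT K) := @IsScalarTower.right K (TT K) _ _ iTTa
instance iTTc : SMulCommClass (TT K) K (TT K) :=
  (@Algebra.to_smulCommClass K (TT K) _ _ iTTa).symm
instance iC0 : Module K (C0 K) := inferInstance
instance iC1 : Module K (C1 K) := inferInstance
instance iC0c : SMulCommClass (TT K) K (C0 K) := ⟨fun t c x => Subtype.ext (smul_comm t c x.1)⟩
instance iC1c : SMulCommClass (TT K) K (C1 K) := ⟨fun t c x => Subtype.ext (smul_comm t c x.1)⟩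

theorem be0_smul (c : K) (t : C0 K) : be0 K (c • t) = c • be0 K t := by
  refine Prod.ext ?_ (Prod.ext ?_ ?_)
  · exact map_smul (rco K) c _
  · rfl
  · rfl

theorem be1_smul (c : K) (t : C1 K) : be1 K (c • t) = c • be1 K t := by
  refine Prod.ext ?_ (Prod.ext ?_ ?_)
  · exact map_smul (rco K) c _
  · funext b
    exact Prod.ext rfl (mul_neg c _).symm
  · rfl

theorem be0_mat (L : (Fin n → K) →ₗ[K] (Fin n' → K)) (x : Fin n → C0 K) (i : Fin n') :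
    be0 K ((mat L : (Fin n → C0 K) →ₗ[TT K] (Fin n' → C0 K)) x i) =
      ∑ j, L (Pi.single j 1) i • be0 K (x j) := by
  rw [mat_apply, map_sum]
  exact Finset.sum_congr rfl fun j _ => be0_smul _ _

theorem be1_mat (L : (Fin n → K) →ₗ[K] (Fin n' → K)) (x : Fin n → C1 K) (i : Fin n') :
    be1 K ((mat L : (Fin n → C1 K) →ₗ[TT K] (Fin n' → C1 K)) x i) =
      ∑ j, L (Pi.single j 1) i • be1 K (x j) := by
  rw [mat_apply, map_sum]
  exact Finset.sum_congr rfl fun j _ => be1_smul _ _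

theorem asmB_mat (L : (Fin n → K) →ₗ[K] (Fin n' → K))
    (y : Fin n → (B → K) × (B → K × K) × (B → K)) :
    asmB (fun i => ∑ j, L (Pi.single j 1) i • y j) =
      (lact L (asmB y).1, lact (dbl L) (asmB y).2.1, lact L (asmB y).2.2) := by
  refine Prod.ext ?_ (Prod.ext ?_ ?_)
  · funext b i
    show (∑ j, L (Pi.single j 1) i • y j).1 b = L (fun j => (y j).1 b) i
    rw [lin_mat, Prod.fst_sum, Finset.sum_apply]
    rfl
  · funext b
    refine Prod.ext ?_ ?_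
    · funext i
      show ((∑ j, L (Pi.single j 1) i • y j).2.1 b).1 = L (fun j => ((y j).2.1 b).1) i
      rw [lin_mat, Prod.snd_sum, Prod.fst_sum, Finset.sum_apply, Prod.fst_sum]
      rfl
    · funext i
      show ((∑ j, L (Pi.single j 1) i • y j).2.1 b).2 = L (fun j => ((y j).2.1 b).2) i
      rw [lin_mat, Prod.snd_sum, Prod.fst_sum, Finset.sum_apply, Prod.snd_sum]
      rfl
  · funext b i
    show (∑ j, L (Pi.single j 1) i • y j).2.2 b = L (fun j => (y j).2.2 b) i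
    rw [lin_mat, Prod.snd_sum, Prod.snd_sum, Finset.sum_apply]
    rfl

theorem Be0_mat (L : (Fin n → K) →ₗ[K] (Fin n' → K)) (x : Fin n → C0 K) :
    Be0 K n' ((mat L : (Fin n → C0 K) →ₗ[TT K] (Fin n' → C0 K)) x) =
      (lact L (Be0 K n x).1, lact (dbl L) (Be0 K n x).2.1, lact L (Be0 K n x).2.2) := by
  rw [Be0_apply, Be0_apply, ← asmB_mat]
  congr 1
  funext i
  exact be0_mat L x i

theorem Be1_mat (L : (Fin n → K) →ₗ[K] (Fin n' → K)) (x : Fin n → C1 K) :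
    Be1 K n' ((mat L : (Fin n → C1 K) →ₗ[TT K] (Fin n' → C1 K)) x) =
      (lact L (Be1 K n x).1, lact (dbl L) (Be1 K n x).2.1, lact L (Be1 K n x).2.2) := by
  rw [Be1_apply, Be1_apply, ← asmB_mat]
  congr 1
  funext i
  exact be1_mat L x i

/-- The operator system of the column `0`. -/
def A0 (S : SL K (Fin n → K)) : OS (TT K) (Fin n → C0 K) := colOS (g0 K) S
/-- The operator system of the column `1`. -/
def A1 (S : SL K (Fin n → K)) : OS (TT K) (Fin n → C1 K) := colOS (g1 K) S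

/-- The blocks of the column `0`. -/
def Bl0 (S : SL K (Fin n → K)) : OS K (Bl K n) := (rB S).prod ((rB (UV S)).prod (dB S))
/-- The blocks of the column `1`. -/
def Bl1 (S : SL K (Fin n → K)) : OS K (Bl K n) := (rB S).prod ((dB (UV S)).prod (dB S))

variable (S : SL K (Fin n → K))


theorem Be0_g (k : ℕ) (hk : k < 13) (j : ℕ) (hj : 48 + k = j) (x : Fin n → C0 K) :
    Be0 K n (cw (g0 K ⟨k, hk⟩) x) = (ta1 K (Fin n → K) k (Be0 K n x).1,
      tR K (Fin n → K) k (Be0 K n x).2.1, ta2 K (Fin n → K) j (Be0 K n x).2.2) := by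
  subst hj
  exact Be0_cw ⟨k, hk⟩ x

theorem Be1_g (k : ℕ) (hk : k < 13) (j : ℕ) (hj : 48 + k = j) (x : Fin n → C1 K) :
    Be1 K n (cw (g1 K ⟨k, hk⟩) x) = (ta1 K (Fin n → K) k (Be1 K n x).1,
      tD K (Fin n → K) k (Be1 K n x).2.1, ta2 K (Fin n → K) j (Be1 K n x).2.2) := by
  subst hj
  exact Be1_cw ⟨k, hk⟩ x

section combine
variable {V : Type u} [AddCommGroup V] [Module K V]

theorem comb_sub (L : V →ₗ[K] V) (U : Module.End K (V × V)) (p q : B → V × V) :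
    (p - lact U q) - lact (dbl L) q = p - lact (dbl L + U) q := by
  rw [sub_sub]
  congr 1
  funext b
  exact add_comm _ _

theorem comb_add (L : V →ₗ[K] V) (U : Module.End K (V × V)) (p q : B → V × V) :
    (p + lact U q) + lact (dbl L) q = p + lact (dbl L + U) q := by
  rw [add_assoc]
  congr 1
  funext b
  exact add_comm _ _

end combine

section prodop
universe v v'
variable {O : Type u} [Ring O] {Q : Type v} [AddCommGroup Q] [Module O Q]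
variable {Q' : Type v'} [AddCommGroup Q'] [Module O Q'] (A : OS O Q) (A' : OS O Q') (y : Q × Q')
theorem prod_E : (A.prod A').E y = (A.E y.1, A'.E y.2) := rfl
theorem prod_F : (A.prod A').F y = (A.F y.1, A'.F y.2) := rfl
theorem prod_H : (A.prod A').H y = (A.H y.1, A'.H y.2) := rfl
theorem prod_W : (A.prod A').W y = (A.W y.1, A'.W y.2) := rfl
theorem prod_a : (A.prod A').a y = (A.a y.1, A'.a y.2) := rfl
theorem prod_B : (A.prod A').B y = (A.B y.1, A'.B y.2) := rfl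
theorem prod_z : (A.prod A').z y = (A.z y.1, A'.z y.2) := rfl
theorem prod_p00 : (A.prod A').p00 y = (A.p00 y.1, A'.p00 y.2) := rfl
theorem prod_p01 : (A.prod A').p01 y = (A.p01 y.1, A'.p01 y.2) := rfl
theorem prod_p02 : (A.prod A').p02 y = (A.p02 y.1, A'.p02 y.2) := rfl
theorem prod_p10 : (A.prod A').p10 y = (A.p10 y.1, A'.p10 y.2) := rfl
theorem prod_p11 : (A.prod A').p11 y = (A.p11 y.1, A'.p11 y.2) := rfl
theorem prod_p12 : (A.prod A').p12 y = (A.p12 y.1, A'.p12 y.2) := rfl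
end prodop

theorem Bl0_E (y : Bl K n) : (Bl0 S).E y =
    ((rB S).E y.1, (rB (UV S)).E y.2.1, (dB S).E y.2.2) := by
  unfold Bl0
  rw [prod_E, prod_E]
theorem Bl0_F (y : Bl K n) : (Bl0 S).F y =
    ((rB S).F y.1, (rB (UV S)).F y.2.1, (dB S).F y.2.2) := by
  unfold Bl0
  rw [prod_F, prod_F]
theorem Bl0_H (y : Bl K n) : (Bl0 S).H y =
    ((rB S).H y.1, (rB (UV S)).H y.2.1, (dB S).H y.2.2) := by
  unfold Bl0
  rw [prod_H, prod_H]
theorem Bl0_W (y : Bl K n) : (Bl0 S).W y =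
    ((rB S).W y.1, (rB (UV S)).W y.2.1, (dB S).W y.2.2) := by
  unfold Bl0
  rw [prod_W, prod_W]
theorem Bl0_a (y : Bl K n) : (Bl0 S).a y =
    ((rB S).a y.1, (rB (UV S)).a y.2.1, (dB S).a y.2.2) := by
  unfold Bl0
  rw [prod_a, prod_a]
theorem Bl0_B (y : Bl K n) : (Bl0 S).B y =
    ((rB S).B y.1, (rB (UV S)).B y.2.1, (dB S).B y.2.2) := by
  unfold Bl0
  rw [prod_B, prod_B]
theorem Bl0_z (y : Bl K n) : (Bl0 S).z y =
    ((rB S).z y.1, (rB (UV S)).z y.2.1, (dB S).z y.2.2) := by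
  unfold Bl0
  rw [prod_z, prod_z]
theorem Bl0_p00 (y : Bl K n) : (Bl0 S).p00 y =
    ((rB S).p00 y.1, (rB (UV S)).p00 y.2.1, (dB S).p00 y.2.2) := by
  unfold Bl0
  rw [prod_p00, prod_p00]
theorem Bl0_p01 (y : Bl K n) : (Bl0 S).p01 y =
    ((rB S).p01 y.1, (rB (UV S)).p01 y.2.1, (dB S).p01 y.2.2) := by
  unfold Bl0
  rw [prod_p01, prod_p01]
theorem Bl0_p02 (y : Bl K n) : (Bl0 S).p02 y =
    ((rB S).p02 y.1, (rB (UV S)).p02 y.2.1, (dB S).p02 y.2.2) := by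
  unfold Bl0
  rw [prod_p02, prod_p02]
theorem Bl0_p10 (y : Bl K n) : (Bl0 S).p10 y =
    ((rB S).p10 y.1, (rB (UV S)).p10 y.2.1, (dB S).p10 y.2.2) := by
  unfold Bl0
  rw [prod_p10, prod_p10]
theorem Bl0_p11 (y : Bl K n) : (Bl0 S).p11 y =
    ((rB S).p11 y.1, (rB (UV S)).p11 y.2.1, (dB S).p11 y.2.2) := by
  unfold Bl0
  rw [prod_p11, prod_p11]
theorem Bl0_p12 (y : Bl K n) : (Bl0 S).p12 y =
    ((rB S).p12 y.1, (rB (UV S)).p12 y.2.1, (dB S).p12 y.2.2) := by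
  unfold Bl0
  rw [prod_p12, prod_p12]
theorem Bl1_E (y : Bl K n) : (Bl1 S).E y =
    ((rB S).E y.1, (dB (UV S)).E y.2.1, (dB S).E y.2.2) := by
  unfold Bl1
  rw [prod_E, prod_E]
theorem Bl1_F (y : Bl K n) : (Bl1 S).F y =
    ((rB S).F y.1, (dB (UV S)).F y.2.1, (dB S).F y.2.2) := by
  unfold Bl1
  rw [prod_F, prod_F]
theorem Bl1_H (y : Bl K n) : (Bl1 S).H y =
    ((rB S).H y.1, (dB (UV S)).H y.2.1, (dB S).H y.2.2) := by
  unfold Bl1
  rw [prod_H, prod_H]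
theorem Bl1_W (y : Bl K n) : (Bl1 S).W y =
    ((rB S).W y.1, (dB (UV S)).W y.2.1, (dB S).W y.2.2) := by
  unfold Bl1
  rw [prod_W, prod_W]
theorem Bl1_a (y : Bl K n) : (Bl1 S).a y =
    ((rB S).a y.1, (dB (UV S)).a y.2.1, (dB S).a y.2.2) := by
  unfold Bl1
  rw [prod_a, prod_a]
theorem Bl1_B (y : Bl K n) : (Bl1 S).B y =
    ((rB S).B y.1, (dB (UV S)).B y.2.1, (dB S).B y.2.2) := by
  unfold Bl1
  rw [prod_B, prod_B]
theorem Bl1_z (y : Bl K n) : (Bl1 S).z y =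
    ((rB S).z y.1, (dB (UV S)).z y.2.1, (dB S).z y.2.2) := by
  unfold Bl1
  rw [prod_z, prod_z]
theorem Bl1_p00 (y : Bl K n) : (Bl1 S).p00 y =
    ((rB S).p00 y.1, (dB (UV S)).p00 y.2.1, (dB S).p00 y.2.2) := by
  unfold Bl1
  rw [prod_p00, prod_p00]
theorem Bl1_p01 (y : Bl K n) : (Bl1 S).p01 y =
    ((rB S).p01 y.1, (dB (UV S)).p01 y.2.1, (dB S).p01 y.2.2) := by
  unfold Bl1
  rw [prod_p01, prod_p01]
theorem Bl1_p02 (y : Bl K n) : (Bl1 S).p02 y =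
    ((rB S).p02 y.1, (dB (UV S)).p02 y.2.1, (dB S).p02 y.2.2) := by
  unfold Bl1
  rw [prod_p02, prod_p02]
theorem Bl1_p10 (y : Bl K n) : (Bl1 S).p10 y =
    ((rB S).p10 y.1, (dB (UV S)).p10 y.2.1, (dB S).p10 y.2.2) := by
  unfold Bl1
  rw [prod_p10, prod_p10]
theorem Bl1_p11 (y : Bl K n) : (Bl1 S).p11 y =
    ((rB S).p11 y.1, (dB (UV S)).p11 y.2.1, (dB S).p11 y.2.2) := by
  unfold Bl1
  rw [prod_p11, prod_p11]
theorem Bl1_p12 (y : Bl K n) : (Bl1 S).p12 y =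
    ((rB S).p12 y.1, (dB (UV S)).p12 y.2.1, (dB S).p12 y.2.2) := by
  unfold Bl1
  rw [prod_p12, prod_p12]

theorem map0_E (x : Fin n → C0 K) : Be0 K n ((A0 S).E x) = (Bl0 S).E (Be0 K n x) := by
  have h : (A0 S).E x = cw (g0 K ⟨1, by decide⟩) x -
    (mat S.e : (Fin n → C0 K) →ₗ[TT K] (Fin n → C0 K)) (cw (g0 K ⟨0, by decide⟩) x) := rfl
  rw [h, map_sub, Be0_mat, Be0_g 1 (by decide) 49 rfl, Be0_g 0 (by decide) 48 rfl, Bl0_E,
    rB_E, rB_E, dB_E]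
  simp only [Prod.mk_sub_mk, tR_1, tR_0]
  rw [comb_sub]
  rfl
theorem map0_F (x : Fin n → C0 K) : Be0 K n ((A0 S).F x) = (Bl0 S).F (Be0 K n x) := by
  have h : (A0 S).F x = cw (g0 K ⟨4, by decide⟩) x -
    (mat S.f : (Fin n → C0 K) →ₗ[TT K] (Fin n → C0 K)) (cw (g0 K ⟨6, by decide⟩) x) := rfl
  rw [h, map_sub, Be0_mat, Be0_g 4 (by decide) 52 rfl, Be0_g 6 (by decide) 54 rfl, Bl0_F,
    rB_F, rB_F, dB_F]
  simp only [Prod.mk_sub_mk, tR_4, tR_6]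
  rw [comb_sub]
  rfl
theorem map0_H (x : Fin n → C0 K) : Be0 K n ((A0 S).H x) = (Bl0 S).H (Be0 K n x) := by
  have h : (A0 S).H x = cw (g0 K ⟨5, by decide⟩) x -
    (mat S.h : (Fin n → C0 K) →ₗ[TT K] (Fin n → C0 K)) (cw (g0 K ⟨6, by decide⟩) x) := rfl
  rw [h, map_sub, Be0_mat, Be0_g 5 (by decide) 53 rfl, Be0_g 6 (by decide) 54 rfl, Bl0_H,
    rB_H, rB_H, dB_H]
  simp only [Prod.mk_sub_mk, tR_5, tR_6]
  rw [comb_sub]
  rfl
theorem map0_W (x : Fin n → C0 K) : Be0 K n ((A0 S).W x) = (Bl0 S).W (Be0 K n x) := by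
  have h : (A0 S).W x = cw (g0 K ⟨2, by decide⟩) x +
    (mat S.e : (Fin n → C0 K) →ₗ[TT K] (Fin n → C0 K)) (cw (g0 K ⟨3, by decide⟩) x) := rfl
  rw [h, map_add, Be0_mat, Be0_g 2 (by decide) 50 rfl, Be0_g 3 (by decide) 51 rfl, Bl0_W,
    rB_W, rB_W, dB_W]
  simp only [Prod.mk_add_mk, tR_2, tR_3]
  rw [comb_add]
  rfl
theorem map0_a (x : Fin n → C0 K) : Be0 K n ((A0 S).a x) = (Bl0 S).a (Be0 K n x) := by
  have h : (A0 S).a x = cw (g0 K ⟨0, by decide⟩) x := rfl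
  rw [h, Be0_g 0 (by decide) 48 rfl, Bl0_a, rB_a, rB_a, dB_a, tR_0]
theorem map0_B (x : Fin n → C0 K) : Be0 K n ((A0 S).B x) = (Bl0 S).B (Be0 K n x) := by
  have h : (A0 S).B x = cw (g0 K ⟨3, by decide⟩) x := rfl
  rw [h, Be0_g 3 (by decide) 51 rfl, Bl0_B, rB_B, rB_B, dB_B, tR_3]
theorem map0_z (x : Fin n → C0 K) : Be0 K n ((A0 S).z x) = (Bl0 S).z (Be0 K n x) := by
  have h : (A0 S).z x = cw (g0 K ⟨6, by decide⟩) x := rfl
  rw [h, Be0_g 6 (by decide) 54 rfl, Bl0_z, rB_z, rB_z, dB_z, tR_6]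
theorem map0_p00 (x : Fin n → C0 K) : Be0 K n ((A0 S).p00 x) = (Bl0 S).p00 (Be0 K n x) := by
  have h : (A0 S).p00 x = cw (g0 K ⟨7, by decide⟩) x := rfl
  rw [h, Be0_g 7 (by decide) 55 rfl, Bl0_p00, rB_p00, rB_p00, dB_p00, tR_7]
theorem map0_p01 (x : Fin n → C0 K) : Be0 K n ((A0 S).p01 x) = (Bl0 S).p01 (Be0 K n x) := by
  have h : (A0 S).p01 x = cw (g0 K ⟨8, by decide⟩) x := rfl
  rw [h, Be0_g 8 (by decide) 56 rfl, Bl0_p01, rB_p01, rB_p01, dB_p01, tR_8]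
theorem map0_p02 (x : Fin n → C0 K) : Be0 K n ((A0 S).p02 x) = (Bl0 S).p02 (Be0 K n x) := by
  have h : (A0 S).p02 x = cw (g0 K ⟨9, by decide⟩) x := rfl
  rw [h, Be0_g 9 (by decide) 57 rfl, Bl0_p02, rB_p02, rB_p02, dB_p02, tR_9]
theorem map0_p10 (x : Fin n → C0 K) : Be0 K n ((A0 S).p10 x) = (Bl0 S).p10 (Be0 K n x) := by
  have h : (A0 S).p10 x = cw (g0 K ⟨10, by decide⟩) x := rfl
  rw [h, Be0_g 10 (by decide) 58 rfl, Bl0_p10, rB_p10, rB_p10, dB_p10, tR_10]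
theorem map0_p11 (x : Fin n → C0 K) : Be0 K n ((A0 S).p11 x) = (Bl0 S).p11 (Be0 K n x) := by
  have h : (A0 S).p11 x = cw (g0 K ⟨11, by decide⟩) x := rfl
  rw [h, Be0_g 11 (by decide) 59 rfl, Bl0_p11, rB_p11, rB_p11, dB_p11, tR_11]
theorem map0_p12 (x : Fin n → C0 K) : Be0 K n ((A0 S).p12 x) = (Bl0 S).p12 (Be0 K n x) := by
  have h : (A0 S).p12 x = cw (g0 K ⟨12, by decide⟩) x := rfl
  rw [h, Be0_g 12 (by decide) 60 rfl, Bl0_p12, rB_p12, rB_p12, dB_p12, tR_12]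

theorem map0 : OS.Map (A0 S) (Bl0 S) (Be0 K n) where
  E := map0_E S
  F := map0_F S
  H := map0_H S
  W := map0_W S
  a := map0_a S
  B := map0_B S
  z := map0_z S
  p00 := map0_p00 S
  p01 := map0_p01 S
  p02 := map0_p02 S
  p10 := map0_p10 S
  p11 := map0_p11 S
  p12 := map0_p12 S

theorem map1_E (x : Fin n → C1 K) : Be1 K n ((A1 S).E x) = (Bl1 S).E (Be1 K n x) := by
  have h : (A1 S).E x = cw (g1 K ⟨1, by decide⟩) x -
    (mat S.e : (Fin n → C1 K) →ₗ[TT K] (Fin n → C1 K)) (cw (g1 K ⟨0, by decide⟩) x) := rfl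
  rw [h, map_sub, Be1_mat, Be1_g 1 (by decide) 49 rfl, Be1_g 0 (by decide) 48 rfl, Bl1_E,
    rB_E, dB_E, dB_E]
  simp only [Prod.mk_sub_mk, tD_1, tD_0]
  rw [comb_sub]
  rfl
theorem map1_F (x : Fin n → C1 K) : Be1 K n ((A1 S).F x) = (Bl1 S).F (Be1 K n x) := by
  have h : (A1 S).F x = cw (g1 K ⟨4, by decide⟩) x -
    (mat S.f : (Fin n → C1 K) →ₗ[TT K] (Fin n → C1 K)) (cw (g1 K ⟨6, by decide⟩) x) := rfl
  rw [h, map_sub, Be1_mat, Be1_g 4 (by decide) 52 rfl, Be1_g 6 (by decide) 54 rfl, Bl1_F,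
    rB_F, dB_F, dB_F]
  simp only [Prod.mk_sub_mk, tD_4, tD_6]
  rw [comb_sub]
  rfl
theorem map1_H (x : Fin n → C1 K) : Be1 K n ((A1 S).H x) = (Bl1 S).H (Be1 K n x) := by
  have h : (A1 S).H x = cw (g1 K ⟨5, by decide⟩) x -
    (mat S.h : (Fin n → C1 K) →ₗ[TT K] (Fin n → C1 K)) (cw (g1 K ⟨6, by decide⟩) x) := rfl
  rw [h, map_sub, Be1_mat, Be1_g 5 (by decide) 53 rfl, Be1_g 6 (by decide) 54 rfl, Bl1_H,
    rB_H, dB_H, dB_H]
  simp only [Prod.mk_sub_mk, tD_5, tD_6]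
  rw [comb_sub]
  rfl
theorem map1_W (x : Fin n → C1 K) : Be1 K n ((A1 S).W x) = (Bl1 S).W (Be1 K n x) := by
  have h : (A1 S).W x = cw (g1 K ⟨2, by decide⟩) x +
    (mat S.e : (Fin n → C1 K) →ₗ[TT K] (Fin n → C1 K)) (cw (g1 K ⟨3, by decide⟩) x) := rfl
  rw [h, map_add, Be1_mat, Be1_g 2 (by decide) 50 rfl, Be1_g 3 (by decide) 51 rfl, Bl1_W,
    rB_W, dB_W, dB_W]
  simp only [Prod.mk_add_mk, tD_2, tD_3]
  rw [comb_add]
  rfl
theorem map1_a (x : Fin n → C1 K) : Be1 K n ((A1 S).a x) = (Bl1 S).a (Be1 K n x) := by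
  have h : (A1 S).a x = cw (g1 K ⟨0, by decide⟩) x := rfl
  rw [h, Be1_g 0 (by decide) 48 rfl, Bl1_a, rB_a, dB_a, dB_a, tD_0]
theorem map1_B (x : Fin n → C1 K) : Be1 K n ((A1 S).B x) = (Bl1 S).B (Be1 K n x) := by
  have h : (A1 S).B x = cw (g1 K ⟨3, by decide⟩) x := rfl
  rw [h, Be1_g 3 (by decide) 51 rfl, Bl1_B, rB_B, dB_B, dB_B, tD_3]
theorem map1_z (x : Fin n → C1 K) : Be1 K n ((A1 S).z x) = (Bl1 S).z (Be1 K n x) := by
  have h : (A1 S).z x = cw (g1 K ⟨6, by decide⟩) x := rfl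
  rw [h, Be1_g 6 (by decide) 54 rfl, Bl1_z, rB_z, dB_z, dB_z, tD_6]
theorem map1_p00 (x : Fin n → C1 K) : Be1 K n ((A1 S).p00 x) = (Bl1 S).p00 (Be1 K n x) := by
  have h : (A1 S).p00 x = cw (g1 K ⟨7, by decide⟩) x := rfl
  rw [h, Be1_g 7 (by decide) 55 rfl, Bl1_p00, rB_p00, dB_p00, dB_p00, tD_7]
theorem map1_p01 (x : Fin n → C1 K) : Be1 K n ((A1 S).p01 x) = (Bl1 S).p01 (Be1 K n x) := by
  have h : (A1 S).p01 x = cw (g1 K ⟨8, by decide⟩) x := rfl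
  rw [h, Be1_g 8 (by decide) 56 rfl, Bl1_p01, rB_p01, dB_p01, dB_p01, tD_8]
theorem map1_p02 (x : Fin n → C1 K) : Be1 K n ((A1 S).p02 x) = (Bl1 S).p02 (Be1 K n x) := by
  have h : (A1 S).p02 x = cw (g1 K ⟨9, by decide⟩) x := rfl
  rw [h, Be1_g 9 (by decide) 57 rfl, Bl1_p02, rB_p02, dB_p02, dB_p02, tD_9]
theorem map1_p10 (x : Fin n → C1 K) : Be1 K n ((A1 S).p10 x) = (Bl1 S).p10 (Be1 K n x) := by
  have h : (A1 S).p10 x = cw (g1 K ⟨10, by decide⟩) x := rfl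
  rw [h, Be1_g 10 (by decide) 58 rfl, Bl1_p10, rB_p10, dB_p10, dB_p10, tD_10]
theorem map1_p11 (x : Fin n → C1 K) : Be1 K n ((A1 S).p11 x) = (Bl1 S).p11 (Be1 K n x) := by
  have h : (A1 S).p11 x = cw (g1 K ⟨11, by decide⟩) x := rfl
  rw [h, Be1_g 11 (by decide) 59 rfl, Bl1_p11, rB_p11, dB_p11, dB_p11, tD_11]
theorem map1_p12 (x : Fin n → C1 K) : Be1 K n ((A1 S).p12 x) = (Bl1 S).p12 (Be1 K n x) := by
  have h : (A1 S).p12 x = cw (g1 K ⟨12, by decide⟩) x := rfl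
  rw [h, Be1_g 12 (by decide) 60 rfl, Bl1_p12, rB_p12, dB_p12, dB_p12, tD_12]

theorem map1 : OS.Map (A1 S) (Bl1 S) (Be1 K n) where
  E := map1_E S
  F := map1_F S
  H := map1_H S
  W := map1_W S
  a := map1_a S
  B := map1_B S
  z := map1_z S
  p00 := map1_p00 S
  p01 := map1_p01 S
  p02 := map1_p02 S
  p10 := map1_p10 S
  p11 := map1_p11 S
  p12 := map1_p12 S

/-! ### The operator systems of the columns are exact -/

theorem L0 : (A0 S).Laws :=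
  OS.Laws.of_map (map0 S) Be0_bij.1 ((rB_laws S).prod ((rB_laws (UV S)).prod (dB_laws S)))

theorem L1 : (A1 S).Laws :=
  OS.Laws.of_map (map1 S) Be1_bij.1 ((rB_laws S).prod ((dB_laws (UV S)).prod (dB_laws S)))

theorem X0 : (A0 S).EWex :=
  OS.EWex.of_map (map0 S) Be0_bij ((rB_EWex S).prod ((rB_EWex (UV S)).prod (dB_EWex S)))

theorem X1 : (A1 S).EWex :=
  OS.EWex.of_map (map1 S) Be1_bij ((rB_EWex S).prod ((dB_EWex (UV S)).prod (dB_EWex S)))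

theorem G0 : (A0 S).Ex1 :=
  OS.Ex1.of_map (map0 S) Be0_bij ((rB_Ex1 S).prod ((rB_Ex1 (UV S)).prod (dB_Ex1 S)))

theorem G1 : (A1 S).Ex1 :=
  OS.Ex1.of_map (map1 S) Be1_bij ((rB_Ex1 S).prod ((dB_Ex1 (UV S)).prod (dB_Ex1 S)))

end Pool.Agent.H379.NK
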