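import Pool.Agent.H379.NK.TY5a

/-!
# The maps between the columns
-/

set_option autoImplicit false
set_option linter.unusedSectionVars false

namespace Pool.Agent.H379.NK

open W450.Rig Pool.Agent.H379.GS MulOpposite TrivSqZeroExt

universe u

variable {K : Type u} [Field K] [CharZero K] {n n' : ℕ}

attribute [local irreducible] Phi' rho zet eta lam tact

/-! ### Right multiplication by elements of the bimodule -/

/-- The element `1 ⊗ u` of the bimodule. -/
def mu (u : K × K) : TT K := muM (MB.mk (oneV u))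

/-- Right multiplication by `1 ⊗ u`. -/
def rmu (u : K × K) : C1 K →ₗ[TT K] C0 K := rmul (mu u) (muM_eps _)

theorem rco_oneV (r : Rg K) (u : K × K) (b : B) :
    (r • (oneV u : B → K × K)) b = rco K r b • u := by
  have h : r • (oneV u : B → K × K) = ∑ c, rco K r c • (Pi.single c u : B → K × K) := by
    conv_lhs => rw [← rmk_rco r]
    rw [rmk, Finset.sum_smul]
    refine Finset.sum_congr rfl fun c _ => ?_
    rw [smul_assoc, lam_oneV']
  rw [h, Finset.sum_apply, Finset.sum_eq_single b]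
  · simp
  · intro c _ hc
    simp [hc.symm]
  · simp

theorem mul_mu_fst (u : K × K) (b : B) : (mu u).fst * Tri.mk (lam K b) 0 0 =
    Tri.mk 0 0 (MB.mk (Phi' K K (Pi.single b u))) := by
  refine Tri.ext (zero_mul _) (mul_zero _) ?_
  have h : (0 : Rg K) • (0 : MB K) + op (lam K b) • MB.mk (oneV u) =
      MB.mk (Phi' K K (Pi.single b u)) := by
    rw [smul_zero, zero_add, op_smul_mk, rho_one_Phi]
  exact h

theorem be0_rmu (u : K × K) (t : C1 K) :
    be0 K (rmu u t) = (0, fun b => (be1 K t).1 b • u,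
      fun b => u.2 * ((be1 K t).2.1 b).1 - u.1 * ((be1 K t).2.1 b).2) := by
  rw [be0_apply, be1_apply]
  refine Prod.ext ?_ (Prod.ext ?_ ?_)
  · have h : rco K (t.1.fst.a * 0) = 0 := by rw [mul_zero, map_zero]
    exact h
  · have h : MB.v (t.1.fst.b • MB.mk (oneV u) + op (0 : Rg K) • t.1.fst.m) =
        fun b => rco K t.1.fst.b b • u := by
      rw [op_zero, zero_smul, add_zero, smul_mk, MB.v_mk]
      funext b
      exact rco_oneV t.1.fst.b u b
    exact h
  · funext b
    have h : DA.ev (t.1 * mu u).snd (Tri.mk (lam K b) 0 0) =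
        u.2 * (fco (phM t.1) b).1 - u.1 * (fco (phM t.1) b).2 := by
      rw [ev_mul_snd]
      have h0 : ∀ w, DA.ev (mu u).snd w = 0 := fun _ => rfl
      rw [h0, zero_add, mul_mu_fst, ← phM_apply, fco_pai, pai_single]
    exact h

/-! ### Right multiplication by functionals on the bimodule -/

/-- Right multiplication by a functional. -/
def rnu (f : MB K →ₗ[K] K) : C0 K →ₗ[TT K] C1 K := rmul (nuM f) (nuM_eps _)

/-- first auxiliary vector -/
def vt (x : B → K) : B → K × K := fun c => (0, x c)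
/-- second auxiliary vector -/
def vs (x : B → K) : B → K × K := fun c => (x c, 0)

theorem be1_rnu (f : MB K →ₗ[K] K) (t : C0 K) :
    be1 K (rnu f t) = (0,
      fun b => (f (MB.mk (Phi' K K (lam K b • vt (be0 K t).1))),
        - f (MB.mk (Phi' K K (lam K b • vs (be0 K t).1)))),
      fun b => f (MB.mk (lam K b • (be0 K t).2.1))) := by
  have key : ∀ (u : K × K) (b : B), phM (t.1 * nuM f) (MB.mk (Phi' K K (Pi.single b u))) =
      f (MB.mk (Phi' K K (lam K b • (fun c => rco K t.1.fst.a c • u : B → K × K)))) := by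
    intro u b
    rw [phM_apply, ev_mul_snd]
    have h0 : (nuM f).fst * Tri.mk 0 0 (MB.mk (Phi' K K (Pi.single b u))) = 0 := zero_mul _
    rw [h0, map_zero, add_zero, ev_nuM]
    refine congrArg f ?_
    have e1 : Phi' K K (Pi.single b u) = rho (lam K b) (oneV u) := (rho_one_Phi b u).symm
    have e2 : t.1.fst.a • (oneV u : B → K × K) = fun c => rco K t.1.fst.a c • u :=
      funext (rco_oneV t.1.fst.a u)
    have e3 : (0 : Rg K) • t.1.fst.m + op t.1.fst.a • MB.mk (Phi' K K (Pi.single b u)) =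
        MB.mk (Phi' K K (lam K b • (fun c => rco K t.1.fst.a c • u : B → K × K))) := by
      rw [zero_smul, zero_add, op_smul_mk, e1, ← rho_mul, rho_oneV, mul_smul, e2]
    exact e3
  rw [be1_apply, be0_apply]
  refine Prod.ext ?_ (Prod.ext ?_ ?_)
  · have h : rco K (t.1.fst.b * 0) = 0 := by rw [mul_zero, map_zero]
    exact h
  · funext b
    refine Prod.ext ?_ ?_
    · have h : phM (t.1 * nuM f) (MB.mk (Phi' K K (Pi.single b (0, 1)))) =
          f (MB.mk (Phi' K K (lam K b • vt (rco K t.1.fst.a)))) := by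
        rw [key]
        refine congrArg (fun w => f (MB.mk (Phi' K K (lam K b • w)))) ?_
        funext c
        exact Prod.ext (mul_zero _) (mul_one _)
      exact h
    · have h : - phM (t.1 * nuM f) (MB.mk (Phi' K K (Pi.single b (1, 0)))) =
          - f (MB.mk (Phi' K K (lam K b • vs (rco K t.1.fst.a)))) := by
        rw [key]
        refine congrArg (fun w => - f (MB.mk (Phi' K K (lam K b • w)))) ?_
        funext c
        exact Prod.ext (mul_one _) (mul_zero _)
      exact h
  · funext b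
    have h : DA.ev (t.1 * nuM f).snd (Tri.mk 0 (lam K b) 0) =
        f (MB.mk (lam K b • MB.v t.1.fst.m)) := by
      rw [ev_mul_snd]
      have h0 : (nuM f).fst * Tri.mk 0 (lam K b) 0 = 0 := zero_mul _
      rw [h0, map_zero, add_zero, ev_nuM]
      refine congrArg f ?_
      have h1 : lam K b • t.1.fst.m + op t.1.fst.a • (0 : MB K) =
          MB.mk (lam K b • MB.v t.1.fst.m) := by
        rw [smul_zero, add_zero, ← smul_mk, MB.mk_v]
      exact h1
    exact h

/-! ### The map `ψ` -/

/-- The map `ψ : Q_1(V_{n+1}) → Q_0(V_n)`. -/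
def psi (K : Type u) [Field K] [CharZero K] (n : ℕ) :
    (Fin (n + 1 + 1) → C1 K) →ₗ[TT K] (Fin (n + 1) → C0 K) :=
  (mat (dt K n) : (Fin (n + 1 + 1) → C0 K) →ₗ[TT K] (Fin (n + 1) → C0 K)) ∘ₗ cw (rmu (1, 0)) -
  (mat (ds K n) : (Fin (n + 1 + 1) → C0 K) →ₗ[TT K] (Fin (n + 1) → C0 K)) ∘ₗ cw (rmu (0, 1))

theorem Be0_rmu (u : K × K) (x : Fin n → C1 K) :
    Be0 K n (cw (rmu u) x) = (0, fun b => (u.1 • (Be1 K n x).1 b, u.2 • (Be1 K n x).1 b),
      fun b => u.2 • ((Be1 K n x).2.1 b).1 - u.1 • ((Be1 K n x).2.1 b).2) := by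
  rw [Be0_apply]
  have h : (fun i => be0 K (cw (rmu u) x i)) = fun i => ((0 : B → K),
      (fun b => (be1 K (x i)).1 b • u : B → K × K),
      (fun b => u.2 * ((be1 K (x i)).2.1 b).1 - u.1 * ((be1 K (x i)).2.1 b).2 : B → K)) := by
    funext i
    exact be0_rmu u (x i)
  rw [h]
  refine Prod.ext ?_ (Prod.ext ?_ ?_)
  · rfl
  · funext b
    refine Prod.ext ?_ ?_
    · funext i
      exact mul_comm _ _
    · funext i
      exact mul_comm _ _
  · rfl

/-- `ψ` in blocks. -/
theorem Be0_psi (x : Fin (n + 1 + 1) → C1 K) :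
    Be0 K (n + 1) (psi K n x) = (0, lact (iot K n) (Be1 K (n + 1 + 1) x).1,
      - lact (kap K n) (Be1 K (n + 1 + 1) x).2.1) := by
  rw [psi, LinearMap.sub_apply, LinearMap.comp_apply, LinearMap.comp_apply]
  rw [map_sub, Be0_mat, Be0_mat, Be0_rmu, Be0_rmu]
  refine Prod.ext ?_ (Prod.ext ?_ ?_)
  · have h : lact (dt K n) (0 : B → _) - lact (ds K n) (0 : B → _) = 0 := by
      rw [map_zero, map_zero, sub_zero]
    exact h
  · funext b
    refine Prod.ext ?_ ?_
    · have h : dt K n ((1 : K) • (Be1 K (n + 1 + 1) x).1 b) -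
          ds K n ((0 : K) • (Be1 K (n + 1 + 1) x).1 b) = dt K n ((Be1 K (n + 1 + 1) x).1 b) := by
        rw [one_smul, zero_smul, map_zero, sub_zero]
      exact h
    · have h : dt K n ((0 : K) • (Be1 K (n + 1 + 1) x).1 b) -
          ds K n ((1 : K) • (Be1 K (n + 1 + 1) x).1 b) =
          - ds K n ((Be1 K (n + 1 + 1) x).1 b) := by
        rw [one_smul, zero_smul, map_zero, zero_sub]
      exact h
  · funext b
    have h : dt K n ((0 : K) • ((Be1 K (n + 1 + 1) x).2.1 b).1 -
        (1 : K) • ((Be1 K (n + 1 + 1) x).2.1 b).2) -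
      ds K n ((1 : K) • ((Be1 K (n + 1 + 1) x).2.1 b).1 -
        (0 : K) • ((Be1 K (n + 1 + 1) x).2.1 b).2) =
      - (ds K n ((Be1 K (n + 1 + 1) x).2.1 b).1 + dt K n ((Be1 K (n + 1 + 1) x).2.1 b).2) := by
      rw [one_smul, zero_smul, one_smul, zero_smul, zero_sub, sub_zero, map_neg]
      abel
    exact h

end Pool.Agent.H379.NK
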