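import Pool.Agent.H379.NK.TY4
import Pool.Agent.H379.NK.Eta

/-!
# Preparations for the maps between the columns
-/

set_option autoImplicit false
set_option linter.unusedSectionVars false
namespace Pool.Agent.H379.NK
open W450.Rig Pool.Agent.H379.GS MulOpposite TrivSqZeroExt
universe u
variable {K : Type u} [Field K] [CharZero K] {n n' : ℕ}

theorem zet_nat' {V V' : Type u} [AddCommGroup V] [Module K V] (S : SL K V)
    [AddCommGroup V'] [Module K V'] (S' : SL K V') {m : V →ₗ[K] V'} (h : Eqv S S' m)
    (x : B → V) : zet S' (lact m x) = m (zet S x) := by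
  have h1 := EtaL.ev_lact S S' h X.QQ x
  rw [EtaL.zet_apply, EtaL.zet_apply]
  have h2 : S'.q (lact m x) = lact m (S.q x) := h1
  rw [h2, lact_apply]

theorem PhiU_eq (V : Type u) [AddCommGroup V] [Module K V] : PhiU K V = Phi' K V := by
  have h : ev2 (Utriv K V) DX.Phi = ev2 (Utriv K V) DX.Phi := rfl
  exact h

theorem zet_Phi' {V : Type u} [AddCommGroup V] [Module K V] (S : SL K V) (w : B → V × V) :
    zet (UV S) (Phi' K V w) = zet (SS S) w := by
  rw [← PhiU_eq, zet_PhiU]

theorem zet_kap_Phi {V V' : Type u} [AddCommGroup V] [Module K V] (S : SL K V)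
    [AddCommGroup V'] [Module K V'] (S' : SL K V') {κ : V × V →ₗ[K] V'} (h : Eqv (UV S) S' κ)
    (w : B → V × V) : zet S' (lact κ (Phi' K V w)) = κ (zet (SS S) w) := by
  rw [zet_nat' (UV S) S' h, zet_Phi']

theorem as2_Phi (x : Fin n → (B → K × K)) :
    as2 (fun i => Phi' K K (x i)) = Phi' K (Fin n → K) (as2 x) := as2_ev DX.Phi x

theorem op_smul_mk (r : Rg K) (x : B → K × K) :
    MulOpposite.op r • MB.mk x = MB.mk (rho r x) := by
  have h : rho r x = rho r x := rfl
  exact h

theorem smul_mk (r : Rg K) (x : B → K × K) : r • MB.mk x = MB.mk (r • x) := by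
  have h : r • x = r • x := rfl
  exact h

theorem rho_one_Phi (b : B) (u : K × K) :
    rho (lam K b) (oneV u) = Phi' K K (Pi.single b u) := by
  rw [rho_oneV, lam_oneV']

theorem rsmul_lact {V V' : Type u} [AddCommGroup V] [Module K V]
    [AddCommGroup V'] [Module K V'] (m : V →ₗ[K] V') (r : Rg K) (x : B → V) :
    r • lact m x = lact m (r • x) := tact_lact (phi K r) m x

theorem as1_smul (r : Rg K) (x : Fin n → (B → K)) :
    as1 (fun i => r • x i) = r • as1 x := as1_tact (phi K r) x

theorem as2_smul (r : Rg K) (x : Fin n → (B → K × K)) :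
    as2 (fun i => r • x i) = r • as2 x := as2_tact (phi K r) x

end Pool.Agent.H379.NK
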