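import Pool.Agent.H379.NK.Opq

/-!
# The map `θ`
-/

set_option autoImplicit false
set_option linter.unusedSectionVars false

namespace Pool.Agent.H379.NK

open W450.Rig Pool.Agent.H379.GS MulOpposite TrivSqZeroExt

universe u


variable {K : Type u} [Field K] [CharZero K] {n n' : ℕ}

/-- The vector attached to an element of the bimodule. -/
def tw (K : Type u) [Field K] [CharZero K] (n : ℕ) (i : Fin (n + 1 + 1)) :
    MB K →ₗ[K] (B → (Fin (n + 1) → K)) where
  toFun m := fun b => (MB.v m b).1 • ds K n (Pi.single i 1) + (MB.v m b).2 • dt K n (Pi.single i 1)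
  map_add' m m' := by
    funext b
    have h : ((MB.v m b).1 + (MB.v m' b).1) • ds K n (Pi.single i 1) +
        ((MB.v m b).2 + (MB.v m' b).2) • dt K n (Pi.single i 1) =
        ((MB.v m b).1 • ds K n (Pi.single i 1) + (MB.v m b).2 • dt K n (Pi.single i 1)) +
        ((MB.v m' b).1 • ds K n (Pi.single i 1) + (MB.v m' b).2 • dt K n (Pi.single i 1)) := by
      rw [add_smul, add_smul]
      abel
    exact h
  map_smul' c m := by
    funext b
    have h : (c * (MB.v m b).1) • ds K n (Pi.single i 1) +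
        (c * (MB.v m b).2) • dt K n (Pi.single i 1) =
        c • ((MB.v m b).1 • ds K n (Pi.single i 1) + (MB.v m b).2 • dt K n (Pi.single i 1)) := by
      rw [mul_smul, mul_smul, smul_add]
    exact h

/-- The functionals defining `θ`. -/
def thf (K : Type u) [Field K] [CharZero K] (n : ℕ) (i : Fin (n + 1 + 1)) (j : Fin (n + 1)) :
    MB K →ₗ[K] K := LinearMap.proj j ∘ₗ zetO (irr K n) ∘ₗ tw K n i

theorem thf_apply (i : Fin (n + 1 + 1)) (j : Fin (n + 1)) (m : MB K) :
    thf K n i j m = zetO (irr K n) (tw K n i m) j := rfl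

/-- The map `θ : Q_0(V_{n+1}) → Q_1(V_n)`. -/
def theta (K : Type u) [Field K] [CharZero K] (n : ℕ) :
    (Fin (n + 1 + 1) → C0 K) →ₗ[TT K] (Fin (n + 1) → C1 K) where
  toFun x := fun j => ∑ i, rnu (thf K n i j) (x i)
  map_add' x y := by
    funext j
    simp only [Pi.add_apply, map_add, Finset.sum_add_distrib]
  map_smul' c x := by
    funext j
    simp only [Pi.smul_apply, RingHom.id_apply, map_smul, Finset.smul_sum]

theorem thetaO_apply (x : Fin (n + 1 + 1) → C0 K) (j : Fin (n + 1)) :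
    theta K n x j = ∑ i, rnu (thf K n i j) (x i) := rfl

theorem kap_sum (p : (Fin (n + 1 + 1) → K) × (Fin (n + 1 + 1) → K)) :
    kap K n p = ∑ i, (p.1 i • ds K n (Pi.single i 1) + p.2 i • dt K n (Pi.single i 1)) := by
  have h : ∀ v : Fin (n + 1 + 1) → K,
      v = ∑ i, v i • (Pi.single i (1 : K) : Fin (n + 1 + 1) → K) := by
    intro v
    funext k
    rw [Finset.sum_apply, Finset.sum_eq_single k]
    · simp
    · intro j _ hj
      simp [hj.symm]
    · simp
  rw [kap_apply]
  conv_lhs => rw [h p.1, h p.2]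
  rw [map_sum, map_sum, ← Finset.sum_add_distrib]
  refine Finset.sum_congr rfl fun i _ => ?_
  rw [map_smul, map_smul]

theorem tw_sum (m : Fin (n + 1 + 1) → (B → K × K)) :
    ∑ i, tw K n i (MB.mk (m i)) = lact (kap K n) (as2 m) := by
  funext b
  rw [lact_apply, kap_sum, Finset.sum_apply]
  rfl

theorem thf_sum (j : Fin (n + 1)) (m : Fin (n + 1 + 1) → (B → K × K)) :
    ∑ i, thf K n i j (MB.mk (m i)) = zetO (irr K n) (lact (kap K n) (as2 m)) j := by
  rw [← tw_sum, map_sum, Finset.sum_apply]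
  rfl

theorem as2_vt (r : Rg K) (y : Fin n → (B → K)) :
    as2 (fun i => PhO K K (r • vt (y i))) =
      PhO K (Fin n → K) (r • lact (LinearMap.inr K (Fin n → K) (Fin n → K)) (as1 y)) := by
  rw [as2_PhO, as2_smul]
  have e1 : as2 (fun i => vt (y i)) =
      lact (LinearMap.inr K (Fin n → K) (Fin n → K)) (as1 y) := rfl
  rw [e1]

theorem as2_vs (r : Rg K) (y : Fin n → (B → K)) :
    as2 (fun i => PhO K K (r • vs (y i))) =
      PhO K (Fin n → K) (r • lact (LinearMap.inl K (Fin n → K) (Fin n → K)) (as1 y)) := by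
  rw [as2_PhO, as2_smul]
  have e1 : as2 (fun i => vs (y i)) =
      lact (LinearMap.inl K (Fin n → K) (Fin n → K)) (as1 y) := rfl
  rw [e1]

theorem kap_r (v : Fin (n + 1 + 1) → K) : kap K n (0, v) = dt K n v := by
  rw [kap_apply, map_zero, zero_add]

theorem kap_l (v : Fin (n + 1 + 1) → K) : kap K n (v, 0) = ds K n v := by
  rw [kap_apply, map_zero, add_zero]

/-- The second component of `θ`, first part -/
theorem th_t (j : Fin (n + 1)) (y : Fin (n + 1 + 1) → (B → K)) (b : B) :
    ∑ i, thf K n i j (MB.mk (PhO K K (lam K b • vt (y i)))) =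
      dt K n (etaO (irr K (n + 1)) (as1 y) b) j := by
  have h1 := thf_sum j fun i => PhO K K (lam K b • vt (y i))
  rw [as2_vt] at h1
  have h2 := zkP_inr (irr K (n + 1)) (irr K n) (kap_eqv n) (lam K b) (as1 y)
  rw [h2, kap_r, ← etaO_apply] at h1
  exact h1

/-- The second component of `θ`, second part -/
theorem th_s (j : Fin (n + 1)) (y : Fin (n + 1 + 1) → (B → K)) (b : B) :
    ∑ i, thf K n i j (MB.mk (PhO K K (lam K b • vs (y i)))) =
      ds K n (etaO (irr K (n + 1)) (as1 y) b) j := by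
  have h1 := thf_sum j fun i => PhO K K (lam K b • vs (y i))
  rw [as2_vs] at h1
  have h2 := zkP_inl (irr K (n + 1)) (irr K n) (kap_eqv n) (lam K b) (as1 y)
  rw [h2, kap_l, ← etaO_apply] at h1
  exact h1

theorem th_3 (j : Fin (n + 1)) (y : Fin (n + 1 + 1) → (B → K × K)) (b : B) :
    ∑ i, thf K n i j (MB.mk (lam K b • y i)) =
      etaO (irr K n) (lact (kap K n) (as2 y)) b j := by
  rw [thf_sum j fun i => lam K b • y i, as2_smul, ← rsmul_lact, etaO_apply]

theorem sum_tr {ι : Type} [Fintype ι] (f : ι → (B → K) × (B → K × K) × (B → K)) :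
    ∑ i, f i = (∑ i, (f i).1, (fun b => (∑ i, ((f i).2.1 b).1, ∑ i, ((f i).2.1 b).2)),
      fun b => ∑ i, (f i).2.2 b) := by
  refine Prod.ext ?_ (Prod.ext ?_ ?_)
  · rw [Prod.fst_sum]
  · rw [Prod.snd_sum, Prod.fst_sum]
    funext b
    rw [Finset.sum_apply]
    refine Prod.ext ?_ ?_
    · rw [Prod.fst_sum]
    · rw [Prod.snd_sum]
  · rw [Prod.snd_sum, Prod.snd_sum]
    funext b
    rw [Finset.sum_apply]

theorem be1_theta (x : Fin (n + 1 + 1) → C0 K) (j : Fin (n + 1)) :
    be1 K (theta K n x j) = ((0 : B → K),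
      (fun b => (dt K n (etaO (irr K (n + 1)) (Be0 K (n + 1 + 1) x).1 b) j,
        - ds K n (etaO (irr K (n + 1)) (Be0 K (n + 1 + 1) x).1 b) j) : B → K × K),
      (fun b => etaO (irr K n) (lact (kap K n) (Be0 K (n + 1 + 1) x).2.1) b j : B → K)) := by
  rw [thetaO_apply, map_sum, sum_tr]
  refine Prod.ext ?_ (Prod.ext ?_ ?_)
  · have h : ∑ i, (be1 K (rnu (thf K n i j) (x i))).1 = 0 :=
      Finset.sum_eq_zero fun i _ => by rw [be1_rnuO]
    exact h
  · funext b
    refine Prod.ext ?_ ?_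
    · have h1 : ∑ i, ((be1 K (rnu (thf K n i j) (x i))).2.1 b).1 =
          ∑ i, thf K n i j (MB.mk (PhO K K (lam K b • vt (be0 K (x i)).1))) :=
        Finset.sum_congr rfl fun i _ => by rw [be1_rnuO]
      exact h1.trans (th_t j (fun i => (be0 K (x i)).1) b)
    · have h1 : ∑ i, ((be1 K (rnu (thf K n i j) (x i))).2.1 b).2 =
          ∑ i, - thf K n i j (MB.mk (PhO K K (lam K b • vs (be0 K (x i)).1))) :=
        Finset.sum_congr rfl fun i _ => by rw [be1_rnuO]
      rw [Finset.sum_neg_distrib] at h1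
      exact h1.trans (congrArg Neg.neg (th_s j (fun i => (be0 K (x i)).1) b))
  · funext b
    have h1 : ∑ i, (be1 K (rnu (thf K n i j) (x i))).2.2 b =
        ∑ i, thf K n i j (MB.mk (lam K b • (be0 K (x i)).2.1)) :=
      Finset.sum_congr rfl fun i _ => by rw [be1_rnuO]
    exact h1.trans (th_3 j (fun i => (be0 K (x i)).2.1) b)

/-- `θ` in blocks. -/
theorem Be1_theta (x : Fin (n + 1 + 1) → C0 K) :
    Be1 K (n + 1) (theta K n x) = (0,
      lact (iot K n) (etaO (irr K (n + 1)) (Be0 K (n + 1 + 1) x).1),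
      etaO (irr K n) (lact (kap K n) (Be0 K (n + 1 + 1) x).2.1)) := by
  rw [Be1_apply]
  have h : (fun j => be1 K (theta K n x j)) = fun j => ((0 : B → K),
      (fun b => (dt K n (etaO (irr K (n + 1)) (Be0 K (n + 1 + 1) x).1 b) j,
        - ds K n (etaO (irr K (n + 1)) (Be0 K (n + 1 + 1) x).1 b) j) : B → K × K),
      (fun b => etaO (irr K n) (lact (kap K n) (Be0 K (n + 1 + 1) x).2.1) b j : B → K)) := by
    funext j
    exact be1_theta x j
  rw [h]
  rfl

end Pool.Agent.H379.NK
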