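import Pool.Agent.H379.NK.TY6
import Pool.Agent.H379.NK.Cone

/-!
# `ψ` is a map of operator systems
-/

set_option autoImplicit false
set_option linter.unusedSectionVars false

namespace Pool.Agent.H379.NK

open W450.Rig Pool.Agent.H379.GS MulOpposite TrivSqZeroExt

universe u

/-! ### Naturality of the blocks -/

section nat

variable {K V V' : Type u} [Field K] [AddCommGroup V] [Module K V] [AddCommGroup V'] [Module K V']
variable {S : SL K V} {S' : SL K V'} {m : V →ₗ[K] V'}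

theorem ta1_lact (m : V →ₗ[K] V') (n : ℕ) (x : B → V) :
    lact m (ta1 K V n x) = ta1 K V' n (lact m x) := (tact_lact (tmat K n) m x).symm

theorem ta2_lact (m : V →ₗ[K] V') (n : ℕ) (x : B → V) :
    lact m (ta2 K V n x) = ta2 K V' n (lact m x) := (tact_lact (tmat2 K n) m x).symm

theorem lact_e (h : Eqv S S' m) (x : B → V) : lact m (lact S.e x) = lact S'.e (lact m x) := by
  funext b
  exact h.e (x b)

theorem lact_f (h : Eqv S S' m) (x : B → V) : lact m (lact S.f x) = lact S'.f (lact m x) := by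
  funext b
  exact h.f (x b)

theorem lact_h (h : Eqv S S' m) (x : B → V) : lact m (lact S.h x) = lact S'.h (lact m x) := by
  funext b
  exact h.h (x b)

theorem rB_nat (h : Eqv S S' m) : OS.Map (rB S) (rB S') (lact m).toAddMonoidHom where
  E x := by
    have e : lact m ((rB S).E x) = (rB S').E (lact m x) := by
      rw [rB_E, rB_E, map_sub, ta1_lact, lact_e h, ta1_lact]
    exact e
  F x := by
    have e : lact m ((rB S).F x) = (rB S').F (lact m x) := by
      rw [rB_F, rB_F, map_sub, ta1_lact, lact_f h, ta1_lact]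
    exact e
  H x := by
    have e : lact m ((rB S).H x) = (rB S').H (lact m x) := by
      rw [rB_H, rB_H, map_sub, ta1_lact, lact_h h, ta1_lact]
    exact e
  W x := by
    have e : lact m ((rB S).W x) = (rB S').W (lact m x) := by
      rw [rB_W, rB_W, map_add, ta1_lact, lact_e h, ta1_lact]
    exact e
  a x := ta1_lact m 0 x
  B x := ta1_lact m 3 x
  z x := ta1_lact m 6 x
  p00 x := ta1_lact m 7 x
  p01 x := ta1_lact m 8 x
  p02 x := ta1_lact m 9 x
  p10 x := ta1_lact m 10 x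
  p11 x := ta1_lact m 11 x
  p12 x := ta1_lact m 12 x

theorem dB_nat (h : Eqv S S' m) : OS.Map (dB S) (dB S') (lact m).toAddMonoidHom where
  E x := by
    have e : lact m ((dB S).E x) = (dB S').E (lact m x) := by
      rw [dB_E, dB_E, map_sub, ta2_lact, lact_e h, ta2_lact]
    exact e
  F x := by
    have e : lact m ((dB S).F x) = (dB S').F (lact m x) := by
      rw [dB_F, dB_F, map_sub, ta2_lact, lact_f h, ta2_lact]
    exact e
  H x := by
    have e : lact m ((dB S).H x) = (dB S').H (lact m x) := by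
      rw [dB_H, dB_H, map_sub, ta2_lact, lact_h h, ta2_lact]
    exact e
  W x := by
    have e : lact m ((dB S).W x) = (dB S').W (lact m x) := by
      rw [dB_W, dB_W, map_add, ta2_lact, lact_e h, ta2_lact]
    exact e
  a x := ta2_lact m 48 x
  B x := ta2_lact m 51 x
  z x := ta2_lact m 54 x
  p00 x := ta2_lact m 55 x
  p01 x := ta2_lact m 56 x
  p02 x := ta2_lact m 57 x
  p10 x := ta2_lact m 58 x
  p11 x := ta2_lact m 59 x
  p12 x := ta2_lact m 60 x

end nat

/-! ### Maps of operator systems: generalities -/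

section gen

universe v w v' w'

variable {O : Type u} [Ring O] {Q : Type v} [AddCommGroup Q] [Module O Q]
variable {O' : Type w} [Ring O'] {Q' : Type w'} [AddCommGroup Q'] [Module O' Q']
variable {A : OS O Q} {A' : OS O' Q'} {f : Q →+ Q'}

theorem OS.Map.Kk (m : OS.Map A A' f) (hf : Function.Injective f) {w : Q} :
    w ∈ A.Kk ↔ f w ∈ A'.Kk := by
  constructor
  · rintro ⟨h1, h2, h3, h4⟩
    exact ⟨by rw [← m.p12, h1], by rw [← m.E, h2, map_zero], by rw [← m.F, h3, map_zero],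
      by rw [← m.H, h4, map_zero]⟩
  · rintro ⟨h1, h2, h3, h4⟩
    exact ⟨hf (by rw [m.p12, h1]), hf (by rw [m.E, h2, map_zero]),
      hf (by rw [m.F, h3, map_zero]), hf (by rw [m.H, h4, map_zero])⟩

end gen

section prodK

universe v w

variable {O : Type u} [Ring O] {Q : Type v} [AddCommGroup Q] [Module O Q]
variable {Q' : Type w} [AddCommGroup Q'] [Module O Q'] {A : OS O Q} {A' : OS O Q'}

theorem prod_Kk {w : Q × Q'} : w ∈ (A.prod A').Kk ↔ w.1 ∈ A.Kk ∧ w.2 ∈ A'.Kk := by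
  constructor
  · rintro ⟨h1, h2, h3, h4⟩
    rw [prod_p12] at h1
    rw [prod_E] at h2
    rw [prod_F] at h3
    rw [prod_H] at h4
    exact ⟨⟨congrArg Prod.fst h1, congrArg Prod.fst h2, congrArg Prod.fst h3,
      congrArg Prod.fst h4⟩, ⟨congrArg Prod.snd h1, congrArg Prod.snd h2, congrArg Prod.snd h3,
      congrArg Prod.snd h4⟩⟩
  · rintro ⟨⟨h1, h2, h3, h4⟩, ⟨g1, g2, g3, g4⟩⟩
    exact ⟨(prod_p12 _ _ _).trans (Prod.ext h1 g1), (prod_E _ _ _).trans (Prod.ext h2 g2),
      (prod_F _ _ _).trans (Prod.ext h3 g3), (prod_H _ _ _).trans (Prod.ext h4 g4)⟩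

end prodK

/-! ### Shift maps between threefold products -/

section sh

universe v₁ v₂ v₃ w₁ w₂ w₃ u'

variable {O : Type u} [Ring O] {O' : Type u'} [Ring O']
variable {Q₁ : Type v₁} {Q₂ : Type v₂} {Q₃ : Type v₃} [AddCommGroup Q₁] [AddCommGroup Q₂]
  [AddCommGroup Q₃] [Module O Q₁] [Module O Q₂] [Module O Q₃]
variable {P₁ : Type w₁} {P₂ : Type w₂} {P₃ : Type w₃} [AddCommGroup P₁] [AddCommGroup P₂]
  [AddCommGroup P₃] [Module O' P₁] [Module O' P₂] [Module O' P₃]

/-- `(x₁, x₂, x₃) ↦ (0, f x₁, - g x₂)`. -/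
def sh3 (Q₃ : Type v₃) [AddCommGroup Q₃] (P₁ : Type w₁) [AddCommGroup P₁]
    (f : Q₁ →+ P₂) (g : Q₂ →+ P₃) : Q₁ × Q₂ × Q₃ →+ P₁ × P₂ × P₃ where
  toFun x := (0, f x.1, - g x.2.1)
  map_zero' := by
    refine Prod.ext rfl (Prod.ext (map_zero f) ?_)
    show - g 0 = 0
    rw [map_zero, neg_zero]
  map_add' x y := by
    refine Prod.ext (zero_add 0).symm (Prod.ext (map_add f _ _) ?_)
    show - g (x.2.1 + y.2.1) = - g x.2.1 + - g y.2.1
    rw [map_add, neg_add]

theorem sh3_apply (f : Q₁ →+ P₂) (g : Q₂ →+ P₃) (x : Q₁ × Q₂ × Q₃) :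
    sh3 Q₃ P₁ f g x = (0, f x.1, - g x.2.1) := rfl

variable {A₁ : OS O Q₁} {A₂ : OS O Q₂} {A₃ : OS O Q₃}
variable {B₁ : OS O' P₁} {B₂ : OS O' P₂} {B₃ : OS O' P₃}

theorem sh3_map {f : Q₁ →+ P₂} {g : Q₂ →+ P₃} (hf : OS.Map A₁ B₂ f) (hg : OS.Map A₂ B₃ g) :
    OS.Map (A₁.prod (A₂.prod A₃)) (B₁.prod (B₂.prod B₃)) (sh3 Q₃ P₁ f g) where
  E x := by
    rw [prod_E, prod_E, prod_E, prod_E, sh3_apply, sh3_apply, map_zero, map_neg, hf.E, hg.E]
  F x := by
    rw [prod_F, prod_F, prod_F, prod_F, sh3_apply, sh3_apply, map_zero, map_neg, hf.F, hg.F]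
  H x := by
    rw [prod_H, prod_H, prod_H, prod_H, sh3_apply, sh3_apply, map_zero, map_neg, hf.H, hg.H]
  W x := by
    rw [prod_W, prod_W, prod_W, prod_W, sh3_apply, sh3_apply, map_zero, map_neg, hf.W, hg.W]
  a x := by
    rw [prod_a, prod_a, prod_a, prod_a, sh3_apply, sh3_apply, map_zero, map_neg, hf.a, hg.a]
  B x := by
    rw [prod_B, prod_B, prod_B, prod_B, sh3_apply, sh3_apply, map_zero, map_neg, hf.B, hg.B]
  z x := by
    rw [prod_z, prod_z, prod_z, prod_z, sh3_apply, sh3_apply, map_zero, map_neg, hf.z, hg.z]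
  p00 x := by
    rw [prod_p00, prod_p00, prod_p00, prod_p00, sh3_apply, sh3_apply, map_zero, map_neg, hf.p00, hg.p00]
  p01 x := by
    rw [prod_p01, prod_p01, prod_p01, prod_p01, sh3_apply, sh3_apply, map_zero, map_neg, hf.p01, hg.p01]
  p02 x := by
    rw [prod_p02, prod_p02, prod_p02, prod_p02, sh3_apply, sh3_apply, map_zero, map_neg, hf.p02, hg.p02]
  p10 x := by
    rw [prod_p10, prod_p10, prod_p10, prod_p10, sh3_apply, sh3_apply, map_zero, map_neg, hf.p10, hg.p10]
  p11 x := by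
    rw [prod_p11, prod_p11, prod_p11, prod_p11, sh3_apply, sh3_apply, map_zero, map_neg, hf.p11, hg.p11]
  p12 x := by
    rw [prod_p12, prod_p12, prod_p12, prod_p12, sh3_apply, sh3_apply, map_zero, map_neg, hf.p12, hg.p12]

end sh

/-! ### The map `ψ` -/

section main

variable {K : Type u} [Field K] [CharZero K] {n : ℕ}

/-- The three-block form of `ψ`. -/
def bps (K : Type u) [Field K] [CharZero K] (n : ℕ) : Bl K (n + 1 + 1) →+ Bl K (n + 1) :=
  sh3 (B → Fin (n + 1 + 1) → K) (B → Fin (n + 1) → K) (lact (iot K n)).toAddMonoidHom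
    (lact (kap K n)).toAddMonoidHom

theorem bps_apply (x : Bl K (n + 1 + 1)) :
    bps K n x = (0, lact (iot K n) x.1, - lact (kap K n) x.2.1) := rfl

theorem Be0_bps (x : Fin (n + 1 + 1) → C1 K) :
    Be0 K (n + 1) (psi K n x) = bps K n (Be1 K (n + 1 + 1) x) := Be0_psi x

theorem bpsMap : OS.Map (Bl1 (irr K (n + 1))) (Bl0 (irr K n)) (bps K n) :=
  sh3_map (rB_nat (iot_eqv n)) (dB_nat (kap_eqv n))

end main

end Pool.Agent.H379.NK
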