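import Pool.Agent.H379.NK.TY7

/-!
# The hypotheses of the cone
-/

set_option autoImplicit false
set_option linter.unusedSectionVars false

namespace Pool.Agent.H379.NK

open W450.Rig Pool.Agent.H379.GS MulOpposite TrivSqZeroExt

universe u

section gen

universe v w v' w' u' u''

variable {O : Type u} [Ring O] {Q : Type v} [AddCommGroup Q] [Module O Q]
variable {O' : Type u'} [Ring O'] {Q' : Type v'} [AddCommGroup Q'] [Module O' Q']
variable {A : OS O Q} {A' : OS O' Q'}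

/-- Elements of the form `E y₀ + H y₁ + F y₂`. -/
def OS.Dec (A : OS O Q) (x : Q) : Prop :=
  ∃ y0 yh yf, A.p10 y0 = y0 ∧ A.p01 yh = yh ∧ A.p01 yf = yf ∧ A.E y0 + A.H yh + A.F yf = x

theorem OS.Map.dec {f : Q →+ Q'} (m : OS.Map A A' f) {x : Q} (h : A.Dec x) : A'.Dec (f x) := by
  obtain ⟨y0, yh, yf, h1, h2, h3, h4⟩ := h
  exact ⟨f y0, f yh, f yf, by rw [← m.p10, h1], by rw [← m.p01, h2], by rw [← m.p01, h3],
    by rw [← m.E, ← m.H, ← m.F, ← map_add, ← map_add, h4]⟩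

theorem OS.Map.dec_of {f : Q →+ Q'} (m : OS.Map A A' f) (hf : Function.Bijective f) {x : Q}
    (h : A'.Dec (f x)) : A.Dec x := by
  obtain ⟨y0, yh, yf, h1, h2, h3, h4⟩ := h
  obtain ⟨z0, rfl⟩ := hf.2 y0
  obtain ⟨zh, rfl⟩ := hf.2 yh
  obtain ⟨zf, rfl⟩ := hf.2 yf
  exact ⟨z0, zh, zf, hf.1 (by rw [m.p10, h1]), hf.1 (by rw [m.p01, h2]),
    hf.1 (by rw [m.p01, h3]), hf.1 (by rw [map_add, map_add, m.E, m.H, m.F, h4])⟩

theorem OS.Map.comp_of {O₁ : Type u''} [Ring O₁] {Q₁ : Type w} [AddCommGroup Q₁] [Module O₁ Q₁]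
    {O₂ : Type u} [Ring O₂] {Q₂ : Type w'} [AddCommGroup Q₂] [Module O₂ Q₂]
    {B : OS O₁ Q₁} {B' : OS O₂ Q₂} {b : Q →+ Q₁} {b' : Q' →+ Q₂} {c : Q₁ →+ Q₂} {f : Q →+ Q'}
    (hb : OS.Map A B b) (hb' : OS.Map A' B' b') (hc : OS.Map B B' c)
    (hi : Function.Injective b') (e : ∀ x, b' (f x) = c (b x)) : OS.Map A A' f where
  E x := hi (by rw [e, hb'.E, e, hb.E, hc.E])
  F x := hi (by rw [e, hb'.F, e, hb.F, hc.F])
  H x := hi (by rw [e, hb'.H, e, hb.H, hc.H])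
  W x := hi (by rw [e, hb'.W, e, hb.W, hc.W])
  a x := hi (by rw [e, hb'.a, e, hb.a, hc.a])
  B x := hi (by rw [e, hb'.B, e, hb.B, hc.B])
  z x := hi (by rw [e, hb'.z, e, hb.z, hc.z])
  p00 x := hi (by rw [e, hb'.p00, e, hb.p00, hc.p00])
  p01 x := hi (by rw [e, hb'.p01, e, hb.p01, hc.p01])
  p02 x := hi (by rw [e, hb'.p02, e, hb.p02, hc.p02])
  p10 x := hi (by rw [e, hb'.p10, e, hb.p10, hc.p10])
  p11 x := hi (by rw [e, hb'.p11, e, hb.p11, hc.p11])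
  p12 x := hi (by rw [e, hb'.p12, e, hb.p12, hc.p12])

end gen

section prodD

universe v w

variable {O : Type u} [Ring O] {Q : Type v} [AddCommGroup Q] [Module O Q]
variable {Q' : Type w} [AddCommGroup Q'] [Module O Q'] {A : OS O Q} {A' : OS O Q'}

theorem prod_dec {x : Q × Q'} : (A.prod A').Dec x ↔ A.Dec x.1 ∧ A'.Dec x.2 := by
  constructor
  · rintro ⟨y0, yh, yf, h1, h2, h3, h4⟩
    rw [prod_p10] at h1
    rw [prod_p01] at h2 h3
    rw [prod_E, prod_H, prod_F] at h4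
    exact ⟨⟨y0.1, yh.1, yf.1, congrArg Prod.fst h1, congrArg Prod.fst h2, congrArg Prod.fst h3,
      congrArg Prod.fst h4⟩, ⟨y0.2, yh.2, yf.2, congrArg Prod.snd h1, congrArg Prod.snd h2,
      congrArg Prod.snd h3, congrArg Prod.snd h4⟩⟩
  · rintro ⟨⟨y0, yh, yf, h1, h2, h3, h4⟩, ⟨z0, zh, zf, g1, g2, g3, g4⟩⟩
    exact ⟨(y0, z0), (yh, zh), (yf, zf), (prod_p10 _ _ _).trans (Prod.ext h1 g1),
      (prod_p01 _ _ _).trans (Prod.ext h2 g2), (prod_p01 _ _ _).trans (Prod.ext h3 g3), by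
        rw [prod_E, prod_H, prod_F]; exact Prod.ext h4 g4⟩

theorem zero_mem_Kk (A : OS O Q) : (0 : Q) ∈ A.Kk := Submodule.zero_mem _

theorem pair_mem_Kk {a : Q} {b : Q'} (ha : a ∈ A.Kk) (hb : b ∈ A'.Kk) :
    (a, b) ∈ (A.prod A').Kk := prod_Kk.2 ⟨ha, hb⟩

end prodD

section blocks

variable {K V V' : Type u} [Field K] [AddCommGroup V] [Module K V] [AddCommGroup V'] [Module K V']
variable (S : SL K V)

theorem dB_dec {x : B → V} (hx : (dB S).p00 x = x) : (dB S).Dec x := by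
  obtain ⟨y, h1, h2⟩ := dB_surj S hx
  exact ⟨0, 0, y, map_zero _, map_zero _, h1, by rw [map_zero, map_zero, h2]; abel⟩

theorem rB_dec {x : B → V} (hx : (rB S).p00 x = x) (h : S.pr x = 0) : (rB S).Dec x :=
  S.pr_zero_dec hx h

theorem rB_pr {x : B → V} (h : (rB S).Dec x) : S.pr x = 0 := by
  obtain ⟨y0, yh, yf, -, -, -, h4⟩ := h
  have h3 : x = S.E y0 + S.H yh + S.F yf := h4.symm
  rw [h3, map_add, map_add, S.pr_E, S.pr_H, S.pr_F, add_zero, add_zero]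

theorem rB_Kk {x : B → V} (h : x ∈ (rB S).Kk) : x = 0 := rB_K S h.1 h.2.1 h.2.2.2

theorem lact_inj {m : V →ₗ[K] V'} (hm : Function.Injective m) : Function.Injective (lact m) := by
  intro x y h
  funext b
  exact hm (congrFun h b)

theorem lact_surj {m : V →ₗ[K] V'} (hm : Function.Surjective m) :
    Function.Surjective (lact m) := by
  intro x
  choose g hg using fun b => hm (x b)
  exact ⟨g, funext hg⟩

theorem dB_lift {S' : SL K V'} {m : V →ₗ[K] V'} (h : Eqv S S' m)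
    (hm : Function.Surjective m) {w : B → V'} (hw : w ∈ (dB S').Kk) :
    ∃ w2 ∈ (dB S).Kk, - lact m w2 = w := by
  obtain ⟨x', ex'⟩ := etaO_surj _ hw
  obtain ⟨x, ex⟩ := lact_surj hm x'
  refine ⟨-etaO S x, Submodule.neg_mem _ (etaO_mem _ x), ?_⟩
  rw [map_neg, neg_neg, ← etaO_nat _ _ h, ex, ex']

theorem rB_inj {S' : SL K V'} {m : V →ₗ[K] V'} (h : Eqv S S' m)
    (hm : Function.Injective m) {y : B → V} (hy : S'.pr (lact m y) = 0) : S.pr y = 0 := by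
  have b4 : etaO S' (lact m y) = 0 := etaO_of_pr _ hy
  rw [etaO_nat _ _ h] at b4
  exact pr_of_etaO _ (lact_inj hm (b4.trans (map_zero _).symm))

end blocks

variable {K : Type u} [Field K] [CharZero K] {n : ℕ}

theorem psiMap (K : Type u) [Field K] [CharZero K] (n : ℕ) :
    OS.Map (A1 (irr K (n + 1))) (A0 (irr K n)) (psi K n).toAddMonoidHom :=
  OS.Map.comp_of (map1 _) (map0 _) bpsMap Be0_bij.1 Be0_bps

theorem bl_inj {y : Bl K (n + 1 + 1)} (h00 : (Bl1 (irr K (n + 1))).p00 y = y)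
    (h : (Bl0 (irr K n)).Dec (bps K n y)) : (Bl1 (irr K (n + 1))).Dec y := by
  rw [Bl1_p00] at h00
  have a1 : (rB (irr K (n + 1))).p00 y.1 = y.1 := congrArg Prod.fst h00
  have a2 : (dB (UV (irr K (n + 1)))).p00 y.2.1 = y.2.1 := congrArg (fun p => p.2.1) h00
  have a3 : (dB (irr K (n + 1))).p00 y.2.2 = y.2.2 := congrArg (fun p => p.2.2) h00
  unfold Bl0 at h
  have b1 := (prod_dec.1 h).2
  have b2 := (prod_dec.1 b1).1
  rw [bps_apply] at b2
  have b3 : (UV (irr K n)).pr (lact (iot K n) y.1) = 0 := rB_pr _ b2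
  have b6 := rB_inj _ (iot_eqv n) (iot_inj n) b3
  unfold Bl1
  exact prod_dec.2 ⟨rB_dec _ a1 b6, prod_dec.2 ⟨dB_dec _ a2, dB_dec _ a3⟩⟩

theorem bl_surj {w : Bl K (n + 1)} (h : w ∈ (Bl0 (irr K n)).Kk) :
    ∃ w' ∈ (Bl1 (irr K (n + 1))).Kk, bps K n w' = w := by
  unfold Bl0 at h
  obtain ⟨h1, h23⟩ := prod_Kk.1 h
  obtain ⟨h2, h3⟩ := prod_Kk.1 h23
  have e1 := rB_Kk _ h1
  have e2 := rB_Kk _ h2
  obtain ⟨w2, m2, e3⟩ := dB_lift _ (kap_eqv n) (kap_surj n) h3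
  refine ⟨(0, w2, 0), ?_, ?_⟩
  · unfold Bl1
    exact pair_mem_Kk (zero_mem_Kk _) (pair_mem_Kk m2 (zero_mem_Kk _))
  · rw [bps_apply]
    exact Prod.ext e1.symm (Prod.ext ((map_zero _).trans e2.symm) e3)

theorem coneHyp (K : Type u) [Field K] [CharZero K] (n : ℕ) :
    ConeHyp (A0 (irr K n)) (A1 (irr K (n + 1))) (psi K n) where
  map := psiMap K n
  inj y x0 xh xf hy h0 hh hf e := by
    have d1 : (A0 (irr K n)).Dec (- psi K n y) :=
      ⟨x0, xh, xf, h0, hh, hf, eq_neg_of_add_eq_zero_left e⟩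
    have d2 : (A0 (irr K n)).Dec (psi K n (-y)) := by rw [map_neg]; exact d1
    have d3 := (map0 (irr K n)).dec d2
    rw [Be0_bps] at d3
    have hy1 : (A1 (irr K (n + 1))).p00 (-y) = -y := by rw [map_neg, hy]
    have hy2 : (Bl1 (irr K (n + 1))).p00 (Be1 K (n + 1 + 1) (-y)) = Be1 K (n + 1 + 1) (-y) := by
      rw [← (map1 (irr K (n + 1))).p00, hy1]
    have d4 := (map1 (irr K (n + 1))).dec_of Be1_bij (bl_inj hy2 d3)
    obtain ⟨y0, yh, yf, k1, k2, k3, k4⟩ := d4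
    refine ⟨-y0, -yh, -yf, by rw [map_neg, k1], by rw [map_neg, k2], by rw [map_neg, k3], ?_⟩
    rw [map_neg, map_neg, map_neg, ← neg_add, ← neg_add, k4, neg_neg]
  surj w hw := by
    obtain ⟨w', h1, h2⟩ := bl_surj (((map0 (irr K n)).Kk Be0_bij.1).1 hw)
    obtain ⟨v, rfl⟩ := Be1_bij.2 w'
    exact ⟨v, ((map1 (irr K (n + 1))).Kk Be1_bij.1).2 h1, Be0_bij.1 (by rw [Be0_bps, h2])⟩

end Pool.Agent.H379.NK
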