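import Pool.Agent.H379.NK.TY8

/-!
# The kernel and the image of `θ`
-/

set_option autoImplicit false
set_option linter.unusedSectionVars false

namespace Pool.Agent.H379.NK

open W450.Rig Pool.Agent.H379.GS MulOpposite TrivSqZeroExt

universe u

section gen

variable {K V V' V'' : Type u} [Field K] [AddCommGroup V] [Module K V] [AddCommGroup V']
  [Module K V'] [AddCommGroup V''] [Module K V'']
variable (S : SL K V) (S' : SL K V') (S'' : SL K V'')

theorem etaO_dec {x : B → V} (h : (rB S).Dec x) : etaO S x = 0 := etaO_of_pr S (rB_pr S h)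

theorem pr_p00' (x : B → V) : S.pr ((rB S).p00 x) = S.pr x := S.pr_p00 x

theorem etaO_p00 (x : B → V) : etaO S ((rB S).p00 x) = etaO S x := by
  have h : etaO S ((rB S).p00 x - x) = 0 := by
    apply etaO_of_pr
    rw [map_sub, pr_p00', sub_self]
  rw [map_sub] at h
  exact sub_eq_zero.1 h


theorem dec_p00 {x : B → V} (h : (rB S).Dec x) : (rB S).p00 x = x := by
  obtain ⟨y0, yh, yf, h1, h2, h3, rfl⟩ := h
  exact sAdd (sAdd ((rB_laws S).E0 _ h1) ((rB_laws S).H00 _ h2)) ((rB_laws S).F00 _ h3)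

variable {S S' S''}

/-- Decomposition of an element whose image under a surjective map has class zero. -/
theorem split1 {m : V →ₗ[K] V'} (h : Eqv S S' m) (hm : Function.Surjective m) {x : B → V}
    (hx : (rB S).p00 x = x) (hp : S'.pr (lact m x) = 0) :
    ∃ d, (rB S).Dec d ∧ lact m (x - d) = 0 ∧ (rB S).p00 (x - d) = x - d := by
  have h0 : (rB S').p00 (lact m x) = lact m x := by
    have h00 : lact m ((rB S).p00 x) = (rB S').p00 (lact m x) := (rB_nat h).p00 x
    rw [← h00, hx]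
  obtain ⟨a0, ah, af, i0, ih, iF, e⟩ := rB_dec S' h0 hp
  obtain ⟨b0, e0⟩ := lact_surj hm a0
  obtain ⟨bh, eh⟩ := lact_surj hm ah
  obtain ⟨bf, ef⟩ := lact_surj hm af
  have m10 : ∀ y, lact m ((rB S).p10 y) = (rB S').p10 (lact m y) := (rB_nat h).p10
  have m01 : ∀ y, lact m ((rB S).p01 y) = (rB S').p01 (lact m y) := (rB_nat h).p01
  have mE : ∀ y, lact m ((rB S).E y) = (rB S').E (lact m y) := (rB_nat h).E
  have mH : ∀ y, lact m ((rB S).H y) = (rB S').H (lact m y) := (rB_nat h).H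
  have mF : ∀ y, lact m ((rB S).F y) = (rB S').F (lact m y) := (rB_nat h).F
  have hd : (rB S).Dec ((rB S).E ((rB S).p10 b0) + (rB S).H ((rB S).p01 bh) +
      (rB S).F ((rB S).p01 bf)) :=
    ⟨_, _, _, (rB_laws S).i10 b0, (rB_laws S).i01 bh, (rB_laws S).i01 bf, rfl⟩
  refine ⟨_, hd, ?_, sSub hx (dec_p00 S hd)⟩
  rw [map_sub, map_add, map_add, mE, mH, mF, m10, m01, m01, e0, eh, ef, i0, ih, iF, e, sub_self]

/-- Elements in the kernel come from the left. -/
theorem split2 {i : V'' →ₗ[K] V} {m : V →ₗ[K] V'} (h : Eqv S'' S i)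
    (him : ∀ x, m x = 0 → ∃ y, i y = x) {x : B → V} (hx : (rB S).p00 x = x)
    (h0 : lact m x = 0) : ∃ y, (rB S'').p00 y = y ∧ lact i y = x := by
  choose y hy using fun b => him (x b) (congrFun h0 b)
  have e : lact i y = x := funext hy
  have m00 : lact i ((rB S'').p00 y) = (rB S).p00 (lact i y) := (rB_nat h).p00 y
  exact ⟨(rB S'').p00 y, (rB_laws S'').i00 y, by rw [m00, e, hx]⟩

theorem split3 {i : V'' →ₗ[K] V} {m : V →ₗ[K] V'} (h : Eqv S'' S i)
    (hi : Function.Injective i)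
    (him : ∀ x, m x = 0 → ∃ y, i y = x) {w : B → V} (hw : w ∈ (dB S).Kk)
    (h0 : lact m w = 0) : ∃ x, lact i (etaO S'' x) = w := by
  choose y hy using fun b => him (w b) (congrFun h0 b)
  have e : lact i y = w := funext hy
  have h1 : y ∈ (dB S'').Kk := ((dB_nat h).Kk (lact_inj hi)).2 (by
    have : (lact i).toAddMonoidHom y = w := e
    rw [this]
    exact hw)
  obtain ⟨x, rfl⟩ := etaO_surj _ h1
  exact ⟨x, e⟩

theorem split4 {m : V →ₗ[K] V'} (hm : Function.Surjective m) {w : B → V'}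
    (hw : w ∈ (dB S').Kk) : ∃ x, etaO S' (lact m x) = w := by
  obtain ⟨x', e⟩ := etaO_surj _ hw
  obtain ⟨x, rfl⟩ := lact_surj hm x'
  exact ⟨x, e⟩

theorem Kk_lact {i : V'' →ₗ[K] V} (h : Eqv S'' S i) (x : B → V'') :
    lact i (etaO S'' x) ∈ (dB S).Kk := by
  have e := etaO_nat S'' S h x
  rw [← e]
  exact etaO_mem _ _

end gen

section main

variable {K : Type u} [Field K] [CharZero K] {n : ℕ}

/-- The three-block form of `θ`. -/
def bth (K : Type u) [Field K] [CharZero K] (n : ℕ) (x : Bl K (n + 1 + 1)) : Bl K (n + 1) :=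
  (0, lact (iot K n) (etaO (irr K (n + 1)) x.1), etaO (irr K n) (lact (kap K n) x.2.1))

theorem bth_apply (x : Bl K (n + 1 + 1)) : bth K n x =
  (0, lact (iot K n) (etaO (irr K (n + 1)) x.1), etaO (irr K n) (lact (kap K n) x.2.1)) := rfl

theorem Be1_bth (x : Fin (n + 1 + 1) → C0 K) :
    Be1 K (n + 1) (theta K n x) = bth K n (Be0 K (n + 1 + 1) x) := Be1_theta x

theorem bth_dec {x : Bl K (n + 1 + 1)} (h : (Bl0 (irr K (n + 1))).Dec x) :
    bth K n x = 0 := by
  unfold Bl0 at h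
  obtain ⟨h1, h2⟩ := prod_dec.1 h
  have h3 := (prod_dec.1 h2).1
  have h4 := (rB_nat (kap_eqv n)).dec h3
  have e1 := etaO_dec _ h1
  have e2 : etaO (irr K n) (lact (kap K n) x.2.1) = 0 := etaO_dec _ h4
  rw [bth_apply, e1, e2, map_zero]
  rfl

theorem lact_comp_zero {V V' V'' : Type u} [AddCommGroup V] [Module K V] [AddCommGroup V']
    [Module K V'] [AddCommGroup V''] [Module K V''] {m : V →ₗ[K] V'} {m' : V' →ₗ[K] V''}
    (h : ∀ x, m' (m x) = 0) (x : B → V) : lact m' (lact m x) = 0 := funext fun b => h (x b)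

theorem bth_bps (x : Bl K (n + 1 + 1 + 1)) : bth K n (bps K (n + 1) x) = 0 := by
  rw [bth_apply, bps_apply]
  have e : lact (kap K n) (lact (iot K (n + 1)) x.1) = 0 := lact_comp_zero (kap_iot n) x.1
  refine Prod.ext rfl (Prod.ext ?_ ?_)
  · show lact (iot K n) (etaO (irr K (n + 1)) 0) = 0
    rw [map_zero, map_zero]
  · show etaO (irr K n) (lact (kap K n) (lact (iot K (n + 1)) x.1)) = 0
    rw [e, map_zero]

theorem bth_p00 (x : Bl K (n + 1 + 1)) :
    bth K n ((Bl0 (irr K (n + 1))).p00 x) = bth K n x := by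
  rw [Bl0_p00, bth_apply, bth_apply]
  have e1 : lact (kap K n) ((rB (UV (irr K (n + 1)))).p00 x.2.1) =
      (rB (irr K n)).p00 (lact (kap K n) x.2.1) := (rB_nat (kap_eqv n)).p00 _
  refine Prod.ext rfl (Prod.ext ?_ ?_)
  · show lact (iot K n) (etaO (irr K (n + 1)) ((rB (irr K (n + 1))).p00 x.1)) =
      lact (iot K n) (etaO (irr K (n + 1)) x.1)
    rw [etaO_p00]
  · show etaO (irr K n) (lact (kap K n) ((rB (UV (irr K (n + 1)))).p00 x.2.1)) =
      etaO (irr K n) (lact (kap K n) x.2.1)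
    rw [e1, etaO_p00]

theorem bth_ker {x : Bl K (n + 1 + 1)} (h0 : (Bl0 (irr K (n + 1))).p00 x = x)
    (h : bth K n x = 0) : ∃ y : Bl K (n + 1 + 1 + 1), (Bl1 (irr K (n + 1 + 1))).p00 y = y ∧
      (Bl0 (irr K (n + 1))).Dec (x - bps K (n + 1) y) := by
  rw [Bl0_p00] at h0
  have a1 : (rB (irr K (n + 1))).p00 x.1 = x.1 := congrArg Prod.fst h0
  have a2 : (rB (UV (irr K (n + 1)))).p00 x.2.1 = x.2.1 := congrArg (fun p => p.2.1) h0
  have a3 : (dB (irr K (n + 1))).p00 x.2.2 = x.2.2 := congrArg (fun p => p.2.2) h0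
  rw [bth_apply] at h
  have b2 : lact (iot K n) (etaO (irr K (n + 1)) x.1) = 0 := congrArg (fun p => p.2.1) h
  have b3 : etaO (irr K n) (lact (kap K n) x.2.1) = 0 := congrArg (fun p => p.2.2) h
  have c1 : (irr K (n + 1)).pr x.1 = 0 :=
    pr_of_etaO _ (lact_inj (iot_inj n) (b2.trans (map_zero _).symm))
  have c2 : (irr K n).pr (lact (kap K n) x.2.1) = 0 := pr_of_etaO _ b3
  obtain ⟨d, hd, e1, e2⟩ := split1 (kap_eqv n) (kap_surj n) a2 c2
  obtain ⟨y, hy, ey⟩ := split2 (iot_eqv (n + 1)) (kap_ker n) e2 e1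
  refine ⟨(y, 0, 0), ?_, ?_⟩
  · rw [Bl1_p00]
    exact Prod.ext hy (Prod.ext (map_zero _) (map_zero _))
  · unfold Bl0
    have f1 : (rB (irr K (n + 1))).Dec x.1 := rB_dec _ a1 c1
    have f3 : (dB (irr K (n + 1))).Dec x.2.2 := dB_dec _ a3
    have f2 : x.2.1 - lact (iot K (n + 1)) y = d := by rw [ey]; abel
    have g : x - bps K (n + 1) (y, 0, 0) = (x.1, d, x.2.2) := by
      rw [bps_apply]
      refine Prod.ext (sub_zero _) (Prod.ext f2 ?_)
      show x.2.2 - - lact (kap K (n + 1)) 0 = x.2.2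
      rw [map_zero, neg_zero, sub_zero]
    rw [g]
    exact prod_dec.2 ⟨f1, prod_dec.2 ⟨hd, f3⟩⟩

set_option maxRecDepth 4000 in
theorem bth_range {w : Bl K (n + 1 + 1)} :
    (∃ x : Bl K (n + 1 + 1 + 1), bth K (n + 1) x = w) ↔
      w ∈ (Bl1 (irr K (n + 1))).Kk ∧ bps K n w = 0 := by
  constructor
  · rintro ⟨x, rfl⟩
    rw [bth_apply, bps_apply]
    refine ⟨?_, ?_⟩
    · unfold Bl1
      have m1 := Kk_lact (iot_eqv (n + 1)) x.1
      have m2 := etaO_mem (irr K (n + 1)) (lact (kap K (n + 1)) x.2.1)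
      exact pair_mem_Kk (zero_mem_Kk _) (pair_mem_Kk m1 m2)
    · have e : lact (kap K n) (lact (iot K (n + 1)) (etaO (irr K (n + 1 + 1)) x.1)) = 0 :=
        lact_comp_zero (kap_iot n) _
      refine Prod.ext rfl (Prod.ext (map_zero _) ?_)
      show - lact (kap K n) (lact (iot K (n + 1)) (etaO (irr K (n + 1 + 1)) x.1)) = 0
      rw [e, neg_zero]
  · rintro ⟨h, h0⟩
    unfold Bl1 at h
    obtain ⟨h1, h23⟩ := prod_Kk.1 h
    obtain ⟨h2, h3⟩ := prod_Kk.1 h23
    rw [bps_apply] at h0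
    have b3 : - lact (kap K n) w.2.1 = 0 := congrArg (fun p => p.2.2) h0
    obtain ⟨x1, e1⟩ := split3 (iot_eqv (n + 1)) (iot_inj (n + 1)) (kap_ker n) h2
      (neg_eq_zero.1 b3)
    obtain ⟨x2, e2⟩ := split4 (kap_surj (n + 1)) h3
    refine ⟨(x1, x2, 0), ?_⟩
    rw [bth_apply]
    exact Prod.ext (rB_Kk _ h1).symm (Prod.ext e1 e2)

end main

end Pool.Agent.H379.NK
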