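import Pool.Agent.H379.GS.Ring

/-!
# Triangular matrix rings, their trivial extensions, and the columns
-/

set_option autoImplicit false
set_option linter.unusedSectionVars false

namespace Pool.Agent.H379.NK

open Pool.Agent.H379.GS MulOpposite

universe u

/-- The triangular ring with diagonal entries `a`, `b` in `R` and off-diagonal entry `m` in the
bimodule `M`. -/
def Tri (R M : Type u) : Type u := R × R × M

namespace Tri

section ring

variable {R M : Type u}

/-- first diagonal entry -/
def a (x : Tri R M) : R := x.1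
/-- second diagonal entry -/
def b (x : Tri R M) : R := x.2.1
/-- off-diagonal entry -/
def m (x : Tri R M) : M := x.2.2
/-- constructor -/
def mk (a b : R) (m : M) : Tri R M := (a, b, m)

@[simp] theorem a_mk (a b : R) (m : M) : (mk a b m).a = a := rfl
@[simp] theorem b_mk (a b : R) (m : M) : (mk a b m).b = b := rfl
@[simp] theorem m_mk (a b : R) (m : M) : (mk a b m).m = m := rfl

theorem ext {x y : Tri R M} (h1 : x.a = y.a) (h2 : x.b = y.b) (h3 : x.m = y.m) : x = y :=
  Prod.ext h1 (Prod.ext h2 h3)

variable [Ring R] [AddCommGroup M]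

instance : AddCommGroup (Tri R M) := inferInstanceAs (AddCommGroup (R × R × M))

@[simp] theorem a_add (x y : Tri R M) : (x + y).a = x.a + y.a := rfl
@[simp] theorem b_add (x y : Tri R M) : (x + y).b = x.b + y.b := rfl
@[simp] theorem m_add (x y : Tri R M) : (x + y).m = x.m + y.m := rfl
@[simp] theorem a_zero : (0 : Tri R M).a = 0 := rfl
@[simp] theorem b_zero : (0 : Tri R M).b = 0 := rfl
@[simp] theorem m_zero : (0 : Tri R M).m = 0 := rfl

variable [Module R M] [Module Rᵐᵒᵖ M]

instance : Mul (Tri R M) := ⟨fun x y => mk (x.a * y.a) (x.b * y.b) (x.b • y.m + op y.a • x.m)⟩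
instance : One (Tri R M) := ⟨mk 1 1 0⟩

@[simp] theorem a_mul (x y : Tri R M) : (x * y).a = x.a * y.a := rfl
@[simp] theorem b_mul (x y : Tri R M) : (x * y).b = x.b * y.b := rfl
@[simp] theorem m_mul (x y : Tri R M) : (x * y).m = x.b • y.m + op y.a • x.m := rfl
@[simp] theorem a_one : (1 : Tri R M).a = 1 := rfl
@[simp] theorem b_one : (1 : Tri R M).b = 1 := rfl
@[simp] theorem m_one : (1 : Tri R M).m = 0 := rfl

variable [SMulCommClass R Rᵐᵒᵖ M]

instance : Ring (Tri R M) :=
  { (inferInstanceAs (AddCommGroup (Tri R M)) : AddCommGroup (Tri R M)),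
    (inferInstanceAs (Mul (Tri R M)) : Mul (Tri R M)),
    (inferInstanceAs (One (Tri R M)) : One (Tri R M)) with
    mul_assoc := fun x y z => ext (mul_assoc _ _ _) (mul_assoc _ _ _) (by
      simp only [m_mul, a_mul, b_mul, smul_add, mul_smul, op_mul, add_assoc]
      rw [smul_comm x.b (op z.a)])
    one_mul := fun x => ext (one_mul _) (one_mul _) (by simp)
    mul_one := fun x => ext (mul_one _) (mul_one _) (by simp)
    left_distrib := fun x y z => ext (mul_add _ _ _) (mul_add _ _ _) (by
      simp only [m_mul, m_add, a_add, smul_add, op_add, add_smul]; abel)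
    right_distrib := fun x y z => ext (add_mul _ _ _) (add_mul _ _ _) (by
      simp only [m_mul, m_add, b_add, smul_add, add_smul]; abel)
    zero_mul := fun x => ext (zero_mul _) (zero_mul _) (by simp)
    mul_zero := fun x => ext (mul_zero _) (mul_zero _) (by simp) }

end ring

section algebra

variable {K R M : Type u} [Field K] [Ring R] [Algebra K R] [AddCommGroup M] [Module K M]
  [Module R M] [Module Rᵐᵒᵖ M] [SMulCommClass R Rᵐᵒᵖ M] [IsScalarTower K R M]
  [IsScalarTower K Rᵐᵒᵖ M]

instance : Module K (Tri R M) := inferInstanceAs (Module K (R × R × M))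

@[simp] theorem a_smul (c : K) (x : Tri R M) : (c • x).a = c • x.a := rfl
@[simp] theorem b_smul (c : K) (x : Tri R M) : (c • x).b = c • x.b := rfl
@[simp] theorem m_smul (c : K) (x : Tri R M) : (c • x).m = c • x.m := rfl

instance : Algebra K (Tri R M) := Algebra.ofModule
  (fun c x y => ext (smul_mul_assoc _ _ _) (smul_mul_assoc _ _ _) (by
    simp only [m_mul, m_smul, b_smul, smul_add, smul_assoc]
    rw [smul_comm (op y.a) c]))
  (fun c x y => ext (mul_smul_comm _ _ _) (mul_smul_comm _ _ _) (by
    simp only [m_mul, m_smul, a_smul, smul_add, op_smul, smul_assoc]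
    rw [smul_comm x.b c]))

instance [Module.Finite K R] [Module.Finite K M] : Module.Finite K (Tri R M) :=
  inferInstanceAs (Module.Finite K (R × R × M))

end algebra

end Tri

end Pool.Agent.H379.NK
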